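import Pool.Agent.Lib.MP_e97e2b_nt.Ln.A2a

/- Size of the L-function near s = 1.
`lfun_upper`: by Abel summation and lfun_tendsto, ‖L s‖ ≤ ‖s‖ ∑ n ≥ 1, ‖S n‖ n^(-σ-1) (+ a boundary term that
tends to 0).  For n ≤ y use ‖S n‖ ≤ n and n^(-σ) ≤ y^(max (1-σ) 0) / n; for n > y use the hypothesis and
∑ n > y, n^(-σ-θ) ≤ y^(1-σ-θ) (1 + 2/θ).
`lfun_lower`: L s * LSeries (ξ μ) s = 1 (DirichletCharacter.LSeries.mul_mu_eq_one) and
‖LSeries (ξ μ) s‖ ≤ ∑ n^(-σ) ≤ 1 + 1 / (σ - 1). -/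

namespace Pool.Agent.Lib.MP_e97e2b_nt.Ln

open Complex Finset

theorem a2b_step {η x : ℝ} (hη : 0 < η) (hx : 0 < x) :
    η * (x + 1) ^ (-1 - η) ≤ x ^ (-η) - (x + 1) ^ (-η) := by
  have hx1 : 0 < x + 1 := by linarith
  have h1 : x ^ (-η) = (x + 1) ^ (-η) * (x / (x + 1)) ^ (-η) := by
    rw [← Real.mul_rpow hx1.le (by positivity), mul_div_cancel₀ _ hx1.ne']
  have h2 : 1 + η * (1 / (x + 1)) ≤ (x / (x + 1)) ^ (-η) := by
    rw [Real.rpow_def_of_pos (by positivity)]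
    refine le_trans ?_ (Real.add_one_le_exp _)
    have h3 := Real.log_le_sub_one_of_pos (show 0 < x / (x + 1) by positivity)
    have h4 : x / (x + 1) - 1 = -(1 / (x + 1)) := by field_simp; ring
    rw [h4] at h3
    have h5 := mul_le_mul_of_nonneg_left h3 hη.le
    linarith
  have h3 : (x + 1) ^ (-1 - η) = (x + 1) ^ (-η) * (1 / (x + 1)) := by
    rw [show -1 - η = -η - 1 by ring, Real.rpow_sub_one hx1.ne', mul_one_div]
  have h4 := mul_le_mul_of_nonneg_left h2 (Real.rpow_nonneg hx1.le (-η))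
  rw [h3, h1]
  linarith

theorem a2b_tail {η : ℝ} (hη : 0 < η) {M : ℕ} (hM : 1 ≤ M) (N : ℕ) :
    ∑ n ∈ Ioc M N, (n : ℝ) ^ (-1 - η) ≤ (M : ℝ) ^ (-η) / η := by
  rcases le_total M N with h | h
  · have key : η * ∑ n ∈ Ioc M N, (n : ℝ) ^ (-1 - η) ≤ (M : ℝ) ^ (-η) - (N : ℝ) ^ (-η) := by
      induction N, h using Nat.le_induction with
      | base => simp
      | succ N hN ih =>
        have h1 := a2b_step hη (show (0 : ℝ) < N by exact_mod_cast (show 0 < N by omega))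
        rw [sum_Ioc_succ_top hN, mul_add]
        push_cast
        linarith
    rw [le_div_iff₀ hη]
    have h1 := Real.rpow_nonneg (Nat.cast_nonneg (α := ℝ) N) (-η)
    linarith
  · rw [Ioc_eq_empty (not_lt.2 h), sum_empty]
    positivity

theorem a2b_abel (a f : ℕ → ℂ) (N : ℕ) : ∑ n ∈ Ioc 0 N, a n * f n =
    (∑ n ∈ Ioc 0 N, a n) * f (N + 1) +
      ∑ n ∈ Ioc 0 N, (∑ m ∈ Ioc 0 n, a m) * (f n - f (n + 1)) := by
  induction N with
  | zero => simp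
  | succ N ih =>
    rw [sum_Ioc_succ_top (Nat.zero_le N), ih, sum_Ioc_succ_top (Nat.zero_le N)
      (fun n => (∑ m ∈ Ioc 0 n, a m) * (f n - f (n + 1))), sum_Ioc_succ_top (Nat.zero_le N) a]
    ring

theorem a2b_diff {s : ℂ} (hs : 0 < s.re) {n : ℕ} (hn : 0 < n) :
    ‖(n : ℂ) ^ (-s) - ((n + 1 : ℕ) : ℂ) ^ (-s)‖ ≤ ‖s‖ * (n : ℝ) ^ (-s.re - 1) := by
  have hn' : (0 : ℝ) < n := Nat.cast_pos.2 hn
  have hs0 : -s ≠ 0 := neg_ne_zero.2 fun h => by simp [h] at hs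
  have h := (convex_Icc (n : ℝ) (n + 1)).norm_image_sub_le_of_norm_hasDerivWithin_le
    (f := fun y : ℝ => (y : ℂ) ^ (-s)) (f' := fun y : ℝ => -s * (y : ℂ) ^ (-s - 1))
    (C := ‖s‖ * (n : ℝ) ^ (-s.re - 1)) (x := n + 1) (y := n)
    (fun x hx => (hasDerivAt_ofReal_cpow_const (hn'.trans_le hx.1).ne' hs0).hasDerivWithinAt)
    (fun x hx => by
      rw [norm_mul, norm_neg, norm_cpow_eq_rpow_re_of_pos (hn'.trans_le hx.1)]
      refine mul_le_mul_of_nonneg_left ?_ (norm_nonneg _)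
      simp only [sub_re, neg_re, one_re]
      exact Real.rpow_le_rpow_of_nonpos hn' hx.1 (by linarith))
    ⟨by linarith, le_rfl⟩ ⟨le_rfl, by linarith⟩
  simpa using h

theorem a2b_harm {M : ℕ} {y : ℝ} (hM : 1 ≤ M) (hy : (M : ℝ) ≤ y) :
    ∑ n ∈ Ioc 0 M, (n : ℝ)⁻¹ ≤ 1 + Real.log y := by
  have h1 := harmonic_le_one_add_log M
  rw [harmonic_eq_sum_Icc] at h1
  push_cast at h1
  have h2 : Ioc 0 M = Icc 1 M := by
    ext n
    simp only [mem_Ioc, mem_Icc]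
    omega
  have h3 : Real.log M ≤ Real.log y := Real.log_le_log (by exact_mod_cast hM) hy
  rw [h2]
  linarith

theorem lfun_upper (θ C : ℝ) (hθ : 0 < θ) (hθ' : θ ≤ 1 / 2) (hC : 1 ≤ C) : ∃ C' : ℝ, 1 ≤ C' ∧
    ∀ (q : ℕ) [NeZero q] (ξ : DirichletCharacter ℂ q) (y : ℝ), ξ ≠ 1 → 1 ≤ y →
    (∀ x : ℝ, 1 ≤ x → ‖∑ n ∈ Ioc 0 ⌊x⌋₊, ξ (n : ZMod q)‖ ≤ C * x ^ (1 - θ) * y ^ θ) →
    ∀ s : ℂ, 1 - θ / 2 ≤ s.re → ‖s‖ ≤ 3 →
      ‖ξ.LFunction s‖ ≤ C' * (1 + Real.log y) * y ^ (max (1 - s.re) 0) := by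
  have hCθ : 0 ≤ C * (2 / (θ / 2)) := by positivity
  refine ⟨C + 3 + 3 * (C * (2 / (θ / 2))), by linarith, fun q _ ξ y hξ hy hS s hs hs3 => ?_⟩
  have hσ : 0 < s.re := by linarith
  have hy0 : 0 < y := by linarith
  obtain ⟨δ, hδ⟩ : ∃ δ, δ = max (1 - s.re) 0 := ⟨_, rfl⟩
  have hδ0 : 0 ≤ δ := hδ ▸ le_max_right _ _
  have hδ1 : 1 - s.re ≤ δ := hδ ▸ le_max_left _ _
  have hδ2 : δ ≤ θ / 2 := hδ ▸ max_le (by linarith) (by linarith)
  rw [← hδ]
  have hM1 : 1 ≤ ⌊y⌋₊ := Nat.le_floor (by exact_mod_cast hy)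
  have hMy : (⌊y⌋₊ : ℝ) ≤ y := Nat.floor_le hy0.le
  have hyM : y < ⌊y⌋₊ + 1 := Nat.lt_floor_add_one y
  generalize ⌊y⌋₊ = M at hM1 hMy hyM
  have hM1' : (1 : ℝ) ≤ M := by exact_mod_cast hM1
  have hlog : 0 ≤ Real.log y := Real.log_nonneg hy
  have hyδ : 0 < y ^ δ := Real.rpow_pos_of_pos hy0 δ
  have hS' : ∀ n : ℕ, 1 ≤ n → ‖∑ m ∈ Ioc 0 n, ξ (m : ZMod q)‖ ≤ C * (n : ℝ) ^ (1 - θ) * y ^ θ :=
    fun n hn => by simpa using hS n (by exact_mod_cast hn)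
  have hS0 : ∀ n : ℕ, ‖∑ m ∈ Ioc 0 n, ξ (m : ZMod q)‖ ≤ n := fun n => by
    refine (norm_sum_le_of_le _ fun m _ => ξ.norm_le_one _).trans ?_
    simp
  refine le_of_tendsto (lfun_tendsto ξ hξ hσ).norm
    (Filter.eventually_atTop.2 ⟨M + 1, fun N hN => ?_⟩)
  have hyN : y ≤ N := hyM.le.trans (by exact_mod_cast hN)
  have hN1 : (1 : ℝ) ≤ N := hy.trans hyN
  rw [a2b_abel (fun n => ξ (n : ZMod q)) fun n => (n : ℂ) ^ (-s)]
  have b1 : ‖(∑ n ∈ Ioc 0 N, ξ (n : ZMod q)) * ((N + 1 : ℕ) : ℂ) ^ (-s)‖ ≤ C * y ^ δ := by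
    rw [norm_mul, norm_natCast_cpow_of_pos (Nat.succ_pos N), neg_re]
    have h1 : ((N.succ : ℕ) : ℝ) ^ (-s.re) ≤ (N : ℝ) ^ (δ - 1) :=
      (Real.rpow_le_rpow_of_nonpos (by linarith) (by simp) (by linarith)).trans
        (Real.rpow_le_rpow_of_exponent_le hN1 (by linarith))
    have h2 : (N : ℝ) ^ (1 - θ) * (N : ℝ) ^ (δ - 1) ≤ y ^ (δ - θ) := by
      rw [← Real.rpow_add (by linarith), show 1 - θ + (δ - 1) = δ - θ by ring]
      exact Real.rpow_le_rpow_of_nonpos hy0 hyN (by linarith)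
    have h3 : y ^ θ * y ^ (δ - θ) = y ^ δ := by rw [← Real.rpow_add hy0, add_sub_cancel]
    have h4 := mul_le_mul (hS' N (by omega)) h1 (by positivity) (by positivity)
    have h5 := mul_le_mul_of_nonneg_left h2 (show 0 ≤ C * y ^ θ by positivity)
    rw [← h3]
    linarith
  have b2 : ∀ n ∈ Ioc 0 M, ‖(∑ m ∈ Ioc 0 n, ξ (m : ZMod q)) *
      ((n : ℂ) ^ (-s) - ((n + 1 : ℕ) : ℂ) ^ (-s))‖ ≤ 3 * y ^ δ * (n : ℝ)⁻¹ := by
    intro n hn
    obtain ⟨h0, h1⟩ := mem_Ioc.1 hn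
    have hn1 : (1 : ℝ) ≤ n := by exact_mod_cast h0
    have hny : (n : ℝ) ≤ y := le_trans (by exact_mod_cast h1) hMy
    have h2 : (n : ℝ) ^ (-s.re - 1) ≤ y ^ δ * (n : ℝ)⁻¹ * (n : ℝ)⁻¹ := by
      calc (n : ℝ) ^ (-s.re - 1) ≤ (n : ℝ) ^ (δ - 1 - 1) :=
            Real.rpow_le_rpow_of_exponent_le hn1 (by linarith)
        _ = (n : ℝ) ^ δ * (n : ℝ)⁻¹ * (n : ℝ)⁻¹ := by
            rw [Real.rpow_sub_one (by linarith), Real.rpow_sub_one (by linarith), div_eq_mul_inv,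
              div_eq_mul_inv]
        _ ≤ _ := by gcongr
    rw [norm_mul]
    refine (mul_le_mul (hS0 n) ((a2b_diff hσ h0).trans (mul_le_mul hs3 h2 (by positivity)
      (by norm_num))) (norm_nonneg _) (by positivity)).trans (le_of_eq ?_)
    field_simp
  have b3 : ∀ n ∈ Ioc M N, ‖(∑ m ∈ Ioc 0 n, ξ (m : ZMod q)) *
      ((n : ℂ) ^ (-s) - ((n + 1 : ℕ) : ℂ) ^ (-s))‖ ≤
        3 * (C * (y ^ δ * y ^ (θ / 2))) * (n : ℝ) ^ (-1 - θ / 2) := by
    intro n hn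
    obtain ⟨h0, -⟩ := mem_Ioc.1 hn
    have hyn : y ≤ n := hyM.le.trans (by exact_mod_cast h0)
    have hn1 : (1 : ℝ) ≤ n := hy.trans hyn
    have h2 : (n : ℝ) ^ (1 - θ) * (n : ℝ) ^ (-s.re - 1) ≤
        y ^ (δ - θ / 2) * (n : ℝ) ^ (-1 - θ / 2) := by
      calc (n : ℝ) ^ (1 - θ) * (n : ℝ) ^ (-s.re - 1) = (n : ℝ) ^ (1 - θ + (-s.re - 1)) :=
            (Real.rpow_add (by linarith) _ _).symm
        _ ≤ (n : ℝ) ^ (δ - θ / 2 + (-1 - θ / 2)) :=
            Real.rpow_le_rpow_of_exponent_le hn1 (by linarith)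
        _ = (n : ℝ) ^ (δ - θ / 2) * (n : ℝ) ^ (-1 - θ / 2) := Real.rpow_add (by linarith) _ _
        _ ≤ _ := mul_le_mul_of_nonneg_right (Real.rpow_le_rpow_of_nonpos hy0 hyn (by linarith))
            (by positivity)
    have h3 : y ^ δ * y ^ (θ / 2) = y ^ θ * y ^ (δ - θ / 2) := by
      rw [← Real.rpow_add hy0, ← Real.rpow_add hy0]
      congr 1
      ring
    have h4 := mul_le_mul_of_nonneg_left h2 (show 0 ≤ 3 * (C * y ^ θ) by positivity)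
    rw [norm_mul, h3]
    refine (mul_le_mul (hS' n (by omega)) ((a2b_diff hσ (by omega)).trans
      (mul_le_mul_of_nonneg_right hs3 (by positivity))) (norm_nonneg _) (by positivity)).trans ?_
    linarith
  have b4 : y ^ (θ / 2) * ((M : ℝ) ^ (-(θ / 2)) / (θ / 2)) ≤ 2 / (θ / 2) := by
    rw [← mul_div_assoc]
    refine div_le_div_of_nonneg_right ?_ (by positivity)
    rw [Real.rpow_neg (by linarith), ← div_eq_mul_inv, ← Real.div_rpow hy0.le (by linarith)]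
    have h1 : y / M ≤ 2 := by
      rw [div_le_iff₀ (by linarith)]
      linarith
    calc (y / M) ^ (θ / 2) ≤ (2 : ℝ) ^ (θ / 2) :=
          Real.rpow_le_rpow (by positivity) h1 (by positivity)
      _ ≤ (2 : ℝ) ^ (1 : ℝ) := Real.rpow_le_rpow_of_exponent_le (by norm_num) (by linarith)
      _ = 2 := Real.rpow_one 2
  have b5 := norm_sum_le_of_le _ b2
  have b6 := norm_sum_le_of_le _ b3
  rw [← mul_sum] at b5 b6
  have b7 := mul_le_mul_of_nonneg_left (a2b_harm hM1 hMy) (show 0 ≤ 3 * y ^ δ by positivity)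
  have b8 := mul_le_mul_of_nonneg_left (a2b_tail (show 0 < θ / 2 by linarith) hM1 N)
    (show 0 ≤ 3 * (C * (y ^ δ * y ^ (θ / 2))) by positivity)
  have b9 := mul_le_mul_of_nonneg_left b4 (show 0 ≤ 3 * (C * y ^ δ) by positivity)
  rw [← sum_Ioc_consecutive (fun n : ℕ => (∑ m ∈ Ioc 0 n, ξ (m : ZMod q)) *
    ((n : ℂ) ^ (-s) - ((n + 1 : ℕ) : ℂ) ^ (-s))) (Nat.zero_le M) (show M ≤ N by omega)]
  refine (norm_add_le_of_le b1 (norm_add_le_of_le (b5.trans b7) (b6.trans b8))).trans ?_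
  have b10 : 0 ≤ (C + 3 * (C * (2 / (θ / 2)))) * (Real.log y * y ^ δ) := by positivity
  linarith

theorem lfun_lower {q : ℕ} [NeZero q] (ξ : DirichletCharacter ℂ q) {s : ℂ} (hs : 1 < s.re) :
    (s.re - 1) / s.re ≤ ‖ξ.LFunction s‖ := by
  have hη : 0 < s.re - 1 := by linarith
  have h1 := DirichletCharacter.LSeries.mul_mu_eq_one ξ hs
  have h2 : ‖LSeries ((fun n : ℕ => ξ (n : ZMod q)) * fun n : ℕ =>
      ((ArithmeticFunction.moebius n : ℤ) : ℂ)) s‖ ≤ 1 + 1 / (s.re - 1) := by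
    have h3 : ∀ n : ℕ, ‖LSeries.term ((fun n : ℕ => ξ (n : ZMod q)) * fun n : ℕ =>
        ((ArithmeticFunction.moebius n : ℤ) : ℂ)) s n‖ ≤ (n : ℝ) ^ (-1 - (s.re - 1)) := by
      intro n
      rw [LSeries.norm_term_eq]
      split_ifs with h
      · positivity
      · rw [show -1 - (s.re - 1) = -s.re by ring, Real.rpow_neg (Nat.cast_nonneg n), ← one_div]
        refine div_le_div_of_nonneg_right ?_ (by positivity)
        rw [Pi.mul_apply, norm_mul, Complex.norm_intCast]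
        refine mul_le_one₀ (ξ.norm_le_one _) (abs_nonneg _) ?_
        exact_mod_cast ArithmeticFunction.abs_moebius_le_one
    have h4 : ∀ N : ℕ, ∑ n ∈ range N, (n : ℝ) ^ (-1 - (s.re - 1)) ≤ 1 + 1 / (s.re - 1) := by
      intro N
      have h5 : range N ⊆ insert 0 (insert 1 (Ioc 1 N)) := fun n hn => by
        simp only [mem_range, mem_insert, mem_Ioc] at hn ⊢
        omega
      refine (sum_le_sum_of_subset_of_nonneg h5 fun n _ _ => by positivity).trans ?_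
      rw [sum_insert (by simp), sum_insert (by simp), Nat.cast_zero,
        Real.zero_rpow (by linarith), Nat.cast_one, Real.one_rpow, zero_add]
      have h6 := a2b_tail hη le_rfl N
      rw [Nat.cast_one, Real.one_rpow] at h6
      linarith
    have h5 := summable_of_sum_range_le (fun n => by positivity) h4
    exact (tsum_of_norm_bounded h5.hasSum h3).trans
      (Real.tsum_le_of_sum_range_le (fun n => by positivity) h4)
  have h3 := congrArg norm h1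
  rw [norm_mul, norm_one, ← DirichletCharacter.LFunction_eq_LSeries ξ hs] at h3
  have h4 := mul_le_mul_of_nonneg_left h2 (norm_nonneg (ξ.LFunction s))
  have h5 : 1 + 1 / (s.re - 1) = s.re / (s.re - 1) := by field_simp; ring
  rw [h3, h5, ← mul_div_assoc, le_div_iff₀ hη] at h4
  rw [div_le_iff₀ (by linarith)]
  linarith

end Pool.Agent.Lib.MP_e97e2b_nt.Ln
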