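import Pool.Agent.Lib.MP_e97e2b_nt.Ln.Defs

/- Characters of fixed modulus near s = 1.
F = LFunction ψ (ψ ≠ 1) or LFunctionTrivChar₁ m (ψ = 1) is entire with F 1 ≠ 0
(LFunction_ne_zero_of_one_le_re, LFunctionTrivChar₁_apply_one_ne_zero), so deriv F / F is bounded on a small closed
disc.  For re s > 1: LSeries (ψ Λ) s = - deriv L / L (LSeries_twist_vonMangoldt_eq, LFunction_eq_LSeries,
deriv_LFunction_eq_deriv_LSeries, deriv_LFunctionTrivChar₁_apply_of_ne_one); compare the file PrimesInAP of Mathlib.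
`lambda_sum`: the case m = 1 at the real point s = 1 + 1 / L (or Chebyshev's bound and partial summation). -/

namespace Pool.Agent.Lib.MP_e97e2b_nt.Ln

open Complex Finset

open ArithmeticFunction

theorem a5_bound {F : ℂ → ℂ} (hF : ContinuousOn F {s | 1 ≤ s.re}) :
    ∃ C : ℝ, 0 ≤ C ∧ ∀ s : ℂ, 1 < s.re → ‖s - 1‖ ≤ 1 → ‖F s‖ ≤ C := by
  have hK : IsCompact (Metric.closedBall (1 : ℂ) 1 ∩ {s | 1 ≤ s.re}) :=
    (isCompact_closedBall _ _).inter_right (isClosed_le continuous_const continuous_re)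
  obtain ⟨C, hC⟩ := hK.exists_bound_of_continuousOn (hF.mono Set.inter_subset_right)
  exact ⟨|C|, abs_nonneg C, fun s h1 h2 =>
    (hC s ⟨mem_closedBall_iff_norm.2 h2, h1.le⟩).trans (le_abs_self C)⟩

theorem a5_near (m : ℕ) [NeZero m] (ψ : DirichletCharacter ℂ m) [Decidable (ψ = 1)] :
    ∃ C : ℝ, 0 ≤ C ∧ ∀ s : ℂ, 1 < s.re → ‖s - 1‖ ≤ 1 →
    ‖LSeries (fun n => ψ (n : ZMod m) * (vonMangoldt n : ℂ)) s -
      (if ψ = 1 then 1 / (s - 1) else 0)‖ ≤ C := by
  have key : ∀ s : ℂ, 1 < s.re → LSeries (fun n => ψ (n : ZMod m) * (vonMangoldt n : ℂ)) s =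
      -deriv ψ.LFunction s / ψ.LFunction s := by
    intro s hs
    rw [ψ.deriv_LFunction_eq_deriv_LSeries hs, ψ.LFunction_eq_LSeries hs]
    exact DirichletCharacter.LSeries_twist_vonMangoldt_eq ψ hs
  by_cases h : ψ = 1
  · subst h
    obtain ⟨C, h0, hC⟩ := a5_bound
      ((DirichletCharacter.continuousOn_neg_logDeriv_LFunctionTrivChar₁ m).mono fun s hs => by
        rcases eq_or_ne s 1 with h1 | h1
        · exact Or.inl h1
        · exact Or.inr (DirichletCharacter.LFunction_ne_zero_of_one_le_re 1 (.inr h1) hs))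
    refine ⟨C, h0, fun s h1 h2 => le_of_eq_of_le (congrArg _ ?_) (hC s h1 h2)⟩
    have hs : s ≠ 1 := fun h => ((h ▸ h1).trans_eq one_re).false
    have h3 := DirichletCharacter.LFunction_ne_zero_of_one_le_re
      (1 : DirichletCharacter ℂ m) (.inr hs) h1.le
    have h4 := sub_ne_zero_of_ne hs
    rw [key s h1, if_pos rfl, DirichletCharacter.deriv_LFunctionTrivChar₁_apply_of_ne_one _ hs,
      DirichletCharacter.LFunctionTrivChar₁, Function.update_of_ne hs,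
      DirichletCharacter.LFunctionTrivChar]
    field_simp
    ring
  · obtain ⟨C, h0, hC⟩ := a5_bound
      ((DirichletCharacter.continuousOn_neg_logDeriv_LFunction_of_nontriv h).mono fun s hs =>
        DirichletCharacter.LFunction_ne_zero_of_one_le_re ψ (.inl h) hs)
    refine ⟨C, h0, fun s h1 h2 => ?_⟩
    rw [key s h1, if_neg h, sub_zero]
    exact hC s h1 h2

open Classical in
theorem near_one (m : ℕ) [NeZero m] (ψ : DirichletCharacter ℂ m) : ∃ r C : ℝ, 0 < r ∧ r ≤ 1 ∧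
    0 ≤ C ∧ ∀ s : ℂ, 1 < s.re → ‖s - 1‖ ≤ r →
    ‖LSeries (fun n => ψ (n : ZMod m) * (vonMangoldt n : ℂ)) s -
      (if ψ = 1 then 1 / (s - 1) else 0)‖ ≤ C := by
  obtain ⟨C, h0, hC⟩ := a5_near m ψ
  exact ⟨1, C, one_pos, le_rfl, h0, hC⟩

theorem lambda_sum : ∃ C L0 : ℝ, 1 ≤ C ∧ ∀ L : ℝ, L0 ≤ L → 1 ≤ L →
    Summable (fun n : ℕ => vonMangoldt n * (n : ℝ) ^ (-(1 + 1 / L))) ∧
    ∑' n : ℕ, vonMangoldt n * (n : ℝ) ^ (-(1 + 1 / L)) ≤ C * L := by
  classical
  obtain ⟨C, h0, hC⟩ := a5_near 1 1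
  refine ⟨1 + C, 1, by linarith, fun L _ hL => ?_⟩
  have hL0 : 0 < L := by linarith
  have h1 : 0 < 1 / L := by positivity
  have h2 : 1 / L ≤ 1 := (div_le_one hL0).2 hL
  have h3 : 1 < ((1 + 1 / L : ℝ) : ℂ).re := by
    rw [ofReal_re]
    linarith
  have h4 : ((1 + 1 / L : ℝ) : ℂ) - 1 = ((1 / L : ℝ) : ℂ) := by
    push_cast
    ring
  have h5 : ∀ n : ℕ, LSeries.term (fun n => (vonMangoldt n : ℂ)) ((1 + 1 / L : ℝ) : ℂ) n =
      ((vonMangoldt n * (n : ℝ) ^ (-(1 + 1 / L)) : ℝ) : ℂ) := by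
    intro n
    rcases eq_or_ne n 0 with rfl | hn
    · simp
    · rw [LSeries.term_of_ne_zero hn, ← ofReal_natCast n, ← ofReal_cpow n.cast_nonneg,
        ← ofReal_div, Real.rpow_neg n.cast_nonneg, div_eq_mul_inv]
  have h6 : Summable _ := LSeriesSummable_vonMangoldt h3
  have h7 := hC _ h3 (by rw [h4, norm_real, Real.norm_of_nonneg h1.le]; exact h2)
  have h8 : (fun n : ℕ => (1 : DirichletCharacter ℂ 1) (n : ZMod 1) * (vonMangoldt n : ℂ)) =
      fun n => (vonMangoldt n : ℂ) := by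
    funext n
    rw [Subsingleton.elim (n : ZMod 1) 1, map_one, one_mul]
  rw [h8, if_pos rfl, h4, LSeries] at h7
  rw [funext h5] at h6
  simp only [h5] at h7
  refine ⟨summable_ofReal.1 h6, ?_⟩
  rw [← ofReal_tsum, ← ofReal_one, ← ofReal_div, ← ofReal_sub, norm_real, one_div_one_div,
    Real.norm_eq_abs] at h7
  have h9 := (abs_le.1 h7).2
  nlinarith

end Pool.Agent.Lib.MP_e97e2b_nt.Ln
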