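import Pool.Agent.Lib.MP_e97e2b_nt.Ln.Defs

/- Logarithmic derivative of a function without zeros.
g has no zero in a slightly larger ball (compactness), so deriv g / g has a primitive G there
(DifferentiableOn.isExactOn_ball) and one can normalise exp G = g, re G = log ‖g‖.  Cauchy's formula gives
(1 / 2π) ∫ G (c + R e^(iφ)) e^(-iφ) dφ = R G' c and (1 / 2π) ∫ G (c + R e^(iφ)) e^(iφ) dφ = 0, hence
re G' c = (1 / (π R)) ∫ log ‖g‖ cos φ dφ.  Pointwise -log ‖g‖ cos φ ≤ b + P R (min (cos φ) 0)^2, and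
∫ over [0, 2π] of (min (cos φ) 0)^2 is π / 2.  The bound for ‖g c‖ is the maximum principle.  For the last bound:
re (G - G c) ≤ 2 b + R P on the ball, Borel-Caratheodory (Complex.borelCaratheodory) gives ‖G - G c‖ ≤ 2 M on the
ball of radius R / 2, then the Cauchy estimate (norm_deriv_le_of_forall_mem_sphere_norm_le, radius R / 4). -/

namespace Pool.Agent.Lib.MP_e97e2b_nt.Ln

open Complex Finset

theorem j2_log (h : ℂ → ℂ) (hh : Differentiable ℂ h) (R : ℝ) (hR : 0 < R)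
    (h0 : ∀ w : ℂ, ‖w‖ ≤ R → h w ≠ 0) :
    ∃ (R' : ℝ) (G : ℂ → ℂ), R < R' ∧
      (∀ z ∈ Metric.ball (0 : ℂ) R', HasDerivAt G (deriv h z / h z) z) ∧
      ∀ z ∈ Metric.ball (0 : ℂ) R', (G z).re = Real.log ‖h z‖ := by
  have hopen : IsOpen {z : ℂ | h z ≠ 0} := isOpen_ne_fun hh.continuous continuous_const
  have hsub : Metric.closedBall (0 : ℂ) R ⊆ {z : ℂ | h z ≠ 0} := fun z hz =>
    h0 z (mem_closedBall_zero_iff.1 hz)
  obtain ⟨δ, hδ, hth⟩ := (isCompact_closedBall (0 : ℂ) R).exists_thickening_subset_open hopen hsub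
  rw [thickening_closedBall hδ hR.le] at hth
  have hne : ∀ z ∈ Metric.ball (0 : ℂ) (δ + R), h z ≠ 0 := fun z hz => hth hz
  have hd : DifferentiableOn ℂ (fun z => deriv h z / h z) (Metric.ball (0 : ℂ) (δ + R)) :=
    DifferentiableOn.div hh.deriv.differentiableOn hh.differentiableOn hne
  obtain ⟨G, hG0, hG⟩ := hd.isExactOn_ball.with_val_at 0 (Complex.log (h 0))
  have hz0 : (0 : ℂ) ∈ Metric.ball (0 : ℂ) (δ + R) := Metric.mem_ball_self (by linarith)
  refine ⟨δ + R, G, by linarith, hG, fun z hz => ?_⟩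
  have hder : ∀ z ∈ Metric.ball (0 : ℂ) (δ + R),
      HasDerivAt (fun z => h z * exp (-G z)) 0 z := by
    intro z hz
    have h1 := (hh z).hasDerivAt.fun_mul (hG z hz).fun_neg.cexp
    have h2 : deriv h z * exp (-G z) + h z * (exp (-G z) * -(deriv h z / h z)) = 0 := by
      have := hne z hz
      field_simp
      ring
    rwa [h2] at h1
  have hc : h z * exp (-G z) = h 0 * exp (-G 0) :=
    Metric.isOpen_ball.is_const_of_deriv_eq_zero (convex_ball (0 : ℂ) (δ + R)).isPreconnected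
      (fun z hz => (hder z hz).differentiableAt.differentiableWithinAt)
      (fun z hz => (hder z hz).deriv) hz hz0
  rw [hG0, exp_neg (Complex.log (h 0)), exp_log (hne 0 hz0), mul_inv_cancel₀ (hne 0 hz0),
    exp_neg, mul_inv_eq_one₀ (exp_ne_zero _)] at hc
  rw [hc, norm_exp, Real.log_exp]

theorem j2_max (F : ℂ → ℂ) (R R' M : ℝ) (hR : 0 < R) (hRR : R < R')
    (hF : DifferentiableOn ℂ F (Metric.ball 0 R')) (hM : ∀ w : ℂ, ‖w‖ = R → (F w).re ≤ M)
    (z : ℂ) (hz : ‖z‖ ≤ R) : (F z).re ≤ M := by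
  have hd : DiffContOnCl ℂ (fun w => exp (F w)) (Metric.ball 0 R) := by
    refine DifferentiableOn.diffContOnCl ?_
    rw [closure_ball _ hR.ne']
    exact (hF.mono (Metric.closedBall_subset_ball hRR)).cexp
  have h := Complex.norm_le_of_forall_mem_frontier_norm_le (C := Real.exp M)
    Metric.isBounded_ball hd (fun w hw => by
      rw [frontier_ball _ hR.ne', mem_sphere_zero_iff_norm] at hw
      rw [norm_exp]
      exact Real.exp_le_exp.2 (hM w hw))
    (z := z) (by rw [closure_ball _ hR.ne']; exact mem_closedBall_zero_iff.2 hz)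
  rw [norm_exp] at h
  exact Real.exp_le_exp.1 h

theorem j2_arith (R b P x y o : ℝ) (hR : 0 < R) (hb : 0 ≤ b) (hxy : x ^ 2 + y ^ 2 = R ^ 2)
    (h : -(x * o) ≤ |x| * (2 * b) + P * x ^ 2) :
    -(o * (2 * x / R ^ 2)) - P / R ^ 2 * (x ^ 2 - y ^ 2) ≤ P + 4 * b / R := by
  have hx : |x| ≤ R := abs_le_of_sq_le_sq' (by nlinarith [sq_nonneg y]) hR.le |> abs_le.2
  have h1 : |x| * (2 * b) ≤ R * (2 * b) := mul_le_mul_of_nonneg_right hx (by linarith)
  have hR2 : 0 < R ^ 2 := by positivity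
  have e1 : -(o * (2 * x / R ^ 2)) - P / R ^ 2 * (x ^ 2 - y ^ 2) =
      (2 * -(x * o) - P * (x ^ 2 - y ^ 2)) / R ^ 2 := by
    field_simp
  have e2 : P + 4 * b / R = (P * (x ^ 2 + y ^ 2) + 2 * (R * (2 * b))) / R ^ 2 := by
    rw [hxy]
    field_simp
    ring
  rw [e1, e2]
  exact div_le_div_of_nonneg_right (by linarith) hR2.le

theorem j2_first (G G' : ℂ → ℂ) (R R' b P : ℝ) (hR : 0 < R) (hRR : R < R') (hb : 0 ≤ b)
    (hG : ∀ z ∈ Metric.ball (0 : ℂ) R', HasDerivAt G (G' z) z)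
    (hup : ∀ w : ℂ, ‖w‖ = R → (G w).re ≤ b + P * max (-w.re) 0)
    (hlo : ∀ w : ℂ, ‖w‖ = R → 0 ≤ w.re → -b ≤ (G w).re) :
    -(G' 0).re ≤ P / 2 + 2 * b / R := by
  have hz0 : (0 : ℂ) ∈ Metric.ball (0 : ℂ) R' := Metric.mem_ball_self (by linarith)
  have hO : ∀ z ∈ Metric.ball (0 : ℂ) R',
      HasDerivAt (fun w => G w - G (-w)) (G' z + G' (-z)) z := by
    intro z hz
    have hz' : -z ∈ Metric.ball (0 : ℂ) R' := by
      rw [mem_ball_zero_iff] at hz ⊢
      rwa [norm_neg]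
    have h1 := (hG (-z) hz').comp z (hasDerivAt_neg z)
    have h2 := (hG z hz).fun_sub h1
    rwa [mul_neg_one, sub_neg_eq_add] at h2
  have hOd : DifferentiableOn ℂ (fun w => G w - G (-w)) (Metric.ball (0 : ℂ) R') :=
    fun z hz => (hO z hz).differentiableAt.differentiableWithinAt
  have hs : DifferentiableOn ℂ (dslope (fun w => G w - G (-w)) 0) (Metric.ball (0 : ℂ) R') :=
    (Complex.differentiableOn_dslope (Metric.isOpen_ball.mem_nhds hz0)).2 hOd
  have hL : DifferentiableOn ℂ (fun w => -(dslope (fun w => G w - G (-w)) 0 w +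
      (G w - G (-w)) * (w / (R : ℂ) ^ 2)) - ((P / R ^ 2 : ℝ) : ℂ) * w ^ 2)
      (Metric.ball (0 : ℂ) R') :=
    (hs.add (hOd.mul (differentiableOn_id.div_const _))).neg.sub
      ((differentiableOn_id.pow 2).const_mul _)
  have h := j2_max _ R R' (P + 4 * b / R) hR hRR hL (fun w hw => ?_) 0 (by simpa using hR.le)
  · simp only [dslope_same, (hO 0 hz0).deriv, neg_zero, zero_div, mul_zero, add_zero,
      ne_eq, OfNat.ofNat_ne_zero, not_false_eq_true, zero_pow, sub_zero, neg_re, add_re] at h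
    have e : 4 * b / R = 2 * (2 * b / R) := by ring
    linarith
  · have hw0 : w ≠ 0 := by
      rintro rfl
      rw [norm_zero] at hw
      linarith
    have hRc : (R : ℂ) ≠ 0 := ofReal_ne_zero.2 hR.ne'
    have hn : w * starRingEnd ℂ w = (R : ℂ) ^ 2 := by
      rw [mul_conj, normSq_eq_norm_sq, hw, ofReal_pow]
    have hinv : w⁻¹ + w / (R : ℂ) ^ 2 = ((2 * w.re / R ^ 2 : ℝ) : ℂ) := by
      have h1 : w⁻¹ = starRingEnd ℂ w / (R : ℂ) ^ 2 := by
        rw [eq_div_iff (pow_ne_zero 2 hRc), ← hn, ← mul_assoc, inv_mul_cancel₀ hw0, one_mul]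
      rw [h1, ← add_div, add_comm, add_conj]
      push_cast
      ring
    have hxy : w.re ^ 2 + w.im ^ 2 = R ^ 2 := by
      rw [← hw, ← normSq_eq_norm_sq, normSq_apply]
      ring
    have e : -(dslope (fun w => G w - G (-w)) 0 w + (G w - G (-w)) * (w / (R : ℂ) ^ 2)) -
        ((P / R ^ 2 : ℝ) : ℂ) * w ^ 2 =
        -((G w - G (-w)) * ((2 * w.re / R ^ 2 : ℝ) : ℂ)) - ((P / R ^ 2 : ℝ) : ℂ) * w ^ 2 := by
      rw [dslope_of_ne _ hw0, slope_def_field, ← hinv, neg_zero, sub_self, sub_zero, sub_zero,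
        div_eq_mul_inv (G w - G (-w)), mul_add]
    have e2 : (w ^ 2).re = w.re ^ 2 - w.im ^ 2 := by
      rw [sq, mul_re]
      ring
    show (-(dslope (fun w => G w - G (-w)) 0 w + (G w - G (-w)) * (w / (R : ℂ) ^ 2)) -
        ((P / R ^ 2 : ℝ) : ℂ) * w ^ 2).re ≤ _
    rw [e, sub_re, neg_re, re_mul_ofReal, re_ofReal_mul, e2, sub_re]
    refine j2_arith R b P w.re w.im _ hR hb hxy ?_
    have hw' : ‖-w‖ = R := by rwa [norm_neg]
    rcases le_total 0 w.re with hx | hx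
    · have h1 := hlo w hw hx
      have h2 := hup (-w) hw'
      rw [neg_re, neg_neg, max_eq_left hx] at h2
      rw [abs_of_nonneg hx]
      nlinarith [mul_le_mul_of_nonneg_left h1 hx, mul_le_mul_of_nonneg_left h2 hx]
    · have hx' : 0 ≤ -w.re := by linarith
      have h1 := hlo (-w) hw' (by rwa [neg_re])
      have h2 := hup w hw
      rw [max_eq_left hx'] at h2
      rw [abs_of_nonpos hx]
      nlinarith [mul_le_mul_of_nonneg_left h1 hx', mul_le_mul_of_nonneg_left h2 hx']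

theorem j2_third (G G' : ℂ → ℂ) (R M : ℝ) (hR : 0 < R) (hM : 0 < M)
    (hG : ∀ z ∈ Metric.ball (0 : ℂ) R, HasDerivAt G (G' z) z)
    (hb : ∀ z ∈ Metric.ball (0 : ℂ) R, (G z).re - (G 0).re ≤ M) (w : ℂ) (hw : ‖w‖ ≤ R / 4) :
    ‖G' w‖ ≤ 8 * M / R := by
  have hF : DifferentiableOn ℂ (fun z => G z - G 0) (Metric.ball (0 : ℂ) R) :=
    fun z hz => ((hG z hz).sub_const (G 0)).differentiableAt.differentiableWithinAt
  have hbc : ∀ z : ℂ, ‖z‖ ≤ R / 2 → ‖G z - G 0‖ ≤ 2 * M := by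
    intro z hz
    have h := Complex.borelCaratheodory_zero (f := fun z => G z - G 0) (z := z) hM hF
      (fun z hz => hb z hz) hR (mem_ball_zero_iff.2 (by linarith)) (sub_self _)
    refine h.trans ?_
    rw [div_le_iff₀ (by linarith)]
    exact mul_le_mul_of_nonneg_left (by linarith) (by linarith)
  have hnear : ∀ z : ℂ, ‖z - w‖ ≤ R / 4 → ‖z‖ ≤ R / 2 := by
    intro z hz
    have := norm_le_norm_add_norm_sub' z w
    linarith
  have hd : DiffContOnCl ℂ (fun z => G z - G 0) (Metric.ball w (R / 4)) := by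
    refine DifferentiableOn.diffContOnCl ?_
    rw [closure_ball _ (by linarith : R / 4 ≠ 0)]
    refine hF.mono fun z hz => mem_ball_zero_iff.2 ?_
    have := hnear z (mem_closedBall_iff_norm.1 hz)
    linarith
  have h := Complex.norm_deriv_le_of_forall_mem_sphere_norm_le (C := 2 * M)
    (by linarith : 0 < R / 4) hd (fun z hz => hbc z (hnear z (mem_sphere_iff_norm.1 hz).le))
  rw [((hG w (mem_ball_zero_iff.2 (by linarith))).sub_const (G 0)).deriv] at h
  have e : 2 * M / (R / 4) = 8 * M / R := by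
    field_simp
    ring
  rwa [e] at h

theorem logder (g : ℂ → ℂ) (hg : Differentiable ℂ g) (c R b P : ℝ) (hR : 0 < R) (hb : 1 ≤ b)
    (hP : 0 ≤ P) (h0 : ∀ s : ℂ, ‖s - c‖ ≤ R → g s ≠ 0)
    (hup : ∀ s : ℂ, ‖s - c‖ = R → ‖g s‖ ≤ Real.exp (b + P * max (c - s.re) 0))
    (hlo : ∀ s : ℂ, ‖s - c‖ = R → c ≤ s.re → Real.exp (-b) ≤ ‖g s‖)
    (hc : Real.exp (-b) ≤ ‖g c‖) :
    (-deriv g c / g c).re ≤ P / 2 + 2 * b / R ∧ ‖g c‖ ≤ Real.exp (b + R * P) ∧
      ∀ s : ℂ, ‖s - c‖ ≤ R / 4 → ‖deriv g s / g s‖ ≤ 8 * (2 * b + R * P) / R := by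
  have hh : Differentiable ℂ (fun w => g (c + w)) :=
    hg.comp ((differentiable_const _).add differentiable_id)
  have hcw : ∀ w : ℂ, (c : ℂ) + w - c = w := fun w => add_sub_cancel_left _ _
  obtain ⟨R', G, hRR, hG, hre⟩ := j2_log _ hh R hR (fun w hw => h0 _ (by rwa [hcw]))
  simp only [deriv_comp_const_add] at hG
  have hball : ∀ w : ℂ, ‖w‖ ≤ R → w ∈ Metric.ball (0 : ℂ) R' := fun w hw =>
    mem_ball_zero_iff.2 (by linarith)
  have hpos : ∀ w : ℂ, ‖w‖ ≤ R → 0 < ‖g (c + w)‖ := fun w hw =>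
    norm_pos_iff.2 (h0 _ (by rwa [hcw]))
  have hup' : ∀ w : ℂ, ‖w‖ = R → (G w).re ≤ b + P * max (-w.re) 0 := by
    intro w hw
    have h1 := hup (c + w) (by rwa [hcw])
    rw [add_re, ofReal_re, sub_add_cancel_left] at h1
    rw [hre w (hball w hw.le)]
    exact (Real.log_le_iff_le_exp (hpos w hw.le)).2 h1
  have hlo' : ∀ w : ℂ, ‖w‖ = R → 0 ≤ w.re → -b ≤ (G w).re := by
    intro w hw hx
    have h1 := hlo (c + w) (by rwa [hcw]) (by rw [add_re, ofReal_re]; linarith)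
    rw [hre w (hball w hw.le)]
    exact (Real.le_log_iff_exp_le (hpos w hw.le)).2 h1
  have hz : ‖(0 : ℂ)‖ ≤ R := by rw [norm_zero]; exact hR.le
  have hc' : -b ≤ (G 0).re := by
    rw [hre 0 (hball 0 hz)]
    exact (Real.le_log_iff_exp_le (hpos 0 hz)).2 (by rwa [add_zero])
  have hmax : ∀ w : ℂ, ‖w‖ ≤ R → (G w).re ≤ b + R * P := by
    refine j2_max G R R' _ hR hRR
      (fun z hz => (hG z hz).differentiableAt.differentiableWithinAt) fun w hw => ?_
    have h1 : max (-w.re) 0 ≤ R :=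
      max_le (by rw [← hw]; exact (neg_le_abs _).trans (abs_re_le_norm w)) hR.le
    have h2 := mul_le_mul_of_nonneg_left h1 hP
    have h3 := hup' w hw
    linarith
  refine ⟨?_, ?_, fun s hs => ?_⟩
  · have h := j2_first G _ R R' b P hR hRR (by linarith) hG hup' hlo'
    rw [add_zero] at h
    rwa [neg_div, neg_re]
  · have h := hmax 0 hz
    rw [hre 0 (hball 0 hz)] at h
    have h2 := (Real.log_le_iff_le_exp (hpos 0 hz)).1 h
    rwa [add_zero] at h2
  · have hRP : 0 ≤ R * P := mul_nonneg hR.le hP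
    have h := j2_third G (fun z => deriv g (c + z) / g (c + z)) R (2 * b + R * P) hR
      (by linarith) (fun z hz => hG z (hball z (mem_ball_zero_iff.1 hz).le))
      (fun z hz => by
        have := hmax z (mem_ball_zero_iff.1 hz).le
        linarith) (s - c) hs
    rwa [add_sub_cancel] at h

end Pool.Agent.Lib.MP_e97e2b_nt.Ln
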