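import Pool.Agent.Lib.MP_e97e2b_nt.Ln.J1
import Pool.Agent.Lib.MP_e97e2b_nt.Ln.J2

/- Partial fractions for the logarithmic derivative.
Take R', A, g from blaschke, w = ρ - c.  On the circle ‖R'^2 - conj w (s - c)‖ = R' ‖s - ρ‖, so ‖g‖ = ‖f‖; at
the centre ‖g c‖ = ‖f c‖ ∏ R' / ‖w‖ ≥ exp (-b), and ∑ log (R' / ‖w‖) ≤ 2 b + R' P ≤ M.  Z = the ρ ∈ A with
‖w‖ ≤ δ; each has log (R' / ‖w‖) ≥ log 4 > 1, so card Z ≤ M.  Where f s ≠ 0,
 f'/f = g'/g + ∑ A (1 / (s - ρ) + conj w / (R'^2 - conj w (s - c))), and the bracket equals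
 (R'^2 - ‖w‖^2) / ((s - ρ) (R'^2 - conj w (s - c))), with (R'^2 - ‖w‖^2) / R'^2 ≤ 2 log (R' / ‖w‖).
Let H s = -g'/g - ∑ far (bracket) - ∑ Z conj w / (R'^2 - conj w (s - c)); H is holomorphic on ball c (3 δ / 4)
and bounded there by 4 M / R + 11 M / δ + M / δ ≤ 14 M / δ.  h0 = H c; the Schwarz lemma
(Complex.dist_le_div_mul_dist_of_mapsTo_ball) gives the Lipschitz bound.  At s = c a far bracket is
-conj w (1 / ‖w‖^2 - 1 / R'^2), with real part ≥ 0 because re w < 0 (hlo: zeros lie to the left of c). -/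

namespace Pool.Agent.Lib.MP_e97e2b_nt.Ln

open Complex Finset

theorem j3_prod (A : Multiset ℂ) (F : ℂ → ℂ → ℂ) (F' : ℂ → ℂ) (s : ℂ)
    (h : ∀ ρ ∈ A, HasDerivAt (F ρ) (F' ρ) s ∧ F ρ s ≠ 0) :
    HasDerivAt (fun z => (A.map fun ρ => F ρ z).prod)
      ((A.map fun ρ => F ρ s).prod * (A.map fun ρ => F' ρ / F ρ s).sum) s := by
  induction A using Multiset.induction_on with
  | empty => simpa using hasDerivAt_const s (1 : ℂ)
  | cons a A ih =>
    have h1 := h a (Multiset.mem_cons_self a A)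
    have h2 := ih fun ρ hρ => h ρ (Multiset.mem_cons_of_mem hρ)
    simp only [Multiset.map_cons, Multiset.prod_cons, Multiset.sum_cons]
    refine (h1.1.fun_mul h2).congr_deriv ?_
    have := h1.2
    field_simp

theorem j3_norm (A : Multiset ℂ) (F G : ℂ → ℂ) (L : ℂ → ℝ)
    (h : ∀ ρ ∈ A, ‖F ρ‖ = ‖G ρ‖ * Real.exp (L ρ)) :
    ‖(A.map F).prod‖ = ‖(A.map G).prod‖ * Real.exp (A.map L).sum := by
  induction A using Multiset.induction_on with
  | empty => simp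
  | cons a A ih =>
    simp only [Multiset.map_cons, Multiset.prod_cons, Multiset.sum_cons, norm_mul, Real.exp_add]
    rw [h a (Multiset.mem_cons_self a A), ih fun ρ hρ => h ρ (Multiset.mem_cons_of_mem hρ)]
    ring

theorem j3_diff (A : Multiset ℂ) (T : ℂ → ℂ → ℂ) (U : Set ℂ)
    (h : ∀ ρ ∈ A, DifferentiableOn ℂ (T ρ) U) :
    DifferentiableOn ℂ (fun z => (A.map fun ρ => T ρ z).sum) U := by
  induction A using Multiset.induction_on with
  | empty => simp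
  | cons a A ih =>
    simp only [Multiset.map_cons, Multiset.sum_cons]
    exact (h a (Multiset.mem_cons_self a A)).fun_add
      (ih fun ρ hρ => h ρ (Multiset.mem_cons_of_mem hρ))

theorem j3_sum_le (A : Multiset ℂ) (T : ℂ → ℂ) (L : ℂ → ℝ) (k : ℝ)
    (h : ∀ ρ ∈ A, ‖T ρ‖ ≤ k * L ρ) : ‖(A.map T).sum‖ ≤ k * (A.map L).sum := by
  induction A using Multiset.induction_on with
  | empty => simp
  | cons a A ih =>
    simp only [Multiset.map_cons, Multiset.sum_cons]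
    have h1 := h a (Multiset.mem_cons_self a A)
    have h2 := ih fun ρ hρ => h ρ (Multiset.mem_cons_of_mem hρ)
    have h3 := norm_add_le (T a) (A.map T).sum
    linarith

theorem j3_re_le (A : Multiset ℂ) (T : ℂ → ℂ) (L : ℂ → ℝ) (k : ℝ)
    (h : ∀ ρ ∈ A, -(T ρ).re ≤ k * L ρ) : -((A.map T).sum).re ≤ k * (A.map L).sum := by
  induction A using Multiset.induction_on with
  | empty => simp
  | cons a A ih =>
    simp only [Multiset.map_cons, Multiset.sum_cons, add_re]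
    have h1 := h a (Multiset.mem_cons_self a A)
    have h2 := ih fun ρ hρ => h ρ (Multiset.mem_cons_of_mem hρ)
    linarith

theorem j3_card_le (A : Multiset ℂ) (p : ℂ → Prop) [DecidablePred p] (L : ℂ → ℝ)
    (h0 : ∀ ρ ∈ A, 0 ≤ L ρ) (h1 : ∀ ρ ∈ A, p ρ → 1 ≤ L ρ) :
    ((A.filter p).card : ℝ) ≤ (A.map L).sum := by
  induction A using Multiset.induction_on with
  | empty => simp
  | cons a A ih =>
    have e0 := h0 a (Multiset.mem_cons_self a A)
    have e1 := h1 a (Multiset.mem_cons_self a A)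
    have e2 := ih (fun ρ hρ => h0 ρ (Multiset.mem_cons_of_mem hρ))
      (fun ρ hρ => h1 ρ (Multiset.mem_cons_of_mem hρ))
    simp only [Multiset.map_cons, Multiset.sum_cons]
    by_cases hp : p a
    · rw [Multiset.filter_cons_of_pos _ hp, Multiset.card_cons]
      have := e1 hp
      push_cast
      linarith
    · rw [Multiset.filter_cons_of_neg _ hp]
      linarith

theorem j3_split (A : Multiset ℂ) (p : ℂ → Prop) [DecidablePred p] (u v : ℂ → ℂ) :
    (A.map fun ρ => if p ρ then v ρ else u ρ + v ρ).sum =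
      (A.map u).sum + (A.map v).sum - ((A.filter p).map u).sum := by
  induction A using Multiset.induction_on with
  | empty => simp
  | cons a A ih =>
    simp only [Multiset.map_cons, Multiset.sum_cons, ih]
    by_cases hp : p a
    · rw [Multiset.filter_cons_of_pos _ hp, if_pos hp, Multiset.map_cons, Multiset.sum_cons]
      ring
    · rw [Multiset.filter_cons_of_neg _ hp, if_neg hp]
      ring

theorem j3_den {R' δ : ℝ} (hδ : 0 < δ) (h4 : 4 * δ ≤ R') {w z : ℂ} (hw : ‖w‖ < R')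
    (hz : ‖z‖ ≤ δ) : 3 / 4 * R' ^ 2 ≤ ‖(R' : ℂ) ^ 2 - starRingEnd ℂ w * z‖ := by
  have h1 := norm_sub_norm_le ((R' : ℂ) ^ 2) (starRingEnd ℂ w * z)
  have hR : 0 < R' := by linarith
  rw [norm_pow, norm_real, Real.norm_eq_abs, abs_of_pos hR, norm_mul, RCLike.norm_conj] at h1
  have h2 : ‖w‖ * ‖z‖ ≤ R' * δ := mul_le_mul hw.le hz (norm_nonneg _) hR.le
  nlinarith

theorem j3_log {R' δ : ℝ} (h4 : 4 * δ ≤ R') {w : ℂ} (h0 : w ≠ 0) (hw : ‖w‖ ≤ δ) :
    1 ≤ Real.log (R' / ‖w‖) := by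
  have hn : 0 < ‖w‖ := norm_pos_iff.mpr h0
  have h1 : (4 : ℝ) ≤ R' / ‖w‖ := by
    rw [le_div_iff₀ hn]
    linarith
  rw [Real.le_log_iff_exp_le (by linarith)]
  have := Real.exp_one_lt_d9
  linarith

theorem j3_near {R' δ : ℝ} (hδ : 0 < δ) (h4 : 4 * δ ≤ R') {w z : ℂ} (h0 : w ≠ 0) (hw : ‖w‖ ≤ δ)
    (hz : ‖z‖ ≤ δ) : ‖starRingEnd ℂ w / ((R' : ℂ) ^ 2 - starRingEnd ℂ w * z)‖ ≤
      11 / δ * Real.log (R' / ‖w‖) := by
  have h1 := j3_den hδ h4 (w := w) (by linarith) hz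
  have h2 := j3_log h4 h0 hw
  have hR : 0 < R' := by linarith
  have h3 : 0 < 3 / 4 * R' ^ 2 := by positivity
  rw [norm_div, RCLike.norm_conj]
  calc ‖w‖ / ‖(R' : ℂ) ^ 2 - starRingEnd ℂ w * z‖ ≤ δ / (3 / 4 * R' ^ 2) := by gcongr
    _ ≤ 11 / δ := by
      rw [div_le_div_iff₀ h3 hδ]
      nlinarith
    _ ≤ 11 / δ * Real.log (R' / ‖w‖) := le_mul_of_one_le_right (by positivity) h2

theorem j3_far {R' δ : ℝ} (hδ : 0 < δ) (h4 : 4 * δ ≤ R') {w z : ℂ} (hw : δ < ‖w‖)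
    (hw' : ‖w‖ < R') (hz : ‖z‖ ≤ 3 * δ / 4) :
    ‖1 / (z - w) + starRingEnd ℂ w / ((R' : ℂ) ^ 2 - starRingEnd ℂ w * z)‖ ≤
      11 / δ * Real.log (R' / ‖w‖) := by
  have h1 := j3_den hδ h4 hw' (z := z) (by linarith)
  have hR : 0 < R' := by linarith
  have h3 : 0 < 3 / 4 * R' ^ 2 := by positivity
  have hn : 0 < ‖w‖ := by linarith
  have h5 : δ / 4 ≤ ‖z - w‖ := by
    have := norm_sub_norm_le w z
    rw [norm_sub_rev] at this
    linarith
  have h6 : z - w ≠ 0 := norm_pos_iff.mp (by linarith)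
  have h7 : (R' : ℂ) ^ 2 - starRingEnd ℂ w * z ≠ 0 := norm_pos_iff.mp (by linarith)
  have h8 : 1 / (z - w) + starRingEnd ℂ w / ((R' : ℂ) ^ 2 - starRingEnd ℂ w * z) =
      ((R' ^ 2 - ‖w‖ ^ 2 : ℝ) : ℂ) / ((z - w) * ((R' : ℂ) ^ 2 - starRingEnd ℂ w * z)) := by
    have e : starRingEnd ℂ w * w = ((‖w‖ : ℝ) : ℂ) ^ 2 := Complex.conj_mul' w
    push_cast
    rw [← e, div_add_div _ _ h6 h7]
    congr 1
    ring
  have h9 : 0 ≤ R' ^ 2 - ‖w‖ ^ 2 := by nlinarith
  have h10 : R' ^ 2 - ‖w‖ ^ 2 ≤ 2 * R' ^ 2 * Real.log (R' / ‖w‖) := by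
    have e1 := Real.one_sub_inv_le_log_of_pos (div_pos hR hn)
    rw [inv_div] at e1
    have e2 : R' * (1 - ‖w‖ / R') = R' - ‖w‖ := by field_simp
    have e3 := mul_le_mul_of_nonneg_left e1 hR.le
    rw [e2] at e3
    nlinarith
  have h11 : 0 ≤ Real.log (R' / ‖w‖) := Real.log_nonneg ((one_le_div hn).mpr hw'.le)
  rw [h8, norm_div, norm_mul, norm_real, Real.norm_eq_abs, abs_of_nonneg h9]
  calc (R' ^ 2 - ‖w‖ ^ 2) / (‖z - w‖ * ‖(R' : ℂ) ^ 2 - starRingEnd ℂ w * z‖) ≤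
        (2 * R' ^ 2 * Real.log (R' / ‖w‖)) / (δ / 4 * (3 / 4 * R' ^ 2)) := by gcongr
    _ = 32 / 3 / δ * Real.log (R' / ‖w‖) := by
      field_simp
      ring
    _ ≤ 11 / δ * Real.log (R' / ‖w‖) := by
      gcongr
      norm_num

theorem j3_far_re {R' : ℝ} {w : ℂ} (h0 : w ≠ 0) (hw' : ‖w‖ < R') (hre : w.re < 0) :
    0 ≤ (1 / (0 - w) + starRingEnd ℂ w / ((R' : ℂ) ^ 2 - starRingEnd ℂ w * 0)).re := by
  have hn : 0 < ‖w‖ := norm_pos_iff.mpr h0
  have hR : 0 < R' := by linarith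
  have e : 1 / (0 - w) + starRingEnd ℂ w / ((R' : ℂ) ^ 2 - starRingEnd ℂ w * 0) =
      ((1 / ‖w‖ ^ 2 - 1 / R' ^ 2 : ℝ) : ℂ) * (-starRingEnd ℂ w) := by
    have e : starRingEnd ℂ w * w = ((‖w‖ : ℝ) : ℂ) ^ 2 := Complex.conj_mul' w
    have h1 : starRingEnd ℂ w ≠ 0 := by simpa using h0
    have h2 : (R' : ℂ) ≠ 0 := by exact_mod_cast hR.ne'
    push_cast
    rw [← e]
    simp only [mul_zero, sub_zero, zero_sub]
    field_simp
    ring
  rw [e, re_ofReal_mul, neg_re, conj_re]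
  refine mul_nonneg (sub_nonneg.mpr ?_) (by linarith)
  gcongr

theorem jen (f : ℂ → ℂ) (hf : Differentiable ℂ f) (c R δ b P : ℝ) (hR : 0 < R) (hδ : 0 < δ)
    (hδR : δ ≤ R / 2) (hb : 1 ≤ b) (hP : 0 ≤ P)
    (hup : ∀ s : ℂ, ‖s - c‖ ≤ 3 * R → ‖f s‖ ≤ Real.exp (b + P * max (c - s.re) 0))
    (hlo : ∀ s : ℂ, ‖s - c‖ ≤ 3 * R → c ≤ s.re → Real.exp (-b) ≤ ‖f s‖) :
    ∃ (Z : Multiset ℂ) (h0 : ℂ),
      (∀ ρ, Z.count ρ = if ‖ρ - c‖ ≤ δ then analyticOrderNatAt f ρ else 0) ∧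
      (∀ ρ ∈ Z, ‖ρ - c‖ ≤ δ ∧ f ρ = 0) ∧ (Z.card : ℝ) ≤ 2 * b + 3 * R * P ∧
      h0.re ≤ P / 2 + b / R + δ * (2 * b + 3 * R * P) / R ^ 2 ∧
      ‖h0‖ ≤ 100 * (2 * b + 3 * R * P) / δ ∧
      ∀ s : ℂ, ‖s - c‖ ≤ δ / 2 → f s ≠ 0 →
        ‖-deriv f s / f s + (Z.map fun ρ => 1 / (s - ρ)).sum - h0‖ ≤
          100 * (2 * b + 3 * R * P) / δ ^ 2 * ‖s - c‖ := by
  have hM : 0 < 2 * b + 3 * R * P := by positivity
  have hfc := hlo c (by simp; positivity) (by simp)
  have hfc0 : f c ≠ 0 := norm_pos_iff.mp ((Real.exp_pos _).trans_le hfc)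
  obtain ⟨R', A, g, hR1, hR2, hcount, hA, hg, hg0, hid⟩ := blaschke f hf c hfc0 R hR
  have hR' : 0 < R' := by linarith
  have h4 : 4 * δ ≤ R' := by linarith
  have hR'c : (R' : ℂ) ≠ 0 := by exact_mod_cast hR'.ne'
  have hw0 : ∀ ρ ∈ A, ρ - c ≠ 0 := fun ρ hρ h => by
    have := (hA ρ hρ).2
    rw [sub_eq_zero.mp h] at this
    exact hfc0 this
  have hre : ∀ ρ ∈ A, (ρ - c).re < 0 := fun ρ hρ => by
    by_contra h
    have h1 := hlo ρ (by linarith [(hA ρ hρ).1]) (by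
      rw [sub_re, ofReal_re] at h
      linarith)
    rw [(hA ρ hρ).2, norm_zero] at h1
    exact absurd h1 (not_le.mpr (Real.exp_pos _))
  have hP2 : ∀ s : ℂ, (∀ ρ ∈ A, s ≠ ρ) → (A.map fun ρ => (R' : ℂ) * (s - ρ)).prod ≠ 0 := by
    intro s hs
    refine Multiset.prod_ne_zero fun h => ?_
    obtain ⟨ρ, hρ, h1⟩ := Multiset.mem_map.mp h
    exact mul_ne_zero hR'c (sub_ne_zero.mpr (hs ρ hρ)) h1
  have hcirc : ∀ s : ℂ, ‖s - c‖ = R' → ‖g s‖ = ‖f s‖ := by
    intro s hs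
    have h1 := j3_norm A (fun ρ => (R' : ℂ) ^ 2 - starRingEnd ℂ (ρ - c) * (s - c))
      (fun ρ => (R' : ℂ) * (s - ρ)) (fun _ => 0) fun ρ _ => by
        have e : (R' : ℂ) ^ 2 - starRingEnd ℂ (ρ - c) * (s - c) =
            starRingEnd ℂ (s - ρ) * (s - c) := by
          have e1 := Complex.conj_mul' (s - c)
          rw [hs] at e1
          rw [← e1]
          simp only [map_sub]
          ring
        rw [e, norm_mul, norm_mul, RCLike.norm_conj, hs, norm_real, Real.norm_eq_abs,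
          abs_of_pos hR', Real.exp_zero]
        ring
    have h2 := congrArg norm (hid s)
    have h3 := norm_ne_zero_iff.mpr (hP2 s fun ρ hρ h => by
      have := (hA ρ hρ).1
      rw [← h, hs] at this
      exact lt_irrefl _ this)
    rw [norm_mul, norm_mul, h1] at h2
    simp only [Multiset.map_const', Multiset.sum_replicate, smul_zero, Real.exp_zero,
      mul_one] at h2
    exact (mul_right_cancel₀ h3 h2).symm
  set L : ℂ → ℝ := fun ρ => Real.log (R' / ‖ρ - c‖) with hL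
  have hL0 : ∀ ρ ∈ A, 0 ≤ L ρ := fun ρ hρ =>
    Real.log_nonneg ((one_le_div (norm_pos_iff.mpr (hw0 ρ hρ))).mpr (hA ρ hρ).1.le)
  have hS0 : 0 ≤ (A.map L).sum := Multiset.sum_nonneg fun x hx => by
    obtain ⟨ρ, hρ, rfl⟩ := Multiset.mem_map.mp hx
    exact hL0 ρ hρ
  have hcen : ‖g c‖ = ‖f c‖ * Real.exp (A.map L).sum := by
    have h1 := j3_norm A (fun ρ => (R' : ℂ) ^ 2 - starRingEnd ℂ (ρ - c) * (c - c))
      (fun ρ => (R' : ℂ) * (c - ρ)) L fun ρ hρ => by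
        have hn := norm_pos_iff.mpr (hw0 ρ hρ)
        simp only [hL]
        rw [Real.exp_log (div_pos hR' hn), sub_self, mul_zero, sub_zero, norm_pow, norm_mul,
          norm_real, Real.norm_eq_abs, abs_of_pos hR', norm_sub_rev (c : ℂ) ρ]
        field_simp
    have h2 := congrArg norm (hid c)
    have h3 := norm_ne_zero_iff.mpr (hP2 c fun ρ hρ h => hw0 ρ hρ (by rw [h, sub_self]))
    rw [norm_mul, norm_mul, h1] at h2
    refine mul_right_cancel₀ h3 ?_
    rw [← h2]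
    ring
  have hgc : Real.exp (-b) ≤ ‖g c‖ := by
    rw [hcen]
    exact hfc.trans (le_mul_of_one_le_right (norm_nonneg _) (Real.one_le_exp hS0))
  obtain ⟨k1, k2, k3⟩ := logder g hg c R' b P hR' hb hP hg0
    (fun s hs => by rw [hcirc s hs]; exact hup s (by linarith))
    (fun s hs hs' => by rw [hcirc s hs]; exact hlo s (by linarith) hs') hgc
  have hRP : R' * P ≤ 3 * R * P := mul_le_mul_of_nonneg_right hR2.le hP
  have hS : (A.map L).sum ≤ 2 * b + 3 * R * P := by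
    have h1 : Real.exp (-b) * Real.exp (A.map L).sum ≤ Real.exp (b + R' * P) := by
      refine le_trans ?_ k2
      rw [hcen]
      exact mul_le_mul_of_nonneg_right hfc (Real.exp_pos _).le
    rw [← Real.exp_add, Real.exp_le_exp] at h1
    linarith
  set E : ℂ → ℂ → ℂ := fun ρ s =>
    starRingEnd ℂ (ρ - c) / ((R' : ℂ) ^ 2 - starRingEnd ℂ (ρ - c) * (s - c)) with hE
  set T : ℂ → ℂ → ℂ := fun ρ s => if ‖ρ - c‖ ≤ δ then E ρ s else 1 / (s - ρ) + E ρ s with hT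
  set H : ℂ → ℂ := fun s => -(deriv g s / g s) - (A.map fun ρ => T ρ s).sum with hH
  have hden : ∀ ρ ∈ A, ∀ s : ℂ, ‖s - c‖ ≤ δ →
      (R' : ℂ) ^ 2 - starRingEnd ℂ (ρ - c) * (s - c) ≠ 0 := fun ρ hρ s hs =>
    norm_pos_iff.mp (lt_of_lt_of_le (by positivity) (j3_den hδ h4 (hA ρ hρ).1 hs))
  have hTb : ∀ ρ ∈ A, ∀ s : ℂ, ‖s - c‖ ≤ 3 * δ / 4 → ‖T ρ s‖ ≤ 11 / δ * L ρ := by
    intro ρ hρ s hs
    simp only [hT, hE, hL]
    split_ifs with h
    · exact j3_near hδ h4 (hw0 ρ hρ) h (by linarith)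
    · have := j3_far hδ h4 (not_le.mp h) (hA ρ hρ).1 hs
      rwa [sub_sub_sub_cancel_right] at this
  have hHb : ∀ s : ℂ, ‖s - c‖ ≤ 3 * δ / 4 → ‖H s‖ ≤ 13 * (2 * b + 3 * R * P) / δ := by
    intro s hs
    have h1 := k3 s (by linarith)
    have h2 := j3_sum_le A (fun ρ => T ρ s) L (11 / δ) fun ρ hρ => hTb ρ hρ s hs
    have h3 := norm_sub_le (-(deriv g s / g s)) (A.map fun ρ => T ρ s).sum
    rw [norm_neg] at h3
    have h5 : 8 * (2 * b + R' * P) / R' ≤ 8 * (2 * b + 3 * R * P) / (4 * δ) := by gcongr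
    have h6 : 11 / δ * (A.map L).sum ≤ 11 / δ * (2 * b + 3 * R * P) := by gcongr
    have h7 : 8 * (2 * b + 3 * R * P) / (4 * δ) + 11 / δ * (2 * b + 3 * R * P) =
        13 * (2 * b + 3 * R * P) / δ := by
      field_simp
      ring
    simp only [hH]
    linarith
  have hHd : DifferentiableOn ℂ H (Metric.ball (c : ℂ) (3 * δ / 4)) := by
    have hb' : ∀ s ∈ Metric.ball (c : ℂ) (3 * δ / 4), ‖s - c‖ < 3 * δ / 4 := fun s hs => by
      rwa [Metric.mem_ball, dist_eq_norm] at hs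
    refine DifferentiableOn.fun_sub (DifferentiableOn.fun_neg ?_) (j3_diff A T _ fun ρ hρ => ?_)
    · exact DifferentiableOn.fun_div hg.deriv.differentiableOn hg.differentiableOn
        fun s hs => hg0 s (by linarith [hb' s hs])
    · have hEd : DifferentiableOn ℂ (E ρ) (Metric.ball (c : ℂ) (3 * δ / 4)) :=
        DifferentiableOn.fun_div (by fun_prop) (by fun_prop)
          fun s hs => hden ρ hρ s (by linarith [hb' s hs])
      by_cases h : ‖ρ - c‖ ≤ δ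
      · simp only [hT, if_pos h]
        exact hEd
      · simp only [hT, if_neg h]
        refine DifferentiableOn.fun_add (DifferentiableOn.fun_div (by fun_prop) (by fun_prop)
          fun s hs h1 => h ?_) hEd
        rw [← sub_eq_zero.mp h1]
        linarith [hb' s hs]
  have hc0 : ‖(c : ℂ) - c‖ ≤ 3 * δ / 4 := by
    rw [sub_self, norm_zero]
    positivity
  refine ⟨A.filter fun ρ => ‖ρ - c‖ ≤ δ, H c, fun ρ => ?_, fun ρ hρ => ?_, ?_, ?_, ?_,
    fun s hs hfs => ?_⟩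
  · rw [Multiset.count_filter]
    split_ifs with h
    · rw [hcount, if_pos (by linarith)]
    · rfl
  · obtain ⟨h1, h2⟩ := Multiset.mem_filter.mp hρ
    exact ⟨h2, (hA ρ h1).2⟩
  · exact (j3_card_le A _ L hL0 fun ρ hρ h => j3_log h4 (hw0 ρ hρ) h).trans hS
  · have h1 := j3_re_le A (fun ρ => T ρ c) L (δ / R ^ 2) fun ρ hρ => by
      simp only [hT, hE]
      split_ifs with h
      · have e1 := abs_re_le_norm (starRingEnd ℂ (ρ - c) /
          ((R' : ℂ) ^ 2 - starRingEnd ℂ (ρ - c) * (c - c)))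
        have e2 := neg_abs_le (starRingEnd ℂ (ρ - c) /
          ((R' : ℂ) ^ 2 - starRingEnd ℂ (ρ - c) * (c - c))).re
        have e3 : ‖starRingEnd ℂ (ρ - c) / ((R' : ℂ) ^ 2 - starRingEnd ℂ (ρ - c) * (c - c))‖ ≤
            δ / R ^ 2 := by
          rw [sub_self, mul_zero, sub_zero, norm_div, RCLike.norm_conj, norm_pow, norm_real,
            Real.norm_eq_abs, abs_of_pos hR']
          gcongr
          linarith
        have e4 : δ / R ^ 2 ≤ δ / R ^ 2 * L ρ :=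
          le_mul_of_one_le_right (by positivity) (j3_log h4 (hw0 ρ hρ) h)
        linarith
      · have e1 := j3_far_re (hw0 ρ hρ) (hA ρ hρ).1 (hre ρ hρ)
        have e2 : 0 ≤ δ / R ^ 2 * L ρ := mul_nonneg (by positivity) (hL0 ρ hρ)
        rw [zero_sub, neg_sub] at e1
        rw [sub_self]
        linarith
    have h2 : δ / R ^ 2 * (A.map L).sum ≤ δ / R ^ 2 * (2 * b + 3 * R * P) := by gcongr
    have h3 : 2 * b / R' ≤ b / R := by
      rw [div_le_div_iff₀ hR' hR]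
      nlinarith
    have h5 : δ / R ^ 2 * (2 * b + 3 * R * P) = δ * (2 * b + 3 * R * P) / R ^ 2 := by ring
    rw [neg_div] at k1
    simp only [hH, sub_re]
    linarith
  · refine (hHb c hc0).trans ?_
    gcongr
    norm_num
  · have hsA : ∀ ρ ∈ A, s ≠ ρ := fun ρ hρ h => hfs (h ▸ (hA ρ hρ).2)
    have hgs : g s ≠ 0 := hg0 s (by linarith)
    have d1 := j3_prod A (fun ρ z => (R' : ℂ) ^ 2 - starRingEnd ℂ (ρ - c) * (z - c))
      (fun ρ => -starRingEnd ℂ (ρ - c)) s fun ρ hρ => ⟨by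
        simpa using (((hasDerivAt_id s).sub_const (c : ℂ)).const_mul
          (starRingEnd ℂ (ρ - c))).const_sub ((R' : ℂ) ^ 2), hden ρ hρ s (by linarith)⟩
    have d2 := j3_prod A (fun ρ z => (R' : ℂ) * (z - ρ)) (fun _ => (R' : ℂ)) s fun ρ hρ => ⟨by
        simpa using ((hasDerivAt_id s).sub_const ρ).const_mul (R' : ℂ),
      mul_ne_zero hR'c (sub_ne_zero.mpr (hsA ρ hρ))⟩
    have d3 := (hf s).hasDerivAt.fun_mul d1
    have d4 := (hg s).hasDerivAt.fun_mul d2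
    rw [funext hid] at d3
    have d5 := d3.unique d4
    have d6 := hid s
    have d7 := hP2 s hsA
    have s1 : (A.map fun ρ => -starRingEnd ℂ (ρ - c) /
        ((R' : ℂ) ^ 2 - starRingEnd ℂ (ρ - c) * (s - c))).sum = -(A.map fun ρ => E ρ s).sum := by
      rw [← Multiset.sum_map_neg]
      congr 2
      funext ρ
      simp only [hE, neg_div]
    have s2 : (A.map fun ρ => (R' : ℂ) / ((R' : ℂ) * (s - ρ))).sum =
        (A.map fun ρ => 1 / (s - ρ)).sum := by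
      congr 2
      funext ρ
      rw [div_mul_eq_div_div, div_self hR'c]
    rw [s1, s2] at d5
    have s3 := j3_split A (fun ρ => ‖ρ - c‖ ≤ δ) (fun ρ => 1 / (s - ρ)) (fun ρ => E ρ s)
    have key : -deriv f s / f s +
        ((A.filter fun ρ : ℂ => ‖ρ - c‖ ≤ δ).map fun ρ : ℂ => 1 / (s - ρ)).sum = H s := by
      simp only [hH, hT]
      rw [s3]
      generalize (A.map fun ρ => (R' : ℂ) ^ 2 - starRingEnd ℂ (ρ - c) * (s - c)).prod = p1
        at d5 d6
      generalize (A.map fun ρ => (R' : ℂ) * (s - ρ)).prod = p2 at d5 d6 d7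
      generalize (A.map fun ρ => E ρ s).sum = e1 at d5 ⊢
      generalize (A.map fun ρ => 1 / (s - ρ)).sum = e2 at d5 ⊢
      have q1 : p1 = g s * p2 / f s := by
        rw [← d6]
        field_simp
      have q2 : deriv f s / f s - e1 = deriv g s / g s + e2 := by
        rw [q1] at d5
        field_simp at d5 ⊢
        linear_combination d5
      rw [neg_div]
      linear_combination -q2
    rw [key]
    have hmaps : Set.MapsTo H (Metric.ball (c : ℂ) (3 * δ / 4))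
        (Metric.closedBall (H c) (26 * (2 * b + 3 * R * P) / δ)) := by
      intro z hz
      rw [Metric.mem_ball, dist_eq_norm] at hz
      rw [Metric.mem_closedBall, dist_eq_norm]
      have h1 := hHb z hz.le
      have h2 := hHb c hc0
      have h3 := norm_sub_le (H z) (H c)
      have h5 : 26 * (2 * b + 3 * R * P) / δ =
          13 * (2 * b + 3 * R * P) / δ + 13 * (2 * b + 3 * R * P) / δ := by ring
      linarith
    have hsch := Complex.dist_le_div_mul_dist_of_mapsTo_ball hHd hmaps (z := s) (by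
      rw [Metric.mem_ball, dist_eq_norm]
      linarith)
    rw [dist_eq_norm, dist_eq_norm] at hsch
    refine hsch.trans (mul_le_mul_of_nonneg_right ?_ (norm_nonneg _))
    have h1 : 26 * (2 * b + 3 * R * P) / δ / (3 * δ / 4) =
        104 / 3 * (2 * b + 3 * R * P) / δ ^ 2 := by
      field_simp
      ring
    rw [h1]
    gcongr
    norm_num

end Pool.Agent.Lib.MP_e97e2b_nt.Ln
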