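import Pool.Agent.Lib.MP_e97e2b_nt.Ln.Defs

/- Dirichlet L-functions: convergence of the series for re s > 0, and conjugation.
`lfun_tendsto`: S N = ∑ n ≤ N, ξ n is bounded (periodic, MulChar.sum_eq_zero_of_ne_one).  The function
F s = ∑' n ≥ 1, S n (n^(-s) - (n+1)^(-s)) is holomorphic on re s > 0 (terms bounded by q ‖s‖ n^(-re s - 1),
differentiableOn_tsum_of_summable_norm on bounded pieces), Abel summation shows that the partial sums tend to F s,
for re s > 1 this is LSeries = LFunction (LFunction_eq_LSeries), and the identity theorem finishes.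
`lfun_conj`: both sides are entire in s (differentiableAt_conj_conj_iff) and agree for re s > 1
(or use lfun_tendsto); ξ⁻¹ n = conj (ξ n) (MulChar.star_eq_inv).
`order_conj`: characterise the order by f = (z - z0)^n • g, g analytic, g z0 ≠ 0; treat f = 0 (order ⊤) too. -/

namespace Pool.Agent.Lib.MP_e97e2b_nt.Ln

open Complex Finset

open Filter Topology

theorem a2a_bound {q : ℕ} [NeZero q] (ξ : DirichletCharacter ℂ q) (hξ : ξ ≠ 1) (N : ℕ) :
    ‖∑ n ∈ range N, ξ ((n + 1 : ℕ) : ZMod q)‖ ≤ q := by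
  have hq : 0 < q := Nat.pos_of_ne_zero (NeZero.ne q)
  have h0 : ∑ n ∈ range q, ξ ((n + 1 : ℕ) : ZMod q) = 0 := by
    have h1 : ∑ n ∈ range q, ξ ((n + 1 : ℕ) : ZMod q) = ∑ x : ZMod q, ξ (x + 1) := by
      refine Finset.sum_nbij' (fun n => (n : ZMod q)) ZMod.val (fun _ _ => mem_univ _)
        (fun x _ => mem_range.2 (ZMod.val_lt x)) (fun n hn => ZMod.val_cast_of_lt (mem_range.1 hn))
        (fun x _ => ZMod.natCast_zmod_val x) fun n _ => by push_cast; rfl
    rw [h1, ← ξ.sum_eq_zero_of_ne_one hξ]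
    exact Equiv.sum_comp (Equiv.addRight (1 : ZMod q)) fun x => ξ x
  induction N using Nat.strong_induction_on with
  | _ N ih =>
    rcases lt_or_ge N q with h | h
    · calc ‖∑ n ∈ range N, ξ ((n + 1 : ℕ) : ZMod q)‖ ≤ ∑ n ∈ range N, (1 : ℝ) :=
            norm_sum_le_of_le _ fun n _ => ξ.norm_le_one _
        _ = N := by simp
        _ ≤ q := by exact_mod_cast h.le
    · obtain ⟨k, rfl⟩ := Nat.exists_eq_add_of_le h
      rw [Finset.sum_range_add, h0, zero_add]
      have e : ∀ n : ℕ, ((q + n + 1 : ℕ) : ZMod q) = ((n + 1 : ℕ) : ZMod q) := fun n => by simp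
      simp only [e]
      exact ih k (by omega)

theorem a2a_diff {x δ R : ℝ} (hx : 1 ≤ x) (hδ : 0 < δ) {s : ℂ} (hs : δ ≤ s.re) (hR : ‖s‖ ≤ R) :
    ‖(x : ℂ) ^ (-s) - ((x + 1 : ℝ) : ℂ) ^ (-s)‖ ≤ R * x ^ (-δ - 1) := by
  have hs0 : -s ≠ 0 := by
    intro h
    rw [neg_eq_zero] at h
    rw [h, zero_re] at hs
    linarith
  have h := norm_image_sub_le_of_norm_deriv_le_segment' (a := x) (b := x + 1)
    (f := fun y : ℝ => (y : ℂ) ^ (-s)) (f' := fun y : ℝ => -s * (y : ℂ) ^ (-s - 1))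
    (C := R * x ^ (-δ - 1))
    (fun y hy => (hasDerivAt_ofReal_cpow_const (by linarith [hy.1]) hs0).hasDerivWithinAt)
    (fun y hy => by
      have hy0 : 0 < y := by linarith [hy.1]
      rw [norm_mul, norm_neg, norm_cpow_eq_rpow_re_of_pos hy0]
      refine mul_le_mul hR ?_ (Real.rpow_nonneg hy0.le _) ((norm_nonneg _).trans hR)
      calc y ^ (-s - 1).re ≤ y ^ (-δ - 1) :=
            Real.rpow_le_rpow_of_exponent_le (by linarith [hy.1]) (by simp; linarith)
        _ ≤ x ^ (-δ - 1) := Real.rpow_le_rpow_of_nonpos (by linarith) hy.1 (by linarith))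
    (x + 1) ⟨by linarith, le_rfl⟩
  rw [norm_sub_rev]
  simpa using h

theorem a2a_abel (a b : ℕ → ℂ) (N : ℕ) :
    ∑ n ∈ range N, a n * b n = (∑ n ∈ range N, a n) * b N +
      ∑ n ∈ range N, (∑ k ∈ range (n + 1), a k) * (b n - b (n + 1)) := by
  induction N with
  | zero => simp
  | succ N ih =>
    rw [sum_range_succ, ih, sum_range_succ (fun n => (∑ k ∈ range (n + 1), a k) *
      (b n - b (n + 1))), sum_range_succ a N]
    ring

/-- a Dirichlet series with bounded coefficient sums -/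
theorem a2a_series (a : ℕ → ℂ) {M : ℝ} (hM : ∀ N, ‖∑ n ∈ range N, a n‖ ≤ M) {δ R : ℝ}
    (hδ : 0 < δ) : ∃ F : ℂ → ℂ, DifferentiableOn ℂ F ({s | δ < s.re} ∩ Metric.ball 0 R) ∧
      ∀ s ∈ {s : ℂ | δ < s.re} ∩ Metric.ball 0 R,
        Tendsto (fun N : ℕ => ∑ n ∈ range N, a n * ((n + 1 : ℕ) : ℂ) ^ (-s)) atTop (𝓝 (F s)) := by
  have hM0 : 0 ≤ M := (norm_nonneg _).trans (hM 0)
  have hsum : Summable fun n : ℕ => M * (R * ((n + 1 : ℕ) : ℝ) ^ (-δ - 1)) := by
    refine Summable.mul_left _ (Summable.mul_left _ ?_)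
    exact (summable_nat_add_iff (f := fun n : ℕ => (n : ℝ) ^ (-δ - 1)) 1).2
      (Real.summable_nat_rpow.2 (by linarith))
  have hle : ∀ (n : ℕ) (s : ℂ), s ∈ {s : ℂ | δ < s.re} ∩ Metric.ball 0 R →
      ‖(∑ k ∈ range (n + 1), a k) * (((n + 1 : ℕ) : ℂ) ^ (-s) - ((n + 1 + 1 : ℕ) : ℂ) ^ (-s))‖ ≤
        M * (R * ((n + 1 : ℕ) : ℝ) ^ (-δ - 1)) := by
    intro n s hs
    rw [norm_mul]
    refine mul_le_mul (hM _) ?_ (norm_nonneg _) hM0
    have h := a2a_diff (x := ((n + 1 : ℕ) : ℝ)) (by exact_mod_cast Nat.le_add_left 1 n) hδ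
      (le_of_lt hs.1) (mem_ball_zero_iff.1 hs.2).le
    have e1 : (((n + 1 : ℕ) : ℝ) : ℂ) = ((n + 1 : ℕ) : ℂ) := by push_cast; rfl
    have e2 : ((((n + 1 : ℕ) : ℝ) + 1 : ℝ) : ℂ) = ((n + 1 + 1 : ℕ) : ℂ) := by push_cast; rfl
    rwa [e1, e2] at h
  refine ⟨fun s => ∑' n : ℕ, (∑ k ∈ range (n + 1), a k) *
    (((n + 1 : ℕ) : ℂ) ^ (-s) - ((n + 1 + 1 : ℕ) : ℂ) ^ (-s)), ?_, fun s hs => ?_⟩
  · refine differentiableOn_tsum_of_summable_norm hsum (fun n => ?_)
      ((isOpen_lt continuous_const continuous_re).inter Metric.isOpen_ball) hle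
    refine Differentiable.differentiableOn (Differentiable.const_mul ?_ _)
    exact (differentiable_neg.const_cpow (Or.inl (Nat.cast_ne_zero.2 (by omega)))).sub
      (differentiable_neg.const_cpow (Or.inl (Nat.cast_ne_zero.2 (by omega))))
  · have h1 := (Summable.of_norm_bounded hsum fun n => hle n s hs).hasSum.tendsto_sum_nat
    have h2 : Tendsto (fun N : ℕ => (∑ n ∈ range N, a n) * ((N + 1 : ℕ) : ℂ) ^ (-s)) atTop
        (𝓝 0) := by
      have h3 : Tendsto (fun N : ℕ => M * ((N + 1 : ℕ) : ℝ) ^ (-s.re)) atTop (𝓝 (M * 0)) :=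
        ((tendsto_rpow_neg_atTop (hδ.trans hs.1)).comp
          (tendsto_natCast_atTop_atTop.comp (tendsto_add_atTop_nat 1))).const_mul M
      rw [mul_zero] at h3
      refine squeeze_zero_norm (fun N => ?_) h3
      rw [norm_mul, norm_natCast_cpow_of_pos (Nat.succ_pos N), neg_re]
      exact mul_le_mul_of_nonneg_right (hM N) (Real.rpow_nonneg (Nat.cast_nonneg _) _)
    have h4 := h2.add h1
    rw [zero_add] at h4
    refine h4.congr fun N => ?_
    exact (a2a_abel a (fun n => ((n + 1 : ℕ) : ℂ) ^ (-s)) N).symm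

theorem a2a_one_lt {q : ℕ} [NeZero q] (ξ : DirichletCharacter ℂ q) {s : ℂ} (hs : 1 < s.re) :
    Tendsto (fun N : ℕ => ∑ n ∈ range N, ξ ((n + 1 : ℕ) : ZMod q) * ((n + 1 : ℕ) : ℂ) ^ (-s))
      atTop (𝓝 (ξ.LFunction s)) := by
  rw [ξ.LFunction_eq_LSeries hs]
  have h1 := (ξ.LSeriesSummable_of_one_lt_re hs).hasSum
  have h2 := ((hasSum_nat_add_iff' 1).2 h1).tendsto_sum_nat
  simp only [range_one, sum_singleton, LSeries.term_zero, sub_zero] at h2
  refine h2.congr fun N => sum_congr rfl fun n _ => ?_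
  rw [LSeries.term_of_ne_zero (Nat.succ_ne_zero n), cpow_neg, div_eq_mul_inv]

theorem lfun_tendsto {q : ℕ} [NeZero q] (ξ : DirichletCharacter ℂ q) (hξ : ξ ≠ 1) {s : ℂ}
    (hs : 0 < s.re) :
    Tendsto (fun N : ℕ => ∑ n ∈ Ioc 0 N, ξ (n : ZMod q) * (n : ℂ) ^ (-s)) atTop
      (𝓝 (ξ.LFunction s)) := by
  obtain ⟨F, hF, hF'⟩ := a2a_series (fun n => ξ ((n + 1 : ℕ) : ZMod q)) (a2a_bound ξ hξ)
    (δ := s.re / 2) (R := ‖s‖ + 2) (by linarith)
  have hU : IsOpen ({w : ℂ | s.re / 2 < w.re} ∩ Metric.ball 0 (‖s‖ + 2)) :=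
    (isOpen_lt continuous_const continuous_re).inter Metric.isOpen_ball
  have hc : Convex ℝ ({w : ℂ | s.re / 2 < w.re} ∩ Metric.ball 0 (‖s‖ + 2)) :=
    (convex_halfSpace_re_gt _).inter (convex_ball _ _)
  have hs1 : s ∈ {w : ℂ | s.re / 2 < w.re} ∩ Metric.ball 0 (‖s‖ + 2) :=
    ⟨show s.re / 2 < s.re by linarith, mem_ball_zero_iff.2 (by linarith)⟩
  have hs2 : s + 1 ∈ {w : ℂ | s.re / 2 < w.re} ∩ Metric.ball 0 (‖s‖ + 2) := by
    refine ⟨show s.re / 2 < (s + 1).re by simp; linarith, mem_ball_zero_iff.2 ?_⟩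
    have := norm_add_le s 1
    rw [norm_one] at this
    linarith
  have hev : F =ᶠ[𝓝 (s + 1)] ξ.LFunction := by
    filter_upwards [hU.mem_nhds hs2, (isOpen_lt continuous_const continuous_re).mem_nhds
      (show 1 < (s + 1).re by simpa using hs)] with w hw hw'
    exact tendsto_nhds_unique (hF' w hw) (a2a_one_lt ξ hw')
  have heq := (hF.analyticOnNhd hU).eqOn_of_preconnected_of_eventuallyEq
    ((DirichletCharacter.differentiable_LFunction hξ).differentiableOn.analyticOnNhd hU)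
    hc.isPreconnected hs2 hev hs1
  rw [← heq]
  refine (hF' s hs1).congr fun N => ?_
  rw [← Nat.Ico_zero_eq_range, ← Finset.Ico_add_one_add_one_eq_Ioc]
  exact Finset.sum_Ico_add' (fun n : ℕ => ξ (n : ZMod q) * (n : ℂ) ^ (-s)) 0 N 1

theorem lfun_conj {q : ℕ} [NeZero q] (ξ : DirichletCharacter ℂ q) (hξ : ξ ≠ 1) (s : ℂ) :
    (ξ⁻¹).LFunction (starRingEnd ℂ s) = starRingEnd ℂ (ξ.LFunction s) := by
  have h1 : Differentiable ℂ (ξ⁻¹).LFunction :=
    DirichletCharacter.differentiable_LFunction (inv_ne_one.2 hξ)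
  have h2 : Differentiable ℂ (starRingEnd ℂ ∘ ξ.LFunction ∘ starRingEnd ℂ) := fun w =>
    differentiableAt_conj_conj_iff.2 (DirichletCharacter.differentiable_LFunction hξ _)
  have hev : (ξ⁻¹).LFunction =ᶠ[𝓝 1] starRingEnd ℂ ∘ ξ.LFunction ∘ starRingEnd ℂ := by
    filter_upwards [(isOpen_lt continuous_const continuous_re).mem_nhds
      (show (0 : ℝ) < (1 : ℂ).re by simp)] with w hw
    have h3 := (continuous_conj.tendsto _).comp
      (lfun_tendsto ξ hξ (s := starRingEnd ℂ w) (by simpa using hw))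
    refine tendsto_nhds_unique (lfun_tendsto ξ⁻¹ (inv_ne_one.2 hξ) hw) (h3.congr fun N => ?_)
    simp only [Function.comp_apply, map_sum, map_mul]
    refine sum_congr rfl fun n _ => ?_
    have h4 := conj_cpow (n : ℂ) (-w) (by rw [natCast_arg]; exact Real.pi_ne_zero.symm)
    rw [map_natCast, map_neg] at h4
    rw [← h4, ← MulChar.star_apply']
    rfl
  have h5 := AnalyticOnNhd.eq_of_eventuallyEq
    (h1.differentiableOn.analyticOnNhd isOpen_univ)
    (h2.differentiableOn.analyticOnNhd isOpen_univ) hev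
  rw [h5]
  simp

theorem order_conj {f g : ℂ → ℂ} (hf : Differentiable ℂ f)
    (h : ∀ s, g (starRingEnd ℂ s) = starRingEnd ℂ (f s)) (ρ : ℂ) :
    analyticOrderNatAt g (starRingEnd ℂ ρ) = analyticOrderNatAt f ρ := by
  have hg : g = starRingEnd ℂ ∘ f ∘ starRingEnd ℂ := by
    funext w
    have := h (starRingEnd ℂ w)
    rwa [conj_conj] at this
  have ht : Tendsto (starRingEnd ℂ) (𝓝 (starRingEnd ℂ ρ)) (𝓝 ρ) := by
    have := continuous_conj.tendsto (starRingEnd ℂ ρ)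
    rwa [conj_conj] at this
  have han : ∀ u : ℂ → ℂ, AnalyticAt ℂ u ρ →
      AnalyticAt ℂ (starRingEnd ℂ ∘ u ∘ starRingEnd ℂ) (starRingEnd ℂ ρ) := by
    intro u hu
    rw [analyticAt_iff_eventually_differentiableAt] at hu ⊢
    filter_upwards [ht.eventually hu] with w hw
    exact differentiableAt_conj_conj_iff.2 hw
  have key : analyticOrderAt g (starRingEnd ℂ ρ) = analyticOrderAt f ρ := by
    cases ho : analyticOrderAt f ρ with
    | top =>
      rw [analyticOrderAt_eq_top] at ho ⊢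
      filter_upwards [ht.eventually ho] with w hw
      simp [hg, hw]
    | coe n =>
      obtain ⟨u, hu, hu0, hu'⟩ := (hf.analyticAt ρ).analyticOrderAt_eq_natCast.1 ho
      rw [hg]
      refine (han f (hf.analyticAt ρ)).analyticOrderAt_eq_natCast.2 ⟨_, han u hu, by simpa, ?_⟩
      filter_upwards [ht.eventually hu'] with w hw
      simp [hw]
  unfold analyticOrderNatAt
  rw [key]

end Pool.Agent.Lib.MP_e97e2b_nt.Ln
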