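import Pool.Agent.Lib.MP_e97e2b_nt.Ln.K1

/- Positivity of cosine transforms of convex decreasing functions (Polya).
Proof of `polya`: for y = 0 the integrand is nonnegative (g is convex, g T = 0, g1 T ≤ 0, so g1 ≤ 0 and
g ≥ 0 on [0,T]).  For y ≠ 0 integrate by parts twice, with the primitives sin (y t) / y and
(1 - cos (y t)) / y^2: the integral equals
  -g1 T * (1 - cos (y T)) / y^2 + ∫ g2 t * (1 - cos (y t)) / y^2.
In the three applications the real part of II T (a + y I) is ∫ (T - t) exp (a t) cos (y t), and for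
g t = (T - t) k t one has g2 = (T - t) k'' - 2 k', g1 T = - k T. -/

namespace Pool.Agent.Lib.MP_e97e2b_nt.Ln

open Complex Finset

theorem polya (g g1 g2 : ℝ → ℝ) (T y : ℝ) (hT : 0 ≤ T) (h1 : ∀ t, HasDerivAt g (g1 t) t)
    (h2 : ∀ t, HasDerivAt g1 (g2 t) t) (hc : Continuous g2) (hgT : g T = 0) (hg1 : g1 T ≤ 0)
    (hg2 : ∀ t, 0 ≤ t → t ≤ T → 0 ≤ g2 t) :
    0 ≤ ∫ t in (0 : ℝ)..T, g t * Real.cos (y * t) := by
  have hg1c : Continuous g1 := continuous_iff_continuousAt.2 fun t => (h2 t).continuousAt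
  have hgc : Continuous g := continuous_iff_continuousAt.2 fun t => (h1 t).continuousAt
  by_cases hy : y = 0
  · subst hy
    have key : ∫ t in (0 : ℝ)..T, (g t - g2 t * (t ^ 2 / 2)) =
        (g T * T - g1 T * (T ^ 2 / 2)) - (g 0 * 0 - g1 0 * (0 ^ 2 / 2)) := by
      refine intervalIntegral.integral_eq_sub_of_hasDerivAt
        (f := fun t => g t * t - g1 t * (t ^ 2 / 2)) (fun t _ => ?_)
        (Continuous.intervalIntegrable (by fun_prop) _ _)
      have a := ((h1 t).mul (hasDerivAt_id t)).sub
        ((h2 t).mul ((hasDerivAt_pow 2 t).div_const 2))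
      refine HasDerivAt.congr_deriv a ?_
      simp
      ring
    rw [intervalIntegral.integral_sub (hgc.intervalIntegrable _ _)
      (Continuous.intervalIntegrable (by fun_prop) _ _), hgT] at key
    have h3 : 0 ≤ ∫ t in (0 : ℝ)..T, g2 t * (t ^ 2 / 2) :=
      intervalIntegral.integral_nonneg hT fun t ht => mul_nonneg (hg2 t ht.1 ht.2) (by positivity)
    have h4 : 0 ≤ -g1 T * (T ^ 2 / 2) := mul_nonneg (by linarith) (by positivity)
    simp only [zero_mul, Real.cos_zero, mul_one]
    linarith
  · have key : ∫ t in (0 : ℝ)..T, (g t * Real.cos (y * t) - g2 t * ((1 - Real.cos (y * t)) / y ^ 2)) =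
        (g T * (Real.sin (y * T) / y) - g1 T * ((1 - Real.cos (y * T)) / y ^ 2)) -
          (g 0 * (Real.sin (y * 0) / y) - g1 0 * ((1 - Real.cos (y * 0)) / y ^ 2)) := by
      refine intervalIntegral.integral_eq_sub_of_hasDerivAt
        (f := fun t => g t * (Real.sin (y * t) / y) - g1 t * ((1 - Real.cos (y * t)) / y ^ 2))
        (fun t _ => ?_) (Continuous.intervalIntegrable (by fun_prop) _ _)
      have b : HasDerivAt (fun t => y * t) y t := by simpa using (hasDerivAt_id t).const_mul y
      have a := ((h1 t).mul (b.sin.div_const y)).sub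
        ((h2 t).mul ((b.cos.const_sub 1).div_const (y ^ 2)))
      refine HasDerivAt.congr_deriv a ?_
      field_simp
      ring
    rw [intervalIntegral.integral_sub (Continuous.intervalIntegrable (by fun_prop) _ _)
      (Continuous.intervalIntegrable (by fun_prop) _ _), hgT] at key
    have h5 : ∀ t, 0 ≤ (1 - Real.cos (y * t)) / y ^ 2 := fun t =>
      div_nonneg (by linarith [Real.cos_le_one (y * t)]) (sq_nonneg y)
    have h3 : 0 ≤ ∫ t in (0 : ℝ)..T, g2 t * ((1 - Real.cos (y * t)) / y ^ 2) :=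
      intervalIntegral.integral_nonneg hT fun t ht => mul_nonneg (hg2 t ht.1 ht.2) (h5 t)
    have h4 : 0 ≤ -g1 T * ((1 - Real.cos (y * T)) / y ^ 2) := mul_nonneg (by linarith) (h5 T)
    simp only [mul_zero, Real.sin_zero, Real.cos_zero, sub_self, zero_div, zero_mul] at key
    linarith

theorem II_re (T : ℝ) (z : ℂ) :
    (II T z).re = ∫ t in (0 : ℝ)..T, (T - t) * Real.exp (z.re * t) * Real.cos (z.im * t) := by
  unfold II Lap
  have hc : Continuous fun t : ℝ => ((T - t : ℝ) : ℂ) * exp (z * t) := by fun_prop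
  rw [← reCLM_apply, ← ContinuousLinearMap.intervalIntegral_comp_comm _
    (hc.intervalIntegrable _ _)]
  refine intervalIntegral.integral_congr fun t _ => ?_
  simp only [reCLM_apply, exp_re, mul_re, mul_im, ofReal_re, ofReal_im, mul_zero,
    sub_zero, zero_add]
  ring

theorem k2_der (T a t : ℝ) :
    HasDerivAt (fun t => (T - t) * Real.exp (a * t))
      (((T - t) * a - 1) * Real.exp (a * t)) t ∧
    HasDerivAt (fun t => ((T - t) * a - 1) * Real.exp (a * t))
      (((T - t) * a ^ 2 - 2 * a) * Real.exp (a * t)) t := by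
  have b : HasDerivAt (fun t => a * t) a t := by simpa using (hasDerivAt_id t).const_mul a
  have c : HasDerivAt (fun t => T - t) (-1) t := by simpa using (hasDerivAt_id t).const_sub T
  constructor
  · refine HasDerivAt.congr_deriv (c.mul b.exp) ?_
    ring
  · refine HasDerivAt.congr_deriv (((c.mul_const a).sub_const 1).mul b.exp) ?_
    ring

theorem k2_three {T c1 c2 c3 a1 a2 a3 : ℝ} (y : ℝ) (hT : 0 ≤ T)
    (h1 : 0 ≤ c1 * Real.exp (a1 * T) + c2 * Real.exp (a2 * T) + c3 * Real.exp (a3 * T))
    (h2 : ∀ t, 0 ≤ t → t ≤ T → 0 ≤ c1 * (((T - t) * a1 ^ 2 - 2 * a1) * Real.exp (a1 * t)) +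
      c2 * (((T - t) * a2 ^ 2 - 2 * a2) * Real.exp (a2 * t)) +
      c3 * (((T - t) * a3 ^ 2 - 2 * a3) * Real.exp (a3 * t))) :
    0 ≤ c1 * (II T (a1 + y * I)).re + c2 * (II T (a2 + y * I)).re + c3 * (II T (a3 + y * I)).re := by
  have h := polya _ _ _ T y hT
    (fun t => (((k2_der T a1 t).1.const_mul c1).add ((k2_der T a2 t).1.const_mul c2)).add
      ((k2_der T a3 t).1.const_mul c3))
    (fun t => (((k2_der T a1 t).2.const_mul c1).add ((k2_der T a2 t).2.const_mul c2)).add
      ((k2_der T a3 t).2.const_mul c3)) (by fun_prop) (by simp) (by simp only [sub_self]; linarith) h2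
  refine h.trans (le_of_eq ?_)
  simp only [II_re, add_re, add_im, ofReal_re, ofReal_im, mul_re, mul_im, I_re, I_im, mul_zero,
    mul_one, sub_self, add_zero, zero_add]
  rw [← intervalIntegral.integral_const_mul, ← intervalIntegral.integral_const_mul,
    ← intervalIntegral.integral_const_mul,
    ← intervalIntegral.integral_add (Continuous.intervalIntegrable (by fun_prop) _ _)
      (Continuous.intervalIntegrable (by fun_prop) _ _),
    ← intervalIntegral.integral_add (Continuous.intervalIntegrable (by fun_prop) _ _)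
      (Continuous.intervalIntegrable (by fun_prop) _ _)]
  refine intervalIntegral.integral_congr fun t _ => ?_
  simp only [Pi.add_apply]
  ring

theorem II_re_nonneg {T : ℝ} (hT : 0 ≤ T) {z : ℂ} (hz : z.re ≤ 0) : 0 ≤ (II T z).re := by
  have h := k2_three (c1 := 1) (c2 := 0) (c3 := 0) (a1 := z.re) (a2 := 0) (a3 := 0) z.im hT
    (by simpa using (Real.exp_pos _).le) fun t _ ht => by
      have : 0 ≤ (T - t) * z.re ^ 2 - 2 * z.re := by
        have := mul_nonneg (sub_nonneg.2 ht) (sq_nonneg z.re)
        linarith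
      simpa using mul_nonneg this (Real.exp_pos _).le
  simpa using h

/-- Kernel `c + u exp (-d t) - a exp (lam t)`.
Here g2 = u exp (-d t) (d^2 (T - t) + 2 d) + a lam exp (lam t) (2 - lam (T - t)). -/
theorem ker_two {T c u a d lam : ℝ} (y : ℝ) (hT : 0 ≤ T) (hu : 0 ≤ u) (ha : 0 ≤ a) (hd : 0 ≤ d)
    (hl : 0 ≤ lam) (hlT : lam * T ≤ 2)
    (h : a * Real.exp (lam * T) ≤ c + u * Real.exp (-(d * T))) :
    a * (II T (lam + y * I)).re ≤ c * (II T (y * I)).re + u * (II T (-d + y * I)).re := by
  have h3 := k2_three (c1 := c) (c2 := u) (c3 := -a) (a1 := 0) (a2 := -d) (a3 := lam) y hT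
    (by simp only [zero_mul, Real.exp_zero, neg_mul]; linarith) fun t h0 ht => by
      have e1 : 0 ≤ u * (((T - t) * (-d) ^ 2 - 2 * -d) * Real.exp (-d * t)) := by
        have := mul_nonneg (sub_nonneg.2 ht) (sq_nonneg (-d))
        exact mul_nonneg hu (mul_nonneg (by linarith) (Real.exp_pos _).le)
      have e2 : 0 ≤ a * ((lam * (2 - lam * (T - t))) * Real.exp (lam * t)) := by
        have := mul_nonneg hl h0
        exact mul_nonneg ha (mul_nonneg (mul_nonneg hl (by linarith)) (Real.exp_pos _).le)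
      linarith
  simp only [ofReal_zero, zero_add, ofReal_neg] at h3
  linarith

/-- Kernel `u exp (-d t) + v exp (d t)`.
Here g2 ≥ 2 d (u exp (-d t) - v exp (d t)) ≥ 0. -/
theorem ker_three {T u v d : ℝ} (y : ℝ) (hT : 0 ≤ T) (hv : 0 ≤ v) (hd : 0 ≤ d)
    (h : v * Real.exp (2 * d * T) ≤ u) :
    0 ≤ u * (II T (-d + y * I)).re + v * (II T (d + y * I)).re := by
  have hu : 0 ≤ u := le_trans (mul_nonneg hv (Real.exp_pos _).le) h
  have h3 := k2_three (c1 := u) (c2 := v) (c3 := 0) (a1 := -d) (a2 := d) (a3 := 0) y hT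
    (by have := Real.exp_pos (-d * T); have := Real.exp_pos (d * T); positivity) fun t h0 ht => by
      have p1 := Real.exp_pos (-d * t)
      have p2 := Real.exp_pos (d * t)
      have e1 : v * Real.exp (d * t) ≤ u * Real.exp (-d * t) := by
        have e3 : Real.exp (d * t) ≤ Real.exp (2 * d * T) * Real.exp (-d * t) := by
          rw [← Real.exp_add]
          apply Real.exp_le_exp.2
          have := mul_le_mul_of_nonneg_left ht hd
          linarith
        calc _ ≤ v * (Real.exp (2 * d * T) * Real.exp (-d * t)) := by gcongr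
          _ = v * Real.exp (2 * d * T) * Real.exp (-d * t) := by ring
          _ ≤ _ := by gcongr
      have e2 := mul_le_mul_of_nonneg_left e1 hd
      have e4 : 0 ≤ (T - t) * d ^ 2 * (u * Real.exp (-d * t) + v * Real.exp (d * t)) := by
        have := sub_nonneg.2 ht
        positivity
      linarith
  simp only [ofReal_neg] at h3
  linarith

/-- The real part is even in the height. -/
theorem II_re_neg (T a y : ℝ) : (II T (a - y * I)).re = (II T (a + y * I)).re := by
  have e : (a : ℂ) - y * I = starRingEnd ℂ (a + y * I) := by simp [sub_eq_add_neg]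
  rw [e, II_conj, conj_re]

end Pool.Agent.Lib.MP_e97e2b_nt.Ln
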