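import Pool.Agent.Lib.MP_e97e2b_nt.Ln.Defs

/- Closed forms and elementary bounds for the Laplace transforms. -/

namespace Pool.Agent.Lib.MP_e97e2b_nt.Ln

open Complex Finset

theorem Lap_conj (g : ℝ → ℝ) (T : ℝ) (z : ℂ) :
    Lap g T (starRingEnd ℂ z) = starRingEnd ℂ (Lap g T z) := by
  rw [Lap, Lap, ← intervalIntegral.intervalIntegral_conj]
  refine intervalIntegral.integral_congr fun t _ => ?_
  simp only [map_mul, conj_ofReal, ← exp_conj]

theorem II_conj (T : ℝ) (z : ℂ) : II T (starRingEnd ℂ z) = starRingEnd ℂ (II T z) :=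
  Lap_conj _ _ _

theorem II_ofReal (T a : ℝ) : II T (a : ℂ) = (JJ T a : ℂ) := by
  rw [II, Lap, JJ, ← intervalIntegral.integral_ofReal]
  refine intervalIntegral.integral_congr fun t _ => ?_
  simp only [ofReal_mul, ofReal_exp]

theorem JJ_zero (T : ℝ) : JJ T 0 = T ^ 2 / 2 := by
  have h : ∀ t ∈ Set.uIcc 0 T, HasDerivAt (fun t : ℝ => T * t - t * t / 2)
      ((T - t) * Real.exp (0 * t)) t := fun t _ => by
    refine (((hasDerivAt_id t).const_mul T).sub
      (((hasDerivAt_id t).mul (hasDerivAt_id t)).div_const 2)).congr_deriv ?_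
    simp only [id, zero_mul, Real.exp_zero]
    ring
  rw [JJ, intervalIntegral.integral_eq_sub_of_hasDerivAt h (Continuous.intervalIntegrable
    (by fun_prop) _ _)]
  ring

theorem II_zero (T : ℝ) : II T 0 = ((T ^ 2 / 2 : ℝ) : ℂ) := by
  rw [← JJ_zero, ← II_ofReal, ofReal_zero]

theorem II_closed (T : ℝ) {z : ℂ} (hz : z ≠ 0) :
    II T z = (exp (z * T) - 1 - z * T) / z ^ 2 := by
  have h : ∀ t ∈ Set.uIcc 0 T, HasDerivAt
      (fun t : ℝ => (((T : ℂ) - t) * z + 1) * exp (z * t) / z ^ 2)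
      (((T - t : ℝ) : ℂ) * exp (z * t)) t := fun t _ => by
    have h1 : HasDerivAt (fun w : ℂ => (((T : ℂ) - w) * z + 1) * exp (z * w) / z ^ 2)
        (((T - t : ℝ) : ℂ) * exp (z * t)) (t : ℂ) := by
      refine ((((((hasDerivAt_id (t : ℂ)).const_sub (T : ℂ)).mul_const z).add_const 1).mul
        ((hasDerivAt_id (t : ℂ)).const_mul z).cexp).div_const (z ^ 2)).congr_deriv ?_
      simp only [id, ofReal_sub]
      field_simp
      ring
    exact h1.comp_ofReal
  rw [II, Lap, intervalIntegral.integral_eq_sub_of_hasDerivAt h (Continuous.intervalIntegrable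
    (by fun_prop) _ _)]
  simp only [ofReal_zero, mul_zero, exp_zero]
  ring

theorem JJ_closed (T : ℝ) {a : ℝ} (ha : a ≠ 0) :
    JJ T a = (Real.exp (a * T) - 1 - a * T) / a ^ 2 := by
  apply ofReal_injective
  rw [← II_ofReal, II_closed T (ofReal_ne_zero.2 ha)]
  push_cast
  rfl

theorem JJ_mono {T a b : ℝ} (hT : 0 ≤ T) (hab : a ≤ b) : JJ T a ≤ JJ T b := by
  refine intervalIntegral.integral_mono_on hT (Continuous.intervalIntegrable (by fun_prop) _ _)
    (Continuous.intervalIntegrable (by fun_prop) _ _) fun t ht => ?_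
  exact mul_le_mul_of_nonneg_left (Real.exp_le_exp.2 (mul_le_mul_of_nonneg_right hab ht.1))
    (sub_nonneg.2 ht.2)

theorem JJ_nonneg {T : ℝ} (hT : 0 ≤ T) (a : ℝ) : 0 ≤ JJ T a := by
  exact intervalIntegral.integral_nonneg hT fun t ht =>
    mul_nonneg (sub_nonneg.2 ht.2) (Real.exp_pos _).le

/-- Pointwise `c * exp (a t) ≤ exp (b t)` on `[0, T]` gives the same for the transforms. -/
theorem JJ_mul_le {T a b c : ℝ} (hT : 0 ≤ T)
    (h : ∀ t, 0 ≤ t → t ≤ T → c * Real.exp (a * t) ≤ Real.exp (b * t)) :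
    c * JJ T a ≤ JJ T b := by
  rw [JJ, ← intervalIntegral.integral_const_mul]
  refine intervalIntegral.integral_mono_on hT (Continuous.intervalIntegrable (by fun_prop) _ _)
    (Continuous.intervalIntegrable (by fun_prop) _ _) fun t ht => ?_
  rw [mul_left_comm]
  exact mul_le_mul_of_nonneg_left (h t ht.1 ht.2) (sub_nonneg.2 ht.2)

theorem norm_II_le {T : ℝ} (hT : 0 ≤ T) (z : ℂ) : ‖II T z‖ ≤ JJ T z.re := by
  refine (intervalIntegral.norm_integral_le_integral_norm hT).trans (le_of_eq ?_)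
  refine intervalIntegral.integral_congr fun t ht => ?_
  rw [Set.uIcc_of_le hT] at ht
  simp only [norm_mul, norm_real, norm_exp, mul_re, ofReal_re, ofReal_im, mul_zero, sub_zero,
    Real.norm_of_nonneg (sub_nonneg.2 ht.2)]

theorem VV_closed (K : ℝ) {z : ℂ} (hz : z ≠ 0) : VV K z = (exp (z * K) - 1) / z := by
  rw [VV, integral_exp_mul_complex hz, ofReal_zero, mul_zero, exp_zero]

theorem WW_zero (K : ℝ) : WW K 0 = (K : ℂ) ^ 2 := by
  simp [WW, VV]

/-- Second difference of the triangle transforms. -/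
theorem WW_eq (K : ℝ) (z : ℂ) :
    II AA z - 2 * II (AA - K) z + II (AA - 2 * K) z = WW K z := by
  rcases eq_or_ne z 0 with rfl | hz
  · rw [II_zero, II_zero, II_zero, WW_zero]
    push_cast
    ring
  · have h1 : exp (z * (AA : ℝ)) =
        exp (((AA - 2 * K : ℝ) : ℂ) * z) * exp (z * K) * exp (z * K) := by
      rw [← exp_add, ← exp_add]
      refine congrArg exp ?_
      push_cast
      ring
    have h2 : exp (z * ((AA - K : ℝ) : ℂ)) = exp (((AA - 2 * K : ℝ) : ℂ) * z) * exp (z * K) := by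
      rw [← exp_add]
      refine congrArg exp ?_
      push_cast
      ring
    rw [II_closed _ hz, II_closed _ hz, II_closed _ hz, WW, VV_closed _ hz, h1, h2,
      mul_comm z ((AA - 2 * K : ℝ) : ℂ)]
    generalize exp (((AA - 2 * K : ℝ) : ℂ) * z) = E
    push_cast
    ring

theorem norm_WW (K : ℝ) (z : ℂ) :
    ‖WW K z‖ = Real.exp ((AA - 2 * K) * z.re) * ‖VV K z‖ ^ 2 := by
  rw [WW, norm_mul, norm_pow, norm_exp, re_ofReal_mul]

theorem norm_WW_far {K : ℝ} (hK : 0 ≤ K) (hK2 : K ≤ 2) {z : ℂ} (hz : z.re ≤ 0) (h0 : z ≠ 0) :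
    ‖WW K z‖ ≤ 4 / ‖z‖ ^ 2 := by
  have h1 : Real.exp ((AA - 2 * K) * z.re) ≤ 1 :=
    Real.exp_le_one_iff.2 (mul_nonpos_of_nonneg_of_nonpos (by rw [AA]; linarith) hz)
  have h2 : ‖exp (z * K)‖ ≤ 1 := by
    rw [norm_exp, re_mul_ofReal]
    exact Real.exp_le_one_iff.2 (mul_nonpos_of_nonpos_of_nonneg hz hK)
  have h3 : ‖VV K z‖ ≤ 2 / ‖z‖ := by
    rw [VV_closed _ h0, norm_div]
    refine div_le_div_of_nonneg_right ((norm_sub_le _ _).trans ?_) (norm_nonneg _)
    rw [norm_one]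
    linarith
  have h4 := pow_le_pow_left₀ (norm_nonneg _) h3 2
  rw [div_pow, show (2 : ℝ) ^ 2 = 4 by norm_num] at h4
  rw [norm_WW]
  exact (mul_le_of_le_one_left (sq_nonneg _) h1).trans h4

/-- At real points `WW` is a nonnegative real number. -/
theorem WW_real (K x : ℝ) : ∃ w : ℝ, 0 ≤ w ∧ WW K (x : ℂ) = (w : ℂ) := by
  refine ⟨Real.exp ((AA - 2 * K) * x) * (∫ t in (0 : ℝ)..K, Real.exp (x * t)) ^ 2,
    mul_nonneg (Real.exp_pos _).le (sq_nonneg _), ?_⟩
  rw [WW, VV, ofReal_mul, ofReal_pow, ← intervalIntegral.integral_ofReal]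
  simp only [ofReal_mul, ofReal_exp]

theorem kap_nonneg {Λ K t : ℝ} (hΛ : 0 < Λ) (ht : t ≤ K) : 0 ≤ kap Λ K t := by
  refine div_nonneg (sub_nonneg.2 (Real.exp_le_one_iff.2 (neg_nonpos.2 ?_))) (by positivity)
  exact mul_nonneg (by positivity) (sub_nonneg.2 ht)

theorem kap_zero_le {Λ K : ℝ} (hΛ : 0 < Λ) : kap Λ K 0 ≤ K := by
  rw [kap, div_le_iff₀ (by positivity), sub_zero]
  linarith [Real.add_one_le_exp (-(2 * Λ * K))]

theorem KK_zero {Λ : ℝ} (hΛ : 0 < Λ) (K : ℝ) : KK Λ K 0 = (kone Λ K : ℂ) := by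
  have h : ∀ t ∈ Set.uIcc 0 K, HasDerivAt
      (fun t : ℝ => (t - Real.exp (-(2 * Λ * (K - t))) / (2 * Λ)) / (2 * Λ)) (kap Λ K t) t := by
    intro t _
    refine (((hasDerivAt_id t).sub (((((hasDerivAt_id t).const_sub K).const_mul
      (2 * Λ)).neg.exp).div_const (2 * Λ))).div_const (2 * Λ)).congr_deriv ?_
    simp only [kap, id, Pi.neg_apply]
    field_simp
  have h1 : ∫ t in (0 : ℝ)..K, kap Λ K t = kone Λ K := by
    rw [intervalIntegral.integral_eq_sub_of_hasDerivAt h (Continuous.intervalIntegrable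
      (by unfold kap; fun_prop) _ _), kone]
    simp only [sub_self, mul_zero, neg_zero, Real.exp_zero, sub_zero]
    field_simp
    ring
  rw [KK, Lap, ← h1, ← intervalIntegral.integral_ofReal]
  simp only [zero_mul, exp_zero, mul_one]

theorem kone_nonneg {Λ K : ℝ} (hΛ : 0 < Λ) (hK : 0 ≤ K) : 0 ≤ kone Λ K := by
  refine div_nonneg ?_ (by positivity)
  linarith [Real.add_one_le_exp (-(2 * Λ * K)), hK]

theorem kone_le {Λ K : ℝ} (hΛ : 0 < Λ) (hK : 0 ≤ K) : kone Λ K ≤ K ^ 2 / 2 := by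
  have h0 : 0 ≤ 2 * Λ * K := by positivity
  have h1 : ∀ x : ℝ, 0 ≤ x → Real.exp (-x) ≤ 1 - x + x ^ 2 / 2 := by
    intro x hx
    have h2 := Real.quadratic_le_exp_of_nonneg hx
    have h3 : 0 < 1 + x + x ^ 2 / 2 := by positivity
    rw [Real.exp_neg]
    refine (inv_anti₀ h3 h2).trans ?_
    rw [inv_le_iff_one_le_mul₀ h3]
    nlinarith [sq_nonneg (x ^ 2)]
  rw [kone, div_le_iff₀ (by positivity)]
  nlinarith [h1 _ h0]

theorem ww_nonneg {K : ℝ} (hK : 0 ≤ K) (t : ℝ) : 0 ≤ ww K t := by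
  simp only [ww, tri, max_def]
  split_ifs <;> linarith

theorem ww_le {K : ℝ} (hK : 0 ≤ K) (t : ℝ) : ww K t ≤ K := by
  simp only [ww, tri, max_def]
  split_ifs <;> linarith

theorem ww_supp {K t : ℝ} (hK : 0 ≤ K) (h : ww K t ≠ 0) : AA - 2 * K < t ∧ t < AA := by
  by_contra h1
  refine h ?_
  rw [not_and_or, not_lt, not_lt] at h1
  simp only [ww, tri, max_def]
  rcases h1 with h1 | h1 <;> split_ifs <;> linarith

end Pool.Agent.Lib.MP_e97e2b_nt.Ln
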