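import Pool.Agent.Lib.MP_e97e2b_nt.Ln.K1

/- From triangles to general test functions.
For a test function g (with derivatives g1, g2) and 0 ≤ t: Taylor's formula with integral remainder gives
  cut g T t = - g1 T * tri T t + ∫ a in 0..T, g2 a * tri a t      (both sides vanish for t > T),
  g 0 = - g1 T * T + ∫ a in 0..T, g2 a * a,
  Lap g T z = - g1 T * II T z + ∫ a in 0..T, g2 a * II a z
(for the last one integrate by parts twice: d/da II a z = VV a z, d/da VV a z = exp (z a); or use the closed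
forms).  Then integrate the hypotheses e1, e0 over a (finite sums commute with the integral).
For `Lap_far` use II a z = (exp (z a) - 1) / z^2 - a / z, so that
Lap g T z = [terms of norm ≤ 2 (B + T B) / ‖z‖^2] - g 0 / z and re (-1 / z) ≥ 0. -/

namespace Pool.Agent.Lib.MP_e97e2b_nt.Ln

open Complex Finset

variable {Γ Ω : Type} [CommGroup Γ] [Fintype Ω]

theorem c1_VV_deriv (z : ℂ) (a : ℝ) : HasDerivAt (fun a => VV a z) (exp (z * a)) a := by
  unfold VV
  have hc : Continuous fun t : ℝ => exp (z * t) := by fun_prop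
  exact (hc.integral_hasStrictDerivAt 0 a).hasDerivAt

theorem c1_II_eq (a : ℝ) (z : ℂ) :
    II a z = a * VV a z - ∫ t in (0 : ℝ)..a, (t : ℂ) * exp (z * t) := by
  unfold II Lap VV
  rw [← intervalIntegral.integral_const_mul, ← intervalIntegral.integral_sub]
  · congr 1
    ext t
    push_cast
    ring
  · exact Continuous.intervalIntegrable (by fun_prop) _ _
  · exact Continuous.intervalIntegrable (by fun_prop) _ _

theorem c1_II_deriv (z : ℂ) (a : ℝ) : HasDerivAt (fun a => II a z) (VV a z) a := by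
  have h1 : HasDerivAt (fun a : ℝ => (a : ℂ)) 1 a := Complex.ofRealCLM.hasDerivAt
  have h2 := c1_VV_deriv z a
  have hc : Continuous fun t : ℝ => (t : ℂ) * exp (z * t) := by fun_prop
  have h3 := (hc.integral_hasStrictDerivAt 0 a).hasDerivAt
  have h4 := (h1.mul h2).sub h3
  have h5 : (fun a : ℝ => II a z) =
      fun a : ℝ => (a : ℂ) * VV a z - ∫ t in (0 : ℝ)..a, (t : ℂ) * exp (z * t) := by
    ext a
    exact c1_II_eq a z
  rw [h5]
  exact HasDerivAt.congr_deriv h4 (by ring)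

theorem c1_II_cont (z : ℂ) : Continuous fun a : ℝ => II a z :=
  continuous_iff_continuousAt.2 fun a => (c1_II_deriv z a).continuousAt

theorem c1_tri_cont (t : ℝ) : Continuous fun a : ℝ => tri a t := by
  unfold tri
  fun_prop

theorem c1_cut_rep {T : ℝ} (hT : 0 ≤ T) (g g1 g2 : ℝ → ℝ) (h1 : ∀ t, HasDerivAt g (g1 t) t)
    (h2 : ∀ t, HasDerivAt g1 (g2 t) t) (hc : Continuous g2) (hgT : g T = 0) {t : ℝ} (ht : 0 ≤ t) :
    cut g T t = -g1 T * tri T t + ∫ a in (0 : ℝ)..T, g2 a * tri a t := by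
  have hi : ∀ u v : ℝ, IntervalIntegrable (fun a => g2 a * tri a t) MeasureTheory.volume u v :=
    fun u v => (hc.mul (c1_tri_cont t)).intervalIntegrable _ _
  have hz : ∀ v : ℝ, 0 ≤ v → v ≤ t → ∫ a in (0 : ℝ)..v, g2 a * tri a t = 0 := by
    intro v hv hvt
    rw [intervalIntegral.integral_congr (g := fun _ => (0 : ℝ))]
    · simp
    · intro a ha
      rw [Set.uIcc_of_le hv] at ha
      have : tri a t = 0 := max_eq_right (by linarith [ha.2])
      simp [this]
  unfold cut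
  split_ifs with htT
  · rw [← intervalIntegral.integral_add_adjacent_intervals (hi 0 t) (hi t T), hz t ht le_rfl]
    have e1 : ∫ a in t..T, g2 a * tri a t = ∫ a in t..T, g2 a * (a - t) := by
      apply intervalIntegral.integral_congr
      intro a ha
      rw [Set.uIcc_of_le htT] at ha
      have : tri a t = a - t := max_eq_left (by linarith [ha.1])
      simp [this]
    have e2 : ∫ a in t..T, g2 a * (a - t) =
        (g1 T * (T - t) - g T) - (g1 t * (t - t) - g t) := by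
      apply intervalIntegral.integral_eq_sub_of_hasDerivAt (f := fun a => g1 a * (a - t) - g a)
      · intro a _
        have := ((h2 a).mul ((hasDerivAt_id a).sub_const t)).sub (h1 a)
        exact HasDerivAt.congr_deriv this (by simp)
      · exact Continuous.intervalIntegrable (by fun_prop) _ _
    have e3 : tri T t = T - t := max_eq_left (by linarith)
    rw [e1, e2, e3, hgT]
    ring
  · push Not at htT
    have e3 : tri T t = 0 := max_eq_right (by linarith)
    rw [hz T hT htT.le, e3]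
    simp

theorem c1_zero_rep {T : ℝ} (hT : 0 ≤ T) (g g1 g2 : ℝ → ℝ) (h1 : ∀ t, HasDerivAt g (g1 t) t)
    (h2 : ∀ t, HasDerivAt g1 (g2 t) t) (hc : Continuous g2) (hgT : g T = 0) :
    (g 0 : ℂ) = -(g1 T : ℂ) * T + ∫ a in (0 : ℝ)..T, (g2 a : ℂ) * a := by
  have h := c1_cut_rep hT g g1 g2 h1 h2 hc hgT le_rfl
  have e1 : cut g T 0 = g 0 := if_pos hT
  have e2 : tri T 0 = T := by
    unfold tri
    rw [sub_zero]
    exact max_eq_left hT
  have e3 : ∫ a in (0 : ℝ)..T, g2 a * tri a 0 = ∫ a in (0 : ℝ)..T, g2 a * a := by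
    apply intervalIntegral.integral_congr
    intro a ha
    rw [Set.uIcc_of_le hT] at ha
    have : tri a 0 = a := by
      unfold tri
      rw [sub_zero]
      exact max_eq_left ha.1
    simp [this]
  rw [e1, e2, e3] at h
  rw [h]
  push_cast
  rw [← intervalIntegral.integral_ofReal]
  push_cast
  rfl

theorem c1_master {T B ε c : ℝ} (hT : 0 ≤ T) (hT8 : T ≤ 8) (g2 : ℝ → ℝ) (E : ℝ → ℂ)
    (hc : |c| ≤ B) (hg : ∀ t, 0 ≤ t → t ≤ T → |g2 t| ≤ B)
    (hE : ∀ t, 0 ≤ t → t ≤ T → ‖E t‖ ≤ ε) :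
    ‖-(c : ℂ) * E T + ∫ a in (0 : ℝ)..T, (g2 a : ℂ) * E a‖ ≤ 9 * B * ε := by
  have hB : 0 ≤ B := (abs_nonneg _).trans hc
  have hε : 0 ≤ ε := (norm_nonneg _).trans (hE 0 le_rfl hT)
  have a1 : ‖-(c : ℂ) * E T‖ ≤ B * ε := by
    rw [norm_mul, norm_neg, Complex.norm_real, Real.norm_eq_abs]
    exact mul_le_mul hc (hE T hT le_rfl) (norm_nonneg _) hB
  have a2 : ‖∫ a in (0 : ℝ)..T, (g2 a : ℂ) * E a‖ ≤ B * ε * |T - 0| := by
    apply intervalIntegral.norm_integral_le_of_norm_le_const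
    intro a ha
    rw [Set.uIoc_of_le hT] at ha
    rw [norm_mul, Complex.norm_real, Real.norm_eq_abs]
    exact mul_le_mul (hg a ha.1.le ha.2) (hE a ha.1.le ha.2) (norm_nonneg _) hB
  rw [sub_zero, abs_of_nonneg hT] at a2
  have a3 : B * ε * T ≤ B * ε * 8 := mul_le_mul_of_nonneg_left hT8 (mul_nonneg hB hε)
  calc _ ≤ _ := norm_add_le _ _
    _ ≤ B * ε + B * ε * 8 := add_le_add a1 (a2.trans a3)
    _ = 9 * B * ε := by ring

theorem c1_sum_rep {T : ℝ} (hT : 0 ≤ T) (g g1 g2 : ℝ → ℝ) (h1 : ∀ t, HasDerivAt g (g1 t) t)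
    (h2 : ∀ t, HasDerivAt g1 (g2 t) t) (hc : Continuous g2) (hgT : g T = 0)
    (D : Dat Γ Ω) (w : Ω → ℂ) :
    ∑ ω, ((D.μ ω * cut g T (D.t ω) : ℝ) : ℂ) * w ω =
      -(g1 T : ℂ) * (∑ ω, ((D.μ ω * tri T (D.t ω) : ℝ) : ℂ) * w ω) +
        ∫ a in (0 : ℝ)..T, (g2 a : ℂ) * ∑ ω, ((D.μ ω * tri a (D.t ω) : ℝ) : ℂ) * w ω := by
  simp_rw [Finset.mul_sum]
  rw [intervalIntegral.integral_finsetSum, ← Finset.sum_add_distrib]
  · refine Finset.sum_congr rfl fun ω _ => ?_
    rw [c1_cut_rep hT g g1 g2 h1 h2 hc hgT (D.t_nonneg ω)]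
    have e : ∫ a in (0 : ℝ)..T, (g2 a : ℂ) * (((D.μ ω * tri a (D.t ω) : ℝ) : ℂ) * w ω) =
        (D.μ ω * w ω) * ((∫ a in (0 : ℝ)..T, g2 a * tri a (D.t ω) : ℝ) : ℂ) := by
      rw [← intervalIntegral.integral_ofReal, ← intervalIntegral.integral_const_mul]
      congr 1
      ext a
      push_cast
      ring
    rw [e]
    push_cast
    ring
  · intro ω _
    have := c1_tri_cont (D.t ω)
    exact Continuous.intervalIntegrable (by fun_prop) _ _

theorem c1_sum_cont (D : Dat Γ Ω) (w : Ω → ℂ) :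
    Continuous fun a : ℝ => ∑ ω, ((D.μ ω * tri a (D.t ω) : ℝ) : ℂ) * w ω := by
  refine continuous_finsetSum _ fun ω _ => ?_
  have := c1_tri_cont (D.t ω)
  fun_prop

theorem c1_mult_cont (Z : Multiset ℂ) (c : ℂ) :
    Continuous fun a : ℝ => (Z.map fun z => II a (z - c)).sum := by
  induction Z using Multiset.induction_on with
  | empty => simpa using continuous_const
  | cons z Z ih =>
    simp only [Multiset.map_cons, Multiset.sum_cons]
    exact (c1_II_cont _).add ih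

theorem Lap_rep {T : ℝ} (hT : 0 ≤ T) (g g1 g2 : ℝ → ℝ) (h1 : ∀ t, HasDerivAt g (g1 t) t)
    (h2 : ∀ t, HasDerivAt g1 (g2 t) t) (hc : Continuous g2) (hgT : g T = 0) (z : ℂ) :
    Lap g T z = -(g1 T : ℂ) * II T z + ∫ a in (0 : ℝ)..T, (g2 a : ℂ) * II a z := by
  have hg : Continuous g := continuous_iff_continuousAt.2 fun a => (h1 a).continuousAt
  have k1 := c1_II_cont z
  have e : ∫ a in (0 : ℝ)..T, ((g2 a : ℂ) * II a z - (g a : ℂ) * exp (z * a)) =
      ((g1 T : ℂ) * II T z - (g T : ℂ) * VV T z) - ((g1 0 : ℂ) * II 0 z - (g 0 : ℂ) * VV 0 z) := by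
    apply intervalIntegral.integral_eq_sub_of_hasDerivAt
      (f := fun a => (g1 a : ℂ) * II a z - (g a : ℂ) * VV a z)
    · intro a _
      have := ((h2 a).ofReal_comp.mul (c1_II_deriv z a)).sub
        ((h1 a).ofReal_comp.mul (c1_VV_deriv z a))
      exact HasDerivAt.congr_deriv this (by ring)
    · exact Continuous.intervalIntegrable (by fun_prop) _ _
  have e1 : II 0 z = 0 := by simp [II, Lap]
  have e2 : VV 0 z = 0 := by simp [VV]
  rw [intervalIntegral.integral_sub (Continuous.intervalIntegrable (by fun_prop) _ _)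
    (Continuous.intervalIntegrable (by fun_prop) _ _), e1, e2, hgT] at e
  unfold Lap
  push_cast at e
  linear_combination -e

theorem c1_mult_rep {T : ℝ} (hT : 0 ≤ T) (g g1 g2 : ℝ → ℝ) (h1 : ∀ t, HasDerivAt g (g1 t) t)
    (h2 : ∀ t, HasDerivAt g1 (g2 t) t) (hc : Continuous g2) (hgT : g T = 0)
    (Z : Multiset ℂ) (c : ℂ) :
    (Z.map fun z => Lap g T (z - c)).sum =
      -(g1 T : ℂ) * (Z.map fun z => II T (z - c)).sum +
        ∫ a in (0 : ℝ)..T, (g2 a : ℂ) * (Z.map fun z => II a (z - c)).sum := by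
  induction Z using Multiset.induction_on with
  | empty => simp
  | cons z Z ih =>
    simp only [Multiset.map_cons, Multiset.sum_cons, mul_add]
    have k1 := c1_II_cont (z - c)
    have k2 := c1_mult_cont Z c
    rw [intervalIntegral.integral_add, ih, Lap_rep hT g g1 g2 h1 h2 hc hgT]
    · ring
    · exact Continuous.intervalIntegrable (by fun_prop) _ _
    · exact Continuous.intervalIntegrable (by fun_prop) _ _

theorem tst_zero {T B : ℝ} {g : ℝ → ℝ} (h : Tst T B g) (hT : 0 ≤ T) (hT8 : T ≤ 8) :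
    |g 0| ≤ 40 * B := by
  obtain ⟨g1, g2, h1, h2, hc, hgT, hB, hB2⟩ := h
  have hB0 : 0 ≤ B := (abs_nonneg _).trans hB
  have e := c1_zero_rep hT g g1 g2 h1 h2 hc hgT
  have a1 : ‖-(g1 T : ℂ) * T‖ ≤ B * 8 := by
    rw [norm_mul, norm_neg, Complex.norm_real, Complex.norm_real, Real.norm_eq_abs,
      Real.norm_eq_abs, abs_of_nonneg hT]
    exact mul_le_mul hB hT8 hT hB0
  have a2 : ‖∫ a in (0 : ℝ)..T, (g2 a : ℂ) * a‖ ≤ ∫ a in (0 : ℝ)..T, B * a := by
    apply intervalIntegral.norm_integral_le_of_norm_le hT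
    · refine Filter.Eventually.of_forall fun a ha => ?_
      rw [norm_mul, Complex.norm_real, Complex.norm_real, Real.norm_eq_abs,
        Real.norm_eq_abs, abs_of_nonneg ha.1.le]
      exact mul_le_mul_of_nonneg_right (hB2 a ha.1.le ha.2) ha.1.le
    · exact Continuous.intervalIntegrable (by fun_prop) _ _
  rw [intervalIntegral.integral_const_mul, integral_id] at a2
  have a3 : T ^ 2 ≤ 64 := by nlinarith
  have a4 : B * ((T ^ 2 - 0 ^ 2) / 2) ≤ B * 32 := mul_le_mul_of_nonneg_left (by linarith) hB0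
  rw [← Real.norm_eq_abs, ← Complex.norm_real, e]
  calc _ ≤ _ := norm_add_le _ _
    _ ≤ B * 8 + B * 32 := add_le_add a1 (a2.trans a4)
    _ = 40 * B := by ring

theorem Lap_far {T B : ℝ} {g : ℝ → ℝ} (h : Tst T B g) (hT : 0 ≤ T) (hT8 : T ≤ 8) (h0 : 0 ≤ g 0)
    {z : ℂ} (hz : z.re ≤ 0) (hz0 : z ≠ 0) : -(18 * B / ‖z‖ ^ 2) ≤ (Lap g T z).re := by
  obtain ⟨g1, g2, h1, h2, hc, hgT, hB, hB2⟩ := h
  have e := c1_zero_rep hT g g1 g2 h1 h2 hc hgT
  have hn : 0 < ‖z‖ := norm_pos_iff.2 hz0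
  have m := c1_master (ε := 2 / ‖z‖ ^ 2) hT hT8 g2 (fun a => (exp (z * a) - 1) / z ^ 2) hB hB2 (by
    intro t ht _
    rw [norm_div, norm_pow]
    refine div_le_div_of_nonneg_right ?_ (by positivity)
    have : ‖exp (z * t)‖ ≤ 1 := by
      rw [Complex.norm_exp, Real.exp_le_one_iff]
      simp only [mul_re, ofReal_re, ofReal_im, mul_zero, sub_zero]
      exact mul_nonpos_of_nonpos_of_nonneg hz ht
    calc _ ≤ ‖exp (z * t)‖ + ‖(1 : ℂ)‖ := norm_sub_le _ _
      _ ≤ 2 := by rw [norm_one]; linarith)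
  have key : Lap g T z = (-(g1 T : ℂ) * ((exp (z * T) - 1) / z ^ 2) +
      ∫ a in (0 : ℝ)..T, (g2 a : ℂ) * ((exp (z * a) - 1) / z ^ 2)) - (g 0 : ℂ) * z⁻¹ := by
    rw [Lap_rep hT g g1 g2 h1 h2 hc hgT, e]
    have e2 : ∫ a in (0 : ℝ)..T, (g2 a : ℂ) * II a z =
        (∫ a in (0 : ℝ)..T, (g2 a : ℂ) * ((exp (z * a) - 1) / z ^ 2)) -
          (∫ a in (0 : ℝ)..T, (g2 a : ℂ) * a) * z⁻¹ := by
      rw [← intervalIntegral.integral_mul_const, ← intervalIntegral.integral_sub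
        (Continuous.intervalIntegrable (by fun_prop) _ _)
        (Continuous.intervalIntegrable (by fun_prop) _ _)]
      congr 1
      ext a
      rw [II_closed a hz0]
      field_simp
    rw [e2, II_closed T hz0]
    field_simp
    ring
  rw [key, sub_re]
  have b1 := (abs_le.1 ((Complex.abs_re_le_norm _).trans m)).1
  have b2 : ((g 0 : ℂ) * z⁻¹).re ≤ 0 := by
    rw [re_ofReal_mul, inv_re]
    exact mul_nonpos_of_nonneg_of_nonpos h0 (div_nonpos_of_nonpos_of_nonneg hz (normSq_nonneg _))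
  have b3 : 9 * B * (2 / ‖z‖ ^ 2) = 18 * B / ‖z‖ ^ 2 := by ring
  linarith

theorem raw_one {D : Dat Γ Ω} {ε Y0 Ym T B y : ℝ} {g : ℝ → ℝ} (hR : Raw D ε Y0 Ym)
    (h : Tst T B g) (hT : 0 ≤ T) (hT8 : T ≤ 8) (hy : |y| ≤ Ym) (ψ : Γ) :
    ‖D.p1 (cut g T) y ψ + ((D.Z ψ).map fun z => Lap g T (z - y * I)).sum - g 0 * D.h ψ‖ ≤
      9 * B * ε := by
  obtain ⟨g1, g2, h1, h2, hc, hgT, hB, hB2⟩ := h
  have m := c1_master (ε := ε) hT hT8 g2
    (fun u => D.p1 (tri u) y ψ + ((D.Z ψ).map fun z => II u (z - y * I)).sum - u * D.h ψ) hB hB2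
    (fun t ht htT => hR.e1 ψ t y ht (htT.trans hT8) hy)
  convert m using 2
  have k1 : Continuous fun u : ℝ => D.p1 (tri u) y ψ := c1_sum_cont D _
  have k2 := c1_mult_cont (D.Z ψ) (y * I)
  have e1 : D.p1 (cut g T) y ψ = -(g1 T : ℂ) * D.p1 (tri T) y ψ +
      ∫ a in (0 : ℝ)..T, (g2 a : ℂ) * D.p1 (tri a) y ψ :=
    c1_sum_rep hT g g1 g2 h1 h2 hc hgT D _
  rw [e1, c1_mult_rep hT g g1 g2 h1 h2 hc hgT, c1_zero_rep hT g g1 g2 h1 h2 hc hgT]
  simp only [mul_add, mul_sub, ← mul_assoc]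
  rw [intervalIntegral.integral_sub (Continuous.intervalIntegrable (by fun_prop) _ _)
    (Continuous.intervalIntegrable (by fun_prop) _ _),
    intervalIntegral.integral_add (Continuous.intervalIntegrable (by fun_prop) _ _)
    (Continuous.intervalIntegrable (by fun_prop) _ _), intervalIntegral.integral_mul_const]
  ring

open Classical in
theorem raw_zero {D : Dat Γ Ω} {ε Y0 Ym T B y : ℝ} {g : ℝ → ℝ} (hR : Raw D ε Y0 Ym)
    (h : Tst T B g) (hT : 0 ≤ T) (hT8 : T ≤ 8) (hy : |y| ≤ Ym) (ψ : Γ) :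
    ‖D.p0 (cut g T) y ψ - (if ψ = 1 then Lap g T (-(y * I)) else 0)‖ ≤ 9 * B * ε := by
  obtain ⟨g1, g2, h1, h2, hc, hgT, hB, hB2⟩ := h
  have m := c1_master (ε := ε) hT hT8 g2
    (fun u => D.p0 (tri u) y ψ - (if ψ = 1 then II u (-(y * I)) else 0)) hB hB2
    (fun t ht htT => hR.e0 ψ t y ht (htT.trans hT8) hy)
  convert m using 2
  have k1 : Continuous fun u : ℝ => D.p0 (tri u) y ψ := c1_sum_cont D _
  have k2 := c1_II_cont (-(y * I))
  have e1 : D.p0 (cut g T) y ψ = -(g1 T : ℂ) * D.p0 (tri T) y ψ +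
      ∫ a in (0 : ℝ)..T, (g2 a : ℂ) * D.p0 (tri a) y ψ :=
    c1_sum_rep hT g g1 g2 h1 h2 hc hgT D _
  rw [e1]
  split_ifs with hψ
  · rw [Lap_rep hT g g1 g2 h1 h2 hc hgT]
    simp only [mul_sub]
    rw [intervalIntegral.integral_sub (Continuous.intervalIntegrable (by fun_prop) _ _)
      (Continuous.intervalIntegrable (by fun_prop) _ _)]
    ring
  · simp

end Pool.Agent.Lib.MP_e97e2b_nt.Ln
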