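import Pool.Agent.Lib.MP_e97e2b_nt.Ln.Defs
import Pool.Agent.Lib.MP_cdccbc_an.Divisor

/- Basic facts on r0, gp, tau.
r0 q f is the Dirichlet convolution of two completely multiplicative functions; for nonnegativity use
multiplicativity (ArithmeticFunction.IsMultiplicative.multiplicative_factorization) and
r0 (p^k) = ∑ j ≤ k, f p^j (for p coprime to q, f p = 1 or -1) or 0 (k ≥ 1, p ∣ q).
Divisor bound: Pool.Agent.Lib.MP_cdccbc_an.card_divisors_le_exp. -/

namespace Pool.Agent.Lib.MP_e97e2b_nt.Ln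

open Finset

variable {q : ℕ} {f : ℕ → ℝ}

/-- a function as an arithmetic function -/
noncomputable def s0_af (g : ℕ → ℝ) : ArithmeticFunction ℝ :=
  ⟨fun n => if n = 0 then 0 else g n, if_pos rfl⟩

theorem s0_af_apply (g : ℕ → ℝ) {n : ℕ} (hn : n ≠ 0) : s0_af g n = g n := if_neg hn

theorem s0_af_mul (g g' : ℕ → ℝ) (n : ℕ) :
    (s0_af g * s0_af g') n = ∑ d ∈ n.divisors, g d * g' (n / d) := by
  rw [ArithmeticFunction.mul_apply,
    Nat.sum_divisorsAntidiagonal fun a b => s0_af g a * s0_af g' b]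
  refine sum_congr rfl fun d hd => ?_
  have h1 := Nat.pos_of_mem_divisors hd
  have h2 := Nat.div_pos (Nat.divisor_le hd) h1
  rw [s0_af_apply _ h1.ne', s0_af_apply _ h2.ne']

theorem s0_af_mult {g : ℕ → ℝ} (h1 : g 1 = 1) (h : ∀ a b, g (a * b) = g a * g b) :
    (s0_af g).IsMultiplicative := by
  refine ⟨(s0_af_apply g one_ne_zero).trans h1, fun {a b} _ => ?_⟩
  rcases eq_or_ne a 0 with rfl | ha
  · simp
  rcases eq_or_ne b 0 with rfl | hb
  · simp
  rw [s0_af_apply _ (mul_ne_zero ha hb), s0_af_apply _ ha, s0_af_apply _ hb, h]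

theorem s0_uu_mul (q a b : ℕ) : uu q (a * b) = uu q a * uu q b := by
  unfold uu
  rw [ite_zero_mul_ite_zero, mul_one]
  exact if_congr Nat.coprime_mul_iff_left rfl rfl

theorem s0_pow (h : RC q f) (p k : ℕ) : f (p ^ k) = f p ^ k := by
  induction k with
  | zero => rw [pow_zero, pow_zero, h.one]
  | succ k ih => rw [pow_succ, pow_succ, h.mul, ih]

theorem s0_harm (N : ℕ) : ∑ n ∈ Ioc 0 N, (n : ℝ)⁻¹ ≤ 1 + Real.log N := by
  have h := harmonic_le_one_add_log N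
  simp only [harmonic_eq_sum_Icc, Rat.cast_sum, Rat.cast_inv, Rat.cast_natCast] at h
  exact h

theorem RC.cases (h : RC q f) (n : ℕ) : (n.Coprime q ∧ (f n = 1 ∨ f n = -1)) ∨
    (¬ n.Coprime q ∧ f n = 0) := by
  have h1 := h.sq n
  unfold uu at h1
  by_cases hn : n.Coprime q
  · rw [if_pos hn] at h1
    exact Or.inl ⟨hn, mul_self_eq_one_iff.1 (by rw [← pow_two, h1])⟩
  · rw [if_neg hn] at h1
    exact Or.inr ⟨hn, pow_eq_zero_iff two_ne_zero |>.1 h1⟩

theorem r0_one (h : RC q f) : r0 q f 1 = 1 := by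
  simp [r0, uu, h.one]

theorem r0_mul (h : RC q f) {a b : ℕ} (hab : a.Coprime b) :
    r0 q f (a * b) = r0 q f a * r0 q f b := by
  unfold r0
  rw [← s0_af_mul, ← s0_af_mul, ← s0_af_mul]
  exact ((s0_af_mult h.one h.mul).mul
    (s0_af_mult (by simp [uu]) (s0_uu_mul q))).map_mul_of_coprime hab

theorem s0_r0_pow (h : RC q f) {p : ℕ} (hp : p.Prime) (hq : p.Coprime q) (k : ℕ) :
    r0 q f (p ^ k) = ∑ j ∈ range (k + 1), f p ^ j := by
  unfold r0
  rw [Nat.sum_divisors_prime_pow hp]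
  refine sum_congr rfl fun j hj => ?_
  rw [Nat.pow_div (Nat.lt_succ_iff.1 (mem_range.1 hj)) hp.pos, uu,
    if_pos (Nat.Coprime.pow_left _ hq), mul_one, s0_pow h]

theorem s0_coprime (h : RC q f) {n : ℕ} (hn : r0 q f n ≠ 0) : n.Coprime q := by
  obtain ⟨d, hd, h1⟩ := exists_ne_zero_of_sum_ne_zero hn
  have h2 : d.Coprime q := by
    rcases h.cases d with h2 | h2
    · exact h2.1
    · exact absurd (by rw [h2.2, zero_mul]) h1
  have h3 : (n / d).Coprime q := by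
    by_contra h3
    exact h1 (by rw [uu, if_neg h3, mul_zero])
  rw [← Nat.mul_div_cancel' (Nat.dvd_of_mem_divisors hd)]
  exact Nat.Coprime.mul_left h2 h3

theorem r0_nonneg (h : RC q f) (n : ℕ) : 0 ≤ r0 q f n := by
  induction n using Nat.recOnPrimeCoprime with
  | zero => simp [r0]
  | prime_pow p k hp =>
    by_cases h0 : r0 q f (p ^ k) = 0
    · exact h0.ge
    rcases Nat.eq_zero_or_pos k with rfl | hk
    · rw [pow_zero, r0_one h]
      exact zero_le_one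
    have hq : p.Coprime q := (Nat.coprime_pow_left_iff hk _ _).1 (s0_coprime h h0)
    rw [s0_r0_pow h hp hq]
    rcases h.cases p with ⟨_, h1 | h1⟩ | h1
    · rw [h1]
      exact sum_nonneg fun j _ => by positivity
    · rw [h1, neg_one_geom_sum]
      split_ifs <;> norm_num
    · exact absurd hq h1.1
  | coprime a b _ _ hab ha hb =>
    rw [r0_mul h hab]
    exact mul_nonneg ha hb

theorem r0_le (h : RC q f) (n : ℕ) : r0 q f n ≤ tau n := by
  refine (sum_le_card_nsmul _ _ 1 fun d _ => ?_).trans (by simp [tau])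
  unfold uu
  rcases h.cases d with ⟨_, h1 | h1⟩ | ⟨_, h1⟩ <;> rw [h1] <;> split_ifs <;> norm_num

theorem r0_coprime (h : RC q f) {n : ℕ} (hn : r0 q f n ≠ 0) : n.Coprime q := by
  exact s0_coprime h hn

theorem r0_prime (h : RC q f) {p : ℕ} (hp : p.Prime) (hq : p.Coprime q) :
    r0 q f p = 1 + f p := by
  have h1 := s0_r0_pow h hp hq 1
  rwa [pow_one, sum_range_succ, sum_range_one, pow_zero, pow_one] at h1

theorem r0_pow (h : RC q f) {p : ℕ} (hp : p.Prime) (hq : p.Coprime q) (k : ℕ) :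
    r0 q f (p ^ k) = ∑ j ∈ range (k + 1), f p ^ j := by
  exact s0_r0_pow h hp hq k

theorem gp_bounds (h : RC q f) {p : ℕ} (hp : p.Prime) (hq : p.Coprime q) :
    0 < gp f p ∧ gp f p ≤ 3 / 4 := by
  have h2 : (2 : ℝ) ≤ p := by exact_mod_cast hp.two_le
  have h0 : (0 : ℝ) < p := by linarith
  unfold gp
  rcases h.cases p with ⟨_, h1 | h1⟩ | h1
  · have e : (1 + 1) / (p : ℝ) - 1 / (p : ℝ) ^ 2 = (2 * p - 1) / (p : ℝ) ^ 2 := by
      field_simp
      ring
    rw [h1, e]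
    refine ⟨div_pos (by linarith) (by positivity), ?_⟩
    rw [div_le_iff₀ (by positivity)]
    nlinarith
  · have e : (1 + -1) / (p : ℝ) - -1 / (p : ℝ) ^ 2 = 1 / (p : ℝ) ^ 2 := by ring
    rw [h1, e]
    refine ⟨by positivity, ?_⟩
    rw [div_le_iff₀ (by positivity)]
    nlinarith
  · exact absurd hq h1.1

theorem tau_mono {a b : ℕ} (hb : b ≠ 0) (h : a ∣ b) : tau a ≤ tau b := by
  unfold tau
  exact_mod_cast card_le_card (Nat.divisors_subset_of_dvd hb h)

theorem tau_bound (k : ℕ) (ε : ℝ) (hε : 0 < ε) : ∃ C : ℝ, 1 ≤ C ∧ ∀ n : ℕ, 1 ≤ n →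
    tau n ^ k ≤ C * (n : ℝ) ^ ε := by
  obtain ⟨K, hK⟩ := exists_nat_gt ((k : ℝ) / ε)
  have hK0 : (0 : ℝ) < K := lt_of_le_of_lt (by positivity) hK
  refine ⟨Real.exp (k * (2 ^ K * K)), Real.one_le_exp (by positivity), fun n hn => ?_⟩
  have hn0 : (0 : ℝ) < n := by exact_mod_cast hn
  have h1 := MP_cdccbc_an.card_divisors_le_exp (k := K) (by exact_mod_cast hK0) (n := n)
    (by omega) le_rfl
  refine (pow_le_pow_left₀ (Nat.cast_nonneg _) h1 k).trans ?_
  rw [← Real.exp_nat_mul, Real.rpow_def_of_pos hn0, ← Real.exp_add]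
  refine Real.exp_le_exp.2 ?_
  have h2 : (k : ℝ) / K ≤ ε := by
    rw [div_lt_iff₀ hε] at hK
    rw [div_le_iff₀ hK0]
    linarith
  have h3 := mul_le_mul_of_nonneg_left h2 (Real.log_natCast_nonneg n)
  have h4 : (k : ℝ) * (Real.log n / K) = Real.log n * (k / K) := by ring
  linarith

theorem ds_bound (ε : ℝ) (hε : 0 < ε) : ∃ C : ℝ, 1 ≤ C ∧ ∀ N : ℕ, 1 ≤ N →
    DS N ≤ C * (N : ℝ) ^ ε := by
  obtain ⟨C, hC, h⟩ := tau_bound 9 (ε / 2) (by linarith)
  have h0 : 0 < 2 / ε := by positivity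
  refine ⟨C * (1 + 2 / ε), by nlinarith, fun N hN => ?_⟩
  have hN1 : (1 : ℝ) ≤ N := by exact_mod_cast hN
  have h1 : DS N ≤ C * (N : ℝ) ^ (ε / 2) * ∑ n ∈ Ioc 0 N, (n : ℝ)⁻¹ := by
    rw [mul_sum]
    refine sum_le_sum fun n hn => ?_
    obtain ⟨h1, h2⟩ := mem_Icc.1 hn
    rw [div_eq_mul_inv]
    refine mul_le_mul_of_nonneg_right ((h n h1).trans ?_) (by positivity)
    have h3 : (n : ℝ) ≤ N := by exact_mod_cast h2
    gcongr
  have h2 := Real.log_le_rpow_div (x := N) (by linarith) (show 0 < ε / 2 by linarith)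
  have h3 : (1 : ℝ) ≤ (N : ℝ) ^ (ε / 2) := Real.one_le_rpow hN1 (by linarith)
  have h4 : (N : ℝ) ^ ε = (N : ℝ) ^ (ε / 2) * (N : ℝ) ^ (ε / 2) := by
    rw [← Real.rpow_add (by linarith), add_halves]
  have h5 : (N : ℝ) ^ (ε / 2) / (ε / 2) = 2 / ε * (N : ℝ) ^ (ε / 2) := by field_simp
  have h6 : ∑ n ∈ Ioc 0 N, (n : ℝ)⁻¹ ≤ (1 + 2 / ε) * (N : ℝ) ^ (ε / 2) := by
    linarith [s0_harm N]
  refine (h1.trans (mul_le_mul_of_nonneg_left h6 (by positivity))).trans_eq ?_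
  rw [h4]
  ring

/-- The sum of `tau n / n` is at most the square of a harmonic sum. -/
theorem tau_harm {x : ℝ} (hx : 1 ≤ x) :
    Sm (fun n => tau n / n) x ≤ (1 + Real.log x) ^ 2 := by
  have h1 : ∀ n : ℕ, tau n / n =
      (s0_af (fun d => (d : ℝ)⁻¹) * s0_af fun d => (d : ℝ)⁻¹) n := fun n => by
    rw [s0_af_mul, sum_congr rfl (g := fun _ => (n : ℝ)⁻¹) fun d hd => by
      rw [← mul_inv, ← Nat.cast_mul, Nat.mul_div_cancel' (Nat.dvd_of_mem_divisors hd)]]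
    rw [sum_const, nsmul_eq_mul, tau, div_eq_mul_inv]
  have h2 : ∑ n ∈ Ioc 0 ⌊x⌋₊, (n : ℝ)⁻¹ ≤ 1 + Real.log x := by
    refine (s0_harm _).trans (add_le_add_right (Real.log_le_log ?_ (Nat.floor_le (by linarith))) 1)
    exact_mod_cast Nat.floor_pos.2 hx
  refine le_trans ?_ (pow_le_pow_left₀ (by positivity) h2 2)
  unfold Sm
  simp only [h1]
  rw [ArithmeticFunction.sum_Ioc_mul_eq_sum_sum, sq, sum_mul]
  refine sum_le_sum fun n hn => ?_
  rw [s0_af_apply _ (mem_Ioc.1 hn).1.ne',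
    sum_congr rfl fun m hm => s0_af_apply _ (mem_Ioc.1 hm).1.ne']
  refine mul_le_mul_of_nonneg_left (sum_le_sum_of_subset_of_nonneg
    (Ioc_subset_Ioc_right (Nat.div_le_self _ _)) fun _ _ _ => by positivity) (by positivity)

end Pool.Agent.Lib.MP_e97e2b_nt.Ln
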