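import Pool.Agent.Lib.MP_e97e2b_nt.Ln.Defs

/- Selberg's weights.
Let h p = g p / (1 - g p), h(e) = ∏ p ∣ e, h p, G = GG g q D ≥ 1, 𝒟 = squarefree d ≤ D coprime to q.  Put
ρ d = μ(d) / (g(d) G) * ∑ e ∈ 𝒟 with d ∣ e, h(e) for d ∈ 𝒟 and 0 otherwise.  Then ρ 1 = 1,
|ρ d| ≤ h(d) / g(d) = ∏ 1 / (1 - g p) ≤ 4^ω(d) = tau d ^ 2.  Diagonalise: g(lcm) = g(d1) g(d2) / g(gcd),
1 / g(d) = ∑ e ∣ d, 1 / h(e), so the form is ∑ e, (1 / h(e)) (∑ d, e ∣ d, ρ d g(d))^2, and the inner sum is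
μ(e) h(e) / G.  (Mathlib.NumberTheory.SelbergSieve has the diagonalisation for a BoundingSieve; working with sets
of primes as in Lib/MP_778b46_nt/Sieve is another route.) -/

namespace Pool.Agent.Lib.MP_e97e2b_nt.Ln

open Finset

theorem s3_sum_div (φ : ℕ → ℝ) {n : ℕ} (hn : Squarefree n) :
    ∑ e ∈ n.divisors, ∏ p ∈ e.primeFactors, φ p = ∏ p ∈ n.primeFactors, (1 + φ p) := by
  have h := (ArithmeticFunction.IsMultiplicative.prodPrimeFactors
    φ).prodPrimeFactors_one_add_of_squarefree hn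
  calc ∑ e ∈ n.divisors, ∏ p ∈ e.primeFactors, φ p
      = ∑ e ∈ n.divisors, ArithmeticFunction.prodPrimeFactors φ e :=
        sum_congr rfl fun e he => (ArithmeticFunction.prodPrimeFactors_apply
          (Nat.pos_of_mem_divisors he).ne').symm
    _ = _ := h.symm
    _ = _ := prod_congr rfl fun p hp => by
        have hp' := Nat.prime_of_mem_primeFactors hp
        rw [ArithmeticFunction.prodPrimeFactors_apply hp'.ne_zero, hp'.primeFactors,
          prod_singleton]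

/-- The support of the weights. -/
def s3_D (q D : ℕ) : Finset ℕ := (Icc 1 D).filter fun d => Squarefree d ∧ d.Coprime q

theorem s3_mem {q D d : ℕ} : d ∈ s3_D q D ↔ d ≤ D ∧ Squarefree d ∧ d.Coprime q := by
  simp only [s3_D, mem_filter, mem_Icc]
  constructor
  · exact fun h => ⟨h.1.2, h.2⟩
  · exact fun h => ⟨⟨Nat.pos_of_ne_zero h.2.1.ne_zero, h.1⟩, h.2⟩

theorem s3_mem_of_dvd {q D d f : ℕ} (hf : f ∈ s3_D q D) (h : d ∣ f) : d ∈ s3_D q D := by
  obtain ⟨h1, h2, h3⟩ := s3_mem.1 hf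
  exact s3_mem.2 ⟨(Nat.le_of_dvd (Nat.pos_of_ne_zero h2.ne_zero) h).trans h1,
    h2.squarefree_of_dvd h, Nat.Coprime.coprime_dvd_left h h3⟩

theorem s3_filter {q D f : ℕ} (hf : f ∈ s3_D q D) :
    (s3_D q D).filter (fun d => d ∣ f) = f.divisors := by
  ext d
  rw [mem_filter, Nat.mem_divisors]
  exact ⟨fun h => ⟨h.2, (s3_mem.1 hf).2.1.ne_zero⟩, fun h => ⟨s3_mem_of_dvd hf h.1, h.1⟩⟩

theorem s3_lcm {a b : ℕ} (ha : a ≠ 0) (hb : b ≠ 0) :
    (Nat.lcm a b).primeFactors = a.primeFactors ∪ b.primeFactors := by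
  ext p
  simp only [mem_union, Nat.mem_primeFactors, ne_eq, ha, hb, Nat.lcm_ne_zero ha hb,
    not_false_eq_true, and_true]
  constructor
  · rintro ⟨hp, h⟩
    rcases (hp.dvd_lcm).1 h with h | h
    · exact Or.inl ⟨hp, h⟩
    · exact Or.inr ⟨hp, h⟩
  · rintro (⟨hp, h⟩ | ⟨hp, h⟩)
    · exact ⟨hp, h.trans (Nat.dvd_lcm_left a b)⟩
    · exact ⟨hp, h.trans (Nat.dvd_lcm_right a b)⟩

theorem s3_tau {d : ℕ} (hd : d ≠ 0) : ∏ _p ∈ d.primeFactors, (4 : ℝ) ≤ tau d ^ 2 := by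
  rw [tau, Nat.card_divisors hd, Nat.cast_prod, ← prod_pow]
  refine prod_le_prod (fun _ _ => by norm_num) fun p hp => ?_
  have h1 : 1 ≤ d.factorization p :=
    (Nat.prime_of_mem_primeFactors hp).factorization_pos_of_dvd hd (Nat.dvd_of_mem_primeFactors hp)
  have h2 : (2 : ℝ) ≤ ((d.factorization p + 1 : ℕ) : ℝ) := by exact_mod_cast by omega
  nlinarith

theorem s3_mult {q D d : ℕ} (hd : d ∈ s3_D q D) (φ : ℕ → ℝ)
    (hφ : ∀ e ∈ s3_D q D, 0 ≤ ∏ p ∈ e.primeFactors, φ p) :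
    ∑ f ∈ (s3_D q D).filter (fun f => d ∣ f), ∏ p ∈ f.primeFactors, φ p ≤
      (∏ p ∈ d.primeFactors, φ p) * ∑ e ∈ s3_D q D, ∏ p ∈ e.primeFactors, φ p := by
  have hd0 : 0 < d := Nat.pos_of_ne_zero (s3_mem.1 hd).2.1.ne_zero
  have h1 : ∀ f ∈ (s3_D q D).filter (fun f => d ∣ f), ∏ p ∈ f.primeFactors, φ p =
      (∏ p ∈ d.primeFactors, φ p) * ∏ p ∈ (f / d).primeFactors, φ p := by
    intro f hf
    obtain ⟨hf1, e, rfl⟩ := mem_filter.1 hf
    have h2 := Nat.coprime_of_squarefree_mul (s3_mem.1 hf1).2.1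
    rw [Nat.mul_div_cancel_left _ hd0, h2.primeFactors_mul, prod_union h2.disjoint_primeFactors]
  rw [sum_congr rfl h1, ← mul_sum]
  refine mul_le_mul_of_nonneg_left ?_ (hφ d hd)
  rw [← sum_image (s := (s3_D q D).filter (fun f => d ∣ f)) (g := fun f => f / d)
    (f := fun e => ∏ p ∈ e.primeFactors, φ p)]
  · refine sum_le_sum_of_subset_of_nonneg ?_ fun e he _ => hφ e he
    intro e he
    obtain ⟨f, hf, rfl⟩ := mem_image.1 he
    obtain ⟨hf1, hf2⟩ := mem_filter.1 hf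
    exact s3_mem_of_dvd hf1 (Nat.div_dvd_of_dvd hf2)
  · intro f hf f' hf' h
    have h3 := (mem_filter.1 (mem_coe.1 hf)).2
    have h4 := (mem_filter.1 (mem_coe.1 hf')).2
    have h5 : f / d = f' / d := h
    rw [← Nat.mul_div_cancel' h3, ← Nat.mul_div_cancel' h4, h5]

theorem s3_delta {q D d : ℕ} (hd : d ∈ s3_D q D) :
    ∑ f ∈ s3_D q D, ∏ p ∈ f.primeFactors, (if p ∈ d.primeFactors then (-1 : ℝ) else 0) =
      if d = 1 then 1 else 0 := by
  have hsq := (s3_mem.1 hd).2.1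
  rw [← sum_filter_add_sum_filter_not _ (fun f => f ∣ d), s3_filter hd, s3_sum_div _ hsq,
    sum_eq_zero, add_zero]
  · split_ifs with h
    · simp [h]
    · obtain ⟨p, hp, hpd⟩ := Nat.exists_prime_and_dvd h
      have h1 : p ∈ d.primeFactors := Nat.mem_primeFactors.2 ⟨hp, hpd, hsq.ne_zero⟩
      exact prod_eq_zero h1 (by ring)
  · intro f hf
    obtain ⟨hf1, hf2⟩ := mem_filter.1 hf
    rw [← Nat.prod_primeFactors_of_squarefree (s3_mem.1 hf1).2.1,
      Nat.prod_primeFactors_dvd_iff hsq.ne_zero, not_subset] at hf2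
    obtain ⟨p, hp1, hp2⟩ := hf2
    exact prod_eq_zero hp1 (if_neg hp2)

theorem s3_union (g : ℕ → ℝ) (S T : Finset ℕ) (hT : ∀ p ∈ T, g p ≠ 0) :
    (∏ p ∈ T, -(g p)⁻¹) * ∏ p ∈ S ∪ T, g p =
      (∏ p ∈ S, g p) * ∏ p ∈ T, (if p ∈ S then -(g p)⁻¹ else -1) := by
  rw [← union_sdiff_self_eq_union, prod_union disjoint_sdiff, mul_left_comm, sdiff_eq_filter,
    prod_filter, ← prod_mul_distrib]
  congr 1
  refine prod_congr rfl fun p hp => ?_
  by_cases h : p ∈ S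
  · simp [h]
  · simp [h, hT p hp]

theorem s3_row (g : ℕ → ℝ) {q D d : ℕ} (hd : d ∈ s3_D q D)
    (hg : ∀ e ∈ s3_D q D, ∀ p ∈ e.primeFactors, 0 < g p ∧ g p ≤ 3 / 4) :
    ∑ e ∈ s3_D q D, ((∏ p ∈ e.primeFactors, -(g p)⁻¹) *
      ∑ f ∈ (s3_D q D).filter (fun f => e ∣ f), ∏ p ∈ f.primeFactors, g p / (1 - g p)) *
        ∏ p ∈ (Nat.lcm d e).primeFactors, g p = if d = 1 then 1 else 0 := by
  have h1 : ∀ e ∈ s3_D q D, ((∏ p ∈ e.primeFactors, -(g p)⁻¹) *
      ∑ f ∈ (s3_D q D).filter (fun f => e ∣ f), ∏ p ∈ f.primeFactors, g p / (1 - g p)) *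
        ∏ p ∈ (Nat.lcm d e).primeFactors, g p = (∏ p ∈ d.primeFactors, g p) *
          ∑ f ∈ s3_D q D, if e ∣ f then (∏ p ∈ f.primeFactors, g p / (1 - g p)) *
            ∏ p ∈ e.primeFactors, (if p ∈ d.primeFactors then -(g p)⁻¹ else -1) else 0 := by
    intro e he
    rw [s3_lcm (s3_mem.1 hd).2.1.ne_zero (s3_mem.1 he).2.1.ne_zero, mul_right_comm,
      s3_union g _ _ fun p hp => (hg e he p hp).1.ne', ← sum_filter, ← sum_mul]
    ring
  rw [sum_congr rfl h1, ← mul_sum, sum_comm]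
  have h2 : ∀ f ∈ s3_D q D, (∑ e ∈ s3_D q D, if e ∣ f then
      (∏ p ∈ f.primeFactors, g p / (1 - g p)) *
        ∏ p ∈ e.primeFactors, (if p ∈ d.primeFactors then -(g p)⁻¹ else -1) else 0) =
      ∏ p ∈ f.primeFactors, (if p ∈ d.primeFactors then (-1 : ℝ) else 0) := by
    intro f hf
    rw [← sum_filter, s3_filter hf, ← mul_sum, s3_sum_div _ (s3_mem.1 hf).2.1, ← prod_mul_distrib]
    refine prod_congr rfl fun p hp => ?_
    obtain ⟨h3, h4⟩ := hg f hf p hp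
    have h5 : 1 - g p ≠ 0 := (show 0 < 1 - g p by linarith).ne'
    split_ifs
    · field_simp
      ring
    · ring
  rw [sum_congr rfl h2, s3_delta hd]
  split_ifs with h
  · simp [h]
  · simp

theorem selberg (g : ℕ → ℝ) (q D : ℕ) (hD : 1 ≤ D)
    (hg : ∀ p : ℕ, p.Prime → p.Coprime q → 0 < g p ∧ g p ≤ 3 / 4) :
    ∃ ρ : ℕ → ℝ, Rho q D ρ ∧ 1 ≤ GG g q D ∧
      (∑ d1 ∈ Icc 1 D, ∑ d2 ∈ Icc 1 D,
        ρ d1 * ρ d2 * ∏ p ∈ (Nat.lcm d1 d2).primeFactors, g p) * GG g q D = 1 := by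
  have hg' : ∀ e ∈ s3_D q D, ∀ p ∈ e.primeFactors, 0 < g p ∧ g p ≤ 3 / 4 := fun e he p hp =>
    hg p (Nat.prime_of_mem_primeFactors hp)
      (Nat.Coprime.coprime_dvd_left (Nat.dvd_of_mem_primeFactors hp) (s3_mem.1 he).2.2)
  have hh : ∀ e ∈ s3_D q D, 0 ≤ ∏ p ∈ e.primeFactors, g p / (1 - g p) := fun e he =>
    prod_nonneg fun p hp => div_nonneg (hg' e he p hp).1.le (by linarith [(hg' e he p hp).2])
  have h1 : 1 ∈ s3_D q D := s3_mem.2 ⟨hD, squarefree_one, Nat.coprime_one_left q⟩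
  have hG : GG g q D = ∑ e ∈ s3_D q D, ∏ p ∈ e.primeFactors, g p / (1 - g p) := rfl
  have hG1 : 1 ≤ GG g q D := by
    have := single_le_sum hh h1
    rw [hG]
    simpa using this
  have hG0 : 0 < GG g q D := by linarith
  obtain ⟨w, hw⟩ : ∃ w : ℕ → ℝ, ∀ e, w e = (∏ p ∈ e.primeFactors, -(g p)⁻¹) *
      ∑ f ∈ (s3_D q D).filter (fun f => e ∣ f), ∏ p ∈ f.primeFactors, g p / (1 - g p) :=
    ⟨_, fun _ => rfl⟩
  have hw1 : w 1 = GG g q D := by
    rw [hw, hG]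
    simp
  refine ⟨fun e => if e ∈ s3_D q D then w e / GG g q D else 0, ⟨?_, ?_, ?_⟩, hG1, ?_⟩
  · simp only [h1, if_true, hw1]
    exact div_self hG0.ne'
  · intro d hd
    by_cases h : d ∈ s3_D q D
    · exact s3_mem.1 h
    · simp [h] at hd
  · intro d
    by_cases h : d ∈ s3_D q D
    · simp only [h, if_true]
      have h2 := s3_mult h _ hh
      have h3 : 0 ≤ ∑ f ∈ (s3_D q D).filter (fun f => d ∣ f),
          ∏ p ∈ f.primeFactors, g p / (1 - g p) :=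
        sum_nonneg fun f hf => hh f (mem_filter.1 hf).1
      rw [abs_div, abs_of_pos hG0, div_le_iff₀ hG0, hw, abs_mul, abs_of_nonneg h3]
      refine (mul_le_mul_of_nonneg_left h2 (abs_nonneg _)).trans ?_
      rw [← hG, ← mul_assoc]
      refine mul_le_mul_of_nonneg_right (le_trans ?_ (s3_tau (s3_mem.1 h).2.1.ne_zero)) hG0.le
      rw [abs_prod, ← prod_mul_distrib]
      refine prod_le_prod (fun p hp => mul_nonneg (abs_nonneg _)
        (div_nonneg (hg' d h p hp).1.le (by linarith [(hg' d h p hp).2]))) fun p hp => ?_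
      obtain ⟨h4, h5⟩ := hg' d h p hp
      have h6 : 0 < 1 - g p := by linarith
      rw [abs_neg, abs_of_pos (inv_pos.2 h4), ← mul_div_assoc, inv_mul_cancel₀ h4.ne',
        div_le_iff₀ h6]
      linarith
    · simp only [h, if_false, abs_zero]
      positivity
  · have hsub : s3_D q D ⊆ Icc 1 D := filter_subset _ _
    have h2 : ∀ d ∈ s3_D q D, ∑ e ∈ Icc 1 D, (if d ∈ s3_D q D then w d / GG g q D else 0) *
        (if e ∈ s3_D q D then w e / GG g q D else 0) * ∏ p ∈ (Nat.lcm d e).primeFactors, g p =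
        if d = 1 then w d / GG g q D / GG g q D else 0 := by
      intro d hd
      rw [← sum_subset hsub fun e _ he => by simp [he]]
      have h3 := s3_row g hd hg'
      simp only [← hw] at h3
      have h4 : ∀ e ∈ s3_D q D, (if d ∈ s3_D q D then w d / GG g q D else 0) *
          (if e ∈ s3_D q D then w e / GG g q D else 0) * ∏ p ∈ (Nat.lcm d e).primeFactors, g p =
          w d / GG g q D / GG g q D * (w e * ∏ p ∈ (Nat.lcm d e).primeFactors, g p) := by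
        intro e he
        rw [if_pos hd, if_pos he]
        ring
      rw [sum_congr rfl h4, ← mul_sum, h3]
      split_ifs <;> simp
    rw [← sum_subset hsub fun d _ hd => by simp [hd], sum_congr rfl h2, sum_ite_eq', if_pos h1,
      hw1]
    field_simp

end Pool.Agent.Lib.MP_e97e2b_nt.Ln
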