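import Pool.Agent.Lib.MP_e97e2b_nt.Ln.S0

/- Lower bound for the Selberg sum.
1 - gp f p = (1 - 1/p) (1 - f p / p), so gp / (1 - gp) = ∑ k ≥ 1, r0 (p^k) / p^k (r0_pow; a finite version:
∑ 1 ≤ k ≤ J, r0 (p^k) / p^k ≤ gp / (1 - gp), check f p = 1 and f p = -1).  Group the n ≤ D with r0 n ≠ 0 by the
radical d = ∏ p ∈ primeFactors n, p ≤ D (squarefree, coprime to q); for fixed d,
∑ n, r0 n / n ≤ ∏ p ∣ d, ∑ 1 ≤ k ≤ D, r0 (p^k) / p^k (Finset.prod_sum / induction on the primes of d). -/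

namespace Pool.Agent.Lib.MP_e97e2b_nt.Ln

open Finset

theorem s4_ident (e x : ℝ) (J : ℕ) :
    (1 - x) * (1 - e * x) * ∑ k ∈ range (J + 1), (∑ j ∈ range (k + 1), e ^ j) * x ^ k =
      1 - x ^ (J + 1) * (1 + e * (∑ j ∈ range (J + 1), e ^ j) * (1 - x)) := by
  induction J with
  | zero =>
    simp
    ring
  | succ J ih =>
    rw [sum_range_succ _ (J + 1), mul_add, ih, geom_sum_succ (n := J + 1)]
    ring

theorem s4_local {q : ℕ} {f : ℕ → ℝ} (h : RC q f) {p : ℕ} (hp : p.Prime) (hq : p.Coprime q)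
    (J : ℕ) : ∑ k ∈ Icc 1 J, r0 q f (p ^ k) / (p ^ k : ℕ) ≤ gp f p / (1 - gp f p) := by
  have hp0 : (0 : ℝ) < p := by exact_mod_cast hp.pos
  have hp1 : (1 : ℝ) ≤ p := by exact_mod_cast hp.one_le
  have hg : 0 < 1 - gp f p := by linarith [(gp_bounds h hp hq).2]
  set x : ℝ := (p : ℝ)⁻¹ with hx
  have hx0 : 0 ≤ x := by positivity
  have hx1 : x ≤ 1 := inv_le_one_of_one_le₀ hp1
  have e1 : 1 - gp f p = (1 - x) * (1 - f p * x) := by
    rw [gp, hx]
    field_simp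
    ring
  have e2 : ∑ k ∈ range (J + 1), (∑ j ∈ range (k + 1), f p ^ j) * x ^ k =
      1 + ∑ k ∈ Icc 1 J, r0 q f (p ^ k) / (p ^ k : ℕ) := by
    rw [range_eq_Ico, sum_eq_sum_Ico_succ_bot (Nat.succ_pos J)]
    congr 1
    · simp
    · refine sum_congr rfl fun k _ => ?_
      rw [r0_pow h hp hq, hx, inv_pow, Nat.cast_pow, div_eq_mul_inv]
  have e3 := s4_ident (f p) x J
  rw [e2, ← e1] at e3
  have h4 : 0 ≤ 1 + f p * ∑ j ∈ range (J + 1), f p ^ j := by
    have := r0_nonneg h (p ^ (J + 1))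
    rw [r0_pow h hp hq, geom_sum_succ] at this
    linarith
  have h5 : 0 ≤ x ^ (J + 1) * (1 + f p * (∑ j ∈ range (J + 1), f p ^ j) * (1 - x)) := by
    refine mul_nonneg (pow_nonneg hx0 _) ?_
    nlinarith [mul_nonneg h4 (sub_nonneg.2 hx1)]
  rw [le_div_iff₀ hg]
  nlinarith

theorem s4_fiber {H : ℕ → ℝ} (H0 : ∀ n, 0 ≤ H n) (H1 : H 1 = 1)
    (Hm : ∀ a b : ℕ, a.Coprime b → H (a * b) = H a * H b) (D : ℕ) (s : Finset ℕ) (T : Finset ℕ)
    (hT : ∀ n ∈ T, 0 < n ∧ n ≤ D ∧ n.primeFactors = s) :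
    ∑ n ∈ T, H n ≤ ∏ p ∈ s, ∑ k ∈ Icc 1 D, H (p ^ k) := by
  classical
  rw [← prod_coe_sort s, prod_univ_sum]
  have hinj : Set.InjOn (fun n : ℕ => fun p : s => n.factorization p) T := by
    intro a ha b hb hab
    obtain ⟨a0, -, ha⟩ := hT a ha
    obtain ⟨b0, -, hb⟩ := hT b hb
    refine Nat.eq_of_factorization_eq a0.ne' b0.ne' fun p => ?_
    by_cases hp : p ∈ s
    · exact congrFun hab ⟨p, hp⟩
    · rw [Finsupp.notMem_support_iff.1 (by rwa [Nat.support_factorization, ha]),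
        Finsupp.notMem_support_iff.1 (by rwa [Nat.support_factorization, hb])]
  calc ∑ n ∈ T, H n = ∑ n ∈ T, ∏ p : s, H (p ^ n.factorization p) := by
        refine sum_congr rfl fun n hn => ?_
        obtain ⟨n0, -, hn⟩ := hT n hn
        rw [Nat.multiplicative_factorization H Hm H1 n0.ne', Finsupp.prod,
          Nat.support_factorization, hn, ← prod_coe_sort s]
    _ = ∑ e ∈ T.image (fun n : ℕ => fun p : s => n.factorization p),
          ∏ p : s, H (p ^ e p) := by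
        rw [sum_image hinj]
    _ ≤ _ := by
        refine sum_le_sum_of_subset_of_nonneg ?_ fun e _ _ => prod_nonneg fun p _ => H0 _
        intro e he
        obtain ⟨n, hn, rfl⟩ := mem_image.1 he
        obtain ⟨n0, nD, hn⟩ := hT n hn
        refine Fintype.mem_piFinset.2 fun p => mem_Icc.2 ⟨?_, ?_⟩
        · refine Nat.pos_of_ne_zero (Finsupp.mem_support_iff.1 ?_)
          rw [Nat.support_factorization, hn]
          exact p.2
        · exact (Nat.factorization_lt _ n0.ne').le.trans nD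

theorem GG_ge {q : ℕ} {f : ℕ → ℝ} (h : RC q f) (D : ℕ) :
    ∑ n ∈ Ioc 0 D, r0 q f n / n ≤ GG (gp f) q D := by
  classical
  have H0 : ∀ n : ℕ, 0 ≤ r0 q f n / n := fun n => div_nonneg (r0_nonneg h n) (Nat.cast_nonneg n)
  have hmap : ∀ n ∈ (Ioc 0 D).filter (fun n => n.Coprime q), ∏ p ∈ n.primeFactors, p ∈
      (Icc 1 D).filter (fun d => Squarefree d ∧ d.Coprime q) := by
    intro n hn
    obtain ⟨hn, hc⟩ := mem_filter.1 hn
    obtain ⟨n0, nD⟩ := mem_Ioc.1 hn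
    have hd := Nat.prod_primeFactors_dvd n
    refine mem_filter.2 ⟨mem_Icc.2 ⟨Nat.pos_of_dvd_of_pos hd n0, (Nat.le_of_dvd n0 hd).trans nD⟩,
      ?_, Nat.Coprime.coprime_dvd_left hd hc⟩
    refine squarefree_prod_of_pairwise_isCoprime (fun a ha b hb hab => ?_)
      fun p hp => (Nat.prime_of_mem_primeFactors hp).squarefree
    simp only [← Nat.coprime_iff_isRelPrime]
    exact (Nat.coprime_primes (Nat.prime_of_mem_primeFactors ha)
      (Nat.prime_of_mem_primeFactors hb)).mpr hab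
  rw [← sum_filter_of_ne (p := fun n => n.Coprime q) fun n _ hn =>
    r0_coprime h fun h0 => hn (by rw [h0, zero_div]), ← sum_fiberwise_of_maps_to hmap, GG]
  refine sum_le_sum fun d hd => ?_
  obtain ⟨-, -, hc⟩ := mem_filter.1 hd
  refine (s4_fiber (H := fun n => r0 q f n / n) H0 (by simp [r0_one h]) (fun a b hab => ?_) D
    d.primeFactors _ fun n hn => ?_).trans ?_
  · rw [r0_mul h hab, Nat.cast_mul, mul_div_mul_comm]
  · obtain ⟨hn1, hn2⟩ := mem_filter.1 hn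
    obtain ⟨n0, nD⟩ := mem_Ioc.1 (mem_filter.1 hn1).1
    exact ⟨n0, nD, by rw [← hn2, Nat.primeFactors_prod_primeFactors]⟩
  · exact prod_le_prod (fun p _ => sum_nonneg fun k _ => H0 _) fun p hp =>
      s4_local h (Nat.prime_of_mem_primeFactors hp)
        (Nat.Coprime.coprime_dvd_left (Nat.dvd_of_mem_primeFactors hp) hc) D

end Pool.Agent.Lib.MP_e97e2b_nt.Ln
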