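import Pool.Agent.Lib.MP_e97e2b_nt.Ln.Defs

/- Blaschke factorisation in a disc.
f is entire and f c ≠ 0, so it has finitely many zeros in closedBall c (3 R); choose R' in (2 R, 3 R) different
from their distances to c.  Let A be the multiset of zeros in ball c R' with multiplicity.  Remove the zeros one
at a time (induction on the sum of the orders, dslope or AnalyticAt.analyticOrderAt_eq_natCast; or
MeromorphicOn.extract_zeros_poles): f s = (∏ ρ ∈ A, (s - ρ)) * g0 s with g0 entire without zeros in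
closedBall c R'.  Put g s = g0 s * ∏ ρ ∈ A, ((R'^2 - conj (ρ - c) (s - c)) / R'). -/

namespace Pool.Agent.Lib.MP_e97e2b_nt.Ln

open Complex Finset

theorem j1_one (n : ℕ) (ρ : ℂ) : ∀ f : ℂ → ℂ, Differentiable ℂ f → analyticOrderAt f ρ = n →
    ∃ h : ℂ → ℂ, Differentiable ℂ h ∧ h ρ ≠ 0 ∧ ∀ s, f s = (s - ρ) ^ n * h s := by
  induction n with
  | zero =>
    intro f hf h0
    exact ⟨f, hf, (hf.analyticAt ρ).analyticOrderAt_eq_zero.1 (by simpa using h0),
      fun s => by rw [pow_zero, one_mul]⟩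
  | succ n ih =>
    intro f hf h0
    have h1 : f ρ = 0 := apply_eq_zero_of_analyticOrderAt_ne_zero (by
      rw [h0]; exact Nat.cast_ne_zero.2 n.succ_ne_zero)
    have h2 : Differentiable ℂ (dslope f ρ) :=
      differentiableOn_univ.1 ((differentiableOn_dslope Filter.univ_mem).2 hf.differentiableOn)
    have h3 : ∀ s, f s = (s - ρ) * dslope f ρ s := fun s => by
      rw [← smul_eq_mul, sub_smul_dslope, h1, sub_zero]
    have h4 : analyticOrderAt (dslope f ρ) ρ = n := by
      have h5 := analyticOrderAt_mul (f := (· - ρ)) (g := dslope f ρ) (z₀ := ρ) (by fun_prop)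
        (h2.analyticAt ρ)
      have h6 : (· - ρ) * dslope f ρ = f := funext fun s => (h3 s).symm
      rw [h6, h0, analyticOrderAt_id_sub_const_self, Nat.cast_succ, add_comm] at h5
      exact (ENat.add_right_injective_of_ne_top ENat.one_ne_top h5).symm
    obtain ⟨h, hh, hρ, he⟩ := ih _ h2 h4
    exact ⟨h, hh, hρ, fun s => by rw [h3, he, pow_succ', mul_assoc]⟩

theorem j1_rem (K : Set ℂ) (Z : Finset ℂ) : ∀ f : ℂ → ℂ, Differentiable ℂ f → f ≠ 0 →
    (∀ s ∈ K, f s = 0 → s ∈ Z) → (∀ s ∈ Z, s ∈ K) →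
    ∃ (A : Multiset ℂ) (g : ℂ → ℂ), (∀ ρ ∈ A, ρ ∈ K) ∧ Differentiable ℂ g ∧
      (∀ s ∈ K, g s ≠ 0) ∧ ∀ s, f s = (A.map fun ρ => s - ρ).prod * g s := by
  induction Z using Finset.induction_on with
  | empty =>
    intro f hf _ h1 _
    exact ⟨0, f, by simp, hf, fun s hs h => by simpa using h1 s hs h, fun s => by simp⟩
  | insert ρ Z _ ih =>
    intro f hf h0 h1 h2
    have h3 : analyticOrderAt f ρ ≠ ⊤ := fun h =>
      h0 ((AnalyticOnNhd.analyticOrderAt_eq_top_iff_eq_zero ρ hf.analyticAt).1 h)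
    obtain ⟨h, hh, hρ, he⟩ := j1_one _ ρ f hf (Nat.cast_analyticOrderNatAt h3).symm
    obtain ⟨A, g, hA, hg, hK, hge⟩ := ih h hh (fun e => hρ (by rw [e]; rfl))
      (fun s hs e => (Finset.mem_insert.1 (h1 s hs (by rw [he, e, mul_zero]))).resolve_left
        fun e' => hρ (e' ▸ e)) (fun s hs => h2 s (Finset.mem_insert_of_mem hs))
    refine ⟨Multiset.replicate (analyticOrderNatAt f ρ) ρ + A, g, fun z hz => ?_, hg, hK,
      fun s => ?_⟩
    · rcases Multiset.mem_add.1 hz with hz | hz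
      · rw [Multiset.eq_of_mem_replicate hz]
        exact h2 ρ (Finset.mem_insert_self _ _)
      · exact hA z hz
    · rw [Multiset.map_add, Multiset.prod_add, Multiset.map_replicate, Multiset.prod_replicate,
        mul_assoc, ← hge, ← he]

theorem j1_diff (A : Multiset ℂ) (φ : ℂ → ℂ → ℂ) (hφ : ∀ z, Differentiable ℂ (φ z)) :
    Differentiable ℂ fun s => (A.map fun z => φ z s).prod := by
  induction A using Multiset.induction_on with
  | empty => simp
  | cons a A ih =>
    simp only [Multiset.map_cons, Multiset.prod_cons]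
    exact (hφ a).mul ih

theorem j1_ord (A : Multiset ℂ) (ρ : ℂ) (g : ℂ → ℂ) (hg : Differentiable ℂ g) (h0 : g ρ ≠ 0) :
    analyticOrderAt (fun s => (A.map fun z => s - z).prod * g s) ρ = A.count ρ := by
  induction A using Multiset.induction_on with
  | empty =>
    simp only [Multiset.map_zero, Multiset.prod_zero, one_mul, Multiset.count_zero,
      Nat.cast_zero]
    exact (hg.analyticAt ρ).analyticOrderAt_eq_zero.2 h0
  | cons a A ih =>
    have h1 : Differentiable ℂ fun s => (A.map fun z => s - z).prod * g s :=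
      (j1_diff A (fun z s => s - z) fun z => by fun_prop).mul hg
    have h2 := analyticOrderAt_mul (f := (· - a)) (z₀ := ρ) (by fun_prop) (h1.analyticAt ρ)
    have h3 : (fun s => ((a ::ₘ A).map fun z => s - z).prod * g s) =
        (· - a) * fun s => (A.map fun z => s - z).prod * g s := by
      funext s
      simp only [Multiset.map_cons, Multiset.prod_cons, Pi.mul_apply, mul_assoc]
    rw [h3, h2, ih]
    rcases eq_or_ne ρ a with rfl | h4
    · rw [analyticOrderAt_id_sub_const_self, Multiset.count_cons_self, Nat.cast_succ, add_comm]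
    · rw [analyticOrderAt_id_sub_const_of_ne h4, Multiset.count_cons_of_ne h4, zero_add]

theorem blaschke (f : ℂ → ℂ) (hf : Differentiable ℂ f) (c : ℂ) (hc : f c ≠ 0) (R : ℝ)
    (hR : 0 < R) : ∃ (R' : ℝ) (A : Multiset ℂ) (g : ℂ → ℂ), 2 * R < R' ∧ R' < 3 * R ∧
      (∀ ρ, A.count ρ = if ‖ρ - c‖ < R' then analyticOrderNatAt f ρ else 0) ∧
      (∀ ρ ∈ A, ‖ρ - c‖ < R' ∧ f ρ = 0) ∧ Differentiable ℂ g ∧
      (∀ s, ‖s - c‖ ≤ R' → g s ≠ 0) ∧
      ∀ s, f s * (A.map fun ρ => (R' : ℂ) ^ 2 - starRingEnd ℂ (ρ - c) * (s - c)).prod =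
        g s * (A.map fun ρ => (R' : ℂ) * (s - ρ)).prod := by
  have hfin : (Metric.closedBall c (3 * R) \ f ⁻¹' {0}ᶜ).Finite :=
    (isCompact_closedBall c (3 * R)).finite_sdiff_of_mem_codiscreteWithin
      (Filter.codiscreteWithin_mono (Set.subset_univ _)
        (AnalyticOnNhd.preimage_zero_mem_codiscrete (fun z _ => hf.analyticAt z) hc))
  obtain ⟨R', ⟨h1, h2⟩, h3⟩ := (Set.Ioo_infinite (show 2 * R < 3 * R by linarith)).exists_notMem_finite
    (hfin.image fun z => ‖z - c‖)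
  have hR' : 0 < R' := by linarith
  have hmem : ∀ s, ‖s - c‖ ≤ R' → f s = 0 → s ∈ Metric.closedBall c (3 * R) \ f ⁻¹' {0}ᶜ :=
    fun s hs h0 => ⟨mem_closedBall_iff_norm.2 (hs.trans h2.le), fun h => h h0⟩
  obtain ⟨A, g, hA, hg, hK, he⟩ := j1_rem {s | ‖s - c‖ ≤ R'}
    (hfin.toFinset.filter fun s => ‖s - c‖ ≤ R') f hf (fun e => hc (by rw [e]; rfl))
    (fun s hs h0 => Finset.mem_filter.2 ⟨hfin.mem_toFinset.2 (hmem s hs h0), hs⟩)
    (fun s hs => (Finset.mem_filter.1 hs).2)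
  have h4 : ∀ ρ ∈ A, ‖ρ - c‖ < R' ∧ f ρ = 0 := by
    intro ρ hρ
    have h0 : f ρ = 0 := by
      rw [he, Multiset.prod_eq_zero (Multiset.mem_map.2 ⟨ρ, hρ, sub_self ρ⟩), zero_mul]
    exact ⟨lt_of_le_of_ne (hA ρ hρ) fun e => h3 ⟨ρ, hmem ρ (hA ρ hρ) h0, e⟩, h0⟩
  have hR0 : (R' : ℂ) ≠ 0 := ofReal_ne_zero.2 hR'.ne'
  refine ⟨R', A, fun s => g s *
    (A.map fun ρ => ((R' : ℂ) ^ 2 - starRingEnd ℂ (ρ - c) * (s - c)) / R').prod, h1, h2,
    fun ρ => ?_, h4, hg.mul (j1_diff A _ fun z => by fun_prop), fun s hs => ?_, fun s => ?_⟩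
  · split_ifs with h5
    · have h6 := j1_ord A ρ g hg (hK ρ h5.le)
      rw [← show f = _ from funext he] at h6
      rw [analyticOrderNatAt, h6, ENat.toNat_natCast]
    · exact Multiset.count_eq_zero.2 fun h => h5 (h4 ρ h).1
  · refine mul_ne_zero (hK s hs) (Multiset.prod_ne_zero fun h => ?_)
    obtain ⟨ρ, hρ, h5⟩ := Multiset.mem_map.1 h
    have h6 := congrArg norm (sub_eq_zero.1 ((div_eq_zero_iff.1 h5).resolve_right hR0))
    rw [norm_mul, RCLike.norm_conj, norm_pow, norm_real, Real.norm_of_nonneg hR'.le] at h6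
    have h7 := mul_le_mul_of_nonneg_left hs (norm_nonneg (ρ - c))
    have h8 := mul_lt_mul_of_pos_right (h4 ρ hρ).1 hR'
    nlinarith
  · rw [he, mul_right_comm, mul_comm, mul_assoc, ← Multiset.prod_map_mul, ← Multiset.prod_map_mul]
    refine congrArg (fun x => g s * x) (congrArg Multiset.prod (Multiset.map_congr rfl ?_))
    intro ρ _
    field_simp

end Pool.Agent.Lib.MP_e97e2b_nt.Ln
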