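import Pool.Agent.Lib.MP_e97e2b_nt.Ln.K1

/- Perron kernels.
`kern_one`: Fourier inversion (MeasureTheory.Integrable.fourierInv_fourier_eq or Continuous.fourierInv_fourier_eq)
for the continuous integrable function u ↦ max u 0 * exp (-u), whose Fourier transform is 1 / (1 + 2 π i ξ)^2
(Complex.integral_cpow_mul_exp_neg_mul_Ioi with a = 2); then substitute y = 2 π ξ.
`kern_two`: 1 / (1 + i y - z) = ∫ t > 0, exp ((z - 1 - i y) t); Fubini (the norm of the integrand is at most
exp u / (1 + y^2) * exp (-t)) and kern_one at u - t give 2 π ∫ t > 0, exp (z t) max (u - t) 0. -/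

namespace Pool.Agent.Lib.MP_e97e2b_nt.Ln

open Complex Finset

open MeasureTheory

theorem a4a_ne (y : ℝ) : (1 + y * I : ℂ) ≠ 0 := fun h => by
  have := congrArg re h
  simp at this

theorem a4a_norm (y : ℝ) : ‖(1 + y * I : ℂ)‖ ^ 2 = 1 + y ^ 2 := by
  rw [Complex.sq_norm, normSq_apply]
  simp [sq]

theorem a4a_int (y : ℝ) :
    IntegrableOn (fun t : ℝ => (t : ℂ) * exp (-(1 + y * I) * t)) (Set.Ioi 0) := by
  refine Integrable.mono' (Real.GammaIntegral_convergent (s := 2) two_pos) ?_ ?_
  · exact Continuous.aestronglyMeasurable (by fun_prop)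
  · refine (ae_restrict_iff' measurableSet_Ioi).2 (Filter.Eventually.of_forall fun t ht => ?_)
    have ht' : 0 < t := ht
    rw [norm_mul, norm_exp, norm_real, Real.norm_eq_abs, abs_of_pos ht', mul_comm]
    norm_num

theorem a4a_val (y : ℝ) :
    ∫ t in Set.Ioi (0 : ℝ), (t : ℂ) * exp (-(1 + y * I) * t) = 1 / (1 + y * I) ^ 2 := by
  have hne := a4a_ne y
  have hd : ∀ t ∈ Set.Ici (0 : ℝ), HasDerivAt
      (fun t : ℝ => (-((t : ℂ) / (1 + y * I)) - 1 / (1 + y * I) ^ 2) * exp (-(1 + y * I) * t))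
      ((t : ℂ) * exp (-(1 + y * I) * t)) t := by
    intro t _
    have h1 : HasDerivAt (fun t : ℝ => (t : ℂ)) 1 t := Complex.ofRealCLM.hasDerivAt
    have h2 := (((h1.div_const (1 + y * I)).neg.sub_const (1 / (1 + y * I) ^ 2)).mul
      (h1.const_mul (-(1 + y * I))).cexp)
    refine h2.congr_deriv ?_
    simp only [Pi.neg_apply]
    field_simp
    ring
  have ht : Filter.Tendsto
      (fun t : ℝ => (-((t : ℂ) / (1 + y * I)) - 1 / (1 + y * I) ^ 2) * exp (-(1 + y * I) * t))
      Filter.atTop (nhds 0) := by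
    have h1 := ((Real.tendsto_pow_mul_exp_neg_atTop_nhds_zero 1).const_mul
      ‖(1 + y * I : ℂ)‖⁻¹).add
      (Real.tendsto_exp_neg_atTop_nhds_zero.const_mul ‖1 / (1 + y * I : ℂ) ^ 2‖)
    rw [mul_zero, mul_zero, add_zero] at h1
    refine squeeze_zero_norm' ?_ h1
    filter_upwards [Filter.eventually_ge_atTop 0] with t ht
    have e : (-(1 + y * I) * t : ℂ).re = -t := by simp
    rw [norm_mul, norm_exp, e]
    have h2 : ‖-((t : ℂ) / (1 + y * I)) - 1 / (1 + y * I) ^ 2‖ ≤
        ‖(1 + y * I : ℂ)‖⁻¹ * t + ‖1 / (1 + y * I : ℂ) ^ 2‖ := by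
      refine (norm_sub_le _ _).trans (le_of_eq ?_)
      rw [norm_neg, norm_div, norm_real, Real.norm_eq_abs, abs_of_nonneg ht, div_eq_inv_mul]
    refine (mul_le_mul_of_nonneg_right h2 (Real.exp_pos _).le).trans (le_of_eq ?_)
    ring
  rw [integral_Ioi_of_hasDerivAt_of_tendsto' hd (a4a_int y) ht]
  simp

theorem kern_one_int (u : ℝ) :
    Integrable fun y : ℝ => exp ((1 + y * I) * u) / (1 + y * I) ^ 2 := by
  refine (integrable_inv_one_add_sq.const_mul (Real.exp u)).mono' ?_
    (Filter.Eventually.of_forall fun y => le_of_eq ?_)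
  · refine Continuous.aestronglyMeasurable ?_
    exact Continuous.div (by fun_prop) (by fun_prop) fun y => pow_ne_zero _ (a4a_ne y)
  · rw [norm_div, norm_pow, a4a_norm, norm_exp, div_eq_mul_inv]
    simp

theorem kern_one (u : ℝ) :
    ∫ y : ℝ, exp ((1 + y * I) * u) / (1 + y * I) ^ 2 = 2 * Real.pi * ((max u 0 : ℝ) : ℂ) := by
  let f : ℝ → ℂ := fun v => ((max v 0 : ℝ) : ℂ) * exp (-v)
  have hfc : Continuous f := by fun_prop
  have hind : ∀ y : ℝ, (fun v : ℝ => exp (-(y * I * v)) * f v) =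
      (Set.Ioi (0 : ℝ)).indicator fun t : ℝ => (t : ℂ) * exp (-(1 + y * I) * t) := by
    intro y
    funext v
    by_cases hv : v ∈ Set.Ioi (0 : ℝ)
    · rw [Set.indicator_of_mem hv]
      simp only [f, max_eq_left (le_of_lt (Set.mem_Ioi.1 hv))]
      rw [mul_left_comm, ← exp_add]
      congr 2
      ring
    · rw [Set.indicator_of_notMem hv]
      simp only [f, max_eq_right (not_lt.1 fun h => hv (Set.mem_Ioi.2 h))]
      simp
  have hfi : Integrable f := by
    have := (integrable_indicator_iff measurableSet_Ioi).2 (a4a_int 0)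
    rw [← hind 0] at this
    simpa using this
  have hF : FourierTransform.fourier f =
      fun ξ : ℝ => 1 / (1 + ((2 * Real.pi * ξ : ℝ) : ℂ) * I) ^ 2 := by
    funext ξ
    rw [Real.fourier_real_eq_integral_exp_smul, ← a4a_val, ← integral_indicator measurableSet_Ioi,
      ← hind]
    congr 1
    funext v
    rw [smul_eq_mul]
    congr 2
    push_cast
    ring
  have hπ : (2 * Real.pi) ≠ 0 := by positivity
  have hFi : Integrable (FourierTransform.fourier f) := by
    rw [hF]
    have := (kern_one_int 0).comp_mul_left' hπ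
    simpa using this
  have h1 := hfi.fourierInv_fourier_eq hFi (v := u) hfc.continuousAt
  rw [Real.fourierInv_eq', hF] at h1
  have h2 := Measure.integral_comp_mul_left
    (fun y : ℝ => exp ((1 + y * I) * u) / (1 + y * I) ^ 2) (2 * Real.pi)
  have h3 : ∫ x : ℝ, exp ((1 + ((2 * Real.pi * x : ℝ) : ℂ) * I) * u) /
      (1 + ((2 * Real.pi * x : ℝ) : ℂ) * I) ^ 2 = exp u * f u := by
    rw [← h1, ← integral_const_mul]
    congr 1
    funext x
    rw [smul_eq_mul, ← mul_assoc, ← exp_add, mul_one_div]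
    congr 2
    simp only [RCLike.inner_apply, conj_trivial]
    push_cast
    ring
  rw [h3, abs_of_pos (by positivity), real_smul] at h2
  have h4 : exp u * f u = ((max u 0 : ℝ) : ℂ) := by
    simp only [f]
    rw [mul_left_comm, ← exp_add]
    simp
  rw [← h4, h2, ← mul_assoc]
  have h5 : (2 * Real.pi : ℂ) * (((2 * Real.pi)⁻¹ : ℝ) : ℂ) = 1 := by
    push_cast
    exact mul_inv_cancel₀ (by exact_mod_cast hπ)
  rw [h5, one_mul]

theorem kern_two_int (u : ℝ) {z : ℂ} (hz : z.re ≤ 0) :
    Integrable fun y : ℝ => exp ((1 + y * I) * u) / (1 + y * I) ^ 2 * (1 / (1 + y * I - z)) := by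
  have hre : ∀ y : ℝ, 1 ≤ ‖(1 + y * I - z : ℂ)‖ := fun y => by
    refine le_trans ?_ (re_le_norm _)
    simp only [sub_re, add_re, one_re, mul_re, ofReal_re, I_re, ofReal_im, I_im]
    linarith
  refine (kern_one_int u).norm.mono' ?_ (Filter.Eventually.of_forall fun y => ?_)
  · refine (kern_one_int u).aestronglyMeasurable.mul (Continuous.aestronglyMeasurable ?_)
    refine Continuous.div (by fun_prop) (by fun_prop) fun y h => ?_
    have := hre y
    rw [h, norm_zero] at this
    linarith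
  · rw [norm_mul]
    refine mul_le_of_le_one_right (norm_nonneg _) ?_
    rw [norm_div, norm_one]
    exact div_le_one_of_le₀ (hre y) (norm_nonneg _)

theorem kern_two {u : ℝ} (hu : 0 ≤ u) {z : ℂ} (hz : z.re ≤ 0) :
    ∫ y : ℝ, exp ((1 + y * I) * u) / (1 + y * I) ^ 2 * (1 / (1 + y * I - z)) =
      2 * Real.pi * II u z := by
  have hre : ∀ y : ℝ, (z - 1 - y * I : ℂ).re = z.re - 1 := fun y => by simp
  have h1 : ∀ y : ℝ, exp ((1 + y * I) * u) / (1 + y * I) ^ 2 * (1 / (1 + y * I - z)) =
      ∫ t in Set.Ioi (0 : ℝ), exp ((1 + y * I) * u) / (1 + y * I) ^ 2 *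
        exp ((z - 1 - y * I) * t) := fun y => by
    rw [integral_const_mul, integral_exp_mul_complex_Ioi (by rw [hre]; linarith)]
    congr 1
    rw [show (z - 1 - y * I : ℂ) = -(1 + y * I - z) by ring]
    rw [neg_div_neg_eq, ofReal_zero, mul_zero, exp_zero]
  have hint : Integrable (Function.uncurry fun (y t : ℝ) =>
      exp ((1 + y * I) * u) / (1 + y * I) ^ 2 * exp ((z - 1 - y * I) * t))
      ((volume : Measure ℝ).prod (volume.restrict (Set.Ioi 0))) := by
    refine ((kern_one_int u).norm.mul_prod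
      (integrableOn_exp_mul_Ioi (a := z.re - 1) (by linarith) 0)).mono' ?_
      (Filter.Eventually.of_forall fun p => le_of_eq ?_)
    · refine Continuous.aestronglyMeasurable (Continuous.mul ?_ (by fun_prop))
      exact Continuous.div (by fun_prop) (by fun_prop) fun p => pow_ne_zero _ (a4a_ne p.1)
    · rw [Function.uncurry, norm_mul, norm_exp ((z - 1 - p.1 * I) * p.2), mul_re, hre]
      simp
  have h2 : ∀ t : ℝ, ∫ y : ℝ, exp ((1 + y * I) * u) / (1 + y * I) ^ 2 *
      exp ((z - 1 - y * I) * t) = 2 * Real.pi * (((max (u - t) 0 : ℝ) : ℂ) * exp (z * t)) := by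
    intro t
    rw [← mul_assoc, ← kern_one, ← integral_mul_const]
    congr 1
    funext y
    rw [div_mul_eq_mul_div, div_mul_eq_mul_div, ← exp_add, ← exp_add]
    congr 2
    push_cast
    ring
  simp_rw [h1]
  rw [integral_integral_swap hint]
  simp_rw [h2]
  rw [integral_const_mul, II, Lap, intervalIntegral.integral_of_le hu,
    setIntegral_eq_of_subset_of_forall_sdiff_eq_zero (s := Set.Ioc 0 u) measurableSet_Ioi
      Set.Ioc_subset_Ioi_self]
  · congr 1
    refine setIntegral_congr_fun measurableSet_Ioc fun t ht => ?_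
    simp only [max_eq_left (sub_nonneg.2 ht.2)]
  · intro t ht
    have : u < t := not_le.1 fun h => ht.2 ⟨ht.1, h⟩
    rw [max_eq_right (by linarith)]
    simp

end Pool.Agent.Lib.MP_e97e2b_nt.Ln
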