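import Pool.Agent.Lib.MP_e97e2b_nt.Ln.A4a

/- The explicit formula from a local partial fraction expansion.
Let k y = exp ((1 + i y) u) / (1 + i y)^2 (norm ≤ exp 8 / (1 + y^2)), s y = 1 + 1 / L + i (γ + y / L).
By kern_one at u - log n / L and integral_tsum (or hasSum_integral_of_summable_norm),
 2 π * (first sum) = ∫ k y * LSeries a (s y) / L dy   (terms n > N vanish, the term n = 0 of LSeries is 0).
With z = L (ρ - 1 - i γ): (1 / L) / (s y - ρ) = 1 / (1 + i y - z), so kern_two gives the second sum, and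
kern_one at u gives u h0 / L.  So 2 π * (left side) = ‖∫ k y * Δ y‖ with
Δ y = (LSeries a (s y) - e ∑ 1 / (s y - ρ) - h0) / L.  For |y| ≤ r L: ‖Δ y‖ ≤ M0 / L + M |γ| + M |y| / L, and
∫ over |y| ≤ Y of |y| / (1 + y^2) ≤ 3 sqrt Y (or a logarithm).  For |y| > r L: ‖LSeries‖ / L ≤ M, ‖h0‖ / L ≤ M,
∫ 1 / y^2 = 2 / (r L); for each of the ≤ M L poles use 1 / (y^2 ‖w‖) ≤ (α / y^4 + 1 / (α ‖w‖^2)) / 2 with
α = (r L)^(3/2), ‖w‖^2 ≥ 1 + (y - im z)^2, which gives ≤ 3 (r L)^(-3/2). -/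

namespace Pool.Agent.Lib.MP_e97e2b_nt.Ln

open Complex Finset

open MeasureTheory

theorem a4b_cau_eq {b : ℝ} (hb : 0 < b) (t y : ℝ) :
    1 / (b ^ 2 + (y - t) ^ 2) = (b ^ 2)⁻¹ * (1 + ((y - t) / b) ^ 2)⁻¹ := by
  have : 0 < b ^ 2 + (y - t) ^ 2 := by positivity
  field_simp

theorem a4b_cau_int {b : ℝ} (hb : 0 < b) (t : ℝ) :
    Integrable fun y : ℝ => 1 / (b ^ 2 + (y - t) ^ 2) := by
  simp_rw [a4b_cau_eq hb]
  exact ((integrable_inv_one_add_sq.comp_div hb.ne').comp_sub_right t).const_mul _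

theorem a4b_cau {b : ℝ} (hb : 0 < b) (t : ℝ) :
    ∫ y : ℝ, 1 / (b ^ 2 + (y - t) ^ 2) = Real.pi / b := by
  simp_rw [a4b_cau_eq hb]
  rw [integral_const_mul, integral_sub_right_eq_self (fun y : ℝ => (1 + (y / b) ^ 2)⁻¹) t,
    Measure.integral_comp_div (fun y : ℝ => (1 + y ^ 2)⁻¹) b, integral_univ_inv_one_add_sq,
    abs_of_pos hb, smul_eq_mul]
  field_simp

theorem a4b_ms {F : Type} [NormedAddCommGroup F] [NormedSpace ℝ F] (Z : Multiset ℂ)
    (f : ℂ → ℝ → F) (h : ∀ ρ ∈ Z, Integrable (f ρ)) :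
    Integrable (fun y => (Z.map fun ρ => f ρ y).sum) ∧
      ∫ y, (Z.map fun ρ => f ρ y).sum = (Z.map fun ρ => ∫ y, f ρ y).sum := by
  induction Z using Multiset.induction_on with
  | empty => simp
  | cons ρ Z ih =>
    obtain ⟨h1, h2⟩ := ih fun z hz => h z (Multiset.mem_cons_of_mem hz)
    have h3 := h ρ (Multiset.mem_cons_self _ _)
    simp only [Multiset.map_cons, Multiset.sum_cons]
    exact ⟨h3.add h1, by rw [integral_add h3 h1, h2]⟩

theorem a4b_k_norm (u y : ℝ) :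
    ‖exp ((1 + y * I) * u) / (1 + y * I) ^ 2‖ = Real.exp u / (1 + y ^ 2) := by
  rw [norm_div, norm_pow, Complex.norm_exp, Complex.sq_norm, Complex.normSq_apply]
  simp [sq]

theorem a4b_term_norm (a : ℕ → ℂ) {σ : ℝ} (v : ℝ) (n : ℕ) :
    ‖LSeries.term a ((σ : ℂ) + v * I) n‖ ≤ ‖a n‖ * (n : ℝ) ^ (-σ) := by
  rw [LSeries.norm_term_eq]
  split_ifs with h
  · positivity
  · rw [Real.rpow_neg (Nat.cast_nonneg n), div_eq_mul_inv]
    simp

theorem a4b_L_norm (a : ℕ → ℂ) {σ : ℝ} (hs : Summable fun n : ℕ => ‖a n‖ * (n : ℝ) ^ (-σ))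
    (v : ℝ) : ‖LSeries a ((σ : ℂ) + v * I)‖ ≤ ∑' n : ℕ, ‖a n‖ * (n : ℝ) ^ (-σ) :=
  tsum_of_norm_bounded hs.hasSum (a4b_term_norm a v)

theorem a4b_term_cont (a : ℕ → ℂ) (σ γ L : ℝ) (n : ℕ) :
    Continuous fun y : ℝ => LSeries.term a ((σ : ℂ) + ((γ + y / L : ℝ) : ℂ) * I) n := by
  rcases eq_or_ne n 0 with rfl | hn
  · simp only [LSeries.term_zero]
    exact continuous_const
  · simp only [LSeries.term_of_ne_zero hn]
    have hn' : (n : ℂ) ≠ 0 := Nat.cast_ne_zero.2 hn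
    refine continuous_const.div (Continuous.const_cpow (by fun_prop) (Or.inl hn')) fun y => ?_
    rw [Ne, cpow_eq_zero_iff]
    exact fun h => hn' h.1

theorem a4b_term_eq (a : ℕ → ℂ) {L : ℝ} (hL : 0 < L) (γ u y : ℝ) {n : ℕ} (hn : n ≠ 0) :
    exp ((1 + y * I) * u) / (1 + y * I) ^ 2 *
      (LSeries.term a (((1 + 1 / L : ℝ) : ℂ) + ((γ + y / L : ℝ) : ℂ) * I) n / L) =
    exp ((1 + y * I) * ((u - Real.log n / L : ℝ) : ℂ)) / (1 + y * I) ^ 2 *
      (((1 / (n * L) : ℝ) : ℂ) * (exp (-((γ * Real.log n : ℝ) : ℂ) * I) * a n)) := by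
  have hn' : (n : ℂ) ≠ 0 := Nat.cast_ne_zero.2 hn
  have hL' : (L : ℂ) ≠ 0 := by exact_mod_cast hL.ne'
  have hlog : Complex.log n = ((Real.log n : ℝ) : ℂ) := by
    rw [Complex.ofReal_log (Nat.cast_nonneg n)]; simp
  have hnn : (n : ℂ) = exp ((Real.log n : ℝ) : ℂ) := by rw [← hlog, Complex.exp_log hn']
  rw [LSeries.term_of_ne_zero hn, cpow_def_of_ne_zero hn', hlog]
  have key : exp ((1 + y * I) * u) * exp ((Real.log n : ℝ) : ℂ) =
      exp ((1 + y * I) * ((u - Real.log n / L : ℝ) : ℂ)) * exp (-((γ * Real.log n : ℝ) : ℂ) * I) *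
        exp (((Real.log n : ℝ) : ℂ) * (((1 + 1 / L : ℝ) : ℂ) + ((γ + y / L : ℝ) : ℂ) * I)) := by
    rw [← Complex.exp_add, ← Complex.exp_add, ← Complex.exp_add]
    congr 1
    push_cast
    field_simp
    ring
  rw [← hnn] at key
  have he := Complex.exp_ne_zero
    (((Real.log n : ℝ) : ℂ) * (((1 + 1 / L : ℝ) : ℂ) + ((γ + y / L : ℝ) : ℂ) * I))
  generalize exp (((Real.log n : ℝ) : ℂ) * (((1 + 1 / L : ℝ) : ℂ) + ((γ + y / L : ℝ) : ℂ) * I)) = E1
    at key he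
  generalize exp ((1 + y * I) * ((u - Real.log n / L : ℝ) : ℂ)) = E2 at key
  generalize exp (-((γ * Real.log n : ℝ) : ℂ) * I) = E3 at key
  generalize exp ((1 + y * I) * u) = E4 at key
  have h4 : E4 = E2 * E3 * E1 / n := by rw [← key]; field_simp
  rw [h4]
  push_cast
  field_simp

theorem a4b_first (a : ℕ → ℂ) {L : ℝ} (hL : 0 < L) (γ u : ℝ) (N : ℕ)
    (hN : Real.exp (u * L) ≤ N + 1)
    (hs : Summable fun n : ℕ => ‖a n‖ * (n : ℝ) ^ (-(1 + 1 / L))) :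
    Integrable (fun y : ℝ => exp ((1 + y * I) * u) / (1 + y * I) ^ 2 *
      (LSeries a (((1 + 1 / L : ℝ) : ℂ) + ((γ + y / L : ℝ) : ℂ) * I) / L)) ∧
    ∫ y : ℝ, exp ((1 + y * I) * u) / (1 + y * I) ^ 2 *
      (LSeries a (((1 + 1 / L : ℝ) : ℂ) + ((γ + y / L : ℝ) : ℂ) * I) / L) =
      2 * Real.pi * ∑ n ∈ Ioc 0 N, ((1 / (n * L) * tri u (Real.log n / L) : ℝ) : ℂ) *
          (exp (-((γ * Real.log n : ℝ) : ℂ) * I) * a n) := by
  have hnL : ‖(L : ℂ)‖ = L := by rw [Complex.norm_real, Real.norm_of_nonneg hL.le]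
  constructor
  · refine (kern_one_int u).mul_bdd (c := (∑' n : ℕ, ‖a n‖ * (n : ℝ) ^ (-(1 + 1 / L))) / L)
      (Continuous.aestronglyMeasurable (Continuous.div_const ?_ _)) (ae_of_all _ fun y => ?_)
    · exact continuous_tsum (a4b_term_cont a _ γ L) hs fun n y => a4b_term_norm a _ n
    · rw [norm_div, hnL]
      exact div_le_div_of_nonneg_right (a4b_L_norm a hs _) hL.le
  · have hb : ∀ (n : ℕ) (y : ℝ),
        ‖LSeries.term a (((1 + 1 / L : ℝ) : ℂ) + ((γ + y / L : ℝ) : ℂ) * I) n / L‖ ≤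
          ‖a n‖ * (n : ℝ) ^ (-(1 + 1 / L)) / L := fun n y => by
      rw [norm_div, hnL]
      exact div_le_div_of_nonneg_right (a4b_term_norm a _ n) hL.le
    have hi : ∀ n : ℕ, Integrable fun y : ℝ => exp ((1 + y * I) * u) / (1 + y * I) ^ 2 *
        (LSeries.term a (((1 + 1 / L : ℝ) : ℂ) + ((γ + y / L : ℝ) : ℂ) * I) n / L) := fun n =>
      (kern_one_int u).mul_bdd ((a4b_term_cont a _ γ L n).div_const _).aestronglyMeasurable
        (ae_of_all _ (hb n))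
    have h1 := hasSum_integral_of_summable_integral_norm hi (by
      refine Summable.of_nonneg_of_le (fun n => integral_nonneg fun y => norm_nonneg _)
        (fun n => ?_) ((hs.div_const L).mul_left
          (∫ y : ℝ, ‖exp ((1 + y * I) * u) / (1 + y * I) ^ 2‖))
      rw [← integral_mul_const]
      refine integral_mono (hi n).norm ((kern_one_int u).norm.mul_const _) fun y => ?_
      simp only [norm_mul]
      exact mul_le_mul_of_nonneg_left (hb n y) (norm_nonneg _))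
    simp only [tsum_mul_left, tsum_div_const] at h1
    refine h1.unique ?_
    rw [Finset.mul_sum]
    have hv : ∀ n : ℕ, n ≠ 0 → ∫ y : ℝ, exp ((1 + y * I) * u) / (1 + y * I) ^ 2 *
        (LSeries.term a (((1 + 1 / L : ℝ) : ℂ) + ((γ + y / L : ℝ) : ℂ) * I) n / L) =
        2 * Real.pi * (((1 / (n * L) * tri u (Real.log n / L) : ℝ) : ℂ) *
          (exp (-((γ * Real.log n : ℝ) : ℂ) * I) * a n)) := fun n hn => by
      simp only [a4b_term_eq a hL γ u _ hn]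
      rw [integral_mul_const, kern_one, tri]
      push_cast
      ring
    rw [← Finset.sum_congr rfl fun n hn => hv n (mem_Ioc.1 hn).1.ne']
    refine hasSum_sum_of_ne_finset_zero fun n hn => ?_
    rcases eq_or_ne n 0 with rfl | h0
    · simp
    · have h2 : N + 1 ≤ n := by
        rw [mem_Ioc] at hn
        omega
      have h3 : u * L ≤ Real.log n := by
        rw [Real.le_log_iff_exp_le (by positivity)]
        exact hN.trans (by exact_mod_cast h2)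
      have h4 : tri u (Real.log n / L) = 0 :=
        max_eq_right (by rw [sub_nonpos, le_div_iff₀ hL]; exact h3)
      rw [hv n h0, h4]
      simp

theorem a4b_far {Y y : ℝ} (hY : 0 < Y) (hy : Y ≤ |y|) :
    1 / (1 + y ^ 2) ≤ 2 * (1 / (Y ^ 2 + (y - 0) ^ 2)) := by
  have h1 : Y ^ 2 ≤ y ^ 2 := by rw [← sq_abs y]; gcongr
  rw [sub_zero, mul_one_div, div_le_div_iff₀ (by positivity) (by positivity)]
  nlinarith

theorem a4b_near {Y W y : ℝ} (hY : 0 < Y) (hW : 0 < W) (hy : |y| ≤ Y) :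
    1 / (1 + y ^ 2) * |y| ≤
      W / 2 * (1 / (1 ^ 2 + (y - 0) ^ 2)) + Y ^ 2 / W * (1 / (Y ^ 2 + (y - 0) ^ 2)) := by
  have h1 : y ^ 2 ≤ Y ^ 2 := by rw [← sq_abs y]; gcongr
  have h2 : |y| ≤ W / 2 + y ^ 2 / (2 * W) := by
    rw [← sq_abs y, div_add_div _ _ two_ne_zero (by positivity), le_div_iff₀ (by positivity)]
    nlinarith [sq_nonneg (|y| - W)]
  have h3 : 1 / (1 + y ^ 2) * (y ^ 2 / (2 * W)) ≤ 1 / (2 * W) := by
    rw [div_mul_div_comm, div_le_div_iff₀ (by positivity) (by positivity)]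
    nlinarith
  have h4 : 1 / (2 * W) ≤ Y ^ 2 / W * (1 / (Y ^ 2 + y ^ 2)) := by
    rw [div_mul_div_comm, div_le_div_iff₀ (by positivity) (by positivity)]
    nlinarith
  rw [sub_zero, one_pow]
  calc 1 / (1 + y ^ 2) * |y| ≤ 1 / (1 + y ^ 2) * (W / 2 + y ^ 2 / (2 * W)) := by gcongr
    _ = W / 2 * (1 / (1 + y ^ 2)) + 1 / (1 + y ^ 2) * (y ^ 2 / (2 * W)) := by ring
    _ ≤ _ := by linarith

theorem a4b_pole {Y α y : ℝ} (hY : 0 < Y) (hα : 0 < α) (hy : Y ≤ |y|) {z : ℂ} (hz : z.re ≤ 0) :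
    1 / (1 + y ^ 2) * ‖1 / (1 + y * I - z)‖ ≤
      α / Y ^ 2 * (1 / (Y ^ 2 + (y - 0) ^ 2)) + 1 / (2 * α) * (1 / (1 ^ 2 + (y - z.im) ^ 2)) := by
  have h1 : Y ^ 2 ≤ y ^ 2 := by rw [← sq_abs y]; gcongr
  have hA : (1 / (1 + y ^ 2)) ^ 2 ≤ 1 / Y ^ 2 * (2 * (1 / (Y ^ 2 + (y - 0) ^ 2))) := by
    rw [sq]
    exact mul_le_mul (one_div_le_one_div_of_le (by positivity) (by linarith)) (a4b_far hY hy)
      (by positivity) (by positivity)
  have hB : ‖1 / (1 + y * I - z)‖ ^ 2 ≤ 1 / (1 ^ 2 + (y - z.im) ^ 2) := by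
    rw [norm_div, norm_one, div_pow, one_pow, Complex.sq_norm, Complex.normSq_apply]
    refine one_div_le_one_div_of_le (by positivity) ?_
    simp only [sub_re, add_re, one_re, mul_re, ofReal_re, I_re, mul_zero, ofReal_im, I_im, mul_one,
      sub_self, add_zero, sub_im, add_im, one_im, mul_im, zero_add]
    nlinarith
  generalize 1 / (1 + y ^ 2) = A at hA ⊢
  generalize ‖1 / (1 + y * I - z)‖ = B at hB ⊢
  have h2 : A * B ≤ α / 2 * A ^ 2 + 1 / (2 * α) * B ^ 2 := by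
    have : α / 2 * A ^ 2 + 1 / (2 * α) * B ^ 2 - A * B = (α * A - B) ^ 2 / (2 * α) := by
      field_simp
      ring
    have h3 : 0 ≤ (α * A - B) ^ 2 / (2 * α) := by positivity
    linarith
  calc A * B ≤ α / 2 * A ^ 2 + 1 / (2 * α) * B ^ 2 := h2
    _ ≤ α / 2 * (1 / Y ^ 2 * (2 * (1 / (Y ^ 2 + (y - 0) ^ 2)))) +
        1 / (2 * α) * (1 / (1 ^ 2 + (y - z.im) ^ 2)) := by gcongr
    _ = _ := by ring

theorem a4b_num {M W r c : ℝ} (hM : 1 ≤ M) (hW : 1 ≤ W) (hr : 0 < r) (hr1 : r ≤ 1)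
    (hc : c ≤ M * W ^ 2) :
    M / W ^ 2 * (W / 2) * (Real.pi / 1) +
      (M / W ^ 2 * ((r * W ^ 2) ^ 2 / W) + 4 * M) * (Real.pi / (r * W ^ 2)) +
      c * (r ^ 2 * W ^ 3 / (r * W ^ 2) ^ 2 * (Real.pi / (r * W ^ 2)) +
        1 / (2 * (r ^ 2 * W ^ 3)) * (Real.pi / 1)) ≤ Real.pi * (7 * (M / (r ^ 2 * W))) := by
  have hp := Real.pi_pos
  have hW0 : 0 < W := by linarith
  calc _ ≤ M / W ^ 2 * (W / 2) * (Real.pi / 1) +
      (M / W ^ 2 * ((r * W ^ 2) ^ 2 / W) + 4 * M) * (Real.pi / (r * W ^ 2)) +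
      M * W ^ 2 * (r ^ 2 * W ^ 3 / (r * W ^ 2) ^ 2 * (Real.pi / (r * W ^ 2)) +
        1 / (2 * (r ^ 2 * W ^ 3)) * (Real.pi / 1)) := by gcongr
    _ = Real.pi * (M / (r ^ 2 * W)) * (r ^ 2 / 2 + r ^ 3 + 4 * (r / W) + r + 1 / 2) := by
      field_simp
      ring
    _ ≤ Real.pi * (M / (r ^ 2 * W)) * 7 := by
      have h1 : r ^ 2 ≤ 1 := pow_le_one₀ hr.le hr1
      have h2 : r ^ 3 ≤ 1 := pow_le_one₀ hr.le hr1
      have h3 : r / W ≤ 1 := (div_le_one hW0).2 (hr1.trans hW)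
      gcongr
      linarith
    _ = _ := by ring

theorem perron : ∃ C : ℝ, 0 < C ∧ ∀ (a : ℕ → ℂ) (L M M0 r γ u : ℝ) (N : ℕ) (Zr : Multiset ℂ)
    (e h0 : ℂ), 1 ≤ L → 1 ≤ M → 0 ≤ M0 → 0 < r → r ≤ 1 → 1 ≤ r * L → 0 ≤ u → u ≤ 8 →
    Real.exp (u * L) ≤ N + 1 → ‖e‖ ≤ 1 → ‖h0‖ ≤ M * L → (Zr.card : ℝ) ≤ M * L →
    (∀ ρ ∈ Zr, ρ.re ≤ 1) → Summable (fun n : ℕ => ‖a n‖ * (n : ℝ) ^ (-(1 + 1 / L))) →
    ∑' n : ℕ, ‖a n‖ * (n : ℝ) ^ (-(1 + 1 / L)) ≤ M * L →
    (∀ v : ℝ, |v - γ| ≤ r → ‖LSeries a (((1 + 1 / L : ℝ) : ℂ) + v * I) -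
      e * (Zr.map fun ρ => 1 / (((1 + 1 / L : ℝ) : ℂ) + v * I - ρ)).sum - h0‖ ≤ M0 + M * L * |v|) →
    ‖∑ n ∈ Ioc 0 N, ((1 / (n * L) * tri u (Real.log n / L) : ℝ) : ℂ) *
          (exp (-((γ * Real.log n : ℝ) : ℂ) * I) * a n) -
        e * (Zr.map fun ρ => II u (L * (ρ - 1) - (γ * L : ℝ) * I)).sum - u * (h0 / L)‖ ≤
      C * (M0 / L + M * |γ| + M / (r ^ 2 * Real.sqrt L)) := by
  refine ⟨4 * Real.exp 8, by positivity, ?_⟩
  intro a L M M0 r γ u N Zr e h0 hL hM hM0 hr hr1 hrL hu hu8 hN he hh0 hcard hZ hs hsum hloc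
  have hL0 : 0 < L := by linarith
  have hLc : (L : ℂ) ≠ 0 := by exact_mod_cast hL0.ne'
  have hnL : ‖(L : ℂ)‖ = L := by rw [Complex.norm_real, Real.norm_of_nonneg hL0.le]
  have hp := Real.pi_pos
  obtain ⟨W, hW, hWL, hW2⟩ : ∃ W : ℝ, 1 ≤ W ∧ Real.sqrt L = W ∧ L = W ^ 2 :=
    ⟨_, Real.one_le_sqrt.2 hL, rfl, (Real.sq_sqrt hL0.le).symm⟩
  have hW0 : 0 < W := by linarith
  obtain ⟨z, hz⟩ : ∃ z : ℂ → ℂ, ∀ ρ, z ρ = L * (ρ - 1) - (γ * L : ℝ) * I := ⟨_, fun _ => rfl⟩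
  have hzre : ∀ ρ ∈ Zr, (z ρ).re ≤ 0 := fun ρ hρ => by
    have := hZ ρ hρ
    simp only [hz, sub_re, mul_re, ofReal_re, one_re, ofReal_im, zero_mul, sub_zero, I_re, mul_zero,
      I_im, mul_one]
    nlinarith
  simp only [← hz]
  obtain ⟨i1, v1⟩ := a4b_first a hL0 γ u N hN hs
  obtain ⟨i2, v2⟩ := a4b_ms Zr (fun ρ (y : ℝ) => exp ((1 + y * I) * u) / (1 + y * I) ^ 2 *
    (1 / (1 + y * I - z ρ))) fun ρ hρ => kern_two_int u (hzre ρ hρ)
  rw [Multiset.map_congr rfl fun ρ hρ => kern_two hu (hzre ρ hρ), Multiset.sum_map_mul_left] at v2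
  simp only [Multiset.sum_map_mul_left] at i2 v2
  have i3 := (kern_one_int u).mul_const (h0 / L)
  have v3 : ∫ y : ℝ, exp ((1 + y * I) * u) / (1 + y * I) ^ 2 * (h0 / L) =
      2 * Real.pi * (u * (h0 / L)) := by
    rw [integral_mul_const, kern_one, max_eq_left hu, mul_assoc]
  obtain ⟨Y, hY⟩ : ∃ Y : ℝ, Y = r * W ^ 2 := ⟨_, rfl⟩
  obtain ⟨α, hα⟩ : ∃ α : ℝ, α = r ^ 2 * W ^ 3 := ⟨_, rfl⟩
  have hY0 : 0 < Y := by rw [hY]; positivity
  have hα0 : 0 < α := by rw [hα]; positivity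
  obtain ⟨j2, w2⟩ := a4b_ms Zr (fun ρ (y : ℝ) => α / Y ^ 2 * (1 / (Y ^ 2 + (y - 0) ^ 2)) +
    1 / (2 * α) * (1 / (1 ^ 2 + (y - (z ρ).im) ^ 2))) fun ρ _ =>
      ((a4b_cau_int hY0 0).const_mul _).add ((a4b_cau_int one_pos _).const_mul _)
  rw [Multiset.map_congr rfl (g := fun _ => α / Y ^ 2 * (Real.pi / Y) +
    1 / (2 * α) * (Real.pi / 1)) fun ρ _ => by
      rw [integral_add ((a4b_cau_int hY0 0).const_mul _) ((a4b_cau_int one_pos _).const_mul _),
        integral_const_mul, integral_const_mul, a4b_cau hY0, a4b_cau one_pos],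
    Multiset.map_const', Multiset.sum_replicate, nsmul_eq_mul] at w2
  have j1 : Integrable fun y : ℝ =>
      (M0 / L + M * |γ| + M / L * (W / 2)) * (1 / (1 ^ 2 + (y - 0) ^ 2)) +
        (M / L * (Y ^ 2 / W) + 4 * M) * (1 / (Y ^ 2 + (y - 0) ^ 2)) :=
    ((a4b_cau_int one_pos 0).const_mul _).add ((a4b_cau_int hY0 0).const_mul _)
  have w1 : ∫ y : ℝ, ((M0 / L + M * |γ| + M / L * (W / 2)) * (1 / (1 ^ 2 + (y - 0) ^ 2)) +
        (M / L * (Y ^ 2 / W) + 4 * M) * (1 / (Y ^ 2 + (y - 0) ^ 2))) =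
      (M0 / L + M * |γ| + M / L * (W / 2)) * (Real.pi / 1) +
        (M / L * (Y ^ 2 / W) + 4 * M) * (Real.pi / Y) := by
    rw [integral_add ((a4b_cau_int one_pos 0).const_mul _) ((a4b_cau_int hY0 0).const_mul _),
      integral_const_mul, integral_const_mul, a4b_cau hY0, a4b_cau one_pos]
  have hb := norm_integral_le_of_norm_le (f := fun y : ℝ =>
      exp ((1 + y * I) * u) / (1 + y * I) ^ 2 *
        (LSeries a (((1 + 1 / L : ℝ) : ℂ) + ((γ + y / L : ℝ) : ℂ) * I) / L) -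
      e * (exp ((1 + y * I) * u) / (1 + y * I) ^ 2 *
        (Zr.map fun ρ => 1 / (1 + y * I - z ρ)).sum) -
      exp ((1 + y * I) * u) / (1 + y * I) ^ 2 * (h0 / L)) ((j1.add j2).const_mul (Real.exp 8))
    (ae_of_all _ fun y => by
      have hk : ‖exp ((1 + y * I) * u) / (1 + y * I) ^ 2‖ ≤ Real.exp 8 * (1 / (1 + y ^ 2)) := by
        rw [a4b_k_norm, mul_one_div]
        gcongr
      generalize exp ((1 + y * I) * u) / (1 + y * I) ^ 2 = k at hk
      simp only [Pi.add_apply]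
      rw [show ∀ A P H : ℂ, k * A - e * (k * P) - k * H = k * (A - e * P - H) from
        fun A P H => by ring, norm_mul]
      refine (mul_le_mul_of_nonneg_right hk (norm_nonneg _)).trans ?_
      rw [mul_assoc]
      refine mul_le_mul_of_nonneg_left ?_ (Real.exp_pos _).le
      have hc1 : 0 ≤ 1 / (1 ^ 2 + (y - 0) ^ 2) := by positivity
      have hc2 : 0 ≤ 1 / (Y ^ 2 + (y - 0) ^ 2) := by positivity
      rcases le_total |y| Y with hy | hy
      · have h1 := hloc (γ + y / L) (by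
          rw [add_sub_cancel_left, abs_div, abs_of_pos hL0, div_le_iff₀ hL0, hW2, ← hY]
          exact hy)
        have h2 : (Zr.map fun ρ => 1 / (1 + y * I - z ρ)).sum = (Zr.map fun ρ =>
            1 / (((1 + 1 / L : ℝ) : ℂ) + ((γ + y / L : ℝ) : ℂ) * I - ρ)).sum / L := by
          rw [div_eq_mul_one_div _ (L : ℂ), ← Multiset.sum_map_mul_right]
          refine congrArg _ (Multiset.map_congr rfl fun ρ _ => ?_)
          rw [one_div_mul_one_div, hz]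
          congr 1
          push_cast
          field_simp
          ring
        rw [h2, show ∀ A P H : ℂ, A / L - e * (P / L) - H / L = (A - e * P - H) / L from
          fun A P H => by ring, norm_div, hnL]
        have h3 : |γ + y / L| ≤ |γ| + |y| / L := by
          rw [← abs_of_pos hL0, ← abs_div, abs_of_pos hL0]
          exact abs_add_le _ _
        have h4 : (M0 + M * L * |γ + y / L|) / L ≤ M0 / L + M * |γ| + M / L * |y| := by
          calc _ ≤ (M0 + M * L * (|γ| + |y| / L)) / L := by gcongr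
            _ = _ := by field_simp; ring
        have h5 := a4b_near hY0 hW0 hy
        have h6 : 0 ≤ (Zr.map fun ρ => α / Y ^ 2 * (1 / (Y ^ 2 + (y - 0) ^ 2)) +
            1 / (2 * α) * (1 / (1 ^ 2 + (y - (z ρ).im) ^ 2))).sum :=
          Multiset.sum_nonneg fun x hx => by
            obtain ⟨ρ, _, rfl⟩ := Multiset.mem_map.1 hx
            positivity
        have h7 : 0 ≤ 4 * M * (1 / (Y ^ 2 + (y - 0) ^ 2)) := by positivity
        have h8 := mul_le_mul_of_nonneg_left h5 (show 0 ≤ M / L by positivity)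
        calc _ ≤ 1 / (1 + y ^ 2) * (M0 / L + M * |γ| + M / L * |y|) :=
              mul_le_mul_of_nonneg_left ((div_le_div_of_nonneg_right h1 hL0.le).trans h4)
                (by positivity)
          _ = (M0 / L + M * |γ|) * (1 / (1 ^ 2 + (y - 0) ^ 2)) +
              M / L * (1 / (1 + y ^ 2) * |y|) := by rw [sub_zero, one_pow]; ring
          _ ≤ _ := by nlinarith
      · have h1 : ‖LSeries a (((1 + 1 / L : ℝ) : ℂ) + ((γ + y / L : ℝ) : ℂ) * I) / L‖ ≤ M := by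
          rw [norm_div, hnL, div_le_iff₀ hL0]
          exact (a4b_L_norm a hs _).trans hsum
        have h2 : ‖h0 / L‖ ≤ M := by
          rw [norm_div, hnL, div_le_iff₀ hL0]
          exact hh0
        have h3 : ‖e * (Zr.map fun ρ => 1 / (1 + y * I - z ρ)).sum‖ ≤
            (Zr.map fun ρ => ‖1 / (1 + y * I - z ρ)‖).sum := by
          rw [norm_mul]
          refine (mul_le_of_le_one_left (norm_nonneg _) he).trans
            ((norm_multiset_sum_le _).trans_eq ?_)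
          rw [Multiset.map_map]
          rfl
        have h4 : 1 / (1 + y ^ 2) * (Zr.map fun ρ => ‖1 / (1 + y * I - z ρ)‖).sum ≤
            (Zr.map fun ρ => α / Y ^ 2 * (1 / (Y ^ 2 + (y - 0) ^ 2)) +
              1 / (2 * α) * (1 / (1 ^ 2 + (y - (z ρ).im) ^ 2))).sum := by
          rw [← Multiset.sum_map_mul_left]
          exact Multiset.sum_map_le_sum_map _ _ fun ρ hρ => a4b_pole hY0 hα0 hy (hzre ρ hρ)
        have h5 := mul_le_mul_of_nonneg_left (a4b_far hY0 hy) (show 0 ≤ 2 * M by positivity)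
        have h6 : 0 ≤ (M0 / L + M * |γ| + M / L * (W / 2)) * (1 / (1 ^ 2 + (y - 0) ^ 2)) := by
          positivity
        have h7 : 0 ≤ M / L * (Y ^ 2 / W) * (1 / (Y ^ 2 + (y - 0) ^ 2)) := by positivity
        calc _ ≤ 1 / (1 + y ^ 2) * (M + (Zr.map fun ρ => ‖1 / (1 + y * I - z ρ)‖).sum + M) :=
              mul_le_mul_of_nonneg_left ((norm_sub_le _ _).trans
                (add_le_add ((norm_sub_le _ _).trans (add_le_add h1 h3)) h2)) (by positivity)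
          _ = 2 * M * (1 / (1 + y ^ 2)) +
              1 / (1 + y ^ 2) * (Zr.map fun ρ => ‖1 / (1 + y * I - z ρ)‖).sum := by ring
          _ ≤ _ := by nlinarith)
  have e1 := integral_sub (i1.sub (i2.const_mul e)) i3
  simp only [Pi.sub_apply] at e1
  rw [e1, integral_sub i1 (i2.const_mul e),
    integral_const_mul, v1, v2, v3, integral_const_mul] at hb
  simp only [Pi.add_apply] at hb
  rw [integral_add j1 j2, w1, w2, show ∀ A P H : ℂ, 2 * Real.pi * A - e * (2 * Real.pi * P) -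
    2 * Real.pi * H = 2 * Real.pi * (A - e * P - H) from fun A P H => by ring, norm_mul] at hb
  have hn : ‖(2 * Real.pi : ℂ)‖ = 2 * Real.pi := by
    rw [norm_mul, Complex.norm_real, Real.norm_of_nonneg hp.le]
    simp
  have hnum := a4b_num hM hW hr hr1 (hW2 ▸ hcard)
  rw [← hY, ← hα, ← hW2] at hnum
  rw [hn] at hb
  rw [hWL]
  refine le_of_mul_le_mul_left (hb.trans ?_) (show 0 < 2 * Real.pi by positivity)
  have h1 : 0 ≤ M0 / L + M * |γ| := by positivity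
  have h2 : 0 ≤ M / (r ^ 2 * W) := by positivity
  calc _ ≤ Real.exp 8 * ((M0 / L + M * |γ|) * Real.pi + Real.pi * (7 * (M / (r ^ 2 * W)))) := by
        refine mul_le_mul_of_nonneg_left ?_ (Real.exp_pos _).le
        have : (M0 / L + M * |γ| + M / L * (W / 2)) * (Real.pi / 1) =
          (M0 / L + M * |γ|) * Real.pi + M / L * (W / 2) * (Real.pi / 1) := by ring
        linarith
    _ = Real.exp 8 * Real.pi * ((M0 / L + M * |γ|) + 7 * (M / (r ^ 2 * W))) := by ring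
    _ ≤ Real.exp 8 * Real.pi * (8 * (M0 / L + M * |γ| + M / (r ^ 2 * W))) := by
        gcongr
        linarith
    _ = _ := by ring

end Pool.Agent.Lib.MP_e97e2b_nt.Ln
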