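import Pool.Agent.Lib.MP_e97e2b_nt.Ln.B4

/- The twisted characters.
`xi_apply`: if n is coprime to m l use changeLevel_eq_cast_of_dvd; otherwise both sides vanish
(MulChar.map_nonunit, jacobiSym.eq_zero_iff).  legendreSym and jacobiSym agree (jacobiSym.legendreSym.to_jacobiSym).
`xi_ne_one`: choose n ≡ 1 mod m that is a nonresidue mod l (Chinese remainder theorem).
`xi_sum`: split the sum into the m residue classes, ψ is constant of norm ≤ 1 on each, and use burgess_ap.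
`fr_svh`: ψ ψ = 1 gives ψ n ∈ {0, 1, -1}; on the class h, fr m l ψ n = re (ψ h) * chi l n. -/

namespace Pool.Agent.Lib.MP_e97e2b_nt.Ln

open Complex Finset

theorem a6a_qc (l : ℕ) [Fact l.Prime] (n : ℕ) : qc l (n : ZMod l) = (chi l n : ℂ) := by
  rw [chi, ← jacobiSym.legendreSym.to_jacobiSym, legendreSym]
  simp [qc]

theorem a6a_chi_zero {l n : ℕ} (hl : l ≠ 0) (h : ¬ n.Coprime l) : chi l n = 0 := by
  have : jacobiSym n l = 0 := jacobiSym.eq_zero_iff.2 ⟨hl, by simpa using h⟩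
  rw [chi, this, Int.cast_zero]

theorem a6a_chi_sq {l n : ℕ} (h : n.Coprime l) : chi l n ^ 2 = 1 := by
  have : jacobiSym n l ^ 2 = 1 := jacobiSym.sq_one (by simpa using h)
  rw [chi]
  exact_mod_cast this

theorem a6a_psi_zero {m n : ℕ} (ψ : DirichletCharacter ℂ m) (h : ¬ n.Coprime m) :
    ψ (n : ZMod m) = 0 :=
  ψ.map_nonunit fun hu => h ((ZMod.isUnit_iff_coprime n m).1 hu)

theorem a6a_quad {m : ℕ} {ψ : DirichletCharacter ℂ m} (hψ : ψ * ψ = 1) : ψ.IsQuadratic :=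
  MulChar.isQuadratic_iff_sq_eq_one.2 (by rw [sq, hψ])

theorem xi_apply (m l : ℕ) [NeZero m] [Fact l.Prime] (ψ : DirichletCharacter ℂ m) (n : ℕ) :
    xi m l ψ (n : ZMod (m * l)) = ψ (n : ZMod m) * (chi l n : ℂ) := by
  by_cases h : n.Coprime (m * l)
  · have h1 := DirichletCharacter.changeLevel_eq_cast_of_dvd ψ (dvd_mul_right m l)
      (ZMod.unitOfCoprime n h)
    have h2 := DirichletCharacter.changeLevel_eq_cast_of_dvd (qc l) (dvd_mul_left l m)
      (ZMod.unitOfCoprime n h)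
    simp only [ZMod.coe_unitOfCoprime, dvd_mul_right, dvd_mul_left, ZMod.cast_natCast] at h1 h2
    rw [xi, MulChar.mul_apply, h1, h2, a6a_qc]
  · rw [a6a_psi_zero _ h]
    by_cases h1 : n.Coprime m
    · rw [a6a_chi_zero (Fact.out : l.Prime).ne_zero fun h2 => h (Nat.Coprime.mul_right h1 h2)]
      simp
    · rw [a6a_psi_zero _ h1, zero_mul]

theorem xi_ne_one (m l : ℕ) [NeZero m] [Fact l.Prime] (h2 : 2 < l) (hml : m < l)
    (ψ : DirichletCharacter ℂ m) : xi m l ψ ≠ 1 := by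
  have hl : l.Prime := Fact.out
  have hm : 0 < m := Nat.pos_of_ne_zero (NeZero.ne m)
  have hco : m.Coprime l :=
    (hl.coprime_iff_not_dvd.2 (Nat.not_dvd_of_pos_of_lt hm hml)).symm
  obtain ⟨a, ha⟩ := quadraticChar_exists_neg_one (F := ZMod l)
    (by rw [ZMod.ringChar_zmod_n]; omega)
  obtain ⟨n, h1, h3⟩ := Nat.chineseRemainder hco 1 a.val
  have e1 : (n : ZMod m) = 1 := by
    rw [(ZMod.natCast_eq_natCast_iff _ _ _).2 h1, Nat.cast_one]
  have e2 : (n : ZMod l) = a := by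
    rw [(ZMod.natCast_eq_natCast_iff _ _ _).2 h3, ZMod.natCast_zmod_val]
  have e3 : xi m l ψ (n : ZMod (m * l)) = -1 := by
    rw [xi_apply, ← a6a_qc, e1, e2, map_one, one_mul]
    simp [qc, ha]
  intro h
  rw [h] at e3
  by_cases hu : IsUnit (n : ZMod (m * l))
  · rw [MulChar.one_apply hu] at e3
    norm_num at e3
  · rw [MulChar.map_nonunit _ hu] at e3
    norm_num at e3

theorem xi_inv (m l : ℕ) [NeZero m] [Fact l.Prime] (ψ : DirichletCharacter ℂ m) :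
    xi m l ψ⁻¹ = (xi m l ψ)⁻¹ := by
  have h : (qc l)⁻¹ = qc l := ((quadraticChar_isQuadratic (ZMod l)).comp _).inv
  rw [xi, xi, mul_inv, ← map_inv, ← map_inv, h]

theorem xi_sum (m : ℕ) [NeZero m] (ε : ℝ) (hε : 0 < ε) : ∃ (θ C : ℝ) (l0 : ℕ), 0 < θ ∧
    θ ≤ 1 / 2 ∧ 1 ≤ C ∧ ∀ (l : ℕ) [Fact l.Prime], l0 < l → ∀ (ψ : DirichletCharacter ℂ m) (x : ℝ),
    1 ≤ x → ‖∑ n ∈ Ioc 0 ⌊x⌋₊, xi m l ψ (n : ZMod (m * l))‖ ≤
      C * x ^ (1 - θ) * ((l : ℝ) ^ (1 / 4 + ε)) ^ θ := by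
  have hm : 0 < m := Nat.pos_of_ne_zero (NeZero.ne m)
  obtain ⟨θ, C, l0, h1, h2, h3, h4⟩ := burgess_ap m hm ε hε
  have hm' : (1 : ℝ) ≤ m := by exact_mod_cast hm
  refine ⟨θ, m * C, l0, h1, h2, one_le_mul_of_one_le_of_one_le hm' h3, fun l hl hl0 ψ x hx => ?_⟩
  have e : ∑ n ∈ Ioc 0 ⌊x⌋₊, xi m l ψ (n : ZMod (m * l)) =
      ∑ h ∈ range m, ψ (h : ZMod m) * ((Sm (cls m h fun n => chi l n) x : ℝ) : ℂ) := by
    simp only [Sm, ofReal_sum, Finset.mul_sum]
    rw [Finset.sum_comm]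
    refine Finset.sum_congr rfl fun n _ => ?_
    rw [xi_apply, Finset.sum_eq_single (n % m)]
    · rw [cls, if_pos (Nat.mod_modEq n m).symm, ZMod.natCast_mod]
    · intro h hh hne
      rw [cls, if_neg, ofReal_zero, mul_zero]
      intro hc
      exact hne (by rw [hc, Nat.mod_eq_of_lt (mem_range.1 hh)])
    · intro hn
      exact absurd (mem_range.2 (Nat.mod_lt n hm)) hn
  rw [e]
  refine (norm_sum_le _ _).trans ((Finset.sum_le_card_nsmul _ _
    (C * x ^ (1 - θ) * ((l : ℝ) ^ (1 / 4 + ε)) ^ θ) fun h _ => ?_).trans (le_of_eq ?_))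
  · rw [norm_mul, norm_real, Real.norm_eq_abs]
    exact (mul_le_of_le_one_left (abs_nonneg _) (ψ.norm_le_one _)).trans (h4 l hl.out hl0 h x hx)
  · rw [card_range, nsmul_eq_mul]
    ring

theorem fr_coe (m l : ℕ) [NeZero m] (ψ : DirichletCharacter ℂ m) (hψ : ψ * ψ = 1) (n : ℕ) :
    ((fr m l ψ n : ℝ) : ℂ) = ψ (n : ZMod m) * (chi l n : ℂ) := by
  rw [fr, ofReal_mul]
  rcases a6a_quad hψ (n : ZMod m) with h | h | h <;> simp [h]

theorem fr_rc (m l : ℕ) [NeZero m] (hl : l.Prime) (ψ : DirichletCharacter ℂ m)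
    (hψ : ψ * ψ = 1) : RC (m * l) (fr m l ψ) := by
  refine ⟨?_, fun a b => ?_, fun n => ?_⟩
  · simp [fr, chi_one]
  · refine ofReal_injective ?_
    rw [ofReal_mul, fr_coe m l ψ hψ, fr_coe m l ψ hψ, fr_coe m l ψ hψ, Nat.cast_mul, Nat.cast_mul,
      map_mul, chi_mul, ofReal_mul]
    ring
  · unfold uu
    split_ifs with h
    · have h1 : n.Coprime m := h.coprime_mul_right_right
      have h2 : n.Coprime l := h.coprime_mul_left_right
      have h3 : ψ (n : ZMod m) ≠ 0 := (((ZMod.isUnit_iff_coprime n m).2 h1).map ψ).ne_zero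
      rw [fr, mul_pow, a6a_chi_sq h2, mul_one]
      rcases a6a_quad hψ (n : ZMod m) with h | h | h
      · exact absurd h h3
      · simp [h]
      · simp [h]
    · by_cases h1 : n.Coprime m
      · rw [fr, a6a_chi_zero hl.ne_zero fun h2 => h (Nat.Coprime.mul_right h1 h2)]
        simp
      · rw [fr, a6a_psi_zero _ h1]
        simp

theorem fr_svh (m : ℕ) [NeZero m] (ε : ℝ) (hε : 0 < ε) : ∃ (θ C : ℝ) (l0 : ℕ),
    ∀ l : ℕ, l.Prime → l0 < l → ∀ ψ : DirichletCharacter ℂ m, ψ * ψ = 1 →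
      SvH m l (fr m l ψ) θ C ((l : ℝ) ^ (1 / 4 + ε)) := by
  have hm : 0 < m := Nat.pos_of_ne_zero (NeZero.ne m)
  obtain ⟨θ, C, l0, h1, h2, h3, h4⟩ := burgess_ap m hm ε hε
  refine ⟨θ, C, max l0 m, fun l hl hl0 ψ hψ => ⟨hm, hl, (le_max_right _ _).trans_lt hl0,
    fr_rc m l hl ψ hψ, h1, h2, h3, ?_, fun h x hx => ?_⟩⟩
  · exact Real.one_le_rpow (by exact_mod_cast hl.one_le) (by linarith)
  · have e : Sm (cls m h (fr m l ψ)) x =
        (ψ (h : ZMod m)).re * Sm (cls m h fun n => chi l n) x := by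
      simp only [Sm, Finset.mul_sum]
      refine Finset.sum_congr rfl fun n _ => ?_
      unfold cls
      split_ifs with hn
      · rw [fr, (ZMod.natCast_eq_natCast_iff _ _ _).2 hn]
      · rw [mul_zero]
    rw [e, abs_mul]
    exact (mul_le_of_le_one_left (abs_nonneg _) ((abs_re_le_norm _).trans (ψ.norm_le_one _))).trans
      (h4 l hl ((le_max_left _ _).trans_lt hl0) h x hx)

end Pool.Agent.Lib.MP_e97e2b_nt.Ln
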