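import Pool.Agent.Lib.MP_e97e2b_nt.Ln.A2b
import Pool.Agent.Lib.MP_e97e2b_nt.Ln.J3
import Pool.Agent.Lib.MP_e97e2b_nt.Ln.A4b
import Pool.Agent.Lib.MP_e97e2b_nt.Ln.A5
import Pool.Agent.Lib.MP_e97e2b_nt.Ln.A6a

/- Explicit formula for the twisted characters.
Let L = LL l, ε' = min ε 1 / 16, and θ, C from xi_sum with ε'; y = l^(1/4 + ε'), P = log y = (1 + 4 ε') L,
R = θ / 6, δ = ε' R^2 / 8, c = 1 + 1 / L, b = max (log (C' (1 + log y))) (log (L + 1)) + 1 = o(L).
Apply jen to f = LFunction (xi m l ψ) (differentiable_LFunction, lfun_upper, lfun_lower: for re s ≥ c,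
(σ - 1) / σ ≥ 1 / (L + 1)).  For large l, 2 b + 3 R P ≤ 2 L, and h = h0 / L has re h ≤ 1/2 + ε.  The zeros have
re ≤ 1 (LFunction_ne_zero_of_one_le_re).  Apply perron with a n = xi n * Λ n, e = -1, M0 = 0, r = δ / 4,
γ = y / L (|γ| ≤ K0 L^(-1/3) ≤ δ / 4), N = l^2 (exp (8 L) = l^2), M = a constant depending on δ and lambda_sum;
for re s > 1, LSeries a s = - deriv f s / f s.  All error terms tend to 0 as L tends to infinity, and
card ≤ 2 L ≤ ε L^(4/3). -/

namespace Pool.Agent.Lib.MP_e97e2b_nt.Ln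

open Complex Finset

open ArithmeticFunction

theorem a6b_LL : Filter.Tendsto LL Filter.atTop Filter.atTop :=
  (Real.tendsto_log_atTop.comp tendsto_natCast_atTop_atTop).atTop_div_const (by norm_num)

theorem a6b_jen {q : ℕ} [NeZero q] (ξ : DirichletCharacter ℂ q) {θ C' L P : ℝ}
    (hθ' : θ ≤ 1 / 2) (hC : 1 ≤ C') (hL : 1 ≤ L) (hP : 0 ≤ P) (hP2 : P ≤ 2 * L)
    (hup : ∀ s : ℂ, 1 - θ / 2 ≤ s.re → ‖s‖ ≤ 3 →
      ‖ξ.LFunction s‖ ≤ C' * (1 + P) * Real.exp (P * max (1 - s.re) 0)) :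
    (∀ s : ℂ, ‖s - ((1 + 1 / L : ℝ) : ℂ)‖ ≤ 3 * (θ / 6) → ‖ξ.LFunction s‖ ≤
      Real.exp ((Real.log C' + 4 + 2 * Real.log L) + P * max ((1 + 1 / L) - s.re) 0)) ∧
    (∀ s : ℂ, ‖s - ((1 + 1 / L : ℝ) : ℂ)‖ ≤ 3 * (θ / 6) → (1 + 1 / L) ≤ s.re →
      Real.exp (-(Real.log C' + 4 + 2 * Real.log L)) ≤ ‖ξ.LFunction s‖) := by
  have hL0 : 0 < L := by linarith
  have h1L : 0 < 1 / L := by positivity
  have h1L' : 1 / L ≤ 1 := by rw [div_le_one hL0]; exact hL
  have eb : Real.exp (Real.log C' + 4 + 2 * Real.log L) = C' * Real.exp 4 * L ^ 2 := by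
    rw [Real.exp_add, Real.exp_add, Real.exp_log (by linarith), two_mul, Real.exp_add,
      Real.exp_log hL0, sq]
  have e4 : 5 ≤ Real.exp 4 := by linarith [Real.add_one_le_exp 4]
  have hb : 5 * L ≤ Real.exp 4 * L ^ 2 := by nlinarith
  refine ⟨fun s hs => ?_, fun s _ hs => ?_⟩
  · have h1 : |(s - ((1 + 1 / L : ℝ) : ℂ)).re| ≤ 3 * (θ / 6) := (abs_re_le_norm _).trans hs
    rw [sub_re, ofReal_re, abs_le] at h1
    have h2 : ‖s‖ ≤ 3 := by
      have h3 := norm_add_le (s - ((1 + 1 / L : ℝ) : ℂ)) ((1 + 1 / L : ℝ) : ℂ)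
      rw [sub_add_cancel, Complex.norm_real, Real.norm_eq_abs, abs_of_pos (by linarith)] at h3
      linarith
    refine (hup s (by linarith) h2).trans ?_
    rw [Real.exp_add, eb, mul_assoc C' (Real.exp 4)]
    have h4 : max (1 - s.re) 0 ≤ max ((1 + 1 / L) - s.re) 0 := max_le_max (by linarith) le_rfl
    gcongr
    linarith
  · refine le_trans ?_ (lfun_lower ξ (by linarith))
    rw [Real.exp_neg, eb, le_div_iff₀ (by linarith), inv_mul_le_iff₀ (by positivity)]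
    have h5 : 1 ≤ L * (s.re - 1) := by
      have := mul_le_mul_of_nonneg_left (show 1 / L ≤ s.re - 1 by linarith) hL0.le
      rwa [mul_one_div_cancel hL0.ne'] at this
    have h6 : 5 * L ≤ C' * Real.exp 4 * L ^ 2 := by
      have : 0 ≤ Real.exp 4 * L ^ 2 := by positivity
      nlinarith
    have h7 : 0 ≤ s.re - 1 := by linarith
    have h8 := mul_le_mul_of_nonneg_right h6 h7
    nlinarith

theorem ef_one (m : ℕ) [NeZero m] (ε K0 : ℝ) (hε : 0 < ε) : ∃ (δ : ℝ) (l0 : ℕ),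
    ∀ (l : ℕ) [Fact l.Prime], l0 < l → ∀ ψ : DirichletCharacter ℂ m,
    ∃ (Zr : Multiset ℂ) (h : ℂ),
      (∀ ρ, Zr.count ρ = if ‖ρ - ((1 + 1 / LL l : ℝ) : ℂ)‖ ≤ δ then
        analyticOrderNatAt (xi m l ψ).LFunction ρ else 0) ∧
      (∀ ρ ∈ Zr, (xi m l ψ).LFunction ρ = 0) ∧ h.re ≤ 1 / 2 + ε ∧
      (Zr.card : ℝ) ≤ ε * YY l ^ 2 ∧ ∀ u y : ℝ, 0 ≤ u → u ≤ 8 → |y| ≤ K0 * YY l →
      ‖∑ n ∈ Ioc 0 (l ^ 2),
          ((vonMangoldt n / (n * LL l) * tri u (Real.log n / LL l) : ℝ) : ℂ) *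
            (exp (-((y * (Real.log n / LL l) : ℝ) : ℂ) * I) * (ψ (n : ZMod m) * (chi l n : ℂ))) +
        (Zr.map fun ρ => II u (LL l * (ρ - 1) - y * I)).sum - u * h‖ ≤ ε := by
  set e : ℝ := min ε 1 / 16 with he
  have he0 : 0 < e := by have := lt_min hε one_pos; positivity
  have he1 : e ≤ 1 / 16 := by have := min_le_right ε 1; linarith
  have heε : e ≤ ε / 16 := by have := min_le_left ε 1; linarith
  obtain ⟨θ, C, l1, hθ, hθ', hC, hsum⟩ := xi_sum m e he0
  obtain ⟨C', hC', hup⟩ := lfun_upper θ C hθ hθ' hC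
  obtain ⟨M1, L0, hM1, hlam⟩ := lambda_sum
  obtain ⟨Cp, hCp, hper⟩ := perron
  set R : ℝ := θ / 6 with hR
  have hR0 : 0 < R := by positivity
  have hR1 : R ≤ 1 / 12 := by linarith
  set δ : ℝ := e * R ^ 2 / 8 with hδ
  have hδ0 : 0 < δ := by positivity
  have hδR : δ ≤ R / 2 := by
    have h1 : e * R ≤ 1 / 16 * (1 / 12) := mul_le_mul he1 hR1 hR0.le (by norm_num)
    have h2 := mul_le_mul_of_nonneg_right h1 hR0.le
    rw [hδ]
    nlinarith
  set M : ℝ := M1 + 200 / δ + 200 / δ ^ 2 + 2 with hM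
  have p1 : 0 < 200 / δ := by positivity
  have p2 : 0 < 200 / δ ^ 2 := by positivity
  have tL := a6b_LL
  have t1 : Filter.Tendsto (fun l : ℕ => (LL l)⁻¹) Filter.atTop (nhds 0) :=
    tendsto_inv_atTop_zero.comp tL
  have t0 : Filter.Tendsto (fun l : ℕ => LL l ^ (-(1 / 3) : ℝ)) Filter.atTop (nhds 0) :=
    (tendsto_rpow_neg_atTop (y := 1 / 3) (by norm_num)).comp tL
  have t2 : Filter.Tendsto (fun l : ℕ => |K0| * LL l ^ (-(1 / 3) : ℝ)) Filter.atTop (nhds 0) := by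
    simpa using t0.const_mul |K0|
  have t3 : Filter.Tendsto (fun l : ℕ => (Real.sqrt (LL l))⁻¹) Filter.atTop (nhds 0) :=
    tendsto_inv_atTop_zero.comp (Real.tendsto_sqrt_atTop.comp tL)
  have t4 : Filter.Tendsto (fun l : ℕ => (Real.log C' + 4) * (LL l)⁻¹ +
      2 * (Real.log (LL l) / LL l)) Filter.atTop (nhds 0) := by
    have := (t1.const_mul (Real.log C' + 4)).add
      ((Real.isLittleO_log_id_atTop.tendsto_div_nhds_zero.comp tL).const_mul 2)
    simpa using this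
  have t5 : Filter.Tendsto (fun l : ℕ => Cp * (M * (|K0| * LL l ^ (-(1 / 3) : ℝ)) +
      M / (δ / 4) ^ 2 * (Real.sqrt (LL l))⁻¹)) Filter.atTop (nhds 0) := by
    have := ((t2.const_mul M).add (t3.const_mul (M / (δ / 4) ^ 2))).const_mul Cp
    simpa using this
  have hr : 0 < δ / 4 := by positivity
  have ev := ((((tL.eventually_ge_atTop 1).and (tL.eventually_ge_atTop L0)).and
    ((t1.eventually_le_const hr).and (t2.eventually_le_const hr))).and
    ((t5.eventually_le_const hε).and (t0.eventually_le_const (half_pos hε)))).and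
    ((t4.eventually_le_const (show (0 : ℝ) < 1 / 2 by norm_num)).and
      (t4.eventually_le_const (show 0 < ε / 2 * R by positivity)))
  obtain ⟨l0, hl0⟩ := Filter.eventually_atTop.1 ev
  refine ⟨δ, l0 + l1 + m + 2, fun l hl hll ψ => ?_⟩
  obtain ⟨⟨⟨⟨g1, g2⟩, g3, g4⟩, g5, g6⟩, g7, g8⟩ := hl0 l (by omega)
  have hl1 : (1 : ℝ) ≤ l := by exact_mod_cast hl.out.one_le
  have hl0' : (0 : ℝ) < l := by linarith
  set L := LL l with hLd
  have hL : 0 < L := by linarith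
  have hξ : xi m l ψ ≠ 1 := xi_ne_one m l (by omega) (by omega) ψ
  set P : ℝ := (1 + 4 * e) * L with hP
  have hP0 : 0 ≤ P := by positivity
  have hP1 : P ≤ 5 / 4 * L := mul_le_mul_of_nonneg_right (by linarith) hL.le
  have hlog : Real.log ((l : ℝ) ^ (1 / 4 + e)) = P := by
    rw [Real.log_rpow hl0', hP, hLd, LL]
    ring
  have hup' : ∀ s : ℂ, 1 - θ / 2 ≤ s.re → ‖s‖ ≤ 3 →
      ‖(xi m l ψ).LFunction s‖ ≤ C' * (1 + P) * Real.exp (P * max (1 - s.re) 0) := by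
    intro s h1 h2
    have h3 := hup (m * l) (xi m l ψ) ((l : ℝ) ^ (1 / 4 + e)) hξ
      (Real.one_le_rpow hl1 (by positivity)) (hsum l (by omega) ψ) s h1 h2
    rwa [Real.rpow_def_of_pos (Real.rpow_pos_of_pos hl0' _), hlog] at h3
  obtain ⟨u1, u2⟩ := a6b_jen (xi m l ψ) hθ' hC' g1 hP0 (by linarith) hup'
  set b : ℝ := Real.log C' + 4 + 2 * Real.log L with hb
  have hb1 : 1 ≤ b := by
    have := Real.log_nonneg hC'
    have := Real.log_nonneg g1
    linarith
  have hbL : b = ((Real.log C' + 4) * L⁻¹ + 2 * (Real.log L / L)) * L := by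
    rw [hb]
    field_simp
  have hb2 : b ≤ 1 / 2 * L := by rw [hbL]; exact mul_le_mul_of_nonneg_right g7 hL.le
  have hb3 : b ≤ ε / 2 * R * L := by rw [hbL]; exact mul_le_mul_of_nonneg_right g8 hL.le
  obtain ⟨Z, h0, z1, z2, z3, z4, z5, z6⟩ := jen (xi m l ψ).LFunction
    (DirichletCharacter.differentiable_LFunction hξ) (1 + 1 / L) R δ b P hR0 hδ0 hδR hb1 hP0 u1 u2
  have hN : 2 * b + 3 * R * P ≤ 2 * L := by
    have : R * P ≤ 1 / 12 * (5 / 4 * L) := mul_le_mul hR1 hP1 hP0 (by norm_num)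
    linarith
  have e13 : L ^ (-(1 / 3) : ℝ) * L = YY l := by
    unfold YY
    rw [← Real.rpow_add_one hL.ne', ← hLd]
    norm_num
  refine ⟨Z, h0 / L, z1, fun ρ hρ => (z2 ρ hρ).2, ?_, ?_, fun u y hu hu8 hy => ?_⟩
  · rw [div_ofReal_re, div_le_iff₀ hL]
    have a1 : b / R ≤ ε / 2 * L := by
      rw [div_le_iff₀ hR0]
      linarith
    have a2 : δ * (2 * b + 3 * R * P) / R ^ 2 ≤ e / 4 * L := by
      rw [div_le_iff₀ (by positivity)]
      calc _ ≤ δ * (2 * L) := mul_le_mul_of_nonneg_left hN hδ0.le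
        _ = _ := by rw [hδ]; ring
    have a3 := mul_le_mul_of_nonneg_right heε hL.le
    have a4 : 0 < ε * L := by positivity
    linarith
  · have a1 : L ^ (-(1 / 3) : ℝ) * YY l ^ 2 = L := by
      unfold YY
      rw [← hLd, ← Real.rpow_natCast, ← Real.rpow_mul hL.le, ← Real.rpow_add hL]
      norm_num
    have a2 := mul_le_mul_of_nonneg_right g6 (sq_nonneg (YY l))
    linarith
  have hγ : |y / L| ≤ |K0| * L ^ (-(1 / 3) : ℝ) := by
    rw [abs_div, abs_of_pos hL, div_le_iff₀ hL, mul_assoc, e13]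
    exact hy.trans (mul_le_mul_of_nonneg_right (le_abs_self _) (Real.rpow_nonneg hL.le _))
  obtain ⟨hs1, hs2⟩ := hlam L g2 g1
  have hle : ∀ n : ℕ, ‖xi m l ψ (n : ZMod (m * l)) * (vonMangoldt n : ℂ)‖ *
      (n : ℝ) ^ (-(1 + 1 / L)) ≤ vonMangoldt n * (n : ℝ) ^ (-(1 + 1 / L)) := by
    intro n
    refine mul_le_mul_of_nonneg_right ?_ (Real.rpow_nonneg (Nat.cast_nonneg _) _)
    rw [norm_mul, Complex.norm_real, Real.norm_eq_abs, abs_of_nonneg vonMangoldt_nonneg]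
    exact mul_le_of_le_one_left vonMangoldt_nonneg ((xi m l ψ).norm_le_one _)
  have hsm : Summable fun n : ℕ =>
      ‖xi m l ψ (n : ZMod (m * l)) * (vonMangoldt n : ℂ)‖ * (n : ℝ) ^ (-(1 + 1 / L)) :=
    Summable.of_nonneg_of_le (fun n => by positivity) hle hs1
  have h1L : 0 < 1 / L := by positivity
  have hp := hper (fun n => xi m l ψ (n : ZMod (m * l)) * (vonMangoldt n : ℂ)) L M 0 (δ / 4)
    (y / L) u (l ^ 2) Z (-1) h0 g1 (by linarith) le_rfl hr (by linarith)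
    (by
      have := mul_le_mul_of_nonneg_right g3 hL.le
      rwa [inv_mul_cancel₀ hL.ne'] at this)
    hu hu8
    (by
      have e : Real.exp (8 * L) = (l : ℝ) ^ 2 := by
        rw [hLd, LL, show 8 * (Real.log l / 4) = Real.log l + Real.log l by ring, Real.exp_add,
          Real.exp_log hl0', sq]
      have : Real.exp (u * L) ≤ Real.exp (8 * L) :=
        Real.exp_le_exp.2 (mul_le_mul_of_nonneg_right hu8 hL.le)
      push_cast
      linarith)
    (by simp)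
    (by
      refine z5.trans ?_
      calc _ ≤ 100 * (2 * L) / δ := by gcongr
        _ = 200 / δ * L := by ring
        _ ≤ _ := mul_le_mul_of_nonneg_right (by linarith) hL.le)
    ((z3.trans hN).trans (mul_le_mul_of_nonneg_right (by linarith) hL.le))
    (fun ρ hρ => by
      by_contra hc
      exact DirichletCharacter.LFunction_ne_zero_of_one_le_re (xi m l ψ) (Or.inl hξ)
        (not_le.1 hc).le (z2 ρ hρ).2)
    hsm (((hsm.tsum_le_tsum hle hs1).trans hs2).trans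
      (mul_le_mul_of_nonneg_right (by linarith) hL.le))
    (by
      intro v hv
      have hv2 : |v| ≤ δ / 2 := by
        have := abs_sub_abs_le_abs_sub v (y / L)
        linarith
      have hre : 1 < ((((1 + 1 / L : ℝ) : ℂ) + v * I)).re := by simp [hL]
      have hn : ‖(((1 + 1 / L : ℝ) : ℂ) + v * I) - ((1 + 1 / L : ℝ) : ℂ)‖ = |v| := by
        rw [add_sub_cancel_left, norm_mul, norm_I, mul_one, Complex.norm_real, Real.norm_eq_abs]
      have h6 := z6 _ (by rw [hn]; exact hv2)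
        (DirichletCharacter.LFunction_ne_zero_of_one_le_re (xi m l ψ) (Or.inl hξ) hre.le)
      rw [hn, DirichletCharacter.deriv_LFunction_eq_deriv_LSeries _ hre,
        DirichletCharacter.LFunction_eq_LSeries _ hre,
        ← DirichletCharacter.LSeries_twist_vonMangoldt_eq _ hre] at h6
      rw [neg_one_mul, sub_neg_eq_add, zero_add]
      refine le_trans h6 (mul_le_mul_of_nonneg_right ?_ (abs_nonneg _))
      calc _ ≤ 100 * (2 * L) / δ ^ 2 := by gcongr
        _ = 200 / δ ^ 2 * L := by ring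
        _ ≤ _ := mul_le_mul_of_nonneg_right (by linarith) hL.le)
  have e1 : ∑ n ∈ Ioc 0 (l ^ 2), ((1 / (n * L) * tri u (Real.log n / L) : ℝ) : ℂ) *
      (exp (-((y / L * Real.log n : ℝ) : ℂ) * I) *
        (xi m l ψ (n : ZMod (m * l)) * (vonMangoldt n : ℂ))) =
      ∑ n ∈ Ioc 0 (l ^ 2), ((vonMangoldt n / (n * L) * tri u (Real.log n / L) : ℝ) : ℂ) *
        (exp (-((y * (Real.log n / L) : ℝ) : ℂ) * I) * (ψ (n : ZMod m) * (chi l n : ℂ))) := by
    refine Finset.sum_congr rfl fun n _ => ?_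
    rw [show y / L * Real.log n = y * (Real.log n / L) by ring, xi_apply]
    push_cast
    ring
  rw [e1, div_mul_cancel₀ _ hL.ne', neg_one_mul, sub_neg_eq_add, zero_div, zero_add] at hp
  refine hp.trans (le_trans ?_ g5)
  have a1 : M * |y / L| ≤ M * (|K0| * L ^ (-(1 / 3) : ℝ)) :=
    mul_le_mul_of_nonneg_left hγ (by linarith)
  have a2 : M / ((δ / 4) ^ 2 * Real.sqrt L) = M / (δ / 4) ^ 2 * (Real.sqrt L)⁻¹ := by
    rw [← div_div, div_eq_mul_inv]
  rw [a2]
  gcongr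

end Pool.Agent.Lib.MP_e97e2b_nt.Ln
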