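import Pool.Agent.Lib.MP_e97e2b_nt.Ln.A4b
import Pool.Agent.Lib.MP_e97e2b_nt.Ln.A5

/- Explicit formula for the characters of fixed modulus.
There are finitely many ψ, so take r, C in near_one uniform.  Apply perron with a n = ψ n * Λ n, e = 1,
Zr = {1} if ψ = 1 and 0 otherwise, h0 = 0, M0 = C, radius r / 3, γ = y / L, N = l^2.  The sum over Ioc 0 (l^2)
differs from the sum over om m l only in terms with l ∣ n (if n is not coprime to m then ψ n = 0); these have
Λ n ≠ 0 only for n = l, l^2, and contribute at most 2 * (log l / (l L)) * 8 = 64 / l. -/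

namespace Pool.Agent.Lib.MP_e97e2b_nt.Ln

open Complex Finset

open ArithmeticFunction

open Classical in
theorem a6c_unif (m : ℕ) [NeZero m] : ∃ r C : ℝ, 0 < r ∧ r ≤ 1 ∧ 0 ≤ C ∧
    ∀ (ψ : DirichletCharacter ℂ m) (s : ℂ), 1 < s.re → ‖s - 1‖ ≤ r →
    ‖LSeries (fun n => ψ (n : ZMod m) * (vonMangoldt n : ℂ)) s -
      (if ψ = 1 then 1 / (s - 1) else 0)‖ ≤ C := by
  choose r C hr hr1 hC h using near_one m
  obtain ⟨ψ0, h0⟩ := Finite.exists_min r
  obtain ⟨ψ1, h1⟩ := Finite.exists_max C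
  exact ⟨r ψ0, C ψ1, hr _, hr1 _, hC _, fun ψ s hs hs' =>
    (h ψ s hs (hs'.trans (h0 ψ))).trans (h1 ψ)⟩

theorem a6c_LL : Filter.Tendsto LL Filter.atTop Filter.atTop :=
  (Real.tendsto_log_atTop.comp tendsto_natCast_atTop_atTop).atTop_div_const (by norm_num)

theorem a6c_bad (m : ℕ) (l : ℕ) (hl : l.Prime) (ψ : DirichletCharacter ℂ m) (u y : ℝ)
    (hu : 0 ≤ u) (hu8 : u ≤ 8) :
    ‖∑ n ∈ (Ioc 0 (l ^ 2)).filter (fun n => ¬ n.Coprime (m * l)),
      ((vonMangoldt n / (n * LL l) * tri u (Real.log n / LL l) : ℝ) : ℂ) *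
        (exp (-((y * (Real.log n / LL l) : ℝ) : ℂ) * I) * ψ (n : ZMod m))‖ ≤ 64 / l := by
  have hl1 : (1 : ℝ) < l := by exact_mod_cast hl.one_lt
  have hlog : 0 < Real.log l := Real.log_pos hl1
  have hL : 0 < LL l := by unfold LL; positivity
  have key : ∀ n ∈ (Ioc 0 (l ^ 2)).filter (fun n => ¬ n.Coprime (m * l)),
      ‖((vonMangoldt n / (n * LL l) * tri u (Real.log n / LL l) : ℝ) : ℂ) *
        (exp (-((y * (Real.log n / LL l) : ℝ) : ℂ) * I) * ψ (n : ZMod m))‖ ≤
        if n ∈ ({l, l ^ 2} : Finset ℕ) then 32 / (l : ℝ) else 0 := by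
    intro n hn
    rw [mem_filter, mem_Ioc] at hn
    obtain ⟨⟨hn0, hnl⟩, hc⟩ := hn
    have hrhs : (0 : ℝ) ≤ if n ∈ ({l, l ^ 2} : Finset ℕ) then 32 / (l : ℝ) else 0 := by
      split_ifs
      · positivity
      · exact le_rfl
    by_cases hm : n.Coprime m
    · have hdv : l ∣ n := by
        by_contra hd
        exact hc (Nat.Coprime.mul_right hm ((Nat.Prime.coprime_iff_not_dvd hl).2 hd).symm)
      by_cases hΛ : vonMangoldt n = 0
      · simpa [hΛ] using hrhs
      · have hp0 : IsPrimePow n := vonMangoldt_ne_zero_iff.1 hΛ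
        obtain ⟨p, k, hp, hk, rfl⟩ := (isPrimePow_nat_iff n).1 hp0
        have hpl : l = p := (Nat.prime_dvd_prime_iff_eq hl hp).1 (hl.dvd_of_dvd_pow hdv)
        subst hpl
        have hk2 : k ≤ 2 := (Nat.pow_le_pow_iff_right hl.one_lt).1 hnl
        have hmem : l ^ k ∈ ({l, l ^ 2} : Finset ℕ) := by
          interval_cases k <;> simp
        rw [if_pos hmem, vonMangoldt_apply_pow hk.ne', vonMangoldt_apply_prime hl]
        have hle : (l : ℝ) ≤ ((l ^ k : ℕ) : ℝ) := by
          exact_mod_cast Nat.le_self_pow hk.ne' l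
        have hpos : (0 : ℝ) < ((l ^ k : ℕ) : ℝ) := by linarith
        have ht0 : 0 ≤ tri u (Real.log ((l ^ k : ℕ) : ℝ) / LL l) := le_max_right _ _
        have ht8 : tri u (Real.log ((l ^ k : ℕ) : ℝ) / LL l) ≤ 8 := by
          have : 0 ≤ Real.log ((l ^ k : ℕ) : ℝ) / LL l :=
            div_nonneg (Real.log_nonneg (by linarith)) hL.le
          exact max_le (by linarith) (by norm_num)
        have he : ‖exp (-((y * (Real.log ((l ^ k : ℕ) : ℝ) / LL l) : ℝ) : ℂ) * I)‖ = 1 := by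
          rw [← ofReal_neg, norm_exp_ofReal_mul_I]
        have hψ : ‖ψ ((l ^ k : ℕ) : ZMod m)‖ ≤ 1 := ψ.norm_le_one _
        have hq : Real.log l / (((l ^ k : ℕ) : ℝ) * LL l) = 4 / ((l ^ k : ℕ) : ℝ) := by
          unfold LL
          field_simp
        rw [norm_mul, norm_mul, he, one_mul, Complex.norm_real, hq, Real.norm_eq_abs,
          abs_of_nonneg (by positivity)]
        have h4 : 4 / ((l ^ k : ℕ) : ℝ) ≤ 4 / l :=
          div_le_div_of_nonneg_left (by norm_num) (by linarith) hle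
        calc _ ≤ 4 / (l : ℝ) * 8 * 1 :=
              mul_le_mul (mul_le_mul h4 ht8 ht0 (by positivity)) hψ (norm_nonneg _) (by positivity)
          _ = 32 / l := by ring
    · have : ψ (n : ZMod m) = 0 := ψ.map_nonunit (by rwa [ZMod.isUnit_iff_coprime])
      simpa [this] using hrhs
  refine (norm_sum_le_of_le _ key).trans ?_
  rw [← Finset.sum_filter, Finset.sum_const, nsmul_eq_mul]
  have hcard : ((((Ioc 0 (l ^ 2)).filter (fun n => ¬ n.Coprime (m * l))).filter
      (fun n => n ∈ ({l, l ^ 2} : Finset ℕ))).card : ℝ) ≤ 2 := by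
    have h1 : (((Ioc 0 (l ^ 2)).filter (fun n => ¬ n.Coprime (m * l))).filter
        (fun n => n ∈ ({l, l ^ 2} : Finset ℕ))).card ≤ ({l, l ^ 2} : Finset ℕ).card :=
      card_le_card fun n hn => (mem_filter.1 hn).2
    exact_mod_cast h1.trans card_le_two
  calc _ ≤ 2 * (32 / (l : ℝ)) := mul_le_mul_of_nonneg_right hcard (by positivity)
    _ = 64 / l := by ring

open Classical in
theorem ef_zero (m : ℕ) [NeZero m] (ε K0 : ℝ) (hε : 0 < ε) : ∃ l0 : ℕ,
    ∀ l : ℕ, l.Prime → l0 < l → ∀ (ψ : DirichletCharacter ℂ m) (u y : ℝ), 0 ≤ u → u ≤ 8 →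
      |y| ≤ K0 * YY l →
      ‖∑ n ∈ om m l, ((vonMangoldt n / (n * LL l) * tri u (Real.log n / LL l) : ℝ) : ℂ) *
            (exp (-((y * (Real.log n / LL l) : ℝ) : ℂ) * I) * ψ (n : ZMod m)) -
        (if ψ = 1 then II u (-(y * I)) else 0)‖ ≤ ε := by
  obtain ⟨r, C, hr, hr1, hC, hnear⟩ := a6c_unif m
  obtain ⟨M, L0, hM, hlam⟩ := lambda_sum
  obtain ⟨Cp, hCp, hper⟩ := perron
  have tL := a6c_LL
  have t1 : Filter.Tendsto (fun l : ℕ => (LL l)⁻¹) Filter.atTop (nhds 0) :=
    tendsto_inv_atTop_zero.comp tL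
  have t2 : Filter.Tendsto (fun l : ℕ => |K0| * LL l ^ (-(1 / 3) : ℝ)) Filter.atTop (nhds 0) := by
    have := ((tendsto_rpow_neg_atTop (y := 1 / 3) (by norm_num)).comp tL).const_mul |K0|
    simpa using this
  have t3 : Filter.Tendsto (fun l : ℕ => (Real.sqrt (LL l))⁻¹) Filter.atTop (nhds 0) :=
    tendsto_inv_atTop_zero.comp (Real.tendsto_sqrt_atTop.comp tL)
  have t4 : Filter.Tendsto (fun l : ℕ => ((l : ℝ))⁻¹) Filter.atTop (nhds 0) :=
    tendsto_inv_atTop_zero.comp tendsto_natCast_atTop_atTop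
  have t5 : Filter.Tendsto (fun l : ℕ => Cp * (C * (LL l)⁻¹ + M * (|K0| * LL l ^ (-(1 / 3) : ℝ)) +
      M / (r / 3) ^ 2 * (Real.sqrt (LL l))⁻¹) + 64 * ((l : ℝ))⁻¹) Filter.atTop (nhds 0) := by
    have := ((((t1.const_mul C).add (t2.const_mul M)).add
      (t3.const_mul (M / (r / 3) ^ 2))).const_mul Cp).add (t4.const_mul 64)
    simpa using this
  have hr3 : 0 < r / 3 := by positivity
  have ev := (((tL.eventually_ge_atTop 1).and (tL.eventually_ge_atTop L0)).and
    ((t1.eventually_le_const hr3).and (t2.eventually_le_const hr3))).and (t5.eventually_le_const hε)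
  obtain ⟨l0, hl0⟩ := Filter.eventually_atTop.1 ev
  refine ⟨l0, fun l hl hll ψ u y hu hu8 hy => ?_⟩
  obtain ⟨⟨⟨g1, g2⟩, g3, g4⟩, g5⟩ := hl0 l hll.le
  have hL : 0 < LL l := by linarith
  have hγ : |y / LL l| ≤ |K0| * LL l ^ (-(1 / 3) : ℝ) := by
    rw [abs_div, abs_of_pos hL, div_le_iff₀ hL]
    have e : LL l ^ (-(1 / 3) : ℝ) * LL l = YY l := by
      unfold YY
      rw [← Real.rpow_add_one hL.ne']
      norm_num
    rw [mul_assoc, e]
    exact hy.trans (mul_le_mul_of_nonneg_right (le_abs_self _) (Real.rpow_nonneg hL.le _))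
  obtain ⟨hs1, hs2⟩ := hlam (LL l) g2 g1
  have hle : ∀ n : ℕ, ‖ψ (n : ZMod m) * (vonMangoldt n : ℂ)‖ * (n : ℝ) ^ (-(1 + 1 / LL l)) ≤
      vonMangoldt n * (n : ℝ) ^ (-(1 + 1 / LL l)) := by
    intro n
    refine mul_le_mul_of_nonneg_right ?_ (Real.rpow_nonneg (Nat.cast_nonneg _) _)
    rw [norm_mul, Complex.norm_real, Real.norm_eq_abs, abs_of_nonneg vonMangoldt_nonneg]
    exact mul_le_of_le_one_left vonMangoldt_nonneg (ψ.norm_le_one _)
  have hsum : Summable fun n : ℕ =>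
      ‖ψ (n : ZMod m) * (vonMangoldt n : ℂ)‖ * (n : ℝ) ^ (-(1 + 1 / LL l)) :=
    Summable.of_nonneg_of_le (fun n => by positivity) hle hs1
  have hML : 1 ≤ M * LL l := one_le_mul_of_one_le_of_one_le hM g1
  have hl1 : (0 : ℝ) < l := by exact_mod_cast hl.pos
  have hp := hper (fun n => ψ (n : ZMod m) * (vonMangoldt n : ℂ)) (LL l) M C (r / 3) (y / LL l) u
    (l ^ 2) (if ψ = 1 then {1} else 0) 1 0 g1 hM hC hr3 (by linarith)
    (by
      have := mul_le_mul_of_nonneg_right g3 hL.le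
      rwa [inv_mul_cancel₀ hL.ne'] at this)
    hu hu8
    (by
      have e : Real.exp (8 * LL l) = (l : ℝ) ^ 2 := by
        unfold LL
        rw [show 8 * (Real.log l / 4) = Real.log l + Real.log l by ring, Real.exp_add,
          Real.exp_log hl1, sq]
      have : Real.exp (u * LL l) ≤ Real.exp (8 * LL l) :=
        Real.exp_le_exp.2 (mul_le_mul_of_nonneg_right hu8 hL.le)
      push_cast
      linarith)
    (by simp) (by rw [norm_zero]; linarith)
    (by
      split_ifs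
      · simpa using hML
      · simp only [Multiset.card_zero, Nat.cast_zero]
        linarith)
    (by
      intro ρ hρ
      split_ifs at hρ
      · rw [Multiset.mem_singleton.1 hρ]
        simp
      · simp at hρ)
    hsum ((hsum.tsum_le_tsum hle hs1).trans hs2)
    (by
      intro v hv
      have hv2 : |v| ≤ r / 3 + r / 3 := by
        have := abs_sub_abs_le_abs_sub v (y / LL l)
        linarith
      have h1L : 0 < 1 / LL l := by positivity
      have hn := hnear ψ (((1 + 1 / LL l : ℝ) : ℂ) + v * I) (by simp [hL]) (by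
        have e : (((1 + 1 / LL l : ℝ) : ℂ) + v * I) - 1 = ((1 / LL l : ℝ) : ℂ) + v * I := by
          push_cast
          ring
        rw [e]
        refine (norm_add_le _ _).trans ?_
        rw [norm_mul, norm_I, mul_one, Complex.norm_real, Complex.norm_real, Real.norm_eq_abs,
          Real.norm_eq_abs, abs_of_pos h1L, one_div]
        linarith)
      have hnn : 0 ≤ M * LL l * |v| := by positivity
      refine le_trans (le_of_eq ?_) (hn.trans (by linarith))
      congr 1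
      split_ifs <;> simp)
  have hb := a6c_bad m l hl ψ u y hu hu8
  have e1 : ∑ n ∈ Ioc 0 (l ^ 2), ((1 / (n * LL l) * tri u (Real.log n / LL l) : ℝ) : ℂ) *
      (exp (-((y / LL l * Real.log n : ℝ) : ℂ) * I) * (ψ (n : ZMod m) * (vonMangoldt n : ℂ))) =
      ∑ n ∈ Ioc 0 (l ^ 2), ((vonMangoldt n / (n * LL l) * tri u (Real.log n / LL l) : ℝ) : ℂ) *
        (exp (-((y * (Real.log n / LL l) : ℝ) : ℂ) * I) * ψ (n : ZMod m)) := by
    refine Finset.sum_congr rfl fun n _ => ?_
    rw [show y / LL l * Real.log n = y * (Real.log n / LL l) by ring]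
    push_cast
    ring
  have e2 : (1 : ℂ) * (Multiset.map (fun ρ => II u (LL l * (ρ - 1) - (y / LL l * LL l : ℝ) * I))
      (if ψ = 1 then {1} else 0)).sum = if ψ = 1 then II u (-(y * I)) else 0 := by
    rw [div_mul_cancel₀ _ hL.ne']
    split_ifs <;> simp
  rw [e1, e2, ← Finset.sum_filter_add_sum_filter_not (Ioc 0 (l ^ 2)) (fun n => n.Coprime (m * l)),
    zero_div, mul_zero, sub_zero] at hp
  have hfin : Cp * (C / LL l + M * |y / LL l| + M / ((r / 3) ^ 2 * Real.sqrt (LL l))) + 64 / l ≤ ε := by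
    refine le_trans ?_ g5
    have a1 : M * |y / LL l| ≤ M * (|K0| * LL l ^ (-(1 / 3) : ℝ)) :=
      mul_le_mul_of_nonneg_left hγ (by linarith)
    have a2 : M / ((r / 3) ^ 2 * Real.sqrt (LL l)) = M / (r / 3) ^ 2 * (Real.sqrt (LL l))⁻¹ := by
      rw [← div_div, div_eq_mul_inv]
    rw [a2, div_eq_mul_inv C, div_eq_mul_inv 64]
    gcongr
  unfold om
  refine le_trans ?_ hfin
  refine le_trans (le_of_eq ?_) ((norm_sub_le _ _).trans (add_le_add hp hb))
  congr 1
  ring

end Pool.Agent.Lib.MP_e97e2b_nt.Ln
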