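import Pool.Agent.Lib.MP_e97e2b_nt.Ln.A6b
import Pool.Agent.Lib.MP_e97e2b_nt.Ln.A6c

/- The model attached to a large prime.
Ω = om m l, Z ψ = (Zr ψ).map (ρ ↦ LL l * (ρ - 1)).  ev n is the monoid hom ψ ↦ ψ n (n is a unit mod m).
Z_conj: Zr ψ⁻¹ = (Zr ψ).map conj by Multiset.ext and the count formula (xi_inv, lfun_conj, order_conj,
Multiset.count_map_eq_count').  In ef_one the terms with n not coprime to m l vanish.  The last claim:
ρ = 1 + re z / L is a real zero, so ρ < 1 (LFunction_ne_zero_of_one_le_re) and ρ > 0 since L > 1; use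
lfun_tendsto and xi_apply. -/

namespace Pool.Agent.Lib.MP_e97e2b_nt.Ln

open Complex Finset

open ArithmeticFunction Filter Topology

theorem raw_exists (m : ℕ) [NeZero m] (ε K0 : ℝ) (hε : 0 < ε) : ∃ l0 : ℕ,
    ∀ l : ℕ, l.Prime → l0 < l → ∃ D : Dat (DirichletCharacter ℂ m) (om m l),
      Raw D ε (YY l) (K0 * YY l) ∧
      (∀ ω, D.μ ω = vonMangoldt ω.1 / (ω.1 * LL l) ∧ D.t ω = Real.log ω.1 / LL l ∧
        (∀ ψ, D.ev ω ψ = ψ (ω.1 : ZMod m)) ∧ D.sg ω = chi l ω.1) ∧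
      ∀ ψ, ∀ z ∈ D.Z ψ, z.im = 0 → -1 ≤ z.re → z.re < 0 ∧
        Tendsto (fun N : ℕ => ∑ n ∈ Ioc 0 N,
          ψ (n : ZMod m) * (chi l n : ℂ) * (((n : ℝ) ^ (-(1 + z.re / LL l)) : ℝ) : ℂ)) atTop
          (𝓝 0) := by
  obtain ⟨δ, l1, h1⟩ := ef_one m ε K0 hε
  obtain ⟨l2, h2⟩ := ef_zero m ε K0 hε
  refine ⟨max (max l1 l2) (max (max m 2) ⌈Real.exp 4⌉₊), fun l hl hl0 => ?_⟩
  simp only [max_lt_iff] at hl0
  obtain ⟨⟨a1, a2⟩, ⟨a3, a4⟩, a5⟩ := hl0
  have : Fact l.Prime := ⟨hl⟩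
  have hL : 1 < LL l := by
    have b1 : Real.exp 4 < l := (Nat.le_ceil _).trans_lt (by exact_mod_cast a5)
    have b2 := (Real.lt_log_iff_exp_lt ((Real.exp_pos 4).trans b1)).2 b1
    unfold LL
    linarith
  have hL0 : 0 < LL l := by linarith
  choose Zr h hc hz hre hcard he using h1 l a1
  have hne : ∀ ψ, xi m l ψ ≠ 1 := xi_ne_one m l a4 a3
  have hlt : ∀ ψ, ∀ ρ ∈ Zr ψ, ρ.re < 1 := fun ψ ρ hρ => not_le.1 fun h =>
    DirichletCharacter.LFunction_ne_zero_of_one_le_re _ (Or.inl (hne ψ)) h (hz ψ ρ hρ)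
  have hcop : ∀ ω : om m l, ω.1.Coprime (m * l) := fun ω => (mem_filter.1 ω.2).2
  have hunit : ∀ ω : om m l, IsUnit (ω.1 : ZMod m) := fun ω =>
    (ZMod.isUnit_iff_coprime _ _).2 (Nat.Coprime.coprime_mul_right_right (hcop ω))
  have hconj : ∀ ψ, Zr ψ⁻¹ = (Zr ψ).map (starRingEnd ℂ) := by
    intro ψ
    refine Multiset.ext.2 fun ρ => ?_
    obtain ⟨ρ, rfl⟩ : ∃ w, starRingEnd ℂ w = ρ := ⟨starRingEnd ℂ ρ, conj_conj ρ⟩
    rw [Multiset.count_map_eq_count' _ _ (starRingEnd ℂ).injective, hc, hc, xi_inv,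
      order_conj (DirichletCharacter.differentiable_LFunction (hne ψ)) (lfun_conj _ (hne ψ)),
      ← conj_ofReal, ← map_sub, norm_conj, conj_ofReal]
  have hre' : ∀ ρ : ℂ, ((LL l : ℂ) * (ρ - 1)).re = LL l * (ρ.re - 1) := fun ρ => by simp
  have him' : ∀ ρ : ℂ, ((LL l : ℂ) * (ρ - 1)).im = LL l * ρ.im := fun ρ => by simp
  let D : Dat (DirichletCharacter ℂ m) (om m l) :=
    { μ := fun ω => vonMangoldt ω.1 / (ω.1 * LL l)
      t := fun ω => Real.log ω.1 / LL l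
      ev := fun ω =>
        { toFun := fun ψ => ψ (ω.1 : ZMod m)
          map_one' := MulChar.one_apply (hunit ω)
          map_mul' := fun ψ ψ' => MulChar.mul_apply ψ ψ' _ }
      sg := fun ω => chi l ω.1
      Z := fun ψ => (Zr ψ).map fun ρ => LL l * (ρ - 1)
      h := h
      μ_nonneg := fun ω => div_nonneg vonMangoldt_nonneg (by positivity)
      t_nonneg := fun ω => div_nonneg (Real.log_natCast_nonneg _) hL0.le
      norm_ev := fun ω ψ => by
        obtain ⟨a, ha⟩ := hunit ω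
        have h3 := ψ.unit_norm_eq_one a
        rw [ha] at h3
        exact h3
      sg_cases := fun ω => by
        have h3 := jacobiSym.eq_one_or_neg_one (a := (ω.1 : ℤ)) (b := l)
          (by rw [Int.gcd_natCast_natCast]; exact Nat.Coprime.coprime_mul_left_right (hcop ω))
        unfold chi
        exact_mod_cast h3
      Z_re := fun ψ z hz' => by
        obtain ⟨ρ, hρ, rfl⟩ := Multiset.mem_map.1 hz'
        rw [hre']
        exact mul_nonpos_of_nonneg_of_nonpos hL0.le (by linarith [hlt ψ ρ hρ])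
      Z_conj := fun ψ => by
        rw [hconj, Multiset.map_map, Multiset.map_map]
        refine Multiset.map_congr rfl fun ρ _ => ?_
        simp }
  refine ⟨D, ⟨Real.one_le_rpow hL.le (by norm_num), fun ψ u y u0 u8 hy => ?_,
    fun ψ u y u0 u8 hy => ?_, hre, fun ψ => ?_⟩, fun ω => ⟨rfl, rfl, fun _ => rfl, rfl⟩,
    fun ψ z hz' him hre1 => ?_⟩
  · have e1 : D.p1 (tri u) y ψ = ∑ n ∈ Ioc 0 (l ^ 2),
        ((vonMangoldt n / (n * LL l) * tri u (Real.log n / LL l) : ℝ) : ℂ) *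
          (exp (-((y * (Real.log n / LL l) : ℝ) : ℂ) * I) * (ψ (n : ZMod m) * (chi l n : ℂ))) := by
      refine (sum_coe_sort (om m l) fun n : ℕ =>
        ((vonMangoldt n / (n * LL l) * tri u (Real.log n / LL l) : ℝ) : ℂ) *
          (exp (-((y * (Real.log n / LL l) : ℝ) : ℂ) * I) *
            (ψ (n : ZMod m) * (chi l n : ℂ)))).trans (sum_filter_of_ne fun n _ hn => ?_)
      by_contra h3
      rw [← xi_apply, MulChar.map_nonunit _ (mt (ZMod.isUnit_iff_coprime _ _).1 h3), mul_zero,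
        mul_zero] at hn
      exact hn rfl
    have e2 : (D.Z ψ).map (fun z => II u (z - y * I)) =
        (Zr ψ).map fun ρ => II u (LL l * (ρ - 1) - y * I) := Multiset.map_map _ _ _
    rw [e1, e2]
    exact he ψ u y u0 u8 hy
  · have e1 : D.p0 (tri u) y ψ = ∑ n ∈ om m l,
        ((vonMangoldt n / (n * LL l) * tri u (Real.log n / LL l) : ℝ) : ℂ) *
          (exp (-((y * (Real.log n / LL l) : ℝ) : ℂ) * I) * ψ (n : ZMod m)) :=
      sum_coe_sort (om m l) fun n : ℕ =>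
        ((vonMangoldt n / (n * LL l) * tri u (Real.log n / LL l) : ℝ) : ℂ) *
          (exp (-((y * (Real.log n / LL l) : ℝ) : ℂ) * I) * ψ (n : ZMod m))
    rw [e1]
    have h3 := h2 l hl a2 ψ u y u0 u8 hy
    split_ifs at h3 ⊢
    · exact h3
    · exact h3
  · have e1 : (D.Z ψ).card = (Zr ψ).card := Multiset.card_map _ _
    rw [e1]
    exact hcard ψ
  · obtain ⟨ρ, hρ, rfl⟩ := Multiset.mem_map.1 hz'
    rw [him'] at him
    rw [hre'] at hre1 ⊢
    have h3 := hlt ψ ρ hρ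
    have h4 : ρ.im = 0 := (mul_eq_zero.1 him).resolve_left hL0.ne'
    have h5 : 0 < ρ.re := by nlinarith
    have h6 : 1 + LL l * (ρ.re - 1) / LL l = ρ.re := by
      rw [mul_div_cancel_left₀ _ hL0.ne']
      ring
    refine ⟨mul_neg_of_pos_of_neg hL0 (by linarith), ?_⟩
    have h7 := lfun_tendsto _ (hne ψ) h5
    rw [hz ψ ρ hρ] at h7
    refine h7.congr fun N => sum_congr rfl fun n _ => ?_
    have h8 : ((-ρ.re : ℝ) : ℂ) = -ρ := by
      apply Complex.ext <;> simp [h4]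
    rw [xi_apply, h6, ofReal_cpow (Nat.cast_nonneg n), h8, ofReal_natCast]

end Pool.Agent.Lib.MP_e97e2b_nt.Ln
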