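import Pool.Agent.Lib.MP_e97e2b_nt.Ln.Defs
import Pool.Agent.Lib.MP_e97e2b_nt.Moment

/- Moment bound for the Legendre symbol over the integers.  Either specialise `moment` (file Moment, K = ℚ, via
the ring isomorphism of RM ℚ l with ZMod l) or repeat its proof with `weil` (file Weil) for F = ZMod l. -/

namespace Pool.Agent.Lib.MP_e97e2b_nt.Ln

open Complex Finset

theorem b1_eta (l n : ℕ) : etaQ ℚ l (n : RM ℚ l) = chi l n := by
  rw [← map_natCast (Ideal.Quotient.mk _), etaQ_mk,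
    ← map_natCast (algebraMap ℤ (NumberField.RingOfIntegers ℚ)), Algebra.norm_algebraMap,
    NumberField.RingOfIntegers.rank, Module.finrank_self, pow_one]

theorem bz_moment (r : ℕ) : ∃ (C : ℝ) (l0 : ℕ), 0 ≤ C ∧ ∀ l : ℕ, l.Prime → l0 < l →
    ∀ B : ℕ, B ≤ l →
    ∑ x ∈ range l, (∑ b ∈ range B, chi l ((x : ℤ) + b)) ^ (2 * r) ≤
      C * ((B : ℝ) ^ r * l + (B : ℝ) ^ (2 * r) * Real.sqrt l) := by
  classical
  obtain ⟨C, l0, hC⟩ := moment (K := ℚ) r
  refine ⟨max C 0, l0, le_max_right _ _, fun l hl h B hB => ?_⟩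
  have e := hC l hl h B hB
  have hcard := card_RM (K := ℚ) l
  rw [Module.finrank_self, pow_one] at e hcard
  have hone : 1 < Nat.card (RM ℚ l) := hcard.symm ▸ hl.one_lt
  have : Finite (RM ℚ l) := Nat.finite_of_card_ne_zero (by omega)
  have : Nontrivial (RM ℚ l) := Finite.one_lt_card_iff_nontrivial.mp hone
  have hl0 : (l : RM ℚ l) = 0 := by
    rw [← map_natCast (Ideal.Quotient.mk _), Ideal.Quotient.eq_zero_iff_mem]
    exact Ideal.mem_span_singleton_self _
  have : CharP (RM ℚ l) l := (CharP.charP_iff_prime_eq_zero hl).mpr hl0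
  let : Fintype (RM ℚ l) := Fintype.ofFinite _
  rw [finsum_eq_sum_of_fintype] at e
  refine le_trans ?_ (e.trans (mul_le_mul_of_nonneg_right (le_max_left _ _) (by positivity)))
  calc _ = ∑ x ∈ range l,
        (∑ b ∈ range B, etaQ ℚ l ((x : RM ℚ l) + (b : RM ℚ l))) ^ (2 * r) := by
        refine sum_congr rfl fun x _ => ?_
        congr 1
        refine sum_congr rfl fun b _ => ?_
        rw [← Nat.cast_add, ← Nat.cast_add, b1_eta]
    _ = ∑ x ∈ (range l).image (fun x : ℕ => (x : RM ℚ l)),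
        (∑ b ∈ range B, etaQ ℚ l (x + (b : RM ℚ l))) ^ (2 * r) := by
        rw [sum_image]
        intro x hx y hy hxy
        exact CharP.natCast_injOn_Iio (RM ℚ l) l (mem_range.1 hx) (mem_range.1 hy) hxy
    _ ≤ _ := sum_le_sum_of_subset_of_nonneg (subset_univ _) fun x _ _ =>
        (even_two_mul r).pow_nonneg _

end Pool.Agent.Lib.MP_e97e2b_nt.Ln
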