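import Pool.Agent.Lib.MP_e97e2b_nt.Ln.Defs

/- Multiplicative energy over the integers.
If A = 1 the condition is n ≡ n' mod l, at most N (N / l + 1) pairs.  If 2 N A ≤ l then n a' and n' a lie in
[1, N A], so they are equal; for fixed a, a' with g = gcd a a' the number a / g divides n, so there are
≤ N g / a ≤ 2 N g / A choices (a > A / 2), and ∑ a a', gcd a a' ≤ ∑ g ≤ A, g (A / g)^2 ≤ A^2 (1 + log A). -/

namespace Pool.Agent.Lib.MP_e97e2b_nt.Ln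

open Complex Finset

theorem b2_one (l N : ℕ) :
    (((Ioc 0 N ×ˢ Ioc (1 / 2) 1) ×ˢ (Ioc 0 N ×ˢ Ioc (1 / 2) 1)).filter fun z =>
        z.1.1 * z.2.2 ≡ z.2.1 * z.1.2 [MOD l]).card ≤ N * (N / l + 1) := by
  have h : (Ioc 0 N ×ˢ range (N / l + 1)).card = N * (N / l + 1) := by simp
  rw [← h]
  refine Finset.card_le_card_of_injOn (fun z => (z.1.1, z.2.1 / l)) ?_ ?_
  · intro z hz
    simp only [coe_filter, mem_product, mem_Ioc, Set.mem_ofPred_eq] at hz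
    simp only [coe_product, Set.mem_prod, coe_Ioc, Set.mem_Ioc, coe_range, Set.mem_Iio]
    exact ⟨hz.1.1.1, Nat.lt_succ_of_le (Nat.div_le_div_right hz.1.2.1.2)⟩
  · rintro ⟨⟨n, a⟩, n', a'⟩ hz ⟨⟨m, b⟩, m', b'⟩ hw h
    simp only [coe_filter, mem_product, mem_Ioc, Set.mem_ofPred_eq] at hz hw
    simp only [Prod.mk.injEq] at h
    have ha : a = 1 := by omega
    have ha' : a' = 1 := by omega
    have hb : b = 1 := by omega
    have hb' : b' = 1 := by omega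
    obtain ⟨rfl, h2⟩ := h
    subst ha ha' hb hb'
    have h3 : n' % l = m' % l := by
      have h4 := hz.2
      have h5 := hw.2
      simp only [mul_one] at h4 h5
      exact h4.symm.trans h5
    have h6 : n' = m' := by
      rw [← Nat.div_add_mod n' l, ← Nat.div_add_mod m' l, h2, h3]
    rw [h6]

theorem b2_two {l A N : ℕ} (hA : 1 ≤ A) (hN : 1 ≤ N) (hl : 2 * N * A ≤ l) :
    (((Ioc 0 N ×ˢ Ioc (A / 2) A) ×ˢ (Ioc 0 N ×ˢ Ioc (A / 2) A)).filter fun z =>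
        z.1.1 * z.2.2 ≡ z.2.1 * z.1.2 [MOD l]).card ≤
      ∑ g ∈ Icc 1 A, A / g * (A / g * (2 * N * g / A)) := by
  have h : ((Icc 1 A).sigma fun g => Ioc 0 (A / g) ×ˢ Ioc 0 (A / g) ×ˢ Ioc 0 (2 * N * g / A)).card =
      ∑ g ∈ Icc 1 A, A / g * (A / g * (2 * N * g / A)) := by
    simp [Finset.card_sigma]
  rw [← h]
  refine Finset.card_le_card_of_surjOn
    (fun w : (Σ _ : ℕ, ℕ × ℕ × ℕ) =>
      ((w.2.1 * w.2.2.2, w.1 * w.2.1), (w.2.2.1 * w.2.2.2, w.1 * w.2.2.1))) ?_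
  rintro ⟨⟨n, a⟩, n', a'⟩ hz
  simp only [coe_filter, mem_product, mem_Ioc, Set.mem_ofPred_eq] at hz
  obtain ⟨⟨⟨⟨hn0, hn⟩, ha0, ha⟩, ⟨hn0', hn'⟩, ha0', ha'⟩, hm⟩ := hz
  have hNA : N * A < l := by
    have : 0 < N * A := Nat.mul_pos hN hA
    nlinarith
  have heq : n * a' = n' * a :=
    hm.eq_of_lt_of_lt ((Nat.mul_le_mul hn ha').trans_lt hNA) ((Nat.mul_le_mul hn' ha).trans_lt hNA)
  have hapos : 0 < a := by omega
  have hg : 0 < Nat.gcd a a' := Nat.gcd_pos_of_pos_left _ hapos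
  obtain ⟨u, u', hcop, hu, hu'⟩ := Nat.exists_coprime a a'
  generalize Nat.gcd a a' = g at hg hu hu'
  subst hu hu'
  have h1 : n * u' = n' * u := by
    apply Nat.eq_of_mul_eq_mul_right hg
    linarith
  obtain ⟨k, rfl⟩ : u ∣ n := hcop.dvd_of_dvd_mul_right ⟨n', by linarith⟩
  have hu0 : 0 < u := Nat.pos_of_ne_zero fun h0 => by
    simp [h0] at hapos
  have hu0' : 0 < u' := Nat.pos_of_ne_zero fun h0 => by
    simp [h0] at ha0'
  have hk0 : 0 < k := Nat.pos_of_ne_zero fun h0 => by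
    simp [h0] at hn0
  have h2 : n' = u' * k := by
    apply Nat.eq_of_mul_eq_mul_right hu0
    linarith
  refine ⟨⟨g, u, u', k⟩, ?_, ?_⟩
  · simp only [coe_sigma, Set.mem_sigma_iff, coe_Icc, Set.mem_Icc, coe_product, Set.mem_prod,
      coe_Ioc, Set.mem_Ioc]
    refine ⟨⟨hg, by nlinarith⟩, ⟨hu0, (Nat.le_div_iff_mul_le hg).2 ha⟩,
      ⟨hu0', (Nat.le_div_iff_mul_le hg).2 ha'⟩, hk0, (Nat.le_div_iff_mul_le hA).2 ?_⟩
    have h3 : A ≤ 2 * (u * g) := by omega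
    calc k * A ≤ k * (2 * (u * g)) := Nat.mul_le_mul_left _ h3
      _ = 2 * (u * k) * g := by ring
      _ ≤ 2 * N * g := Nat.mul_le_mul_right _ (Nat.mul_le_mul_left _ hn)
  · simp only [h2, mul_comm]

theorem b2_sum {A : ℕ} (N : ℕ) (hA : 1 ≤ A) :
    ((∑ g ∈ Icc 1 A, A / g * (A / g * (2 * N * g / A)) : ℕ) : ℝ) ≤
      2 * ((N : ℝ) * A) * (1 + Real.log A) := by
  have h1 := harmonic_le_one_add_log A
  rw [harmonic_eq_sum_Icc] at h1
  push_cast at h1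
  refine le_trans ?_ (mul_le_mul_of_nonneg_left h1 (by positivity))
  rw [Nat.cast_sum, Finset.mul_sum]
  refine Finset.sum_le_sum fun g hg => ?_
  have hg0 : (0 : ℝ) < g := by exact_mod_cast (mem_Icc.1 hg).1
  have hA0 : (0 : ℝ) < A := by exact_mod_cast hA
  have h2 : ((A / g : ℕ) : ℝ) ≤ A / g := Nat.cast_div_le
  have h3 : ((2 * N * g / A : ℕ) : ℝ) ≤ (2 * N * g : ℕ) / A := Nat.cast_div_le
  rw [Nat.cast_mul, Nat.cast_mul]
  calc ((A / g : ℕ) : ℝ) * (((A / g : ℕ) : ℝ) * ((2 * N * g / A : ℕ) : ℝ))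
      ≤ (A / g) * ((A / g) * ((2 * N * g : ℕ) / A)) := by gcongr
    _ = _ := by
      push_cast
      field_simp

theorem bz_energy : ∃ C : ℝ, 1 ≤ C ∧ ∀ l A N : ℕ, l.Prime → 1 ≤ A → A ≤ N →
    (A = 1 ∨ 2 * N * A ≤ l) →
    ((((Ioc 0 N ×ˢ Ioc (A / 2) A) ×ˢ (Ioc 0 N ×ˢ Ioc (A / 2) A)).filter fun z =>
        z.1.1 * z.2.2 ≡ z.2.1 * z.1.2 [MOD l]).card : ℝ) ≤
      C * ((N : ℝ) * A) * (1 + Real.log l) * (1 + (N : ℝ) / l) := by
  refine ⟨2, by norm_num, fun l A N hl hA hAN h => ?_⟩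
  have hl0 : (0 : ℝ) < l := by exact_mod_cast hl.pos
  have hlog : 0 ≤ Real.log l := Real.log_natCast_nonneg l
  have hq : (0 : ℝ) ≤ (N : ℝ) / l := by positivity
  rcases h with rfl | h
  · have h1 : (((N * (N / l + 1) : ℕ)) : ℝ) ≤ N * (1 + (N : ℝ) / l) := by
      have h2 : ((N / l : ℕ) : ℝ) ≤ N / l := Nat.cast_div_le
      rw [Nat.cast_mul, Nat.cast_add, Nat.cast_one, add_comm]
      gcongr
    refine le_trans (Nat.cast_le.2 (b2_one l N)) (h1.trans ?_)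
    have h3 : (0 : ℝ) ≤ N * (1 + (N : ℝ) / l) := by positivity
    have h4 := mul_nonneg h3 hlog
    simp only [Nat.cast_one, mul_one]
    nlinarith
  · have hN : 1 ≤ N := hA.trans hAN
    refine le_trans (Nat.cast_le.2 (b2_two hA hN h)) ((b2_sum N hA).trans ?_)
    have hAl : (A : ℝ) ≤ l := by
      have : A ≤ l := by nlinarith
      exact_mod_cast this
    have hA0 : (0 : ℝ) < A := by exact_mod_cast hA
    have h1 : Real.log A ≤ Real.log l := Real.log_le_log hA0 hAl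
    calc 2 * ((N : ℝ) * A) * (1 + Real.log A) ≤ 2 * ((N : ℝ) * A) * (1 + Real.log l) := by gcongr
      _ ≤ _ := le_mul_of_one_le_right (by positivity) (by linarith)

end Pool.Agent.Lib.MP_e97e2b_nt.Ln
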