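import Pool.Agent.Lib.MP_e97e2b_nt.Ln.B1
import Pool.Agent.Lib.MP_e97e2b_nt.Ln.B2
import Pool.Agent.Lib.MP_e97e2b_nt.Burgess

/- Burgess bound in an arithmetic progression, sharp cut off.
Follow the proof of `burgess_lat` (file Burgess) in dimension d = 1, with N = ⌊x⌋, T = Ioc (A / 2) A,
P = (n ∈ Ioc 0 N with n ≡ h mod m) ×ˢ T.  Shifting n by m a b keeps the class and changes the sum by at most
2 m A B.  chi l (n + m a b) = chi l (m a) * chi l (n (m a)⁻¹ + b) in ZMod l (l > m, a < l), and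
n (m a)⁻¹ = n' (m a')⁻¹ gives n a' ≡ n' a.  Use bu_count (X = ZMod l), bz_moment, bz_energy and bu_num with d = 1. -/

namespace Pool.Agent.Lib.MP_e97e2b_nt.Ln

open Complex Finset

theorem b3_step (g : ℕ → ℝ) (k N : ℕ) :
    ∑ n ∈ Ioc 0 N, g (n + (k + 1)) - ∑ n ∈ Ioc 0 N, g (n + k) = g (N + k + 1) - g (k + 1) := by
  induction N with
  | zero => simp
  | succ N ih =>
    rw [Finset.sum_Ioc_succ_top (Nat.zero_le N), Finset.sum_Ioc_succ_top (Nat.zero_le N),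
      show N + 1 + (k + 1) = N + 1 + k + 1 by ring, show N + 1 + k = N + k + 1 by ring]
    linarith

theorem b3_shift (g : ℕ → ℝ) (hg : ∀ n, |g n| ≤ 1) (N k : ℕ) :
    |∑ n ∈ Ioc 0 N, g n - ∑ n ∈ Ioc 0 N, g (n + k)| ≤ 2 * k := by
  induction k with
  | zero => simp
  | succ k ih =>
    have h1 := b3_step g k N
    have h2 := abs_le.1 (hg (N + k + 1))
    have h3 := abs_le.1 (hg (k + 1))
    have h4 := abs_le.1 ih
    push_cast
    rw [abs_le]
    constructor <;> linarith [h2.1, h2.2, h3.1, h3.2, h4.1, h4.2]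

theorem b3_cls (m h l n : ℕ) : |cls m h (fun n => chi l n) n| ≤ 1 := by
  unfold cls
  split_ifs
  · exact abs_chi_le _ _
  · simp

theorem b3_avg (m h l : ℕ) (hm : 0 < m) (hml : m < l) (hl : l.Prime) (N A B r : ℕ) (hA : A < l)
    (τ E M : ℝ) (hτ : 0 < τ)
    (hE : ((((Ioc 0 N ×ˢ Ioc (A / 2) A) ×ˢ (Ioc 0 N ×ˢ Ioc (A / 2) A)).filter fun z =>
        z.1.1 * z.2.2 ≡ z.2.1 * z.1.2 [MOD l]).card : ℝ) ≤ E)
    (hM : ∑ x ∈ range l, (∑ b ∈ range B, chi l ((x : ℤ) + b)) ^ (2 * r) ≤ M) :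
    |∑ a ∈ Ioc (A / 2) A, ∑ b ∈ range B, ∑ n ∈ Ioc 0 N,
        cls m h (fun n => chi l n) (n + m * a * b)| ≤
      τ * (N * (Ioc (A / 2) A).card) + B * Real.sqrt (E * (M / τ ^ (2 * r))) := by
  have : Fact l.Prime := ⟨hl⟩
  set x : ℕ × ℕ → ZMod l := fun p => (p.1 : ZMod l) * ((m : ZMod l) * p.2)⁻¹ with hx
  set S : ZMod l → ℝ := fun y => ∑ b ∈ range B, chi l ((y.val : ℤ) + b) with hS
  have hm0 : (m : ZMod l) ≠ 0 := fun h0 =>
    absurd (Nat.le_of_dvd hm ((ZMod.natCast_eq_zero_iff _ _).1 h0)) (by omega)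
  have ha0 : ∀ a ∈ Ioc (A / 2) A, (a : ZMod l) ≠ 0 := fun a ha h0 => by
    rw [mem_Ioc] at ha
    exact absurd (Nat.le_of_dvd (by omega) ((ZMod.natCast_eq_zero_iff _ _).1 h0)) (by omega)
  have hSB : ∀ y, |S y| ≤ B := by
    intro y
    calc |S y| ≤ ∑ b ∈ range B, |chi l ((y.val : ℤ) + b)| := Finset.abs_sum_le_sum_abs _ _
      _ ≤ ∑ _b ∈ range B, (1 : ℝ) := Finset.sum_le_sum fun b _ => abs_chi_le _ _
      _ = B := by simp
  have hE' : ((((Ioc 0 N ×ˢ Ioc (A / 2) A) ×ˢ (Ioc 0 N ×ˢ Ioc (A / 2) A)).filter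
      (fun z => x z.1 = x z.2)).card : ℝ) ≤ E := by
    refine le_trans (Nat.cast_le.mpr (Finset.card_le_card fun z hz => ?_)) hE
    obtain ⟨hz1, hz2⟩ := Finset.mem_filter.mp hz
    refine Finset.mem_filter.mpr ⟨hz1, ?_⟩
    obtain ⟨hz3, hz4⟩ := Finset.mem_product.mp hz1
    have u1 := ha0 _ (Finset.mem_product.mp hz3).2
    have u2 := ha0 _ (Finset.mem_product.mp hz4).2
    rw [← ZMod.natCast_eq_natCast_iff]
    simp only [hx] at hz2
    push_cast
    field_simp at hz2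
    linear_combination hz2
  have hM' : ∑ y, S y ^ (2 * r) ≤ M := by
    refine le_trans (le_of_eq ?_) hM
    refine Finset.sum_nbij (fun y => y.val) (fun y _ => mem_range.2 (ZMod.val_lt y))
      (fun y _ y' _ h => ZMod.val_injective l h) (fun n hn => ?_) fun y _ => rfl
    exact ⟨(n : ZMod l), by simp, ZMod.val_natCast_of_lt (by simpa using hn)⟩
  have hc := bu_count (Ioc 0 N ×ˢ Ioc (A / 2) A) x S B τ E M r hSB (Nat.cast_nonneg _) hτ hE' hM'
  rw [Finset.card_product, Nat.cast_mul, Nat.card_Ioc 0 N, Nat.sub_zero] at hc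
  refine le_trans ?_ hc
  have e1 : ∑ a ∈ Ioc (A / 2) A, ∑ b ∈ range B, ∑ n ∈ Ioc 0 N,
        cls m h (fun n => chi l n) (n + m * a * b) =
      ∑ p ∈ Ioc 0 N ×ˢ Ioc (A / 2) A,
        (if p.1 ≡ h [MOD m] then chi l ((m : ℤ) * p.2) else 0) * S (x p) := by
    rw [Finset.sum_product_right]
    refine Finset.sum_congr rfl fun a ha => ?_
    rw [Finset.sum_comm]
    refine Finset.sum_congr rfl fun n _ => ?_
    simp only [hS]
    rw [Finset.mul_sum]
    refine Finset.sum_congr rfl fun b _ => ?_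
    have e2 : n + m * a * b ≡ h [MOD m] ↔ n ≡ h [MOD m] := by
      rw [Nat.ModEq, Nat.ModEq, mul_assoc, Nat.add_mul_mod_self_left]
    simp only [cls, e2]
    split_ifs
    · rw [← chi_mul]
      unfold chi
      congr 1
      apply jacobiSym.mod_left'
      apply (ZMod.intCast_eq_intCast_iff _ _ _).1
      have u1 := ha0 a ha
      push_cast
      rw [ZMod.natCast_val, ZMod.cast_id', id]
      simp only [hx]
      field_simp
    · rw [zero_mul]
  rw [e1]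
  refine le_trans (Finset.abs_sum_le_sum_abs _ _) (Finset.sum_le_sum fun p _ => ?_)
  rw [abs_mul]
  refine mul_le_of_le_one_left (abs_nonneg _) ?_
  split_ifs
  · exact abs_chi_le _ _
  · simp

theorem bz_core (m : ℕ) (hm : 0 < m) (ε : ℝ) (hε : 0 < ε) : ∃ (δ C : ℝ) (l0 : ℕ), 0 < δ ∧ 0 ≤ C ∧
    ∀ l : ℕ, l.Prime → l0 < l → ∀ (h : ℕ) (x : ℝ), (l : ℝ) ^ (1 / 4 + ε) ≤ x →
    |Sm (cls m h fun n => chi l n) x| ≤ C * x * (l : ℝ) ^ (-δ) := by
  obtain ⟨ε', hε0, hε1, hεε⟩ : ∃ ε' : ℝ, 0 < ε' ∧ ε' ≤ 1 / 4 ∧ ε' ≤ ε :=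
    ⟨min ε (1 / 4), lt_min hε (by norm_num), min_le_right _ _, min_le_left _ _⟩
  obtain ⟨r, hr⟩ : ∃ r : ℕ, 2 / ε' < r := exists_nat_gt _
  have hr0 : (0 : ℝ) < r := lt_trans (by positivity) hr
  have hβ : (1 : ℝ) / (2 * r) ≤ ε' / 4 := by
    rw [div_lt_iff₀ hε0] at hr
    rw [div_le_iff₀ (by positivity)]
    linarith
  obtain ⟨Cm, lm, hCm, hmo⟩ := bz_moment r
  obtain ⟨Ce, hCe, hen⟩ := bz_energy
  set C5 : ℝ := (2 * (2 * Ce) * Cm * 1 ^ 1 * (2 ^ 1 + 1 ^ 1) * (1 + 4 / ε') + 1) * (2 * Ce)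
    with hC5
  have hC50 : 0 ≤ C5 := by positivity
  refine ⟨ε' / (8 * (r + 1)), 4 * m + 1 + C5, lm + m + 16, by positivity, by positivity, ?_⟩
  intro l hl hl0 h H hH
  set L : ℝ := (l : ℝ) with hL
  have hL16 : 16 ≤ L := by rw [hL]; exact_mod_cast (by omega : 16 ≤ l)
  have hL1 : 1 ≤ L := by linarith
  have hL0 : 0 < L := by linarith
  have mono : ∀ {x y : ℝ}, x ≤ y → L ^ x ≤ L ^ y :=
    fun h => Real.rpow_le_rpow_of_exponent_le hL1 h
  have hW : 2 ≤ L ^ (1 / 4 : ℝ) := by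
    have h1 : (16 : ℝ) ^ (1 / 4 : ℝ) = 2 := by
      rw [show (16 : ℝ) = 2 ^ (4 : ℝ) by norm_num, ← Real.rpow_mul (by norm_num)]
      norm_num
    rw [← h1]
    exact Real.rpow_le_rpow (by norm_num) hL16 (by norm_num)
  have hH' : L ^ (1 / 4 + ε') ≤ H := le_trans (mono (by linarith)) hH
  have hH1 : 1 ≤ H := le_trans (Real.one_le_rpow hL1 (by linarith)) hH'
  have hH0 : 0 < H := by linarith
  set τ : ℝ := L ^ (-(ε' / (8 * (r + 1)))) with hτ
  have hτ0 : 0 < τ := Real.rpow_pos_of_pos hL0 _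
  set B : ℕ := ⌈L ^ ((1 : ℝ) / (2 * r))⌉₊ with hB
  have hβ1 : 1 ≤ L ^ ((1 : ℝ) / (2 * r)) := Real.one_le_rpow hL1 (by positivity)
  have hB1 : L ^ ((1 : ℝ) / (2 * r)) ≤ B := Nat.le_ceil _
  have hB2 : (B : ℝ) ≤ 2 * L ^ (ε' / 4) := by
    have := Nat.ceil_lt_add_one (le_trans zero_le_one hβ1)
    have h2 := mono hβ
    linarith
  have hB0 : (0 : ℝ) < B := by linarith
  have hBl : B ≤ l := by
    refine Nat.ceil_le.mpr ?_
    have := mono (x := (1 : ℝ) / (2 * r)) (y := 1) (by linarith)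
    rwa [Real.rpow_one] at this
  set N : ℕ := ⌊H⌋₊ with hN
  have hN2 : (N : ℝ) ≤ H := Nat.floor_le hH0.le
  set y : ℝ := L ^ (1 / 2 + ε' / 2) / H with hy
  have hy0 : 0 ≤ y := by positivity
  have hyH : y * H = L ^ (1 / 2 + ε' / 2) := by rw [hy]; field_simp
  have hy1 : y ≤ L ^ (1 / 4 - ε' / 2) := by
    rw [hy, div_le_iff₀ hH0]
    have : L ^ (1 / 2 + ε' / 2) = L ^ (1 / 4 - ε' / 2) * L ^ (1 / 4 + ε') := by
      rw [← Real.rpow_add hL0]
      congr 1
      ring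
    rw [this]
    exact mul_le_mul_of_nonneg_left hH' (by positivity)
  set A : ℕ := max 1 ⌊y⌋₊ with hA
  have hA1 : 1 ≤ A := le_max_left _ _
  have hA1' : (1 : ℝ) ≤ A := by exact_mod_cast hA1
  have hAc : A = 1 ∨ (A : ℝ) ≤ y := by
    rcases le_total ⌊y⌋₊ 1 with h | h
    · exact Or.inl (max_eq_left h)
    · right
      rw [hA, max_eq_right h]
      exact Nat.floor_le hy0
  have hA2 : (A : ℝ) ≤ L ^ (1 / 4 - ε' / 2) := by
    rcases hAc with h | h
    · rw [h, Nat.cast_one]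
      exact Real.one_le_rpow hL1 (by linarith)
    · linarith
  have hA3 : y ≤ 2 * A := by
    have a1 := Nat.lt_floor_add_one y
    have a2 : ((⌊y⌋₊ : ℕ) : ℝ) ≤ A := by exact_mod_cast le_max_right 1 ⌊y⌋₊
    linarith
  have hAH : L ^ (1 / 2 + ε' / 2) ≤ 2 * (A * H) := by
    rw [← hyH, ← mul_assoc]
    exact mul_le_mul_of_nonneg_right hA3 hH0.le
  have hAN : A ≤ N := Nat.le_floor (le_trans hA2 (le_trans (mono (by linarith)) hH'))
  have hAl : A < l := by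
    have h1 := Real.rpow_lt_rpow_of_exponent_lt (x := L) (y := 1 / 4 - ε' / 2) (z := 1)
      (by linarith) (by linarith)
    rw [Real.rpow_one] at h1
    have h2 : (A : ℝ) < l := lt_of_le_of_lt hA2 h1
    exact_mod_cast h2
  have hcond : A = 1 ∨ 2 * N * A ≤ l := by
    rcases hAc with h | h
    · exact Or.inl h
    · right
      have a1 : (N : ℝ) * A ≤ L ^ (1 / 2 + ε' / 2) := by
        rw [← hyH, mul_comm y]
        exact mul_le_mul hN2 h (by positivity) (by positivity)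
      have a2 : L ^ (1 / 4 : ℝ) * L ^ (1 / 2 + ε' / 2) ≤ L := by
        rw [← Real.rpow_add hL0]
        have := mono (x := 1 / 4 + (1 / 2 + ε' / 2)) (y := 1) (by linarith)
        rwa [Real.rpow_one] at this
      have a3 : 2 * (N : ℝ) * A ≤ l := by
        calc 2 * (N : ℝ) * A = 2 * (N * A) := by ring
          _ ≤ L ^ (1 / 4 : ℝ) * L ^ (1 / 2 + ε' / 2) :=
            mul_le_mul hW a1 (by positivity) (by positivity)
          _ ≤ L := a2
      exact_mod_cast a3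
  have hT4 := hen l A N hl hA1 hAN hcond
  set T := Ioc (A / 2) A with hT
  have hT1 : (A : ℝ) ≤ 2 * T.card := by
    have : A ≤ 2 * T.card := by rw [hT, Nat.card_Ioc]; omega
    exact_mod_cast this
  have hT0 : (0 : ℝ) < T.card := by linarith
  have hσ : (A : ℝ) * B ≤ 2 * (τ * H) := by
    have a1 : (A : ℝ) * B ≤ L ^ (1 / 4 - ε' / 2) * (2 * L ^ (ε' / 4)) :=
      mul_le_mul hA2 hB2 hB0.le (by positivity)
    have a3 : L ^ (1 / 4 - ε' / 2) * L ^ (ε' / 4) ≤ τ * L ^ (1 / 4 + ε') := by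
      rw [hτ, ← Real.rpow_add hL0, ← Real.rpow_add hL0]
      refine mono ?_
      have : ε' / (8 * (r + 1)) ≤ ε' / 8 :=
        div_le_div_of_nonneg_left hε0.le (by norm_num) (by linarith)
      linarith
    have a4 := mul_le_mul_of_nonneg_left hH' hτ0.le
    linarith
  set g : ℕ → ℝ := cls m h fun n => chi l n with hg
  have hshift : ∀ a ∈ T, ∀ b ∈ range B,
      |∑ n ∈ Ioc 0 N, g n - ∑ n ∈ Ioc 0 N, g (n + m * a * b)| ≤ 4 * m * (τ * H) := by
    intro a ha b hb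
    have hb' : (b : ℝ) ≤ B := by exact_mod_cast (mem_range.mp hb).le
    have ha' : (a : ℝ) ≤ A := by exact_mod_cast (mem_Ioc.1 ha).2
    refine (b3_shift g (b3_cls m h l) N _).trans ?_
    have : (a : ℝ) * b ≤ 2 * (τ * H) :=
      (mul_le_mul ha' hb' (by positivity) (by positivity)).trans hσ
    have := mul_le_mul_of_nonneg_left this (Nat.cast_nonneg (α := ℝ) m)
    push_cast
    linarith
  have hM : ∑ x ∈ range l, (∑ b ∈ range B, chi l ((x : ℤ) + b)) ^ (2 * r) ≤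
      2 * Cm * (B : ℝ) ^ (2 * r) * Real.sqrt (L ^ 1) := by
    refine le_trans (hmo l hl (by omega) B hBl) ?_
    rw [pow_one]
    have a0 : 0 ≤ Real.sqrt L := Real.sqrt_nonneg _
    have a1 : Real.sqrt L ≤ (B : ℝ) ^ r := by
      have b1 : Real.sqrt L = (L ^ ((1 : ℝ) / (2 * r))) ^ r := by
        rw [Real.sqrt_eq_rpow, ← Real.rpow_natCast, ← Real.rpow_mul hL0.le]
        congr 1
        field_simp
      rw [b1]
      exact pow_le_pow_left₀ (by positivity) hB1 r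
    have a2 : (B : ℝ) ^ r * L ≤ (B : ℝ) ^ (2 * r) * Real.sqrt L := by
      have b2 : (B : ℝ) ^ (2 * r) = (B : ℝ) ^ r * (B : ℝ) ^ r := by rw [two_mul, pow_add]
      rw [b2]
      nth_rewrite 1 [← Real.mul_self_sqrt hL0.le]
      rw [mul_assoc]
      exact mul_le_mul_of_nonneg_left (mul_le_mul_of_nonneg_right a1 a0) (by positivity)
    have a3 := mul_le_mul_of_nonneg_left a2 hCm
    linarith
  have hE : ((((Ioc 0 N ×ˢ T) ×ˢ (Ioc 0 N ×ˢ T)).filter fun z =>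
      z.1.1 * z.2.2 ≡ z.2.1 * z.1.2 [MOD l]).card : ℝ) ≤
      2 * Ce * ((N : ℝ) * A) ^ 1 * (1 + Real.log L) * (1 + ((N : ℝ) / L) ^ 1) := by
    refine hT4.trans ?_
    have := Real.log_nonneg hL1
    rw [pow_one, pow_one]
    gcongr
    linarith
  have havg := b3_avg m h l hm (by omega) hl N A B r hAl (τ * B) _ _ (by positivity) hE hM
  have hnum := bu_num 1 r le_rfl ε' 1 (2 * Ce) Cm L H A N B T.card hε0 hε1 zero_le_one
    (by linarith) hCm hL1 hH1 hA1' (Nat.cast_nonneg _) (by linarith) hB0 hAH (by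
      rw [pow_one]
      nlinarith)
  rw [pow_one H] at hnum
  set Y : ℕ → ℕ → ℝ := fun a b => ∑ n ∈ Ioc 0 N, g (n + m * a * b) with hY
  set S0 : ℝ := ∑ n ∈ Ioc 0 N, g n with hS0
  have hdiff : |∑ a ∈ T, ∑ b ∈ range B, (S0 - Y a b)| ≤ T.card * (B * (4 * m * (τ * H))) := by
    refine le_trans (Finset.abs_sum_le_sum_abs _ _) ?_
    rw [← nsmul_eq_mul, ← Finset.sum_const]
    refine Finset.sum_le_sum fun a ha => ?_
    refine le_trans (Finset.abs_sum_le_sum_abs _ _) ?_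
    refine le_trans (Finset.sum_le_sum fun b hb => hshift a ha b hb) ?_
    rw [Finset.sum_const, Finset.card_range, nsmul_eq_mul]
  have hsum : ∑ a ∈ T, ∑ b ∈ range B, (S0 - Y a b) =
      T.card * (B * S0) - ∑ a ∈ T, ∑ b ∈ range B, Y a b := by
    simp only [Finset.sum_sub_distrib, Finset.sum_const, Finset.card_range, nsmul_eq_mul]
  rw [hsum] at hdiff
  have hY2 : |∑ a ∈ T, ∑ b ∈ range B, Y a b| ≤ T.card * (B * (H * τ + C5 * H * τ)) := by
    refine le_trans havg ?_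
    have a1 := mul_le_mul_of_nonneg_left hnum hB0.le
    have a2 : τ * B * ((N : ℝ) * T.card) ≤ τ * B * (H * T.card) :=
      mul_le_mul_of_nonneg_left (mul_le_mul_of_nonneg_right hN2 hT0.le) (by positivity)
    calc _ ≤ τ * B * (H * T.card) + B * (T.card * (C5 * H * τ)) := add_le_add a2 a1
      _ = _ := by ring
  have hfin : T.card * (B * |S0|) ≤
      T.card * (B * (4 * m * (τ * H) + (H * τ + C5 * H * τ))) := by
    have a1 : |(T.card : ℝ) * (B * S0)| = T.card * (B * |S0|) := by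
      rw [abs_mul, abs_mul, Nat.abs_cast, Nat.abs_cast]
    have a2 := abs_sub_abs_le_abs_sub ((T.card : ℝ) * (B * S0)) (∑ a ∈ T, ∑ b ∈ range B, Y a b)
    rw [a1] at a2
    linarith
  have hfin2 := le_of_mul_le_mul_left (le_of_mul_le_mul_left hfin hT0) hB0
  exact hfin2.trans (le_of_eq (by ring))

end Pool.Agent.Lib.MP_e97e2b_nt.Ln
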