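import Pool.Agent.Lib.MP_e97e2b_nt.Ln.B3
import Pool.Agent.Lib.MP_e97e2b_nt.Upper

/- Power saving form of the Burgess bound.
`bz_period`: the function is periodic modulo m l and its sum over a period vanishes (n = h + m k, k mod l,
runs over all residues mod l; ∑ of the quadratic character is 0; l odd prime not dividing m).
`burgess_ap`: y = l^(1/4+ε).  For x < y use |Sm| ≤ x ≤ x^(1-θ) y^θ.  For x ≥ y interpolate (up_interp) between
C x l^(-δ) and m l with θ = min (1/2) (δ / (1 + δ)): the power of l is θ - δ (1 - θ) ≤ 0. -/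

namespace Pool.Agent.Lib.MP_e97e2b_nt.Ln

open Complex Finset

theorem b4_abs (m h l n : ℕ) : |cls m h (fun n => chi l n) n| ≤ 1 := by
  unfold cls
  split_ifs
  · exact abs_chi_le l n
  · simp

theorem b4_triv (F : ℕ → ℝ) (hF : ∀ n, |F n| ≤ 1) (N : ℕ) : |∑ n ∈ Ioc 0 N, F n| ≤ N := by
  refine (abs_sum_le_sum_abs _ _).trans ?_
  refine (sum_le_card_nsmul _ _ 1 fun n _ => hF n).trans ?_
  simp

theorem b4_per (F : ℕ → ℝ) (q : ℕ) (hq : 0 < q) (hF : ∀ n, |F n| ≤ 1)
    (hp : ∀ n, F (n + q) = F n) (h0 : ∑ n ∈ range q, F n = 0) (N : ℕ) :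
    |∑ n ∈ Ioc 0 N, F n| ≤ q := by
  have hstep : ∀ a : ℕ, ∑ n ∈ Ioc 0 (a + q), F n = ∑ n ∈ Ioc 0 a, F n := by
    intro a
    induction a with
    | zero =>
      have e1 := sum_range_succ F q
      have e2 : ∑ n ∈ range (q + 1), F n = F 0 + ∑ n ∈ Ioc 0 q, F n := by
        rw [range_eq_Ico, Ico_add_one_right_eq_Icc, ← sum_Ioc_add_eq_sum_Icc (Nat.zero_le q),
          add_comm]
      have e3 := hp 0
      simp only [zero_add] at e3 ⊢
      simp only [Ioc_self, sum_empty]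
      linarith
    | succ a ih =>
      rw [Nat.add_right_comm, sum_Ioc_succ_top (Nat.zero_le _), sum_Ioc_succ_top (Nat.zero_le _),
        ih, Nat.add_right_comm, hp]
  induction N using Nat.strong_induction_on with
  | _ N ih =>
    rcases le_or_gt N q with h | h
    · exact (b4_triv F hF N).trans (by exact_mod_cast h)
    · obtain ⟨a, rfl⟩ : ∃ a, N = a + q := ⟨N - q, by omega⟩
      rw [hstep]
      exact ih a (by omega)

theorem b4_chi (l : ℕ) [Fact l.Prime] (n : ℕ) :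
    chi l n = ((quadraticChar (ZMod l) (n : ZMod l) : ℤ) : ℝ) := by
  rw [chi, ← jacobiSym.legendreSym.to_jacobiSym, legendreSym, Int.cast_natCast]

theorem bz_period (m l h : ℕ) (hm : 0 < m) (hl : l.Prime) (h2 : 2 < l) (hml : m < l) (x : ℝ) :
    |Sm (cls m h fun n => chi l n) x| ≤ m * l := by
  have : Fact l.Prime := ⟨hl⟩
  have hcop : m.Coprime l := (Nat.coprime_of_lt_prime hm.ne' hml hl).symm
  have key := b4_per (cls m h fun n => chi l n) (m * l) (Nat.mul_pos hm hl.pos) (b4_abs m h l)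
    (fun n => by
      have e1 : n + m * l ≡ h [MOD m] ↔ n ≡ h [MOD m] := by
        simp only [Nat.ModEq, Nat.add_mul_mod_self_left]
      simp only [cls, e1, b4_chi]
      simp)
    (by
      have e1 : ∑ n ∈ range (m * l), cls m h (fun n => chi l n) n =
          ∑ n ∈ (range (m * l)).filter (fun n => n ≡ h [MOD m]),
            ((quadraticChar (ZMod l) (n : ZMod l) : ℤ) : ℝ) := by
        rw [sum_filter]
        simp only [cls, b4_chi]
      have e2 : ∑ n ∈ (range (m * l)).filter (fun n => n ≡ h [MOD m]),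
          ((quadraticChar (ZMod l) (n : ZMod l) : ℤ) : ℝ) =
          ∑ z : ZMod l, ((quadraticChar (ZMod l) z : ℤ) : ℝ) := by
        refine sum_bij (fun n _ => (n : ZMod l)) (fun _ _ => mem_univ _) ?_ ?_ (fun _ _ => rfl)
        · intro a ha b hb hab
          rw [mem_filter, mem_range] at ha hb
          have h1 : a ≡ b [MOD l] := (ZMod.natCast_eq_natCast_iff a b l).mp hab
          have h2 : a ≡ b [MOD m] := ha.2.trans hb.2.symm
          exact Nat.ModEq.eq_of_lt_of_lt ((Nat.modEq_and_modEq_iff_modEq_mul hcop).mp ⟨h2, h1⟩)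
            ha.1 hb.1
        · intro z _
          refine ⟨Nat.chineseRemainder hcop h z.val, ?_, ?_⟩
          · rw [mem_filter, mem_range]
            exact ⟨Nat.chineseRemainder_lt_mul hcop h z.val hm.ne' hl.ne_zero,
              (Nat.chineseRemainder hcop h z.val).2.1⟩
          · rw [(ZMod.natCast_eq_natCast_iff _ _ l).mpr (Nat.chineseRemainder hcop h z.val).2.2,
              ZMod.natCast_zmod_val]
      rw [e1, e2, ← Int.cast_sum, quadraticChar_sum_zero (by rw [ZMod.ringChar_zmod_n]; omega),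
        Int.cast_zero]) ⌊x⌋₊
  rw [Sm]
  exact_mod_cast key

theorem burgess_ap (m : ℕ) (hm : 0 < m) (ε : ℝ) (hε : 0 < ε) : ∃ (θ C : ℝ) (l0 : ℕ), 0 < θ ∧
    θ ≤ 1 / 2 ∧ 1 ≤ C ∧ ∀ l : ℕ, l.Prime → l0 < l → ∀ (h : ℕ) (x : ℝ), 1 ≤ x →
    |Sm (cls m h fun n => chi l n) x| ≤ C * x ^ (1 - θ) * ((l : ℝ) ^ (1 / 4 + ε)) ^ θ := by
  obtain ⟨δ, C, l0, hδ, hC, H⟩ := bz_core m hm ε hε
  have hθ0 : 0 < min (1 / 2) (δ / (1 + δ)) := by positivity
  have hθ1 : min (1 / 2) (δ / (1 + δ)) ≤ 1 / 2 := min_le_left _ _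
  have hθ2 : min (1 / 2) (δ / (1 + δ)) ≤ δ / (1 + δ) := min_le_right _ _
  set θ := min (1 / 2) (δ / (1 + δ)) with hθ
  have hm1 : (1 : ℝ) ≤ m := by exact_mod_cast hm
  have hCm : 1 ≤ (C + 1) * m := by nlinarith
  refine ⟨θ, (C + 1) * m, max l0 (max m 2), hθ0, hθ1, hCm, fun l hl hl0 h x hx => ?_⟩
  have hl1 : (1 : ℝ) ≤ l := by exact_mod_cast hl.one_le
  have hy : 1 ≤ (l : ℝ) ^ (1 / 4 + ε) := Real.one_le_rpow hl1 (by positivity)
  have hx0 : 0 < x := by linarith
  have hxp : 0 < x ^ (1 - θ) := Real.rpow_pos_of_pos hx0 _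
  have hyp : 1 ≤ ((l : ℝ) ^ (1 / 4 + ε)) ^ θ := Real.one_le_rpow hy hθ0.le
  rcases le_or_gt ((l : ℝ) ^ (1 / 4 + ε)) x with hc | hc
  · have h1 := H l hl (by omega) h x hc
    have h2 := bz_period m l h hm hl (by omega) (by omega) x
    have h3 := up_interp (abs_nonneg _) h1 h2 hθ0.le (by linarith)
    have hl0' : (0 : ℝ) < l := by linarith
    have e1 : (C * x * (l : ℝ) ^ (-δ)) ^ (1 - θ) * ((m : ℝ) * l) ^ θ =
        C ^ (1 - θ) * (m : ℝ) ^ θ * x ^ (1 - θ) * (l : ℝ) ^ (-δ * (1 - θ) + θ) := by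
      rw [Real.mul_rpow (by positivity) (by positivity), Real.mul_rpow hC hx0.le,
        Real.mul_rpow (by positivity) hl0'.le, ← Real.rpow_mul hl0'.le, Real.rpow_add hl0']
      ring
    have e2 : (l : ℝ) ^ (-δ * (1 - θ) + θ) ≤ 1 := by
      refine Real.rpow_le_one_of_one_le_of_nonpos hl1 ?_
      rw [le_div_iff₀ (by positivity)] at hθ2
      nlinarith
    have e3 : C ^ (1 - θ) ≤ C + 1 := by
      calc C ^ (1 - θ) ≤ (C + 1) ^ (1 - θ) := Real.rpow_le_rpow hC (by linarith) (by linarith)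
        _ ≤ (C + 1) ^ (1 : ℝ) := Real.rpow_le_rpow_of_exponent_le (by linarith) (by linarith)
        _ = C + 1 := Real.rpow_one _
    have e4 : (m : ℝ) ^ θ ≤ m := by
      calc (m : ℝ) ^ θ ≤ (m : ℝ) ^ (1 : ℝ) := Real.rpow_le_rpow_of_exponent_le hm1 (by linarith)
        _ = m := Real.rpow_one _
    rw [e1] at h3
    refine h3.trans ?_
    have e5 : (l : ℝ) ^ (-δ * (1 - θ) + θ) ≤ ((l : ℝ) ^ (1 / 4 + ε)) ^ θ := e2.trans hyp
    gcongr
  · have h1 : |Sm (cls m h fun n => chi l n) x| ≤ x :=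
      (b4_triv _ (b4_abs m h l) _).trans (Nat.floor_le hx0.le)
    have h3 := up_interp (abs_nonneg _) h1 (h1.trans hc.le) hθ0.le (by linarith)
    refine h3.trans ?_
    rw [mul_assoc]
    exact le_mul_of_one_le_left (by positivity) hCm

end Pool.Agent.Lib.MP_e97e2b_nt.Ln
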