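import Pool.Agent.Lib.MP_e97e2b_nt.Ln.Defs

/- Choice of the height by the pigeonhole principle.
Let n = ⌈Λm / δ⌉ and, for a height Y,
  N Y = ∑ ψ, ∑ i ∈ range (n + 1), min 3 (card of the z in zin (Z ψ) Y with -re z ≤ i δ).
N is monotone in Y and ≤ J := 3 |Γ| (n + 1), so among Y_j = 4^j Y0 (j = 0, ..., J + 1) there is j ≤ J with
N Y_j = N Y_(j+1), hence termwise equality.  Take K0 = 4^(J+1), Y = Y_j.  If z is a zero with
Y < |im z| ≤ 4 Y and lam = -re z < s - δ, put i = ⌈lam / δ⌉: then lam ≤ i δ < s, the inner zeros with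
-re ≤ i δ all sit in P' (as a multiset: filter p of zin ≤ P'), so there are ≤ 2 of them, while at height 4 Y
there is at least one more: contradiction. -/

namespace Pool.Agent.Lib.MP_e97e2b_nt.Ln

open Complex Finset

theorem c2_step (f : ℕ → ℕ) (J : ℕ) (hJ : ∀ j, f j ≤ J) : ∃ j ≤ J, f (j + 1) ≤ f j := by
  by_contra h
  push Not at h
  have h1 : ∀ j, j ≤ J + 1 → j ≤ f j := by
    intro j
    induction j with
    | zero => intro _; exact Nat.zero_le _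
    | succ j ih =>
      intro hj
      have h2 := ih (by omega)
      have h3 := h j (by omega)
      omega
  have h2 := h1 (J + 1) le_rfl
  have h3 := hJ (J + 1)
  omega

open Classical in
/-- Zeros of height at most `Y` and depth at most `a`. -/
noncomputable def c2F (Z : Multiset ℂ) (Y a : ℝ) : Multiset ℂ :=
  Z.filter fun z => |z.im| ≤ Y ∧ -z.re ≤ a

theorem c2F_mono (Z : Multiset ℂ) {Y Y' : ℝ} (h : Y ≤ Y') (a : ℝ) : c2F Z Y a ≤ c2F Z Y' a := by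
  classical
  unfold c2F
  exact Multiset.monotone_filter_right Z fun z hz => ⟨hz.1.trans h, hz.2⟩

theorem c2F_mem {Z : Multiset ℂ} {Y a : ℝ} {z : ℂ} :
    z ∈ c2F Z Y a ↔ z ∈ Z ∧ |z.im| ≤ Y ∧ -z.re ≤ a := by
  unfold c2F
  exact Multiset.mem_filter

theorem c2F_le {Z P : Multiset ℂ} {Y a s : ℝ} (ha : a < s)
    (h : ∀ z ∈ zin Z Y - P, z.re ≤ -s) : c2F Z Y a ≤ P := by
  classical
  rw [Multiset.le_iff_count]
  intro w
  by_cases hw : |w.im| ≤ Y ∧ -w.re ≤ a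
  · by_contra hc
    have h1 : w ∈ zin Z Y - P := by
      rw [Multiset.mem_sub]
      unfold zin
      rw [Multiset.count_filter_of_pos (p := fun z : ℂ => |z.im| ≤ Y) hw.1]
      refine (not_le.1 hc).trans_le (Multiset.count_le_of_le w ?_)
      exact Multiset.filter_le _ _
    linarith [h w h1, hw.2]
  · rw [Multiset.count_eq_zero.2 fun h1 => hw (c2F_mem.1 h1).2]
    exact Nat.zero_le _

theorem pigeon (Γ : Type) [Fintype Γ] (Λm δ : ℝ) (hδ : 0 < δ) : ∃ K0 : ℝ, 4 ≤ K0 ∧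
    ∀ (Z : Γ → Multiset ℂ) (Y0 : ℝ), 0 < Y0 → (∀ ψ, ∀ z ∈ Z ψ, z.re ≤ 0) →
    ∃ Y : ℝ, Y0 ≤ Y ∧ 4 * Y ≤ K0 * Y0 ∧ ∀ (ψ : Γ) (P' : Multiset ℂ) (s : ℝ), P'.card ≤ 2 →
      s ≤ Λm → (∀ z ∈ zin (Z ψ) Y - P', z.re ≤ -s) →
      ∀ z ∈ Z ψ, Y < |z.im| → |z.im| ≤ 4 * Y → z.re ≤ -s + δ := by
  classical
  obtain ⟨n, hn⟩ : ∃ n : ℕ, n = ⌈Λm / δ⌉₊ := ⟨_, rfl⟩
  obtain ⟨J, hJ⟩ : ∃ J : ℕ, J = Fintype.card (Γ × Fin (n + 1)) * 3 := ⟨_, rfl⟩
  refine ⟨4 ^ (J + 1), ?_, fun Z Y0 hY0 hZ => ?_⟩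
  · exact le_self_pow₀ (by norm_num) (Nat.succ_ne_zero J)
  let c : ℕ → Γ × Fin (n + 1) → ℕ := fun j p =>
    min 3 (c2F (Z p.1) (4 ^ j * Y0) ((p.2 : ℕ) * δ)).card
  obtain ⟨j, hj, hle⟩ := c2_step (fun j => ∑ p, c j p) J fun j => by
    have := Finset.sum_le_card_nsmul univ (c j) 3 fun p _ => min_le_left _ _
    rw [hJ]
    simpa using this
  have h1 : (1 : ℝ) ≤ 4 ^ j := one_le_pow₀ (by norm_num)
  have h4 : (4 : ℝ) ^ (j + 1) * Y0 = 4 * (4 ^ j * Y0) := by ring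
  have hmono : (4 : ℝ) ^ j * Y0 ≤ 4 ^ (j + 1) * Y0 := by
    rw [h4]
    nlinarith
  refine ⟨4 ^ j * Y0, le_mul_of_one_le_left hY0.le h1, ?_, ?_⟩
  · rw [← h4]
    exact mul_le_mul_of_nonneg_right (pow_le_pow_right₀ (by norm_num) (by omega)) hY0.le
  intro ψ P' s hP hs hin z hz hz1 hz2
  by_contra hc
  have h0 : 0 ≤ -z.re / δ := div_nonneg (by linarith [hZ ψ z hz]) hδ.le
  have hi : ⌈-z.re / δ⌉₊ < n + 1 := by
    rw [hn]
    exact Nat.lt_succ_of_le (Nat.ceil_le_ceil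
      (div_le_div_of_nonneg_right (by linarith [not_le.1 hc]) hδ.le))
  have a1 : -z.re ≤ (⌈-z.re / δ⌉₊ : ℕ) * δ := by
    rw [← div_le_iff₀ hδ]
    exact Nat.le_ceil _
  have a2 : (⌈-z.re / δ⌉₊ : ℕ) * δ < s := by
    have b1 := mul_lt_mul_of_pos_right (Nat.ceil_lt_add_one h0) hδ
    rw [add_mul, div_mul_cancel₀ _ hδ.ne'] at b1
    linarith [not_le.1 hc]
  have a3 := (Multiset.card_le_card (c2F_le a2 hin)).trans hP
  have a4 : c2F (Z ψ) (4 ^ j * Y0) ((⌈-z.re / δ⌉₊ : ℕ) * δ) <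
      c2F (Z ψ) (4 ^ (j + 1) * Y0) ((⌈-z.re / δ⌉₊ : ℕ) * δ) := by
    refine lt_of_le_of_ne (c2F_mono _ hmono _) fun he => ?_
    have b1 : z ∈ c2F (Z ψ) (4 ^ (j + 1) * Y0) ((⌈-z.re / δ⌉₊ : ℕ) * δ) :=
      c2F_mem.2 ⟨hz, by rw [h4]; exact hz2, a1⟩
    rw [← he] at b1
    linarith [(c2F_mem.1 b1).2.1]
  have a5 := Multiset.card_lt_card a4
  refine absurd hle (not_le.2 (Finset.sum_lt_sum (fun p _ => ?_) ⟨(ψ, ⟨_, hi⟩), mem_univ _, ?_⟩))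
  · exact min_le_min le_rfl (Multiset.card_le_card (c2F_mono _ hmono _))
  · simp only [c]
    omega

end Pool.Agent.Lib.MP_e97e2b_nt.Ln
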