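import Pool.Agent.Lib.MP_e97e2b_nt.Ln.K1

/- The majorant.
Proof of `ou`: write z = -lam + i y, d = lam - Λ ≥ 0, V s = VV s z (derivative exp (z s)) and
Φ s = exp (2 d s) ‖V K - V s‖^2.  Since V K - V s = exp (z s) V (K - s), one gets
Φ' s = 2 d Φ s - 2 exp (-2 Λ s) re (V (K - s)).  Integrate over [0, K]:
‖V K‖^2 = 2 re ∫ exp (-2 Λ s) V (K - s) ds - 2 d ∫ Φ.  By parts (kap' t = - exp (-2 Λ (K - t)),
kap K = 0, V 0 = 0) and s = K - t, the first integral is KK Λ K z.  Any other proof is fine.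
Proof of `prim_bound`: let y = z.im, g t = kap Λ K t * exp (-s t), decreasing, g K = 0; re KK = ∫ g cos (y t)
= ∫ (-g') sin (y t) / y.  If |y| K ≤ π this is ≥ 0 (also for y = 0), and
‖VV K z‖ ≤ ∫ exp (-l1 t) ≤ K - l1 K^2 / 2 + l1^2 K^3 / 6 (exp (-w) ≤ 1 - w + w^2 / 2 for w ≥ 0).
If |y| K > π then ‖VV K z‖ ≤ 2 / |y| < 2 K / π and re KK ≥ - g 0 / |y| ≥ - kap Λ K 0 * K / π; use
4 / π^2 ≤ 0.41 and 2 / π ≤ 0.64. -/

namespace Pool.Agent.Lib.MP_e97e2b_nt.Ln

open Complex Finset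

theorem k3_deriv (z : ℂ) (s : ℝ) : HasDerivAt (fun K => VV K z) (exp (z * s)) s :=
  ((by fun_prop : Continuous fun t : ℝ => exp (z * t)).integral_hasStrictDerivAt 0 s).hasDerivAt

theorem k3_re (z : ℂ) (s : ℝ) : HasDerivAt (fun K => (VV K z).re) (exp (z * s)).re s :=
  reCLM.hasFDerivAt.comp_hasDerivAt s (k3_deriv z s)

theorem k3_im (z : ℂ) (s : ℝ) : HasDerivAt (fun K => (VV K z).im) (exp (z * s)).im s :=
  imCLM.hasFDerivAt.comp_hasDerivAt s (k3_deriv z s)

theorem k3_KK {Λ : ℝ} (hΛ : 0 < Λ) (K : ℝ) (z : ℂ) :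
    ((2 * Λ : ℝ) : ℂ) * KK Λ K z =
      VV K z - (Real.exp (-(2 * Λ * K)) : ℂ) * VV K (z + (2 * Λ : ℝ)) := by
  unfold KK Lap VV
  rw [← intervalIntegral.integral_const_mul, ← intervalIntegral.integral_const_mul,
    ← intervalIntegral.integral_sub ((by fun_prop : Continuous _).intervalIntegrable _ _)
      ((by fun_prop : Continuous _).intervalIntegrable _ _)]
  refine intervalIntegral.integral_congr fun t _ => ?_
  have h1 : 2 * Λ * kap Λ K t = 1 - Real.exp (-(2 * Λ * K)) * Real.exp (2 * Λ * t) := by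
    rw [kap, ← Real.exp_add, show -(2 * Λ * K) + 2 * Λ * t = -(2 * Λ * (K - t)) by ring]
    field_simp
  change ((2 * Λ : ℝ) : ℂ) * ((kap Λ K t : ℂ) * exp (z * t)) =
    exp (z * t) - (Real.exp (-(2 * Λ * K)) : ℂ) * exp ((z + (2 * Λ : ℝ)) * t)
  rw [← mul_assoc, ← ofReal_mul, h1, add_mul z, exp_add, ← ofReal_mul, ← ofReal_exp (2 * Λ * t),
    ofReal_sub, ofReal_mul, ofReal_one]
  ring

theorem ou {Λ K : ℝ} (hΛ : 0 < Λ) (hK : 0 ≤ K) {z : ℂ} (hz : z.re ≤ -Λ) :
    ‖VV K z‖ ^ 2 ≤ 2 * (KK Λ K z).re := by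
  have hz0 : z ≠ 0 := by
    rintro rfl
    rw [zero_re] at hz
    linarith
  have hm : Monotone fun s : ℝ => 2 * (Real.exp (2 * Λ * s) * (VV s z).re -
      (VV s (z + (2 * Λ : ℝ))).re) - 2 * Λ * (Real.exp (2 * Λ * s) *
        ((VV s z).re * (VV s z).re + (VV s z).im * (VV s z).im)) := by
    have he : ∀ s : ℝ, HasDerivAt (fun s => Real.exp (2 * Λ * s))
        (Real.exp (2 * Λ * s) * (2 * Λ * 1)) s := fun s =>
      ((hasDerivAt_id s).const_mul (2 * Λ)).exp
    refine monotone_of_hasDerivAt_nonneg (fun s =>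
      ((((he s).mul (k3_re z s)).sub (k3_re _ s)).const_mul 2).sub
        (((he s).mul (((k3_re z s).mul (k3_re z s)).add ((k3_im z s).mul (k3_im z s)))).const_mul
          (2 * Λ))) fun s => ?_
    have e1 : exp (z * s) = 1 + z * VV s z := by
      rw [VV_closed s hz0]
      field_simp
      ring
    have e2 : (exp ((z + (2 * Λ : ℝ)) * s)).re = Real.exp (2 * Λ * s) * (exp (z * s)).re := by
      rw [add_mul, exp_add, ← ofReal_mul, ← ofReal_exp, re_mul_ofReal, mul_comm]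
    simp only [Pi.zero_apply, Pi.add_apply, Pi.mul_apply, e2]
    simp only [e1, add_re, add_im, mul_re, mul_im, one_re, one_im]
    have e3 : 0 ≤ Λ * (Real.exp (2 * Λ * s) * ((-Λ - z.re) *
        ((VV s z).re * (VV s z).re + (VV s z).im * (VV s z).im))) :=
      mul_nonneg hΛ.le (mul_nonneg (Real.exp_pos _).le (mul_nonneg (by linarith)
        (add_nonneg (mul_self_nonneg _) (mul_self_nonneg _))))
    linarith
  have h1 := hm hK
  have h0 : ∀ w, VV 0 w = 0 := fun w => intervalIntegral.integral_same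
  simp only [h0, zero_re, zero_im, mul_zero, sub_zero, add_zero] at h1
  have h2 := congrArg re (k3_KK hΛ K z)
  rw [re_ofReal_mul, sub_re, re_ofReal_mul] at h2
  have h3 : Real.exp (-(2 * Λ * K)) * Real.exp (2 * Λ * K) = 1 := by
    rw [← Real.exp_add, neg_add_cancel, Real.exp_zero]
  have h4 := mul_le_mul_of_nonneg_left h1 (Real.exp_pos (-(2 * Λ * K))).le
  rw [Complex.sq_norm, normSq_apply]
  refine le_of_mul_le_mul_left ?_ (show 0 < 2 * Λ by linarith)
  have h5 : Real.exp (-(2 * Λ * K)) * (2 * (Real.exp (2 * Λ * K) * (VV K z).re -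
      (VV K (z + (2 * Λ : ℝ))).re) - 2 * Λ * (Real.exp (2 * Λ * K) *
        ((VV K z).re * (VV K z).re + (VV K z).im * (VV K z).im))) =
      2 * ((VV K z).re - Real.exp (-(2 * Λ * K)) * (VV K (z + (2 * Λ : ℝ))).re) -
        2 * Λ * ((VV K z).re * (VV K z).re + (VV K z).im * (VV K z).im) := by
    linear_combination (2 * (VV K z).re -
      2 * Λ * ((VV K z).re * (VV K z).re + (VV K z).im * (VV K z).im)) * h3
  linarith

theorem k3_KK_re (Λ K : ℝ) (z : ℂ) : (KK Λ K z).re =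
    ∫ t in (0 : ℝ)..K, kap Λ K t * Real.exp (z.re * t) * Real.cos (z.im * t) := by
  have hc : Continuous fun t : ℝ => (kap Λ K t : ℂ) * exp (z * t) := by
    unfold kap
    fun_prop
  refine (reCLM.intervalIntegral_comp_comm (hc.intervalIntegrable 0 K)).symm.trans ?_
  refine intervalIntegral.integral_congr fun t _ => ?_
  change ((kap Λ K t : ℂ) * exp (z * t)).re = _
  rw [re_ofReal_mul, exp_re, re_mul_ofReal, im_mul_ofReal, mul_assoc]

theorem KK_real_nonneg {Λ K : ℝ} (hΛ : 0 < Λ) (hK : 0 ≤ K) (x : ℝ) :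
    0 ≤ (KK Λ K (x : ℂ)).re := by
  rw [k3_KK_re]
  refine intervalIntegral.integral_nonneg hK fun t ht => ?_
  rw [ofReal_im, zero_mul, Real.cos_zero, mul_one]
  exact mul_nonneg (kap_nonneg hΛ ht.2) (Real.exp_pos _).le

theorem k3_low {Λ K : ℝ} (hΛ : 0 < Λ) (hK : 0 ≤ K) {z : ℂ} (hz : z.re ≤ 0) (v : ℝ → ℝ)
    (hv : ∀ t, HasDerivAt v (Real.cos (z.im * t)) t) (h0 : ∀ t, 0 ≤ t → t ≤ K → 0 ≤ v t) :
    -(kap Λ K 0 * v 0) ≤ (KK Λ K z).re := by
  have hk : ∀ t, HasDerivAt (kap Λ K) (-Real.exp (-(2 * Λ * (K - t)))) t := by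
    intro t
    have h1 := (((((hasDerivAt_id t).const_sub K).const_mul (2 * Λ)).neg.exp).const_sub 1).div_const
      (2 * Λ)
    refine h1.congr_deriv ?_
    simp only [Pi.neg_apply, id]
    field_simp
  have hu : ∀ t, HasDerivAt (fun t => kap Λ K t * Real.exp (z.re * t))
      (-Real.exp (-(2 * Λ * (K - t))) * Real.exp (z.re * t) +
        kap Λ K t * (Real.exp (z.re * t) * (z.re * 1))) t := fun t =>
    (hk t).mul ((hasDerivAt_id t).const_mul z.re).exp
  rw [k3_KK_re, intervalIntegral.integral_mul_deriv_eq_deriv_mul (fun t _ => hu t) (fun t _ => hv t)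
    (Continuous.intervalIntegrable (by unfold kap; fun_prop) _ _)
    (Continuous.intervalIntegrable (by fun_prop) _ _)]
  have h1 : kap Λ K K = 0 := by simp [kap]
  have h2 := intervalIntegral.integral_nonneg (μ := MeasureTheory.volume)
    (f := fun t => -((-Real.exp (-(2 * Λ * (K - t))) * Real.exp (z.re * t) +
      kap Λ K t * (Real.exp (z.re * t) * (z.re * 1))) * v t)) hK fun t ht => by
      refine neg_nonneg.2 (mul_nonpos_of_nonpos_of_nonneg ?_ (h0 t ht.1 ht.2))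
      have e1 := mul_pos (Real.exp_pos (-(2 * Λ * (K - t)))) (Real.exp_pos (z.re * t))
      have e2 := mul_nonneg (kap_nonneg hΛ ht.2)
        (mul_nonneg (Real.exp_pos (z.re * t)).le (neg_nonneg.2 hz))
      linarith
  rw [intervalIntegral.integral_neg] at h2
  rw [h1, mul_zero, Real.exp_zero]
  linarith

theorem k3_sin {y : ℝ} (hy : y ≠ 0) (m t : ℝ) :
    HasDerivAt (fun t => Real.sin (|y| * t) / |y| + m) (Real.cos (y * t)) t := by
  have h0 : |y| ≠ 0 := abs_ne_zero.2 hy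
  refine ((((hasDerivAt_id t).const_mul |y|).sin.div_const |y|).add_const m).congr_deriv ?_
  have h1 : Real.cos (|y| * t) = Real.cos (y * t) := by
    rcases abs_choice y with h | h <;> rw [h]
    rw [neg_mul, Real.cos_neg]
  simp only [id, h1]
  field_simp

theorem k3_VV {K l1 : ℝ} (hK : 0 ≤ K) (hl1 : 0 ≤ l1) {z : ℂ} (hz : z.re ≤ -l1) :
    ‖VV K z‖ ≤ K * (1 - K * l1 / 2 + (K * l1) ^ 2 / 6) := by
  refine (intervalIntegral.norm_integral_le_of_norm_le (g := fun t => 1 - l1 * t + l1 ^ 2 / 2 * t ^ 2)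
    hK (Filter.Eventually.of_forall fun t ht => ?_)
    (Continuous.intervalIntegrable (by fun_prop) _ _)).trans (le_of_eq ?_)
  · rw [norm_exp, re_mul_ofReal]
    have h1 : 0 ≤ l1 * t := mul_nonneg hl1 ht.1.le
    have h2 : Real.exp (z.re * t) ≤ Real.exp (-(l1 * t)) :=
      Real.exp_le_exp.2 (by nlinarith [ht.1])
    refine h2.trans ?_
    have h3 := Real.quadratic_le_exp_of_nonneg h1
    rw [Real.exp_neg, inv_le_iff_one_le_mul₀ (Real.exp_pos _)]
    have h4 : 0 ≤ 1 - l1 * t + l1 ^ 2 / 2 * t ^ 2 := by nlinarith [sq_nonneg (l1 * t - 1)]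
    refine le_trans ?_ (mul_le_mul_of_nonneg_left h3 h4)
    nlinarith [sq_nonneg ((l1 * t) ^ 2)]
  · rw [intervalIntegral.integral_add (Continuous.intervalIntegrable (by fun_prop) _ _)
      (Continuous.intervalIntegrable (by fun_prop) _ _),
      intervalIntegral.integral_sub (Continuous.intervalIntegrable (by fun_prop) _ _)
      (Continuous.intervalIntegrable (by fun_prop) _ _), intervalIntegral.integral_const_mul,
      intervalIntegral.integral_const_mul, integral_id, integral_pow]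
    simp
    ring

theorem prim_bound {Λ K l1 x x' wb : ℝ} (hΛ : 0 < Λ) (hK : 0 < K) (hK2 : K ≤ 2) (hl1 : 0 ≤ l1)
    (hx' : 0 ≤ x') (hx : x' ≤ x) {z : ℂ} (hz : z.re ≤ -l1)
    (h1 : (1 - K * l1 / 2 + (K * l1) ^ 2 / 6) ^ 2 * Real.exp (-((AA - 2 * K) * l1)) ≤ wb)
    (h2 : 41 / 100 * Real.exp (-((AA - 2 * K) * l1)) + 64 / 100 * x * kap Λ K 0 / K ≤ wb) :
    ‖WW K z‖ - 2 * x' * (KK Λ K z).re ≤ wb * K ^ 2 := by
  have hz0 : z.re ≤ 0 := by linarith
  have hk := kap_nonneg (K := K) (t := 0) hΛ hK.le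
  have hE : Real.exp ((AA - 2 * K) * z.re) ≤ Real.exp (-((AA - 2 * K) * l1)) := by
    have : 0 ≤ AA - 2 * K := by
      unfold AA
      linarith
    exact Real.exp_le_exp.2 (by nlinarith)
  have hE0 := Real.exp_pos (-((AA - 2 * K) * l1))
  have hW : ‖WW K z‖ ≤ Real.exp (-((AA - 2 * K) * l1)) * ‖VV K z‖ ^ 2 := by
    rw [norm_WW]
    exact mul_le_mul_of_nonneg_right hE (sq_nonneg _)
  generalize Real.exp (-((AA - 2 * K) * l1)) = E at *
  by_cases hy : |z.im| * K ≤ Real.pi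
  · have e1 : 0 ≤ (KK Λ K z).re := by
      by_cases h0 : z.im = 0
      · simpa using k3_low hΛ hK.le hz0 id (fun t => by simpa [h0] using hasDerivAt_id t)
          fun t ht _ => ht
      · simpa using k3_low hΛ hK.le hz0 _ (k3_sin h0 0) fun t ht ht' => by
          rw [add_zero]
          exact div_nonneg (Real.sin_nonneg_of_nonneg_of_le_pi (mul_nonneg (abs_nonneg _) ht)
            ((mul_le_mul_of_nonneg_left ht' (abs_nonneg _)).trans hy)) (abs_nonneg _)
    have e2 := mul_le_mul_of_nonneg_left (pow_le_pow_left₀ (norm_nonneg _)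
      (k3_VV hK.le hl1 hz) 2) hE0.le
    have e3 := mul_le_mul_of_nonneg_right h1 (sq_nonneg K)
    have e4 := mul_nonneg hx' e1
    rw [mul_pow] at e2
    linarith
  · have hp := Real.pi_gt_d2
    have hy' : 3.14 < |z.im| * K := hp.trans (not_le.1 hy)
    have h0 : 0 < |z.im| := by
      refine (abs_nonneg _).lt_of_ne fun h => ?_
      rw [← h, zero_mul] at hy'
      norm_num at hy'
    have hi : z.im ≠ 0 := abs_pos.1 h0
    have hm : |z.im|⁻¹ ≤ 32 / 100 * K := by
      rw [inv_le_iff_one_le_mul₀ h0]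
      linarith
    have e1 := k3_low hΛ hK.le hz0 _ (k3_sin hi |z.im|⁻¹) fun t _ _ => by
      rw [← one_div, ← add_div]
      exact div_nonneg (by linarith [Real.neg_one_le_sin (|z.im| * t)]) h0.le
    simp only [mul_zero, Real.sin_zero, zero_div, zero_add] at e1
    have e2 : ‖VV K z‖ ≤ 64 / 100 * K := by
      have hz1 : z ≠ 0 := fun h => hi (by rw [h, zero_im])
      have f1 : ‖exp (z * K) - 1‖ ≤ 2 := by
        refine (norm_sub_le _ _).trans ?_
        rw [norm_exp, re_mul_ofReal, norm_one]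
        linarith [Real.exp_le_one_iff.2 (mul_nonpos_of_nonpos_of_nonneg hz0 hK.le)]
      rw [VV_closed K hz1, norm_div]
      refine (div_le_div₀ zero_le_two f1 h0 (abs_im_le_norm z)).trans ?_
      rw [div_eq_mul_inv]
      linarith
    have e3 := mul_le_mul_of_nonneg_left (pow_le_pow_left₀ (norm_nonneg _) e2 2) hE0.le
    have e4 := mul_le_mul_of_nonneg_right h2 (sq_nonneg K)
    have e5 : 64 / 100 * x * kap Λ K 0 / K * K ^ 2 = 64 / 100 * (x * (kap Λ K 0 * K)) := by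
      field_simp
    have e6 := mul_le_mul_of_nonneg_left hm hk
    have e7 := mul_le_mul_of_nonneg_left (show -(32 / 100 * (kap Λ K 0 * K)) ≤ (KK Λ K z).re by
      linarith) hx'
    have e8 := mul_le_mul_of_nonneg_right hx (mul_nonneg hk hK.le)
    have e9 := mul_nonneg hE0.le (sq_nonneg K)
    rw [add_mul, e5] at e4
    rw [mul_pow] at e3
    linarith

end Pool.Agent.Lib.MP_e97e2b_nt.Ln
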