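import Pool.Agent.Lib.MP_e97e2b_nt.Ln.K2
import Pool.Agent.Lib.MP_e97e2b_nt.Ln.K3
import Pool.Agent.Lib.MP_e97e2b_nt.Ln.C1
import Pool.Agent.Lib.MP_e97e2b_nt.Ln.C2

/- The clean inequalities.
`ci`: by raw_one, -re p1 ≥ ∑ over all zeros of re Lap - g 0 re h - 9 B ε.  Split Z = P + (Z - P).  A zero of
Z - P of height ≤ 4 Y has re ≤ -s, so its term is ≥ 0 by hpos; a zero of height > 4 Y has
|im (z - y I)| > Y ≥ Y0, so its term is ≥ -18 B / Y0^2 (Lap_far), and there are ≤ ε Y0^2 zeros.  Finally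
g 0 re h ≤ g 0 / 2 + 40 B ε.
`clean_of_raw`: choose δ ≤ 1/1000 small, K0 from pigeon, ε small.
 c1: apply ci to g t = (T - t) exp ((s - δ) t) with level s - δ (Lap g T z = II T (s - δ + z); positivity by
   II_re_nonneg; inner zeros outside P are outside P', outer zeros by pigeon).  Then compare: cut g T = tl T (s - δ)
   on t ≥ 0; ‖p1 (tl T s) - p1 (tl T (s - δ))‖ ≤ ∑ μ tl T s (1 - exp (-δ t)) ≤ 8 δ re p0 (tl T s) 0 1, which is
   bounded by raw_zero; and ‖II T (w) - II T (w - δ)‖ ≤ 8 δ JJ T (re w) ≤ 8 δ JJ 8 Λm for the ≤ 3 listed zeros.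
   Tst bound: for |s| ≤ 2 Λm + 1 =: S, B = (1 + 2 S + 8 S^2) exp (8 S) works.
 c0: raw_zero.   k1: ci with g = kap Λ K, P = zin, level Λ, positivity by ou; Tst bound B = 1 + 2 Λm
   (kap' K = -1, kap'' t = -2 Λ exp (-2 Λ (K - t))).   k0: raw_zero and KK_zero.
 w1, w0: ww is a combination of three triangles, the h terms cancel, WW_eq, WW_zero; zeros of height > Y are
   bounded by norm_WW_far (≤ 4 / Y0^2 each). -/

namespace Pool.Agent.Lib.MP_e97e2b_nt.Ln

open Complex Finset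

variable {Γ Ω : Type} [CommGroup Γ] [Fintype Ω]

theorem c3_sum_le (m : Multiset ℂ) (f : ℂ → ℝ) (c : ℝ) (h : ∀ z ∈ m, f z ≤ c) :
    (m.map f).sum ≤ m.card * c := by
  induction m using Multiset.induction_on with
  | empty => simp
  | cons a m ih =>
    have h1 := h a (Multiset.mem_cons_self a m)
    have h2 := ih fun z hz => h z (Multiset.mem_cons_of_mem hz)
    simp only [Multiset.map_cons, Multiset.sum_cons, Multiset.card_cons]
    push_cast
    linarith

theorem c3_norm_sum_le (m : Multiset ℂ) (f : ℂ → ℂ) (c : ℝ) (h : ∀ z ∈ m, ‖f z‖ ≤ c) :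
    ‖(m.map f).sum‖ ≤ m.card * c := by
  induction m using Multiset.induction_on with
  | empty => simp
  | cons a m ih =>
    have h1 := h a (Multiset.mem_cons_self a m)
    have h2 := ih fun z hz => h z (Multiset.mem_cons_of_mem hz)
    simp only [Multiset.map_cons, Multiset.sum_cons, Multiset.card_cons]
    push_cast
    have h3 := norm_add_le (f a) (m.map f).sum
    linarith

theorem c3_re_sum (m : Multiset ℂ) (f : ℂ → ℂ) :
    ((m.map f).sum).re = (m.map fun z => (f z).re).sum := by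
  induction m using Multiset.induction_on with
  | empty => simp
  | cons a m ih => simp only [Multiset.map_cons, Multiset.sum_cons, add_re, ih]

theorem c3_far {Y0 c : ℝ} (hY0 : 1 ≤ Y0) (hc : 0 ≤ c) {z : ℂ} (hz : Y0 ≤ |z.im|) :
    z ≠ 0 ∧ c / ‖z‖ ^ 2 ≤ c / Y0 ^ 2 := by
  have h1 : Y0 ≤ ‖z‖ := hz.trans (abs_im_le_norm z)
  refine ⟨fun h => ?_, ?_⟩
  · rw [h, norm_zero] at h1
    linarith
  · exact div_le_div_of_nonneg_left hc (by positivity) (pow_le_pow_left₀ (by linarith) h1 2)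

theorem c3_card {Z : Multiset ℂ} {ε Y0 c : ℝ} (hY0 : 1 ≤ Y0) (hc : 0 ≤ c)
    (hZ : (Z.card : ℝ) ≤ ε * Y0 ^ 2) {m : Multiset ℂ} (hm : m ≤ Z) :
    m.card * (c / Y0 ^ 2) ≤ c * ε := by
  have h1 : (m.card : ℝ) ≤ Z.card := by exact_mod_cast Multiset.card_le_card hm
  have h2 : (0 : ℝ) < Y0 ^ 2 := by positivity
  calc m.card * (c / Y0 ^ 2) ≤ (ε * Y0 ^ 2) * (c / Y0 ^ 2) :=
        mul_le_mul_of_nonneg_right (h1.trans hZ) (by positivity)
    _ = c * ε := by field_simp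

theorem ci {D : Dat Γ Ω} {ε Y0 Ym Y T B s y : ℝ} {g : ℝ → ℝ} (hR : Raw D ε Y0 Ym) (hε : 0 ≤ ε)
    (h : Tst T B g) (hT : 0 ≤ T) (hT8 : T ≤ 8) (h0 : 0 ≤ g 0) (hY : Y0 ≤ Y) (hy : |y| ≤ 3 * Y)
    (hYm : 3 * Y ≤ Ym) (hpos : ∀ z : ℂ, z.re ≤ -s → 0 ≤ (Lap g T z).re) (ψ : Γ) (P : Multiset ℂ)
    (hP : P ≤ D.Z ψ) (hrest : ∀ z ∈ D.Z ψ - P, |z.im| ≤ 4 * Y → z.re ≤ -s) :
    (P.map fun z => (Lap g T (z - y * I)).re).sum - g 0 / 2 - 67 * B * ε ≤
      -(D.p1 (cut g T) y ψ).re := by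
  classical
  have hB : 0 ≤ B := by
    obtain ⟨g1, g2, -, -, -, -, h5, -⟩ := h
    exact (abs_nonneg _).trans h5
  have hY0 := hR.one_le
  have h1 := (re_le_norm _).trans (raw_one hR h hT hT8 (hy.trans hYm) ψ)
  have hZ : D.Z ψ = P + (D.Z ψ - P) := (add_tsub_cancel_of_le hP).symm
  have h2 : ((D.Z ψ).map fun z => Lap g T (z - y * I)).sum =
      (P.map fun z => Lap g T (z - y * I)).sum +
        ((D.Z ψ - P).map fun z => Lap g T (z - y * I)).sum := by
    conv_lhs => rw [hZ]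
    rw [Multiset.map_add, Multiset.sum_add]
  rw [h2] at h1
  simp only [sub_re, add_re, c3_re_sum, re_ofReal_mul] at h1
  have h3 := c3_sum_le (D.Z ψ - P) (fun z => -(Lap g T (z - y * I)).re) (18 * B / Y0 ^ 2)
    fun z hz => by
      have hre : (z - y * I).re = z.re := by simp
      have him : (z - y * I).im = z.im - y := by simp
      by_cases hc : |z.im| ≤ 4 * Y
      · have a1 := hpos (z - y * I) (by rw [hre]; exact hrest z hz hc)
        have a2 : 0 ≤ 18 * B / Y0 ^ 2 := by positivity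
        linarith
      · have a1 : Y0 ≤ |(z - y * I).im| := by
          rw [him]
          have := abs_sub_abs_le_abs_sub z.im y
          linarith [not_le.1 hc]
        obtain ⟨a2, a3⟩ := c3_far hY0 (show 0 ≤ 18 * B by positivity) a1
        have a4 := Lap_far h hT hT8 h0 (z := z - y * I)
          (by rw [hre]; exact D.Z_re ψ z (Multiset.mem_of_le tsub_le_self hz)) a2
        linarith
  rw [Multiset.sum_map_neg] at h3
  have h4 := c3_card hY0 (show 0 ≤ 18 * B by positivity) (hR.card ψ)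
    (tsub_le_self : D.Z ψ - P ≤ D.Z ψ)
  have h5 := mul_le_mul_of_nonneg_left (hR.hre ψ) h0
  have h6 := mul_le_mul_of_nonneg_right ((le_abs_self _).trans (tst_zero h hT hT8)) hε
  linarith

/-- The bound for the test functions. -/
noncomputable def c3B (S : ℝ) : ℝ := (1 + 2 * S + 8 * S ^ 2) * Real.exp (8 * S)

theorem c3_exp_le {S : ℝ} (hS : 0 ≤ S) : Real.exp (8 * S) ≤ c3B S :=
  le_mul_of_one_le_left (Real.exp_pos _).le (by nlinarith [sq_nonneg S])

theorem c3_lin_le {S : ℝ} (hS : 0 ≤ S) : 1 + 2 * S ≤ c3B S := by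
  have h1 : 1 ≤ Real.exp (8 * S) := Real.one_le_exp (by linarith)
  have h2 : 0 ≤ 1 + 2 * S + 8 * S ^ 2 := by positivity
  have h3 := le_mul_of_one_le_right h2 h1
  unfold c3B
  nlinarith [sq_nonneg S]

theorem c3_exp_bd {S s t : ℝ} (hS : 0 ≤ S) (hs : s ≤ S) (ht : 0 ≤ t) (ht8 : t ≤ 8) :
    Real.exp (s * t) ≤ Real.exp (8 * S) :=
  Real.exp_le_exp.2 (by nlinarith)

theorem c3_tst {S s T : ℝ} (hs : |s| ≤ S) (hT : 0 ≤ T) (hT8 : T ≤ 8) :
    Tst T (c3B S) fun t => (T - t) * Real.exp (s * t) := by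
  have hS : 0 ≤ S := (abs_nonneg s).trans hs
  have hs' : s ≤ S := (le_abs_self s).trans hs
  have he : ∀ t, HasDerivAt (fun t => Real.exp (s * t)) (Real.exp (s * t) * s) t := fun t => by
    simpa using ((hasDerivAt_id t).const_mul s).exp
  have hl : ∀ t, HasDerivAt (fun t => T - t) (-1) t := fun t => by
    simpa using (hasDerivAt_id t).const_sub T
  refine ⟨fun t => (-1 + (T - t) * s) * Real.exp (s * t),
    fun t => (-2 * s + (T - t) * s ^ 2) * Real.exp (s * t), fun t => ?_, fun t => ?_, by fun_prop,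
    by simp, ?_, fun t ht htT => ?_⟩
  · exact ((hl t).mul (he t)).congr_deriv (by ring)
  · exact ((((hl t).mul_const s).const_add (-1)).mul (he t)).congr_deriv (by ring)
  · simp only [sub_self, zero_mul, add_zero, neg_mul, one_mul, abs_neg, Real.abs_exp]
    exact (c3_exp_bd hS hs' hT hT8).trans (c3_exp_le hS)
  · rw [abs_mul, Real.abs_exp]
    refine mul_le_mul ?_ (c3_exp_bd hS hs' ht (htT.trans hT8)) (Real.exp_pos _).le (by positivity)
    have h1 : s ^ 2 ≤ S ^ 2 := by rw [← sq_abs s]; exact pow_le_pow_left₀ (abs_nonneg s) hs 2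
    have h2 := abs_le.1 hs
    have h3 : (T - t) * s ^ 2 ≤ 8 * S ^ 2 :=
      mul_le_mul (by linarith) h1 (sq_nonneg s) (by norm_num)
    have h4 : 0 ≤ (T - t) * s ^ 2 := mul_nonneg (by linarith) (sq_nonneg s)
    rw [abs_le]
    constructor <;> nlinarith [sq_nonneg S]

theorem c3_tst_kap {Λ K B : ℝ} (hΛ : 0 < Λ) (hB : 1 + 2 * Λ ≤ B) : Tst K B (kap Λ K) := by
  have he : ∀ t, HasDerivAt (fun t => Real.exp (-(2 * Λ * (K - t))))
      (Real.exp (-(2 * Λ * (K - t))) * (2 * Λ)) t := fun t => by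
    have h1 : HasDerivAt (fun t => -(2 * Λ * (K - t))) (2 * Λ) t :=
      ((((hasDerivAt_id t).const_sub K).const_mul (2 * Λ)).neg).congr_deriv (by ring)
    exact h1.exp
  refine ⟨fun t => -Real.exp (-(2 * Λ * (K - t))),
    fun t => -(Real.exp (-(2 * Λ * (K - t))) * (2 * Λ)), fun t => ?_, fun t => (he t).neg,
    by fun_prop, by simp [kap], ?_, fun t _ htK => ?_⟩
  · exact (((he t).const_sub 1).div_const (2 * Λ)).congr_deriv (by field_simp)
  · simp only [sub_self, mul_zero, neg_zero, Real.exp_zero, abs_neg, abs_one]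
    linarith
  · have h1 : Real.exp (-(2 * Λ * (K - t))) ≤ 1 :=
      Real.exp_le_one_iff.2 (by nlinarith)
    rw [abs_neg, abs_of_nonneg (by positivity)]
    nlinarith

theorem c3_cut (T s : ℝ) : cut (fun t => (T - t) * Real.exp (s * t)) T = tl T s := by
  funext t
  unfold cut tl tri
  split_ifs with h
  · rw [max_eq_left (by linarith)]
  · rw [max_eq_right (by linarith [not_le.1 h]), zero_mul]

theorem c3_lap (T s : ℝ) (z : ℂ) :
    Lap (fun t => (T - t) * Real.exp (s * t)) T z = II T (s + z) := by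
  unfold II Lap
  refine intervalIntegral.integral_congr fun t _ => ?_
  simp only [ofReal_mul, ofReal_exp, add_mul, exp_add, mul_assoc]

theorem c3_one_sub {δ t : ℝ} (hδ : 0 ≤ δ) (ht : 0 ≤ t) (ht8 : t ≤ 8) :
    0 ≤ 1 - Real.exp (-(δ * t)) ∧ 1 - Real.exp (-(δ * t)) ≤ 8 * δ := by
  have h1 : Real.exp (-(δ * t)) ≤ 1 := Real.exp_le_one_iff.2 (by nlinarith)
  have h2 := Real.add_one_le_exp (-(δ * t))
  constructor <;> nlinarith

theorem c3_II_bd {S T : ℝ} (hS : 0 ≤ S) (hT : 0 ≤ T) (hT8 : T ≤ 8) {w : ℂ} (hw : w.re ≤ S) :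
    ‖II T w‖ ≤ 64 * c3B S := by
  have hB := c3_exp_le hS
  have h1 := intervalIntegral.norm_integral_le_of_norm_le_const (a := 0) (b := T)
    (C := 8 * c3B S) (f := fun t : ℝ => ((T - t : ℝ) : ℂ) * exp (w * t)) fun t ht => by
      rw [Set.uIoc_of_le hT] at ht
      rw [norm_mul, norm_real, Real.norm_of_nonneg (by linarith [ht.2]), norm_exp, re_mul_ofReal]
      exact mul_le_mul (by linarith [ht.1]) ((c3_exp_bd hS hw ht.1.le (ht.2.trans hT8)).trans hB)
        (Real.exp_pos _).le (by norm_num)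
  rw [sub_zero, abs_of_nonneg hT] at h1
  have h2 : 0 ≤ c3B S := (Real.exp_pos _).le.trans hB
  refine h1.trans ?_
  nlinarith

theorem c3_II_diff {S T δ : ℝ} (hS : 0 ≤ S) (hT : 0 ≤ T) (hT8 : T ≤ 8) (hδ : 0 ≤ δ) {w : ℂ}
    (hw : w.re ≤ S) : ‖II T w - II T (w - δ)‖ ≤ 512 * δ * c3B S := by
  have hB := c3_exp_le hS
  have h2 : 0 ≤ c3B S := (Real.exp_pos _).le.trans hB
  have h0 : II T w - II T (w - δ) = ∫ t in (0 : ℝ)..T,
      ((T - t : ℝ) : ℂ) * exp (w * t) * ((1 - Real.exp (-(δ * t)) : ℝ) : ℂ) := by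
    unfold II Lap
    rw [← intervalIntegral.integral_sub (Continuous.intervalIntegrable (by fun_prop) _ _)
      (Continuous.intervalIntegrable (by fun_prop) _ _)]
    refine intervalIntegral.integral_congr fun t _ => ?_
    have h3 : (w - δ) * t = w * t + -(δ * t) := by ring
    simp only [h3, exp_add]
    push_cast
    ring
  have h1 := intervalIntegral.norm_integral_le_of_norm_le_const (a := 0) (b := T)
    (C := 8 * c3B S * (8 * δ))
    (f := fun t : ℝ => ((T - t : ℝ) : ℂ) * exp (w * t) * ((1 - Real.exp (-(δ * t)) : ℝ) : ℂ))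
    fun t ht => by
      rw [Set.uIoc_of_le hT] at ht
      obtain ⟨a1, a2⟩ := c3_one_sub hδ ht.1.le (ht.2.trans hT8)
      rw [norm_mul, norm_mul, norm_real, Real.norm_of_nonneg (by linarith [ht.2]), norm_exp,
        re_mul_ofReal, norm_real, Real.norm_of_nonneg a1]
      exact mul_le_mul (mul_le_mul (by linarith [ht.1])
        ((c3_exp_bd hS hw ht.1.le (ht.2.trans hT8)).trans hB) (Real.exp_pos _).le (by norm_num))
        a2 a1 (by positivity)
  rw [sub_zero, abs_of_nonneg hT] at h1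
  rw [h0]
  refine h1.trans ?_
  have h4 : 0 ≤ δ * c3B S := mul_nonneg hδ h2
  nlinarith

theorem c3_p1_diff (D : Dat Γ Ω) {T δ : ℝ} (hT8 : T ≤ 8) (hδ : 0 ≤ δ) (s y : ℝ) (ψ : Γ) :
    ‖D.p1 (tl T s) y ψ - D.p1 (tl T (s - δ)) y ψ‖ ≤ 8 * δ * (D.p0 (tl T s) 0 1).re := by
  have h1 : (D.p0 (tl T s) 0 1).re = ∑ ω, D.μ ω * tl T s (D.t ω) := by
    unfold Dat.p0
    rw [re_sum]
    refine sum_congr rfl fun ω _ => ?_
    rw [zero_mul, ofReal_zero, neg_zero, zero_mul, exp_zero, map_one, mul_one, mul_one, ofReal_re]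
  rw [h1, mul_sum]
  unfold Dat.p1
  rw [← sum_sub_distrib]
  refine norm_sum_le_of_le _ fun ω _ => ?_
  have a1 : ‖exp (-((y * D.t ω : ℝ) : ℂ) * I) * (D.ev ω ψ * D.sg ω)‖ = 1 := by
    rw [norm_mul, norm_mul, D.norm_ev, ← ofReal_neg, norm_exp_ofReal_mul_I, norm_real]
    rcases D.sg_cases ω with h | h <;> simp [h]
  rw [← sub_mul, norm_mul, a1, mul_one, ← ofReal_sub, norm_real, ← mul_sub, Real.norm_eq_abs,
    abs_mul, abs_of_nonneg (D.μ_nonneg ω), mul_left_comm]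
  refine mul_le_mul_of_nonneg_left ?_ (D.μ_nonneg ω)
  have ht := D.t_nonneg ω
  generalize D.t ω = t at ht
  unfold tl tri
  rcases le_total t T with h | h
  · obtain ⟨b1, b2⟩ := c3_one_sub hδ ht (h.trans hT8)
    have b3 : Real.exp ((s - δ) * t) = Real.exp (s * t) * Real.exp (-(δ * t)) := by
      rw [← Real.exp_add]
      congr 1
      ring
    have b4 : 0 ≤ max (T - t) 0 * Real.exp (s * t) := by positivity
    have b5 : max (T - t) 0 * Real.exp (s * t) - max (T - t) 0 * Real.exp ((s - δ) * t) =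
        max (T - t) 0 * Real.exp (s * t) * (1 - Real.exp (-(δ * t))) := by
      rw [b3]
      ring
    rw [b5, abs_of_nonneg (mul_nonneg b4 b1), mul_comm]
    exact mul_le_mul_of_nonneg_right b2 b4
  · rw [max_eq_right (by linarith)]
    simp

theorem c3_p1_ww (D : Dat Γ Ω) (K y : ℝ) (ψ : Γ) :
    D.p1 (ww K) y ψ =
      D.p1 (tri AA) y ψ - 2 * D.p1 (tri (AA - K)) y ψ + D.p1 (tri (AA - 2 * K)) y ψ := by
  unfold Dat.p1 ww
  rw [mul_sum, ← sum_sub_distrib, ← sum_add_distrib]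
  refine sum_congr rfl fun ω _ => ?_
  push_cast
  ring

theorem c3_p0_ww (D : Dat Γ Ω) (K y : ℝ) (ψ : Γ) :
    D.p0 (ww K) y ψ =
      D.p0 (tri AA) y ψ - 2 * D.p0 (tri (AA - K)) y ψ + D.p0 (tri (AA - 2 * K)) y ψ := by
  unfold Dat.p0 ww
  rw [mul_sum, ← sum_sub_distrib, ← sum_add_distrib]
  refine sum_congr rfl fun ω _ => ?_
  push_cast
  ring

theorem c3_three {a b c : ℂ} {ε : ℝ} (ha : ‖a‖ ≤ ε) (hb : ‖b‖ ≤ ε) (hc : ‖c‖ ≤ ε) :
    ‖a - 2 * b + c‖ ≤ 4 * ε := by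
  have h1 := norm_add_le (a - 2 * b) c
  have h2 := norm_sub_le a (2 * b)
  rw [norm_mul, Complex.norm_two] at h2
  linarith

theorem c3_inner {Z P P' : Multiset ℂ} {Y : ℝ} (hP : P' ≤ P) {z : ℂ} (hz : z ∈ Z - P)
    (hY : |z.im| ≤ Y) : z ∈ zin Z Y - P' := by
  classical
  rw [Multiset.mem_sub] at hz ⊢
  unfold zin
  rw [Multiset.count_filter_of_pos (p := fun z : ℂ => |z.im| ≤ Y) hY]
  exact (Multiset.count_le_of_le z hP).trans_lt hz

theorem c3_zin_le (Z : Multiset ℂ) (Y : ℝ) : zin Z Y ≤ Z := Multiset.filter_le _ _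

theorem c3_outer {Z : Multiset ℂ} {Y : ℝ} {z : ℂ} (hz : z ∈ Z - zin Z Y) : Y < |z.im| := by
  classical
  by_contra h
  have h1 := c3_inner (le_refl (zin Z Y)) hz (not_lt.1 h)
  simp at h1

theorem clean_of_raw (Γ : Type) [CommGroup Γ] [Fintype Γ] (Λm ε1 : ℝ) (hΛ : 1 ≤ Λm)
    (hε1 : 0 < ε1) : ∃ ε K0 : ℝ, 0 < ε ∧ 1 ≤ K0 ∧ ∀ (Ω : Type) [Fintype Ω] (D : Dat Γ Ω) (Y0 : ℝ),
      Raw D ε Y0 (K0 * Y0) → ∃ Y : ℝ, Clean D Λm ε1 Y := by
  classical
  have hS : 0 ≤ 2 * Λm + 1 := by linarith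
  have hB1 := c3_lin_le hS
  obtain ⟨B, hB⟩ : ∃ B, B = c3B (2 * Λm + 1) := ⟨_, rfl⟩
  rw [← hB] at hB1
  have hB0 : 0 < B := by linarith
  obtain ⟨δ, hδ, hδ1, hδ2⟩ : ∃ δ : ℝ, 0 < δ ∧ δ ≤ 1 / 1000 ∧ δ * B ≤ ε1 / 5000 := by
    refine ⟨min (1 / 1000) (ε1 / 5000 / B), by positivity, min_le_left _ _, ?_⟩
    rw [← le_div_iff₀ hB0]
    exact min_le_right _ _
  obtain ⟨ε, hε, hε2, hε3⟩ : ∃ ε : ℝ, 0 < ε ∧ ε ≤ 1 ∧ B * ε ≤ ε1 / 200 := by
    refine ⟨min 1 (ε1 / 200 / B), by positivity, min_le_left _ _, ?_⟩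
    rw [mul_comm, ← le_div_iff₀ hB0]
    exact min_le_right _ _
  have hε4 : ε ≤ ε1 / 200 := (le_mul_of_one_le_left hε.le (by linarith)).trans hε3
  obtain ⟨K0, hK0, hpig⟩ := pigeon Γ Λm δ hδ
  refine ⟨ε, K0, hε, by linarith, fun Ω _ D Y0 hR => ?_⟩
  have hY0 := hR.one_le
  obtain ⟨Y, hY, hYm, hp⟩ := hpig D.Z Y0 (by linarith) D.Z_re
  have hYm3 : 3 * Y ≤ K0 * Y0 := by linarith
  have hy0 : |(0 : ℝ)| ≤ 3 * Y := by rw [abs_zero]; linarith
  have hc0 : ∀ (ψ : Γ) (T s y : ℝ), 0 ≤ T → T ≤ 8 → 0 ≤ s → s ≤ 2 * Λm → |y| ≤ 3 * Y →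
      ‖D.p0 (tl T s) y ψ - (if ψ = 1 then II T (s - y * I) else 0)‖ ≤ 9 * B * ε := by
    intro ψ T s y hT hT8 hs hs1 hy
    have h1 := raw_zero hR (c3_tst (S := 2 * Λm + 1) (s := s)
      (by rw [abs_of_nonneg hs]; linarith) hT hT8) hT hT8 (hy.trans hYm3) ψ
    rw [c3_cut, c3_lap, ← hB, ← sub_eq_add_neg] at h1
    exact h1
  have hAA : AA = 159 / 20 := rfl
  refine ⟨Y, by linarith, hε1.le, ?_, ?_, ?_, ?_, ?_, ?_⟩
  · intro ψ T s y P P' hT hT8 hs hs1 hy hP' hP hc' hc hin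
    have h1 := ci (s := s - δ) hR hε.le (c3_tst (S := 2 * Λm + 1) (s := s - δ)
      (by rw [abs_le]; constructor <;> linarith) hT hT8) hT hT8 (by simpa using hT) hY hy hYm3
      (fun z hz => by
        rw [c3_lap]
        refine II_re_nonneg hT ?_
        rw [add_re, ofReal_re]
        linarith) ψ P (hP.trans (c3_zin_le _ _)) fun z hz h4 => by
        by_cases hc : |z.im| ≤ Y
        · linarith [hin z (c3_inner hP' hz hc)]
        · linarith [hp ψ P' s hc' hs1 hin z (Multiset.mem_of_le tsub_le_self hz) (not_le.1 hc) h4]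
    simp only [c3_cut, c3_lap, ← hB, sub_zero, mul_zero, Real.exp_zero, mul_one] at h1
    have h2 := (re_le_norm _).trans (c3_p1_diff D hT8 hδ.le s y ψ)
    rw [sub_re] at h2
    have h3 := (re_le_norm _).trans (hc0 1 T s 0 hT hT8 hs (by linarith) hy0)
    rw [if_pos rfl, sub_re] at h3
    have h4 := (re_le_norm _).trans (c3_II_bd hS hT hT8 (w := s - (0 : ℝ) * I)
      (by simp; linarith))
    rw [← hB] at h4
    have h5 := c3_sum_le P (fun z => (II T (s + z - y * I)).re -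
      (II T (((s - δ : ℝ) : ℂ) + (z - y * I))).re) (512 * δ * B) fun z hz => by
        have a1 := (re_le_norm _).trans (c3_II_diff hS hT hT8 hδ.le (w := s + z - y * I) (by
          have := D.Z_re ψ z (Multiset.mem_of_le (hP.trans (c3_zin_le _ _)) hz)
          simp
          linarith))
        have a2 : s + z - y * I - δ = ((s - δ : ℝ) : ℂ) + (z - y * I) := by
          push_cast
          ring
        rw [a2, sub_re, ← hB] at a1
        exact a1
    rw [Multiset.sum_map_sub] at h5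
    have h6 : (P.card : ℝ) ≤ 3 := by exact_mod_cast hc
    have h7 := mul_le_mul_of_nonneg_right h6 (show 0 ≤ 512 * δ * B by positivity)
    have h8 : (D.p0 (tl T s) 0 1).re ≤ 73 * B := by nlinarith
    have h9 := mul_le_mul_of_nonneg_left h8 (show 0 ≤ 8 * δ by positivity)
    linarith
  · intro ψ T s y hT hT8 hs hs1 hy
    exact (hc0 ψ T s y hT hT8 hs hs1 hy).trans (by linarith)
  · intro ψ Λ K P' hΛ0 hΛ1 hK hK2 hc' hin
    have h1 := ci (s := Λ) hR hε.le (c3_tst_kap (K := K) (B := B) hΛ0 (by linarith)) hK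
      (by linarith) (kap_nonneg hΛ0 hK) hY hy0 hYm3
      (fun z hz => by
        have a1 := (sq_nonneg _).trans (ou hΛ0 hK hz)
        unfold KK at a1
        linarith) ψ _ (c3_zin_le (D.Z ψ) Y) fun z hz h4 => by
        linarith [hp ψ P' _ hc' hΛ1 hin z (Multiset.mem_of_le tsub_le_self hz) (c3_outer hz) h4]
    simp only [ofReal_zero, zero_mul, sub_zero] at h1
    unfold KK
    linarith
  · intro ψ Λ K hΛ0 hΛ1 hK hK2
    have h1 := raw_zero hR (c3_tst_kap (K := K) (B := B) hΛ0 (by linarith)) hK (by linarith)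
      (hy0.trans hYm3) ψ
    have h2 := KK_zero hΛ0 K
    unfold KK at h2
    rw [ofReal_zero, zero_mul, neg_zero, h2] at h1
    exact h1.trans (by linarith)
  · intro ψ K hK hK2
    have h1 := c3_three (hR.e1 ψ AA 0 (by linarith) (by linarith) (hy0.trans hYm3))
      (hR.e1 ψ (AA - K) 0 (by linarith) (by linarith) (hy0.trans hYm3))
      (hR.e1 ψ (AA - 2 * K) 0 (by linarith) (by linarith) (hy0.trans hYm3))
    simp only [ofReal_zero, zero_mul, sub_zero] at h1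
    have h2 : ((D.Z ψ).map fun z => WW K z).sum = ((D.Z ψ).map fun z => II AA z).sum -
        2 * ((D.Z ψ).map fun z => II (AA - K) z).sum +
        ((D.Z ψ).map fun z => II (AA - 2 * K) z).sum := by
      rw [← Multiset.sum_map_mul_left, ← Multiset.sum_map_sub, ← Multiset.sum_map_add]
      simp only [WW_eq]
    have hZ : D.Z ψ = zin (D.Z ψ) Y + (D.Z ψ - zin (D.Z ψ) Y) :=
      (add_tsub_cancel_of_le (c3_zin_le _ _)).symm
    have h3 : ((D.Z ψ).map fun z => WW K z).sum = ((zin (D.Z ψ) Y).map fun z => WW K z).sum +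
        ((D.Z ψ - zin (D.Z ψ) Y).map fun z => WW K z).sum := by
      conv_lhs => rw [hZ]
      rw [Multiset.map_add, Multiset.sum_add]
    have h4 := c3_norm_sum_le (D.Z ψ - zin (D.Z ψ) Y) (fun z => WW K z) (4 / Y0 ^ 2)
      fun z hz => by
        obtain ⟨a2, a3⟩ := c3_far hY0 (show (0 : ℝ) ≤ 4 by norm_num) (hY.trans (c3_outer hz).le)
        exact (norm_WW_far hK hK2 (D.Z_re ψ z (Multiset.mem_of_le tsub_le_self hz)) a2).trans a3
    have h5 := c3_card hY0 (show (0 : ℝ) ≤ 4 by norm_num) (hR.card ψ)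
      (tsub_le_self : D.Z ψ - zin (D.Z ψ) Y ≤ D.Z ψ)
    have h6 : D.p1 (ww K) 0 ψ + ((zin (D.Z ψ) Y).map fun z => WW K z).sum =
        (D.p1 (tri AA) 0 ψ + ((D.Z ψ).map fun z => II AA z).sum - AA * D.h ψ -
          2 * (D.p1 (tri (AA - K)) 0 ψ + ((D.Z ψ).map fun z => II (AA - K) z).sum -
            ((AA - K : ℝ) : ℂ) * D.h ψ) +
          (D.p1 (tri (AA - 2 * K)) 0 ψ + ((D.Z ψ).map fun z => II (AA - 2 * K) z).sum -
            ((AA - 2 * K : ℝ) : ℂ) * D.h ψ)) -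
          ((D.Z ψ - zin (D.Z ψ) Y).map fun z => WW K z).sum := by
      rw [c3_p1_ww]
      push_cast
      linear_combination h2 - h3
    rw [h6]
    refine (norm_sub_le _ _).trans ?_
    linarith
  · intro ψ K hK hK2
    have h1 := c3_three (hR.e0 ψ AA 0 (by linarith) (by linarith) (hy0.trans hYm3))
      (hR.e0 ψ (AA - K) 0 (by linarith) (by linarith) (hy0.trans hYm3))
      (hR.e0 ψ (AA - 2 * K) 0 (by linarith) (by linarith) (hy0.trans hYm3))
    simp only [ofReal_zero, zero_mul, neg_zero] at h1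
    have h2 := WW_eq K 0
    rw [WW_zero] at h2
    refine le_trans (le_of_eq (congrArg norm ?_)) (h1.trans (by linarith))
    rw [c3_p0_ww]
    split_ifs
    · linear_combination h2
    · ring

end Pool.Agent.Lib.MP_e97e2b_nt.Ln
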