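import Mathlib

/- Fields in which all large primes of a residue class are norms of prime ideals. -/

namespace Pool.Agent.Lib.MP_e97e2b_nt.Ln

open NumberField IsDedekindDomain

/-- A ring homomorphism onto the prime field gives a prime ideal of prime norm. -/
theorem norm_of_hom (K : Type) [Field K] [NumberField K] {p : ℕ} (hp : p.Prime)
    (φ : 𝓞 K →+* ZMod p) : ∃ v : HeightOneSpectrum (𝓞 K), Ideal.absNorm v.asIdeal = p := by
  have : Fact p.Prime := ⟨hp⟩
  have hs : Function.Surjective φ := ZMod.ringHom_surjective φ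
  have hn : Ideal.absNorm (RingHom.ker φ) = p := by
    rw [Ideal.absNorm_apply, Submodule.cardQuot_apply,
      Nat.card_congr (RingHom.quotientKerEquivOfSurjective hs).toEquiv, Nat.card_zmod]
  refine ⟨⟨RingHom.ker φ, RingHom.ker_isPrime φ, ?_⟩, hn⟩
  intro h
  rw [h, Ideal.absNorm_bot] at hn
  exact hp.ne_zero hn.symm

theorem hom_of_norm (K : Type) [Field K] [NumberField K] {p : ℕ} (hp : p.Prime)
    (P : Ideal (𝓞 K)) (hP : Ideal.absNorm P = p) : Nonempty (𝓞 K →+* ZMod p) := by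
  have : Fact p.Prime := ⟨hp⟩
  have hc : Nat.card (𝓞 K ⧸ P) = p := by
    rw [← hP, Ideal.absNorm_apply, Submodule.cardQuot_apply]
  have : Finite (𝓞 K ⧸ P) := Nat.finite_of_card_ne_zero (by rw [hc]; exact hp.ne_zero)
  have : Fintype (𝓞 K ⧸ P) := Fintype.ofFinite _
  have hc' : Fintype.card (𝓞 K ⧸ P) = p := by rw [← Nat.card_eq_fintype_card, hc]
  exact ⟨(ZMod.ringEquivOfPrime (𝓞 K ⧸ P) hp hc').symm.toRingHom.comp (Ideal.Quotient.mk P)⟩

theorem cyc_norm (K : Type) [Field K] [NumberField K] (m : ℕ) (hm : 0 < m)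
    (ι : K →+* CyclotomicField m ℚ) (p : ℕ) (hp : p.Prime) (hmp : m < p) (h1 : p ≡ 1 [MOD m]) :
    ∃ v : HeightOneSpectrum (𝓞 K), Ideal.absNorm v.asIdeal = p := by
  have : Fact p.Prime := ⟨hp⟩
  have : NeZero m := ⟨hm.ne'⟩
  let F := CyclotomicField m ℚ
  have : IsCyclotomicExtension {m} ℚ F := CyclotomicField.isCyclotomicExtension m ℚ
  have : NumberField F := IsCyclotomicExtension.numberField {m} ℚ F
  obtain ⟨⟨P, hP1, hP2⟩⟩ := (Ideal.span {(p : ℤ)}).nonempty_primesOver (S := 𝓞 F)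
  have hd : ¬ p ∣ m := fun h => by have := Nat.le_of_dvd hm h; omega
  have hf := IsCyclotomicExtension.Rat.inertiaDeg_eq_of_not_dvd (m := m) p F P hd
  have e : ((p : ℕ) : ZMod m) = 1 := by
    simpa using (ZMod.natCast_eq_natCast_iff _ _ _).2 h1
  rw [e, orderOf_one] at hf
  have hn : Ideal.absNorm P = p := by
    rw [← Ideal.pow_inertiaDeg (p := p) (P := P), hf, pow_one]
  obtain ⟨φ⟩ := hom_of_norm F hp P hn
  exact norm_of_hom K hp (φ.comp (RingOfIntegers.mapRingHom ι))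

open Polynomial in
theorem exponent_ne_zero (K : Type) [Field K] [NumberField K] (θ : 𝓞 K)
    (h : IntermediateField.adjoin ℚ {(θ : K)} = ⊤) : RingOfIntegers.exponent θ ≠ 0 := by
  have hint : IsIntegral ℚ (θ : K) := Algebra.IsIntegral.isIntegral _
  have htop : Algebra.adjoin ℚ {(θ : K)} = ⊤ := by
    rw [← IntermediateField.adjoin_simple_toSubalgebra_of_isAlgebraic hint.isAlgebraic, h]
    rfl
  let B : PowerBasis ℚ K := PowerBasis.ofAdjoinEqTop hint htop
  have hB : B.gen = (θ : K) := PowerBasis.ofAdjoinEqTop_gen hint htop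
  have hBi : IsIntegral ℤ B.gen := by rw [hB]; exact θ.isIntegral_coe
  have hd : IsIntegral ℤ (Algebra.discr ℚ B.basis) :=
    Algebra.discr_isIntegral ℚ fun i => by rw [B.basis_eq_pow]; exact hBi.pow _
  obtain ⟨d, hd'⟩ := IsIntegrallyClosed.isIntegral_iff.1 hd
  have hd0 : d ≠ 0 := by
    rintro rfl
    exact Algebra.discr_not_zero_of_basis ℚ B.basis (by simpa using hd'.symm)
  have hmem : (d : 𝓞 K) ∈ conductor ℤ θ := by
    rw [mem_conductor_iff]
    intro x
    have h1 := Algebra.discr_mul_isIntegral_mem_adjoin ℚ (R := ℤ) hBi x.isIntegral_coe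
    rw [hB, ← hd', Algebra.adjoin_singleton_eq_range_aeval] at h1
    obtain ⟨Q, hQ⟩ := h1
    rw [Algebra.adjoin_singleton_eq_range_aeval]
    refine ⟨Q, RingOfIntegers.ext ?_⟩
    have h2 : ((aeval θ Q : 𝓞 K) : K) = aeval (θ : K) Q :=
      (Polynomial.aeval_algebraMap_apply K θ Q).symm
    have h3 : aeval (θ : K) Q = (algebraMap ℤ ℚ d) • (x : K) := hQ
    change ((aeval θ Q : 𝓞 K) : K) = _
    rw [h2, h3]
    simp [Algebra.smul_def]
  intro h0
  rw [RingOfIntegers.exponent, Ideal.absNorm_eq_zero_iff] at h0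
  have h4 : d ∈ Ideal.under ℤ (conductor ℤ θ) := by
    rw [Ideal.under_def, Ideal.mem_comap]
    simpa using hmem
  rw [h0] at h4
  exact hd0 (by simpa using h4)

open Polynomial in
theorem pure_norm (K : Type) [Field K] [NumberField K] (θ : K) (b : ℤ)
    (hθ : θ ^ Module.finrank ℚ K = b)
    (h : IntermediateField.adjoin ℚ {θ} = ⊤) : ∃ p0 : ℕ, ∀ p : ℕ, p.Prime → p0 < p →
    p ≡ 2 [MOD Module.finrank ℚ K] →
    ∃ v : HeightOneSpectrum (𝓞 K), Ideal.absNorm v.asIdeal = p := by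
  set n := Module.finrank ℚ K with hn
  have hn0 : 0 < n := Module.finrank_pos
  have hmon : (X ^ n - C b : ℤ[X]).Monic := monic_X_pow_sub_C b hn0.ne'
  have hroot : aeval θ (X ^ n - C b : ℤ[X]) = 0 := by simp [hθ]
  have hi : IsIntegral ℤ θ := ⟨_, hmon, hroot⟩
  let t : 𝓞 K := ⟨θ, hi⟩
  have hint : IsIntegral ℚ θ := Algebra.IsIntegral.isIntegral _
  have hdeg : (minpoly ℚ θ).natDegree = n := (Field.primitive_element_iff_minpoly_natDegree_eq ℚ θ).1 h
  have hmin : minpoly ℤ t = X ^ n - C b := by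
    have e1 : minpoly ℤ t = minpoly ℤ θ := (RingOfIntegers.minpoly_coe t).symm
    have e2 : minpoly ℚ θ = (minpoly ℤ θ).map (algebraMap ℤ ℚ) :=
      minpoly.isIntegrallyClosed_eq_field_fractions' ℚ hi
    have e3 : (minpoly ℤ θ).natDegree = n := by
      rw [← hdeg, e2, (minpoly.monic hi).natDegree_map]
    rw [e1]
    refine (eq_of_monic_of_dvd_of_natDegree_le (minpoly.monic hi) hmon
      (minpoly.isIntegrallyClosed_dvd hi hroot) ?_).symm
    rw [e3, natDegree_X_pow_sub_C]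
  refine ⟨RingOfIntegers.exponent t, fun p hp hp0 hpn => ?_⟩
  have : Fact p.Prime := ⟨hp⟩
  have hd : ¬ p ∣ RingOfIntegers.exponent t := fun hdv => by
    have := Nat.le_of_dvd (Nat.pos_of_ne_zero (exponent_ne_zero K t h)) hdv
    omega
  have hcop : (p - 1).Coprime n := by
    have h1 : p - 1 ≡ 1 [MOD n] := by
      have h2 : p - 1 + 1 ≡ 1 + 1 [MOD n] := by
        rw [Nat.sub_add_cancel hp.one_le]; exact hpn
      exact Nat.ModEq.add_right_cancel' 1 h2
    rw [Nat.Coprime, h1.gcd_eq]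
    simp
  obtain ⟨r, hr⟩ : ∃ r : ZMod p, r ^ n = b := by
    by_cases hb : (b : ZMod p) = 0
    · exact ⟨0, by rw [hb, zero_pow hn0.ne']⟩
    · have hc : (Nat.card (ZMod p)ˣ).Coprime n := by
        rw [Nat.card_eq_fintype_card, ZMod.card_units]; exact hcop
      obtain ⟨u, hu⟩ := (powCoprime hc).surjective (Units.mk0 _ hb)
      exact ⟨u, by simpa using congrArg Units.val hu⟩
  let ψ : ((ZMod p)[X] ⧸ Ideal.span {map (Int.castRingHom (ZMod p)) (minpoly ℤ t)}) →+* ZMod p :=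
    Ideal.Quotient.lift _ (evalRingHom r) (by
      intro a ha
      obtain ⟨c, rfl⟩ := Ideal.mem_span_singleton.1 ha
      simp [hmin, hr])
  exact norm_of_hom K hp ((ψ.comp
    (RingOfIntegers.ZModXQuotSpanEquivQuotSpan hd).symm.toRingHom).comp (Ideal.Quotient.mk _))

end Pool.Agent.Lib.MP_e97e2b_nt.Ln
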