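import Pool.Agent.Lib.MP_e97e2b_nt.Abel

/- Definitions for the Linnik type argument. -/

namespace Pool.Agent.Lib.MP_e97e2b_nt.Ln

open Complex Finset

/-! ### Test functions and their Laplace transforms -/

/-- The function `(a - t)_+`. -/
noncomputable def tri (a t : ℝ) : ℝ := max (a - t) 0

/-- Laplace transform over `[0, T]`. -/
noncomputable def Lap (g : ℝ → ℝ) (T : ℝ) (z : ℂ) : ℂ :=
  ∫ t in (0 : ℝ)..T, (g t : ℂ) * exp (z * t)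

/-- Laplace transform of the triangle. -/
noncomputable def II (T : ℝ) (z : ℂ) : ℂ := Lap (fun t => T - t) T z

/-- Real Laplace transform of the triangle. -/
noncomputable def JJ (T a : ℝ) : ℝ := ∫ t in (0 : ℝ)..T, (T - t) * Real.exp (a * t)

/-- Laplace transform of an indicator. -/
noncomputable def VV (K : ℝ) (z : ℂ) : ℂ := ∫ t in (0 : ℝ)..K, exp (z * t)

/-- The majorant function. -/
noncomputable def kap (Λ K t : ℝ) : ℝ := (1 - Real.exp (-(2 * Λ * (K - t)))) / (2 * Λ)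

/-- Laplace transform of the majorant. -/
noncomputable def KK (Λ K : ℝ) (z : ℂ) : ℂ := Lap (kap Λ K) K z

/-- Integral of the majorant. -/
noncomputable def kone (Λ K : ℝ) : ℝ :=
  (2 * Λ * K - 1 + Real.exp (-(2 * Λ * K))) / (4 * Λ ^ 2)

/-- Right end of the final weight. -/
noncomputable def AA : ℝ := 159 / 20

/-- The final weight, a triangle on `[AA - 2K, AA]`. -/
noncomputable def ww (K t : ℝ) : ℝ := tri AA t - 2 * tri (AA - K) t + tri (AA - 2 * K) t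

/-- Laplace transform of the final weight. -/
noncomputable def WW (K : ℝ) (z : ℂ) : ℂ := exp (((AA - 2 * K : ℝ) : ℂ) * z) * VV K z ^ 2

/-- Cut off at `T`. -/
noncomputable def cut (g : ℝ → ℝ) (T t : ℝ) : ℝ := if t ≤ T then g t else 0

/-- Tilted triangle. -/
noncomputable def tl (T s t : ℝ) : ℝ := tri T t * Real.exp (s * t)

/-- Twice differentiable test functions vanishing at `T`. -/
def Tst (T B : ℝ) (g : ℝ → ℝ) : Prop :=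
  ∃ g1 g2 : ℝ → ℝ, (∀ t, HasDerivAt g (g1 t) t) ∧ (∀ t, HasDerivAt g1 (g2 t) t) ∧
    Continuous g2 ∧ g T = 0 ∧ |g1 T| ≤ B ∧ ∀ t, 0 ≤ t → t ≤ T → |g2 t| ≤ B

/-! ### The abstract model -/

/-- Weighted points, characters, signs and zeros. -/
structure Dat (Γ Ω : Type) [CommGroup Γ] where
  μ : Ω → ℝ
  t : Ω → ℝ
  ev : Ω → Γ →* ℂ
  sg : Ω → ℝ
  Z : Γ → Multiset ℂ
  h : Γ → ℂ
  μ_nonneg : ∀ ω, 0 ≤ μ ω
  t_nonneg : ∀ ω, 0 ≤ t ω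
  norm_ev : ∀ ω ψ, ‖ev ω ψ‖ = 1
  sg_cases : ∀ ω, sg ω = 1 ∨ sg ω = -1
  Z_re : ∀ ψ, ∀ z ∈ Z ψ, z.re ≤ 0
  Z_conj : ∀ ψ, Z ψ⁻¹ = (Z ψ).map (starRingEnd ℂ)

variable {Γ Ω : Type} [CommGroup Γ] [Fintype Ω]

/-- Pairing with a character of the first kind. -/
noncomputable def Dat.p0 (D : Dat Γ Ω) (g : ℝ → ℝ) (y : ℝ) (ψ : Γ) : ℂ :=
  ∑ ω, ((D.μ ω * g (D.t ω) : ℝ) : ℂ) * (exp (-((y * D.t ω : ℝ) : ℂ) * I) * D.ev ω ψ)

/-- Pairing with a character of the second kind. -/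
noncomputable def Dat.p1 (D : Dat Γ Ω) (g : ℝ → ℝ) (y : ℝ) (ψ : Γ) : ℂ :=
  ∑ ω, ((D.μ ω * g (D.t ω) : ℝ) : ℂ) * (exp (-((y * D.t ω : ℝ) : ℂ) * I) * (D.ev ω ψ * D.sg ω))

open Classical in
/-- The explicit formulas for triangles. -/
structure Raw (D : Dat Γ Ω) (ε Y0 Ym : ℝ) : Prop where
  one_le : 1 ≤ Y0
  e1 : ∀ (ψ : Γ) (u y : ℝ), 0 ≤ u → u ≤ 8 → |y| ≤ Ym →
    ‖D.p1 (tri u) y ψ + ((D.Z ψ).map fun z => II u (z - y * I)).sum - u * D.h ψ‖ ≤ ε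
  e0 : ∀ (ψ : Γ) (u y : ℝ), 0 ≤ u → u ≤ 8 → |y| ≤ Ym →
    ‖D.p0 (tri u) y ψ - (if ψ = 1 then II u (-(y * I)) else 0)‖ ≤ ε
  hre : ∀ ψ, (D.h ψ).re ≤ 1 / 2 + ε
  card : ∀ ψ, ((D.Z ψ).card : ℝ) ≤ ε * Y0 ^ 2

open Classical in
/-- Zeros of height at most `Y`. -/
noncomputable def zin (Z : Multiset ℂ) (Y : ℝ) : Multiset ℂ := Z.filter fun z => |z.im| ≤ Y

open Classical in
/-- The inequalities used in the numerical part. -/
structure Clean (D : Dat Γ Ω) (Λm ε Y : ℝ) : Prop where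
  Y_nonneg : 0 ≤ Y
  ε_nonneg : 0 ≤ ε
  c1 : ∀ (ψ : Γ) (T s y : ℝ) (P P' : Multiset ℂ), 0 ≤ T → T ≤ 8 → 0 ≤ s → s ≤ Λm → |y| ≤ 3 * Y →
    P' ≤ P → P ≤ zin (D.Z ψ) Y → P'.card ≤ 2 → P.card ≤ 3 →
    (∀ z ∈ zin (D.Z ψ) Y - P', z.re ≤ -s) →
    (P.map fun z => (II T (s + z - y * I)).re).sum - T / 2 - ε ≤ -(D.p1 (tl T s) y ψ).re
  c0 : ∀ (ψ : Γ) (T s y : ℝ), 0 ≤ T → T ≤ 8 → 0 ≤ s → s ≤ 2 * Λm → |y| ≤ 3 * Y →
    ‖D.p0 (tl T s) y ψ - (if ψ = 1 then II T (s - y * I) else 0)‖ ≤ ε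
  k1 : ∀ (ψ : Γ) (Λ K : ℝ) (P' : Multiset ℂ), 0 < Λ → Λ + 1 / 1000 ≤ Λm → 0 ≤ K → K ≤ 2 →
    P'.card ≤ 2 → (∀ z ∈ zin (D.Z ψ) Y - P', z.re ≤ -(Λ + 1 / 1000)) →
    ((zin (D.Z ψ) Y).map fun z => (KK Λ K z).re).sum ≤
      kap Λ K 0 / 2 - (D.p1 (cut (kap Λ K) K) 0 ψ).re + ε
  k0 : ∀ (ψ : Γ) (Λ K : ℝ), 0 < Λ → Λ ≤ Λm → 0 ≤ K → K ≤ 2 →
    ‖D.p0 (cut (kap Λ K) K) 0 ψ - (if ψ = 1 then (kone Λ K : ℂ) else 0)‖ ≤ ε
  w1 : ∀ (ψ : Γ) (K : ℝ), 0 ≤ K → K ≤ 2 →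
    ‖D.p1 (ww K) 0 ψ + ((zin (D.Z ψ) Y).map fun z => WW K z).sum‖ ≤ ε
  w0 : ∀ (ψ : Γ) (K : ℝ), 0 ≤ K → K ≤ 2 →
    ‖D.p0 (ww K) 0 ψ - (if ψ = 1 then ((K : ℂ) ^ 2) else 0)‖ ≤ ε

open Classical in
/-- The primary zeros attached to a rightmost zero `z1` of the member `ψ1`. -/
noncomputable def prim (ψ1 : Γ) (z1 : ℂ) (ψ : Γ) : Multiset ℂ :=
  if ψ1 * ψ1 = 1 ∧ z1.im = 0 then (if ψ = ψ1 then {z1} else 0)
  else (if ψ = ψ1 then {z1} else 0) + (if ψ = ψ1⁻¹ then {starRingEnd ℂ z1} else 0)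

open Classical in
/-- The number of primary zeros. -/
noncomputable def nprim (ψ1 : Γ) (z1 : ℂ) : ℕ := if ψ1 * ψ1 = 1 ∧ z1.im = 0 then 1 else 2

open Classical in
/-- Primary zeros `Pr` at level `s`, secondary zeros `S` at levels `ℓ`. -/
structure Conf (D : Dat Γ Ω) (Λm Y s d0 : ℝ) (Pr S : Γ → Multiset ℂ) (ℓ : Γ → ℝ) : Prop where
  s_nonneg : 0 ≤ s
  d0_pos : 0 < d0
  le : ∀ ψ, Pr ψ + S ψ ≤ zin (D.Z ψ) Y
  card : ∀ ψ, (Pr ψ).card ≤ 2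
  pre : ∀ ψ, ∀ z ∈ Pr ψ, z.re = -s
  sec : ∀ ψ, (S ψ = 0 ∧ ℓ ψ = Λm) ∨ ∃ e : ℂ, S ψ = {e} ∧ e.re = -ℓ ψ
  rest : ∀ ψ, ∀ z ∈ zin (D.Z ψ) Y - Pr ψ, z.re ≤ -ℓ ψ
  lo : ∀ ψ, s + d0 ≤ ℓ ψ
  hi : ∀ ψ, ℓ ψ ≤ Λm

open Classical in
/-- Coefficient of a zero in the capacity inequality. -/
noncomputable def cf (s α c : ℝ) (z : ℂ) : ℝ := if z.re = -s then α else c

/-- Parameters of one row of the numerical table. -/
structure Par where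
  l1 : ℝ
  l2 : ℝ
  TU : ℝ
  d0 : ℝ
  K : ℝ
  α : ℝ
  β : ℝ
  σ : ℝ
  η : ℝ
  wb : ℝ

/-- Length of the test function in the capacity inequality. -/
noncomputable def Par.T (r : Par) : ℝ := (AA - 2 * r.K) / 2

/-- Parameter of the majorant. -/
noncomputable def Par.Λ (r : Par) : ℝ := r.l1 + r.d0 - 1 / 1000

/-- Decay factor. -/
noncomputable def Par.x (r : Par) : ℝ := Real.exp (-((AA - 2 * r.K) * (r.l1 + r.d0)))

/-- The inequalities that one row has to satisfy; `n` is the number of primary zeros. -/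
structure RowOK (n : ℕ) (pos : Bool) (r : Par) : Prop where
  l1_nonneg : 0 ≤ r.l1
  l12 : r.l1 ≤ r.l2
  l2_le : r.l2 ≤ 1 / 2
  d0_pos : 0 < r.d0
  d0_le : r.d0 ≤ 1 / 2
  Λ_pos : 1 / 10 ≤ r.Λ
  K_lo : 1 / 2 ≤ r.K
  K_hi : r.K ≤ 3 / 2
  α_nonneg : 0 ≤ r.α
  αβ : r.α ≤ r.β
  β_le : r.β ≤ 10
  σ_nonneg : 0 ≤ r.σ
  η_lo : 1 ≤ r.η
  η_hi : r.η ≤ 10
  wb_nonneg : 0 ≤ r.wb
  TU_nonneg : 0 ≤ r.TU
  TU_le : r.TU ≤ 8
  u1 : n ≠ 0 → 1 / 1000 ≤ JJ r.TU (-r.d0) - r.TU - JJ r.TU r.l2 + r.TU ^ 2 / 2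
  u2 : n ≠ 0 → r.l2 * r.TU ≤ 2
  u3 : n ≠ 0 → Real.exp (r.l2 * r.TU) ≤ n + (3 - n) * Real.exp (-(r.d0 * r.TU))
  cross : (r.β - r.α) * Real.exp (2 * r.d0 * r.T) ≤ r.β * r.α
  den : 1 ≤ r.β * (r.T ^ 2 - r.T) - JJ r.T (2 * r.d0)
  sig : r.β ^ 2 * JJ r.T (2 * r.l2) + n * (r.α ^ 2 * r.T ^ 2 / 2 - r.α * r.β * (r.T ^ 2 - r.T)) ≤
    r.σ * (r.β * (r.T ^ 2 - r.T) - JJ r.T (2 * r.d0))
  l1_pos : pos = true → 0 < r.l1
  wb1 : pos = true → (1 - r.K * r.l1 / 2 + (r.K * r.l1) ^ 2 / 6) ^ 2 *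
    Real.exp (-((AA - 2 * r.K) * r.l1)) ≤ r.wb
  wb2 : pos = true → 41 / 100 * Real.exp (-((AA - 2 * r.K) * r.l1)) +
    64 / 100 * r.x * kap r.Λ r.K 0 / r.K ≤ r.wb
  tot : n * r.wb + r.x * (r.σ * kap r.Λ r.K 0 + (r.η + r.σ / r.η) * kone r.Λ r.K) / r.K ^ 2 ≤
    1 - 1 / 200

/-! ### Arithmetic objects -/

/-- The unit of length. -/
noncomputable def LL (l : ℕ) : ℝ := Real.log l / 4

/-- The height scale. -/
noncomputable def YY (l : ℕ) : ℝ := LL l ^ (2 / 3 : ℝ)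

/-- The quadratic character modulo a prime. -/
noncomputable def qc (l : ℕ) [Fact l.Prime] : DirichletCharacter ℂ l :=
  (quadraticChar (ZMod l)).ringHomComp (Int.castRingHom ℂ)

instance neZero_mul (m l : ℕ) [NeZero m] [Fact l.Prime] : NeZero (m * l) :=
  ⟨mul_ne_zero (NeZero.ne m) (Fact.out : l.Prime).ne_zero⟩

/-- The product of a character modulo `m` and the quadratic character modulo `l`. -/
noncomputable def xi (m l : ℕ) [Fact l.Prime] (ψ : DirichletCharacter ℂ m) :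
    DirichletCharacter ℂ (m * l) :=
  DirichletCharacter.changeLevel (dvd_mul_right m l) ψ *
    DirichletCharacter.changeLevel (dvd_mul_left l m) (qc l)

/-- The integers that carry the weights. -/
def om (m l : ℕ) : Finset ℕ := (Ioc 0 (l ^ 2)).filter fun n => n.Coprime (m * l)

/-- The primes in the class `a` that are squares modulo `l` are sparse. -/
def Sparse (m a p0 l : ℕ) : Prop :=
  ∀ p : ℕ, p.Prime → p0 < p → p ≡ a [MOD m] → chi l p = 1 →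
    ∃ b : ℤ, b ^ 2 ≤ 4 * (p : ℤ) ∧ (l : ℤ) ∣ b ^ 2 - 4 * (p : ℤ)

/-- The real character attached to a real character modulo `m`. -/
noncomputable def fr (m l : ℕ) (ψ : DirichletCharacter ℂ m) (n : ℕ) : ℝ :=
  (ψ (n : ZMod m)).re * chi l n

/-! ### The sieve part -/

/-- Number of divisors. -/
noncomputable def tau (n : ℕ) : ℝ := n.divisors.card

/-- Principal character. -/
noncomputable def uu (q n : ℕ) : ℝ := if n.Coprime q then 1 else 0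

/-- Convolution of the principal character with `f`. -/
noncomputable def r0 (q : ℕ) (f : ℕ → ℝ) (n : ℕ) : ℝ :=
  ∑ d ∈ n.divisors, f d * uu q (n / d)

/-- A real character with the same support as the principal character modulo `q`. -/
structure RC (q : ℕ) (f : ℕ → ℝ) : Prop where
  one : f 1 = 1
  mul : ∀ a b, f (a * b) = f a * f b
  sq : ∀ n, f n ^ 2 = uu q n

/-- Restriction to a residue class. -/
noncomputable def cls (m h : ℕ) (g : ℕ → ℝ) (n : ℕ) : ℝ := if n ≡ h [MOD m] then g n else 0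

/-- Hypotheses of the sieve part. -/
structure SvH (m l : ℕ) (f : ℕ → ℝ) (θ C y : ℝ) : Prop where
  m_pos : 0 < m
  l_prime : l.Prime
  l_gt : m < l
  rc : RC (m * l) f
  θ_pos : 0 < θ
  θ_le : θ ≤ 1 / 2
  C_ge : 1 ≤ C
  y_ge : 1 ≤ y
  bur : ∀ (h : ℕ) (x : ℝ), 1 ≤ x → |Sm (cls m h f) x| ≤ C * x ^ (1 - θ) * y ^ θ

/-- Density of `r0` in one residue class. -/
noncomputable def kz (m l : ℕ) (f : ℕ → ℝ) : ℝ := (1 - 1 / (l : ℝ)) / m * Lv f 1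

/-- Local density. -/
noncomputable def gp (f : ℕ → ℝ) (p : ℕ) : ℝ := (1 + f p) / p - f p / (p : ℝ) ^ 2

/-- Density of the multiples of a squarefree number. -/
noncomputable def gg (f : ℕ → ℝ) (e : ℕ) : ℝ := ∏ p ∈ e.primeFactors, gp f p

/-- The Selberg sum. -/
noncomputable def GG (g : ℕ → ℝ) (q D : ℕ) : ℝ :=
  ∑ d ∈ (Icc 1 D).filter (fun d => Squarefree d ∧ d.Coprime q),
    ∏ p ∈ d.primeFactors, g p / (1 - g p)

/-- Sieve coefficients of level `D`. -/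
structure Rho (q D : ℕ) (ρ : ℕ → ℝ) : Prop where
  one : ρ 1 = 1
  supp : ∀ d, ρ d ≠ 0 → d ≤ D ∧ Squarefree d ∧ d.Coprime q
  bdd : ∀ d, |ρ d| ≤ tau d ^ 2

/-- The sifted sequence. -/
noncomputable def an (q : ℕ) (f ρ : ℕ → ℝ) (n : ℕ) : ℝ :=
  r0 q f n * (∑ d ∈ n.divisors, ρ d) ^ 2

/-- Density of the multiples of `e` in the sifted sequence. -/
noncomputable def qq (f ρ : ℕ → ℝ) (D e : ℕ) : ℝ :=
  ∑ d1 ∈ Icc 1 D, ∑ d2 ∈ Icc 1 D, ρ d1 * ρ d2 * gg f (Nat.lcm (Nat.lcm d1 d2) e)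

/-- A divisor sum. -/
noncomputable def DS (N : ℕ) : ℝ := ∑ e ∈ Icc 1 N, tau e ^ 9 / e

/-- Asymptotic formula for a weighted sum of `r0` in all reduced classes modulo `m`. -/
def Asy (q : ℕ) (f : ℕ → ℝ) (m : ℕ) (β κ E ϑ y : ℝ) : Prop :=
  ∀ h : ℕ, h.Coprime m → ∀ x : ℝ, 0 < x →
    |Sm (cls m h fun n => r0 q f n * (n : ℝ) ^ (-β)) x - κ * x ^ (1 - β)| ≤
      E * x ^ (1 - β) * (y / x) ^ ϑ

end Pool.Agent.Lib.MP_e97e2b_nt.Ln
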