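import Pool.Agent.Lib.MP_e97e2b_nt.Ln.K1

/- Counting the sparse primes.
If p is prime, b^2 ≤ 4 p and l ∣ b^2 - 4 p then 4 p = b^2 + l j with j ≥ 1 (4 p is not a square), so p ≤ x is
determined by (b, j) with |b| ≤ 2 sqrt x and 1 ≤ j ≤ 4 x / l; there are ≤ (4 sqrt x + 1) 4 x / l such pairs, and
1 / p ≤ 4 / (l j).
`sparse_sum`: 0 ≤ ww ≤ 3/2 and ww ≠ 0 forces l ≤ l^(4.95/4) < n < l^(AA/4) =: x (so log n / L ≤ 8).  Non-prime n:
≤ (3/2) (ψ x - θ x) / (l L) (Chebyshev.psi_sub_theta_eq_sum_not_prime, psi_sub_theta_le), and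
sqrt x = l^(159/160).  Primes: ≤ 12 ∑ 1 / p ≤ 12 (4 sqrt x + 1) (4 / l) (1 + log x). -/

namespace Pool.Agent.Lib.MP_e97e2b_nt.Ln

open Complex Finset

open ArithmeticFunction

theorem l2_pair {l p : ℕ} (hp : p.Prime) {b : ℤ} (h1 : b ^ 2 ≤ 4 * (p : ℤ))
    (h2 : (l : ℤ) ∣ b ^ 2 - 4 * (p : ℤ)) : ∃ j : ℕ, 0 < j ∧ 4 * (p : ℤ) = b ^ 2 + l * j := by
  have hne : b ^ 2 ≠ 4 * (p : ℤ) := by
    intro h
    have h3 : (2 : ℤ) ∣ b := Int.prime_two.dvd_of_dvd_pow (n := 2) ⟨2 * p, by rw [h]; ring⟩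
    obtain ⟨c, rfl⟩ := h3
    exact (Nat.prime_iff_prime_int.1 hp).not_isSquare ⟨c, by nlinarith⟩
  obtain ⟨c, hc⟩ := h2
  have hc0 : 0 < -c := by
    by_contra h
    have : 0 ≤ (l : ℤ) * c := mul_nonneg (Int.natCast_nonneg l) (by omega)
    omega
  obtain ⟨j, hj⟩ := Int.eq_ofNat_of_zero_le hc0.le
  refine ⟨j, by omega, ?_⟩
  rw [← hj]
  linarith

theorem l2_sum {l : ℕ} (hl : 0 < l) {x : ℝ} (hx : 1 ≤ x) (P : Finset ℕ)
    (hP : ∀ p ∈ P, p.Prime ∧ (p : ℝ) ≤ x ∧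
      ∃ b : ℤ, b ^ 2 ≤ 4 * (p : ℤ) ∧ (l : ℤ) ∣ b ^ 2 - 4 * (p : ℤ))
    (w g : ℕ → ℝ) (hg : ∀ j, 0 ≤ g j) (hw : ∀ p j : ℕ, 0 < j → l * j ≤ 4 * p → w p ≤ g j) :
    ∑ p ∈ P, w p ≤ 5 * √x * ∑ j ∈ Ioc 0 ⌊4 * x / l⌋₊, g j := by
  classical
  have l0 : (0 : ℝ) < l := by exact_mod_cast hl
  have s1 : 1 ≤ √x := Real.one_le_sqrt.2 hx
  have key : ∀ p : ℕ, ∃ y : ℤ × ℕ, p ∈ P →
      y ∈ Icc (-(⌊2 * √x⌋₊ : ℤ)) ⌊2 * √x⌋₊ ×ˢ Ioc 0 ⌊4 * x / l⌋₊ ∧
        4 * (p : ℤ) = y.1 ^ 2 + l * y.2 ∧ w p ≤ g y.2 := by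
    intro p
    by_cases hp : p ∈ P
    swap
    · exact ⟨(0, 0), fun h => absurd h hp⟩
    obtain ⟨h1, h2, b, h3, h4⟩ := hP p hp
    obtain ⟨j, j0, hj⟩ := l2_pair h1 h3 h4
    have h5 : l * j ≤ 4 * p := by
      have := sq_nonneg b
      exact_mod_cast (by linarith : (l : ℤ) * j ≤ 4 * p)
    refine ⟨(b, j), fun _ => ⟨mem_product.2 ⟨mem_Icc.2 (abs_le.1 ?_), mem_Ioc.2 ⟨j0, ?_⟩⟩, hj,
      hw p j j0 h5⟩⟩
    · rw [← Int.natCast_natAbs, Nat.cast_le]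
      refine Nat.le_floor ?_
      rw [Nat.cast_natAbs, Int.cast_abs]
      refine abs_le_of_sq_le_sq' ?_ (by positivity) |> abs_le.2
      have : (b : ℝ) ^ 2 ≤ 4 * p := by exact_mod_cast h3
      rw [mul_pow, Real.sq_sqrt (by linarith)]
      linarith
    · refine Nat.le_floor ?_
      rw [le_div_iff₀ l0]
      have : (l : ℝ) * j ≤ 4 * p := by exact_mod_cast h5
      dsimp only
      linarith
  choose φ hφ using key
  calc _ ≤ ∑ p ∈ P, g (φ p).2 := sum_le_sum fun p hp => (hφ p hp).2.2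
    _ = ∑ y ∈ P.image φ, g y.2 := by
        rw [sum_image]
        intro p hp q hq h
        have e1 := (hφ p hp).2.1
        have e2 := (hφ q hq).2.1
        rw [h] at e1
        omega
    _ ≤ ∑ y ∈ Icc (-(⌊2 * √x⌋₊ : ℤ)) ⌊2 * √x⌋₊ ×ˢ Ioc 0 ⌊4 * x / l⌋₊, g y.2 := by
        refine sum_le_sum_of_subset_of_nonneg (fun y hy => ?_) fun y _ _ => hg _
        obtain ⟨p, hp, rfl⟩ := mem_image.1 hy
        exact (hφ p hp).1
    _ ≤ _ := by
        rw [sum_product]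
        dsimp only
        rw [sum_const, nsmul_eq_mul, Int.card_Icc]
        refine mul_le_mul_of_nonneg_right ?_ (sum_nonneg fun j _ => hg j)
        have e : ((⌊2 * √x⌋₊ : ℤ) + 1 - -(⌊2 * √x⌋₊ : ℤ)).toNat = 2 * ⌊2 * √x⌋₊ + 1 := by omega
        have := Nat.floor_le (show 0 ≤ 2 * √x by positivity)
        rw [e]
        push_cast
        linarith

open Classical in
theorem sparse_count {m a p0 l : ℕ} (hl : l.Prime) (h : Sparse m a p0 l) {x : ℝ} (hx : 1 ≤ x) :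
    (((Ioc 0 ⌊x⌋₊).filter fun p => p.Prime ∧ p ≡ a [MOD m] ∧ chi l p = 1).card : ℝ) ≤
      p0 + 20 * x ^ (3 / 2 : ℝ) / l := by
  have x0 : 0 < x := by linarith
  set P := (Ioc 0 ⌊x⌋₊).filter fun p => p.Prime ∧ p ≡ a [MOD m] ∧ chi l p = 1 with hP
  have h1 := l2_sum hl.pos hx (P.filter fun p => p0 < p) (fun p hp => by
    obtain ⟨h1, h2⟩ := mem_filter.1 hp
    obtain ⟨h3, h4, h5, h6⟩ := mem_filter.1 h1
    exact ⟨h4, (Nat.le_floor_iff x0.le).1 (mem_Ioc.1 h3).2, h p h4 h2 h5 h6⟩)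
    (fun _ => 1) (fun _ => 1) (fun _ => zero_le_one) fun _ _ _ _ => le_rfl
  simp only [sum_const, nsmul_eq_mul, mul_one, Nat.card_Ioc, Nat.sub_zero] at h1
  have h2 : (P.filter fun p => ¬ p0 < p).card ≤ p0 := by
    refine (card_le_card (t := Ioc 0 p0) fun p hp => ?_).trans (by simp)
    obtain ⟨h1, h2⟩ := mem_filter.1 hp
    exact mem_Ioc.2 ⟨(mem_Ioc.1 (mem_filter.1 h1).1).1, not_lt.1 h2⟩
  have h3 : 5 * √x * (⌊4 * x / l⌋₊ : ℝ) ≤ 20 * x ^ (3 / 2 : ℝ) / l := by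
    refine (mul_le_mul_of_nonneg_left (Nat.floor_le (by positivity)) (by positivity)).trans
      (le_of_eq ?_)
    rw [show (3 / 2 : ℝ) = 1 / 2 + 1 by norm_num, Real.rpow_add x0, Real.rpow_one,
      Real.sqrt_eq_rpow]
    ring
  rw [← card_filter_add_card_filter_not (s := P) fun p => p0 < p]
  have h4 : ((P.filter fun p => ¬ p0 < p).card : ℝ) ≤ p0 := by exact_mod_cast h2
  push_cast
  linarith

theorem l2_small (c : ℝ) (hc : 0 < c) : ∃ l0 : ℕ, ∀ l : ℕ, l0 < l →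
    4 ≤ Real.log l ∧ 1000 * Real.log l * √((l : ℝ) ^ (159 / 80 : ℝ)) / l ≤ c := by
  have h1 := (isLittleO_log_rpow_atTop (r := 1 / 160) (by norm_num)).bound
    (c := c / 1000) (by positivity)
  have h2 := Real.tendsto_log_atTop.eventually_ge_atTop 4
  obtain ⟨l0, h⟩ := Filter.eventually_atTop.1
    (tendsto_natCast_atTop_atTop.eventually (h1.and h2))
  refine ⟨l0, fun l hl => ⟨(h l hl.le).2, ?_⟩⟩
  have l1 : (0 : ℝ) < l := by exact_mod_cast (Nat.zero_le _).trans_lt hl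
  have h3 := (h l hl.le).1
  rw [Real.norm_of_nonneg (Real.log_natCast_nonneg l),
    Real.norm_of_nonneg (Real.rpow_nonneg l1.le _)] at h3
  have e : (l : ℝ) ^ (1 / 160 : ℝ) * √((l : ℝ) ^ (159 / 80 : ℝ)) = l := by
    rw [Real.sqrt_eq_rpow, ← Real.rpow_mul l1.le, ← Real.rpow_add l1]
    norm_num
  rw [div_le_iff₀ l1]
  calc _ ≤ 1000 * (c / 1000 * (l : ℝ) ^ (1 / 160 : ℝ)) * √((l : ℝ) ^ (159 / 80 : ℝ)) := by
        gcongr
    _ = c * ((l : ℝ) ^ (1 / 160 : ℝ) * √((l : ℝ) ^ (159 / 80 : ℝ))) := by ring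
    _ = _ := by rw [e]

theorem l2_term {l n : ℕ} (hL : 4 ≤ Real.log l) (hn : 0 < n) {K : ℝ} (h1 : 1 / 2 ≤ K)
    (h2 : K ≤ 3 / 2) :
    vonMangoldt n / (n * LL l) * ww K (Real.log n / LL l) ≤
      if l < n ∧ (n : ℝ) ≤ (l : ℝ) ^ (159 / 80 : ℝ) then
        (if n.Prime then 12 / (n : ℝ) else 3 / 2 / l * vonMangoldt n) else 0 := by
  have l0 : (0 : ℝ) < l := by
    rcases Nat.eq_zero_or_pos l with rfl | h
    · norm_num at hL
    · exact_mod_cast h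
  have n0 : (0 : ℝ) < n := by exact_mod_cast hn
  have v0 : 0 ≤ vonMangoldt n := vonMangoldt_nonneg
  have L1 : 1 ≤ LL l := by
    unfold LL
    linarith
  have K0 : 0 ≤ K := by linarith
  by_cases h0 : ww K (Real.log n / LL l) = 0
  · rw [h0, mul_zero]
    split_ifs <;> positivity
  obtain ⟨h3, h4⟩ := ww_supp K0 h0
  rw [lt_div_iff₀ (by linarith)] at h3
  rw [div_lt_iff₀ (by linarith)] at h4
  unfold AA at h3 h4
  have e : Real.log l = 4 * LL l := by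
    unfold LL
    ring
  have h5 : (l : ℝ) < n := (Real.log_lt_log_iff l0 n0).1 (by nlinarith)
  have h6 : (n : ℝ) ≤ (l : ℝ) ^ (159 / 80 : ℝ) := by
    rw [← Real.log_le_log_iff n0 (by positivity), Real.log_rpow l0]
    linarith
  rw [if_pos ⟨by exact_mod_cast h5, h6⟩]
  refine (mul_le_mul_of_nonneg_left ((ww_le K0 _).trans h2) (by positivity)).trans ?_
  split_ifs with hp
  · rw [vonMangoldt_apply_prime hp, div_mul_eq_mul_div, div_le_div_iff₀ (by positivity) n0]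
    nlinarith
  · have : vonMangoldt n / (n * LL l) ≤ vonMangoldt n / l :=
      div_le_div_of_nonneg_left v0 l0 (by nlinarith)
    calc _ ≤ vonMangoldt n / l * (3 / 2) := by gcongr
      _ = _ := by ring

open Classical in
theorem sparse_sum (m a p0 : ℕ) (c : ℝ) (hc : 0 < c) : ∃ l0 : ℕ, ∀ l : ℕ, l.Prime → l0 < l →
    Sparse m a p0 l → ∀ K : ℝ, 1 / 2 ≤ K → K ≤ 3 / 2 →
    ∑ n ∈ (Ioc 0 (l ^ 2)).filter (fun n => n ≡ a [MOD m] ∧ chi l n = 1),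
      vonMangoldt n / (n * LL l) * ww K (Real.log n / LL l) ≤ c := by
  obtain ⟨l0, h0⟩ := l2_small c hc
  refine ⟨max l0 (max p0 4), fun l hl h hS K h1 h2 => ?_⟩
  simp only [max_lt_iff] at h
  obtain ⟨hL, hc'⟩ := h0 l h.1
  have l4 : (4 : ℝ) ≤ l := by exact_mod_cast h.2.2.le
  have l1 : (0 : ℝ) < l := by linarith
  set x : ℝ := (l : ℝ) ^ (159 / 80 : ℝ) with hx
  have xl : (l : ℝ) ≤ x := Real.self_le_rpow_of_one_le (by linarith) (by norm_num)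
  have x1 : 1 ≤ x := by linarith
  have lx : Real.log x ≤ 2 * Real.log l := by
    rw [hx, Real.log_rpow l1]
    linarith
  refine (sum_le_sum fun n hn => l2_term hL (mem_Ioc.1 (mem_filter.1 hn).1).1 h1 h2).trans ?_
  rw [← sum_filter, sum_ite]
  set Q := ((Ioc 0 (l ^ 2)).filter (fun n => n ≡ a [MOD m] ∧ chi l n = 1)).filter
    fun n : ℕ => l < n ∧ (n : ℝ) ≤ x with hQ
  have a1 := l2_sum hl.pos x1 (Q.filter fun n => n.Prime) (fun p hp => by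
    obtain ⟨h1, h2⟩ := mem_filter.1 hp
    obtain ⟨h3, h4, h5⟩ := mem_filter.1 h1
    obtain ⟨-, h6, h7⟩ := mem_filter.1 h3
    exact ⟨h2, h5, hS p h2 (by omega) h6 h7⟩)
    (fun n => 12 / (n : ℝ)) (fun j => 48 / l * (j : ℝ)⁻¹) (fun _ => by positivity)
    fun p j j0 hj => by
      have j1 : (0 : ℝ) < j := by exact_mod_cast j0
      have hj' : (l : ℝ) * j ≤ 4 * p := by exact_mod_cast hj
      have p1 : (0 : ℝ) < p := by nlinarith [mul_pos l1 j1]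
      rw [← div_eq_mul_inv, div_div, div_le_div_iff₀ p1 (by positivity)]
      linarith
  have a2 : ∑ j ∈ Ioc 0 ⌊4 * x / l⌋₊, (j : ℝ)⁻¹ ≤ 3 * Real.log l := by
    have b1 := harmonic_floor_le_one_add_log x x1
    simp only [harmonic_eq_sum_Icc, Rat.cast_sum, Rat.cast_inv, Rat.cast_natCast] at b1
    refine le_trans (sum_le_sum_of_subset_of_nonneg (fun j hj => ?_) fun _ _ _ => by positivity)
      (b1.trans (by linarith))
    obtain ⟨j0, j1⟩ := mem_Ioc.1 hj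
    refine mem_Icc.2 ⟨j0, j1.trans (Nat.floor_le_floor ?_)⟩
    rw [div_le_iff₀ l1]
    nlinarith
  have a3 : ∑ n ∈ Q.filter (fun n => ¬ n.Prime), vonMangoldt n ≤ 2 * √x * Real.log x := by
    refine le_trans ?_ (Chebyshev.psi_sub_theta_le x1)
    rw [Chebyshev.psi_sub_theta_eq_sum_not_prime]
    refine sum_le_sum_of_subset_of_nonneg (fun n hn => ?_) fun _ _ _ => vonMangoldt_nonneg
    obtain ⟨h1, h2⟩ := mem_filter.1 hn
    obtain ⟨-, h4, h5⟩ := mem_filter.1 h1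
    exact mem_filter.2 ⟨mem_Ioc.2 ⟨by omega, Nat.le_floor h5⟩, h2⟩
  rw [← mul_sum] at a1
  rw [← mul_sum]
  have s0 : 0 ≤ √x := Real.sqrt_nonneg x
  calc _ ≤ 5 * √x * (48 / l * (3 * Real.log l)) + 3 / 2 / l * (2 * √x * (2 * Real.log l)) :=
        add_le_add (a1.trans (by gcongr)) (mul_le_mul_of_nonneg_left (a3.trans (by gcongr))
          (by positivity))
    _ = 726 * (Real.log l * √x / l) := by ring
    _ ≤ 1000 * (Real.log l * √x / l) := by gcongr; norm_num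
    _ ≤ c := by
        rw [← mul_div_assoc, ← mul_assoc]
        exact hc'

end Pool.Agent.Lib.MP_e97e2b_nt.Ln
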