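import Pool.Agent.Lib.MP_e97e2b_nt.Ln.P6
import Pool.Agent.Lib.MP_e97e2b_nt.Ln.A6d
import Pool.Agent.Lib.MP_e97e2b_nt.Ln.L2

/- Sparse primes force an exceptional zero.
Apply model to Γ = DirichletCharacter ℂ m, the data of raw_exists and the hom ψ ↦ ψ a.  In the second
alternative, ∑ ψ, conj (ψ a) * ψ n = φ(m) if n ≡ a and 0 otherwise (DirichletCharacter.sum_char_inv_mul_char_eq,
conj (ψ a) = ψ a⁻¹), and 1 + chi l n is 2 or 0, so the sum is 2 φ(m) times a sum bounded by sparse_sum (ww ≥ 0);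
take c = 1 / (5000 m).  In the first alternative β = 1 + re z / LL l; take real parts with fr_coe. -/

namespace Pool.Agent.Lib.MP_e97e2b_nt.Ln

open Complex Finset

open Filter Topology

/-- Evaluation of characters at a unit. -/
noncomputable def l3ev (m : ℕ) (a : ZMod m) (ha : IsUnit a) : DirichletCharacter ℂ m →* ℂ where
  toFun ψ := ψ a
  map_one' := MulChar.one_apply ha
  map_mul' _ _ := rfl

theorem l3_norm {m : ℕ} {a : ZMod m} (ha : IsUnit a) (ψ : DirichletCharacter ℂ m) :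
    ‖ψ a‖ = 1 := by
  obtain ⟨u, rfl⟩ := ha
  exact ψ.unit_norm_eq_one u

theorem l3_conj {m : ℕ} {a : ZMod m} (ha : IsUnit a) (ψ : DirichletCharacter ℂ m) :
    starRingEnd ℂ (ψ a) = ψ a⁻¹ := by
  rw [← Complex.inv_eq_conj (l3_norm ha ψ)]
  refine (eq_inv_of_mul_eq_one_left ?_).symm
  rw [← map_mul, ZMod.inv_mul_of_unit a ha, map_one]

open Classical in
theorem l3_sum {m : ℕ} [NeZero m] {Ω : Type} [Fintype Ω] (D : Dat (DirichletCharacter ℂ m) Ω)
    (ν : Ω → ZMod m) (hν : ∀ ω ψ, D.ev ω ψ = ψ (ν ω)) {a : ZMod m} (ha : IsUnit a) (g : ℝ → ℝ) :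
    (∑ ψ, starRingEnd ℂ (ψ a) * (D.p0 g 0 ψ + D.p1 g 0 ψ)).re =
      ∑ ω, D.μ ω * g (D.t ω) * ((1 + D.sg ω) * if a = ν ω then (m.totient : ℝ) else 0) := by
  have h : ∑ ψ, starRingEnd ℂ (ψ a) * (D.p0 g 0 ψ + D.p1 g 0 ψ) =
      ((∑ ω, D.μ ω * g (D.t ω) * ((1 + D.sg ω) * if a = ν ω then (m.totient : ℝ) else 0) : ℝ) :
        ℂ) := by
    unfold Dat.p0 Dat.p1
    simp only [← Finset.sum_add_distrib, Finset.mul_sum]
    rw [Finset.sum_comm, ofReal_sum]
    refine Finset.sum_congr rfl fun ω _ => ?_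
    have h1 := DirichletCharacter.sum_char_inv_mul_char_eq ℂ ha (ν ω)
    have h2 : (((if a = ν ω then (m.totient : ℝ) else 0 : ℝ)) : ℂ) =
        ∑ ψ : DirichletCharacter ℂ m, ψ a⁻¹ * ψ (ν ω) := by
      rw [h1]
      split_ifs <;> simp
    rw [ofReal_mul _ (_ * _), ofReal_mul (1 + D.sg ω), h2, Finset.mul_sum, Finset.mul_sum]
    refine Finset.sum_congr rfl fun ψ _ => ?_
    rw [l3_conj ha, hν]
    simp only [zero_mul, ofReal_zero, neg_zero, Complex.exp_zero, one_mul]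
    push_cast
    ring
  rw [h, ofReal_re]

theorem main_regime (m a p0 : ℕ) [NeZero m] (ha : a.Coprime m) : ∃ l0 : ℕ,
    ∀ l : ℕ, l.Prime → l0 < l → Sparse m a p0 l →
    ∃ ψ : DirichletCharacter ℂ m, ψ * ψ = 1 ∧ ψ (a : ZMod m) = 1 ∧ ∃ β : ℝ,
      1 - 1 / 10 / LL l ≤ β ∧ β < 1 ∧
      Tendsto (fun N : ℕ => ∑ n ∈ Ioc 0 N, fr m l ψ n * (n : ℝ) ^ (-β)) atTop (𝓝 0) := by
  classical
  obtain ⟨ε, K0, hε, -, hmod⟩ := model (DirichletCharacter ℂ m)
  obtain ⟨l1, hraw⟩ := raw_exists m ε K0 hε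
  have hm : (0 : ℝ) < m := by exact_mod_cast Nat.pos_of_ne_zero (NeZero.ne m)
  obtain ⟨l2, hsp⟩ := sparse_sum m a p0 (1 / (5000 * m)) (by positivity)
  refine ⟨max l1 l2, fun l hl hlt hS => ?_⟩
  obtain ⟨D, hR, hD, hZ⟩ := hraw l hl ((le_max_left _ _).trans_lt hlt)
  have hau : IsUnit (a : ZMod m) := (ZMod.isUnit_iff_coprime a m).2 ha
  have hL : 0 < LL l := by
    unfold LL
    have : (1 : ℝ) < l := by exact_mod_cast hl.one_lt
    have := Real.log_pos this
    positivity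
  rcases hmod (om m l) D (YY l) (l3ev m a hau) (l3_norm hau) hR with
    ⟨ψ, h1, h2, z, hz, hz1, hz2⟩ | ⟨K, hK1, hK2, hK⟩
  · obtain ⟨h3, h4⟩ := hZ ψ z hz hz1 (by linarith)
    refine ⟨ψ, h1, h2, 1 + z.re / LL l, ?_, ?_, ?_⟩
    · have : -(1 / 10) / LL l ≤ z.re / LL l := div_le_div_of_nonneg_right hz2 hL.le
      rw [neg_div] at this
      linarith
    · have : z.re / LL l < 0 := div_neg_of_neg_of_pos h3 hL
      linarith
    · have h5 := (Complex.continuous_re.tendsto 0).comp h4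
      rw [zero_re] at h5
      refine h5.congr fun N => ?_
      simp only [Function.comp_apply]
      rw [re_sum]
      refine Finset.sum_congr rfl fun n _ => ?_
      rw [← fr_coe m l ψ h1, ← ofReal_mul, ofReal_re]
  · exfalso
    have h1 := hsp l hl ((le_max_right _ _).trans_lt hlt) hS K hK1 hK2
    have h2 := l3_sum D (fun ω => ((ω.1 : ℕ) : ZMod m)) (fun ω ψ => (hD ω).2.2.1 ψ) hau (ww K)
    have hK' : 1 / 2000 ≤ (∑ ψ : DirichletCharacter ℂ m, starRingEnd ℂ (ψ a) *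
        (D.p0 (ww K) 0 ψ + D.p1 (ww K) 0 ψ)).re := hK
    rw [h2] at hK'
    have hnn : ∀ n : ℕ, 0 ≤ ArithmeticFunction.vonMangoldt n / (n * LL l) *
        ww K (Real.log n / LL l) := fun n =>
      mul_nonneg (div_nonneg ArithmeticFunction.vonMangoldt_nonneg (by positivity))
        (ww_nonneg (by linarith) _)
    have h3 : ∑ ω : om m l, D.μ ω * ww K (D.t ω) *
          ((1 + D.sg ω) * if (a : ZMod m) = ((ω.1 : ℕ) : ZMod m) then (m.totient : ℝ) else 0) ≤
        ∑ ω : om m l, 2 * m * (if ω.1 ≡ a [MOD m] ∧ chi l ω.1 = 1 then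
          ArithmeticFunction.vonMangoldt ω.1 / (ω.1 * LL l) * ww K (Real.log ω.1 / LL l)
          else 0) := by
      refine Finset.sum_le_sum fun ω _ => ?_
      obtain ⟨e1, e2, -, e4⟩ := hD ω
      have hc := D.sg_cases ω
      rw [e4] at hc
      rw [e1, e2, e4]
      have h0 := hnn ω.1
      have ht : (m.totient : ℝ) ≤ m := by exact_mod_cast Nat.totient_le m
      by_cases h4 : (a : ZMod m) = ((ω.1 : ℕ) : ZMod m)
      · have h5 : ω.1 ≡ a [MOD m] := ((ZMod.natCast_eq_natCast_iff _ _ _).1 h4).symm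
        rcases hc with hc | hc
        · rw [if_pos h4, if_pos ⟨h5, hc⟩, hc]
          nlinarith
        · rw [hc]
          split_ifs <;> nlinarith
      · rw [if_neg h4]
        split_ifs <;> nlinarith
    have h4 : ∑ ω : om m l, 2 * m * (if ω.1 ≡ a [MOD m] ∧ chi l ω.1 = 1 then
          ArithmeticFunction.vonMangoldt ω.1 / (ω.1 * LL l) * ww K (Real.log ω.1 / LL l)
          else 0) ≤ 2 * m * (1 / (5000 * m) : ℝ) := by
      rw [← Finset.mul_sum]
      refine mul_le_mul_of_nonneg_left (le_trans ?_ h1) (by positivity)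
      rw [Finset.sum_coe_sort (om m l) fun n : ℕ => if n ≡ a [MOD m] ∧ chi l n = 1 then
          ArithmeticFunction.vonMangoldt n / (n * LL l) * ww K (Real.log n / LL l) else 0,
        ← Finset.sum_filter]
      refine Finset.sum_le_sum_of_subset_of_nonneg ?_ fun n _ _ => hnn n
      exact Finset.filter_subset_filter _ (Finset.filter_subset _ _)
    have h5 : 2 * m * (1 / (5000 * m) : ℝ) = 1 / 2500 := by
      field_simp
      norm_num
    linarith

end Pool.Agent.Lib.MP_e97e2b_nt.Ln
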