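import Pool.Agent.Lib.MP_e97e2b_nt.Ln.S2

/- Sums of the sifted sequence.
Expand (∑ d ∣ n, ρ d)^2 = ∑ d1 d2 ∈ Icc 1 D, ρ d1 ρ d2 [d1 ∣ n ∧ d2 ∣ n] (n ≥ 1), and d1 ∣ n, d2 ∣ n, e0 ∣ n iff
e = lcm (lcm d1 d2) e0 divides n; e is squarefree, coprime to q and ≤ D^2 Zb when ρ d1 ρ d2 ≠ 0.  Apply type_one;
|ρ d1 ρ d2| ≤ tau e ^ 4 (tau_mono), (y e / x)^ϑ ≤ (y D^2 Zb / x)^ϑ, and each e comes from at most tau e ^ 3
triples (d1, d2, e0). -/

namespace Pool.Agent.Lib.MP_e97e2b_nt.Ln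

open Finset

theorem s5a_div {q D : ℕ} {ρ : ℕ → ℝ} (hρ : Rho q D ρ) {n : ℕ} (hn : n ≠ 0) :
    ∑ d ∈ n.divisors, ρ d = ∑ d ∈ Icc 1 D, if d ∣ n then ρ d else 0 := by
  rw [← Finset.sum_filter]
  symm
  refine Finset.sum_subset (fun d hd => Nat.mem_divisors.2 ⟨(mem_filter.1 hd).2, hn⟩) ?_
  intro d hd hd'
  by_contra h0
  exact hd' (mem_filter.2 ⟨mem_Icc.2 ⟨Nat.pos_of_mem_divisors hd, (hρ.supp d h0).1⟩,
    Nat.dvd_of_mem_divisors hd⟩)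

theorem s5a_expand {q D : ℕ} {f ρ : ℕ → ℝ} (hρ : Rho q D ρ) (m' a e : ℕ) (β x : ℝ) :
    Sm (cls m' a fun n => if e ∣ n then an q f ρ n * (n : ℝ) ^ (-β) else 0) x =
      ∑ d1 ∈ Icc 1 D, ∑ d2 ∈ Icc 1 D, ρ d1 * ρ d2 * Sm (cls m' a fun n =>
        if Nat.lcm (Nat.lcm d1 d2) e ∣ n then r0 q f n * (n : ℝ) ^ (-β) else 0) x := by
  simp only [Sm, Finset.mul_sum]
  rw [Finset.sum_congr rfl fun d1 _ => Finset.sum_comm, Finset.sum_comm]
  refine Finset.sum_congr rfl fun n hn => ?_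
  have hn0 : n ≠ 0 := (mem_Ioc.1 hn).1.ne'
  unfold cls
  by_cases h1 : n ≡ a [MOD m']
  · simp only [if_pos h1, Nat.lcm_dvd_iff]
    by_cases h2 : e ∣ n
    · rw [if_pos h2, an, s5a_div hρ hn0, sq, Finset.sum_mul_sum, Finset.mul_sum, Finset.sum_mul]
      refine Finset.sum_congr rfl fun d1 _ => ?_
      rw [Finset.mul_sum, Finset.sum_mul]
      refine Finset.sum_congr rfl fun d2 _ => ?_
      by_cases h3 : d1 ∣ n <;> by_cases h4 : d2 ∣ n <;> simp [h2, h3, h4]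
      ring
    · simp [h2]
  · simp [h1]

theorem s5a_count (S : Finset ℕ) {L : ℕ} (hL : L ≠ 0) :
    (∑ e ∈ S, if e ∣ L then (1 : ℝ) else 0) ≤ tau L := by
  rw [Finset.sum_boole]
  unfold tau
  exact_mod_cast Finset.card_le_card fun d hd => Nat.mem_divisors.2 ⟨(mem_filter.1 hd).2, hL⟩

theorem s5a_tau_nonneg (n : ℕ) : 0 ≤ tau n := Nat.cast_nonneg _

theorem s5a_triple (S S1 S2 : Finset ℕ) (N : ℕ) :
    (∑ e ∈ S, ∑ d1 ∈ S1, ∑ d2 ∈ S2, ∑ L ∈ Icc 1 N, (if e ∣ L then (1 : ℝ) else 0) *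
      ((if d1 ∣ L then (1 : ℝ) else 0) * ((if d2 ∣ L then (1 : ℝ) else 0) * (tau L ^ 6 / L)))) ≤
      DS N := by
  have e1 : (∑ e ∈ S, ∑ d1 ∈ S1, ∑ d2 ∈ S2, ∑ L ∈ Icc 1 N, (if e ∣ L then (1 : ℝ) else 0) *
      ((if d1 ∣ L then (1 : ℝ) else 0) * ((if d2 ∣ L then (1 : ℝ) else 0) * (tau L ^ 6 / L)))) =
      ∑ L ∈ Icc 1 N, (∑ e ∈ S, if e ∣ L then (1 : ℝ) else 0) *
        ((∑ d1 ∈ S1, if d1 ∣ L then (1 : ℝ) else 0) *
          ((∑ d2 ∈ S2, if d2 ∣ L then (1 : ℝ) else 0) * (tau L ^ 6 / L))) := by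
    rw [Finset.sum_congr rfl fun e _ => Finset.sum_congr rfl fun d1 _ => Finset.sum_comm,
      Finset.sum_congr rfl fun e _ => Finset.sum_comm, Finset.sum_comm]
    refine Finset.sum_congr rfl fun L _ => ?_
    rw [Finset.sum_mul]
    refine Finset.sum_congr rfl fun e _ => ?_
    rw [Finset.sum_mul, Finset.mul_sum]
    refine Finset.sum_congr rfl fun d1 _ => ?_
    rw [Finset.sum_mul, Finset.mul_sum, Finset.mul_sum]
  rw [e1]
  refine Finset.sum_le_sum fun L hL => ?_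
  have hL0 : L ≠ 0 := by have := (mem_Icc.1 hL).1; omega
  have ht := s5a_tau_nonneg L
  have hn : ∀ T : Finset ℕ, 0 ≤ ∑ e ∈ T, if e ∣ L then (1 : ℝ) else 0 := fun T =>
    Finset.sum_nonneg fun e _ => by split_ifs <;> norm_num
  calc _ ≤ tau L * (tau L * (tau L * (tau L ^ 6 / L))) :=
        mul_le_mul (s5a_count S hL0) (mul_le_mul (s5a_count S1 hL0)
          (mul_le_mul_of_nonneg_right (s5a_count S2 hL0) (by positivity))
          (mul_nonneg (hn _) (by positivity)) ht)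
          (mul_nonneg (hn _) (mul_nonneg (hn _) (by positivity))) ht
    _ = tau L ^ 9 / L := by ring

theorem s5a_sqf {a b : ℕ} (ha : Squarefree a) (hb : Squarefree b) : Squarefree (Nat.lcm a b) := by
  rw [Nat.squarefree_iff_factorization_le_one (Nat.lcm_ne_zero ha.ne_zero hb.ne_zero),
    Nat.factorization_lcm ha.ne_zero hb.ne_zero]
  intro p
  rw [Finsupp.sup_apply]
  exact sup_le (ha.natFactorization_le_one p) (hb.natFactorization_le_one p)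

theorem s5a_cop {a b q : ℕ} (ha : a.Coprime q) (hb : b.Coprime q) : (Nat.lcm a b).Coprime q :=
  (Nat.Coprime.mul_left ha hb).coprime_dvd_left (Nat.lcm_dvd_mul a b)

theorem sift_sum {q : ℕ} {f ρ : ℕ → ℝ} (h : RC q f) {D Zb m' a : ℕ} {β κ E ϑ y x W : ℝ}
    (hρ : Rho q D ρ) (hm : 0 < m') (hmq : m' ∣ q) (hA : Asy q f m' β κ E ϑ y) (hE : 0 ≤ E)
    (hϑ0 : 0 ≤ ϑ) (hϑ : ϑ ≤ 1) (hy : 0 < y) (ha : a.Coprime m') (hx : 0 < x) (Ps : Finset ℕ)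
    (hPs : ∀ e ∈ Ps, Squarefree e ∧ e.Coprime q ∧ e ≤ Zb) (w : ℕ → ℝ)
    (hw : ∀ e ∈ Ps, |w e| ≤ W) (hW : 0 ≤ W) :
    |∑ e ∈ Ps, w e * (Sm (cls m' a fun n => if e ∣ n then an q f ρ n * (n : ℝ) ^ (-β) else 0) x -
        κ * qq f ρ D e * x ^ (1 - β))| ≤
      W * (E * x ^ (1 - β) * (y * (D ^ 2 * Zb : ℕ) / x) ^ ϑ * DS (D ^ 2 * Zb)) := by
  set N := D ^ 2 * Zb with hN
  set A := E * x ^ (1 - β) * (y * (N : ℝ) / x) ^ ϑ with hAdef
  have hA0 : 0 ≤ A := by positivity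
  have hterm : ∀ e ∈ Ps, ∀ d1 ∈ Icc 1 D, ∀ d2 ∈ Icc 1 D,
      |ρ d1 * ρ d2 * (Sm (cls m' a fun n => if Nat.lcm (Nat.lcm d1 d2) e ∣ n then
          r0 q f n * (n : ℝ) ^ (-β) else 0) x -
        κ * gg f (Nat.lcm (Nat.lcm d1 d2) e) * x ^ (1 - β))| ≤
      A * ∑ L ∈ Icc 1 N, (if e ∣ L then (1 : ℝ) else 0) * ((if d1 ∣ L then (1 : ℝ) else 0) *
        ((if d2 ∣ L then (1 : ℝ) else 0) * (tau L ^ 6 / L))) := by
    intro e he d1 _ d2 _
    have hnn : ∀ L ∈ Icc 1 N, 0 ≤ (if e ∣ L then (1 : ℝ) else 0) *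
        ((if d1 ∣ L then (1 : ℝ) else 0) * ((if d2 ∣ L then (1 : ℝ) else 0) *
          (tau L ^ 6 / L))) := fun L _ => by
      have := s5a_tau_nonneg L
      split_ifs <;> positivity
    by_cases h1 : ρ d1 = 0
    · rw [h1, zero_mul, zero_mul, abs_zero]
      exact mul_nonneg hA0 (Finset.sum_nonneg hnn)
    by_cases h2 : ρ d2 = 0
    · rw [h2, mul_zero, zero_mul, abs_zero]
      exact mul_nonneg hA0 (Finset.sum_nonneg hnn)
    obtain ⟨a1, a2, a3⟩ := hρ.supp d1 h1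
    obtain ⟨b1, b2, b3⟩ := hρ.supp d2 h2
    obtain ⟨c1, c2, c3⟩ := hPs e he
    set L := Nat.lcm (Nat.lcm d1 d2) e with hL
    have hsq : Squarefree L := s5a_sqf (s5a_sqf a2 b2) c1
    have hL0 : L ≠ 0 := hsq.ne_zero
    have hLN : L ≤ N := by
      have k1 : Nat.lcm d1 d2 ≤ D * D :=
        (Nat.le_of_dvd (Nat.mul_pos (Nat.pos_of_ne_zero a2.ne_zero)
          (Nat.pos_of_ne_zero b2.ne_zero)) (Nat.lcm_dvd_mul _ _)).trans (Nat.mul_le_mul a1 b1)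
      have k2 : L ≤ Nat.lcm d1 d2 * e :=
        Nat.le_of_dvd (Nat.mul_pos (Nat.pos_of_ne_zero (s5a_sqf a2 b2).ne_zero)
          (Nat.pos_of_ne_zero c1.ne_zero)) (Nat.lcm_dvd_mul _ _)
      rw [hN, sq]
      exact k2.trans (Nat.mul_le_mul k1 c3)
    have hd1 : d1 ∣ L := (Nat.dvd_lcm_left _ _).trans (Nat.dvd_lcm_left _ _)
    have hd2 : d2 ∣ L := (Nat.dvd_lcm_right _ _).trans (Nat.dvd_lcm_left _ _)
    have hde : e ∣ L := Nat.dvd_lcm_right _ _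
    have ht := s5a_tau_nonneg L
    have t1 : |ρ d1| ≤ tau L ^ 2 :=
      (hρ.bdd d1).trans (pow_le_pow_left₀ (s5a_tau_nonneg _) (tau_mono hL0 hd1) 2)
    have t2 : |ρ d2| ≤ tau L ^ 2 :=
      (hρ.bdd d2).trans (pow_le_pow_left₀ (s5a_tau_nonneg _) (tau_mono hL0 hd2) 2)
    have t3 := type_one h hm hmq hA hE hϑ hy hsq (s5a_cop (s5a_cop a3 b3) c2) ha hx
    have hLN' : (L : ℝ) ≤ N := by exact_mod_cast hLN
    have t4 : (y * (L : ℝ) / x) ^ ϑ ≤ (y * (N : ℝ) / x) ^ ϑ :=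
      Real.rpow_le_rpow (by positivity) (by gcongr) hϑ0
    have t5 : tau L ^ 2 * (E * x ^ (1 - β) * (y * L / x) ^ ϑ / L) ≤ tau L ^ 2 * (A / L) := by
      rw [hAdef]; gcongr
    have t6 := Finset.single_le_sum hnn (mem_Icc.2 ⟨Nat.pos_of_ne_zero hL0, hLN⟩)
    rw [if_pos hde, if_pos hd1, if_pos hd2, one_mul, one_mul, one_mul] at t6
    rw [abs_mul, abs_mul]
    calc _ ≤ tau L ^ 2 * tau L ^ 2 * (tau L ^ 2 * (A / L)) :=
          mul_le_mul (mul_le_mul t1 t2 (abs_nonneg _) (by positivity)) (t3.trans t5)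
            (abs_nonneg _) (by positivity)
      _ = A * (tau L ^ 6 / L) := by ring
      _ ≤ _ := mul_le_mul_of_nonneg_left t6 hA0
  have hsum : ∀ e ∈ Ps,
      |w e * (Sm (cls m' a fun n => if e ∣ n then an q f ρ n * (n : ℝ) ^ (-β) else 0) x -
        κ * qq f ρ D e * x ^ (1 - β))| ≤ W * (A * ∑ d1 ∈ Icc 1 D, ∑ d2 ∈ Icc 1 D,
          ∑ L ∈ Icc 1 N, (if e ∣ L then (1 : ℝ) else 0) * ((if d1 ∣ L then (1 : ℝ) else 0) *
            ((if d2 ∣ L then (1 : ℝ) else 0) * (tau L ^ 6 / L)))) := by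
    intro e he
    rw [abs_mul]
    refine mul_le_mul (hw e he) ?_ (abs_nonneg _) hW
    have e1 : Sm (cls m' a fun n => if e ∣ n then an q f ρ n * (n : ℝ) ^ (-β) else 0) x -
        κ * qq f ρ D e * x ^ (1 - β) = ∑ d1 ∈ Icc 1 D, ∑ d2 ∈ Icc 1 D,
          ρ d1 * ρ d2 * (Sm (cls m' a fun n => if Nat.lcm (Nat.lcm d1 d2) e ∣ n then
            r0 q f n * (n : ℝ) ^ (-β) else 0) x -
          κ * gg f (Nat.lcm (Nat.lcm d1 d2) e) * x ^ (1 - β)) := by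
      rw [s5a_expand hρ, qq, Finset.mul_sum, Finset.sum_mul, ← Finset.sum_sub_distrib]
      refine Finset.sum_congr rfl fun d1 _ => ?_
      rw [Finset.mul_sum, Finset.sum_mul, ← Finset.sum_sub_distrib]
      exact Finset.sum_congr rfl fun d2 _ => by ring
    rw [e1, Finset.mul_sum]
    refine (Finset.abs_sum_le_sum_abs _ _).trans (Finset.sum_le_sum fun d1 h1 => ?_)
    rw [Finset.mul_sum]
    exact (Finset.abs_sum_le_sum_abs _ _).trans (Finset.sum_le_sum fun d2 h2 =>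
      hterm e he d1 h1 d2 h2)
  refine (Finset.abs_sum_le_sum_abs _ _).trans ((Finset.sum_le_sum hsum).trans ?_)
  rw [← Finset.mul_sum, ← Finset.mul_sum]
  exact mul_le_mul_of_nonneg_left
    (mul_le_mul_of_nonneg_left (s5a_triple Ps (Icc 1 D) (Icc 1 D) N) hA0) hW

end Pool.Agent.Lib.MP_e97e2b_nt.Ln
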