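import Pool.Agent.Lib.MP_e97e2b_nt.Ln.S0

/- Decomposition of the sifted sum.
Let 1 ≤ n ≤ x, n ≡ a, an n ≠ 0 (so n is coprime to q), n = s^2 b with b squarefree (Nat.sq_mul_squarefree).
If n ≤ x^(199/200) or s ≥ x^(1/400), n is in the last sum.  Otherwise, if n has a prime factor k > Z, write n = d k;
d < x / Z = W ≤ Z < k, so d, k are coprime, the divisors of n that are ≤ D divide d, and an n = an d * an k with
an k = r0 k = 1 + f k ∈ {0, 2}; d = 1 gives the first term, d > 1 the second.  Otherwise all prime factors are ≤ Z and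
∑ p ∣ n, log p ≥ log b = log n - 2 log s ≥ (99/100) log x.  All terms on the right are nonnegative.
`log_sum`: ∑ over p ∈ Ps dividing n of log p is ≤ log n ≤ log x, and vanishes for n = 1 where an 1 = 1.
`rest_bound`: an n ≤ tau n ^ 7 ≤ C x^(1/800) (tau_bound), and there are ≤ x^(199/200) + 2 x^(399/400) such n. -/

namespace Pool.Agent.Lib.MP_e97e2b_nt.Ln

open Finset

variable {q : ℕ} {f ρ : ℕ → ℝ}

theorem an_nonneg (h : RC q f) (n : ℕ) : 0 ≤ an q f ρ n := by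
  exact mul_nonneg (r0_nonneg h n) (sq_nonneg _)

theorem an_one (h : RC q f) {D : ℕ} (hρ : Rho q D ρ) : an q f ρ 1 = 1 := by
  simp [an, r0_one h, hρ.one]

theorem an_coprime (h : RC q f) {n : ℕ} (hn : an q f ρ n ≠ 0) : n.Coprime q := by
  exact r0_coprime h (left_ne_zero_of_mul hn)

theorem s5b_rho {D : ℕ} (hρ : Rho q D ρ) {e : ℕ} (he : D < e) : ρ e = 0 := by
  by_contra h0
  exact absurd (hρ.supp e h0).1 (not_le.2 he)

theorem s5b_div {D : ℕ} (hρ : Rho q D ρ) {d k : ℕ} (hd : d ≠ 0) (hk : k.Prime) (hD : D < k) :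
    ∑ e ∈ (d * k).divisors, ρ e = ∑ e ∈ d.divisors, ρ e := by
  symm
  refine sum_subset (Nat.divisors_subset_of_dvd (mul_ne_zero hd hk.ne_zero) (dvd_mul_right d k))
    fun e he hn => ?_
  refine s5b_rho hρ (lt_of_lt_of_le hD ?_)
  have he' := Nat.dvd_of_mem_divisors he
  have he0 : 0 < e := Nat.pos_of_mem_divisors he
  by_contra hlt
  have hc : e.Coprime k := ((Nat.coprime_of_lt_prime he0.ne' (not_le.1 hlt) hk)).symm
  exact hn (Nat.mem_divisors.2 ⟨hc.dvd_of_dvd_mul_right he', hd⟩)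

theorem s5b_prime {D : ℕ} (hρ : Rho q D ρ) {k : ℕ} (hk : k.Prime) (hD : D < k) :
    an q f ρ k = r0 q f k := by
  have := s5b_div hρ one_ne_zero hk hD
  rw [one_mul] at this
  rw [an, this]
  simp [hρ.one]

theorem s5b_mul (h : RC q f) {D : ℕ} (hρ : Rho q D ρ) {d k : ℕ} (hd : d ≠ 0) (hk : k.Prime)
    (hD : D < k) (hdk : d < k) : an q f ρ (d * k) = an q f ρ d * an q f ρ k := by
  rw [s5b_prime hρ hk hD, an, an, s5b_div hρ hd hk hD,
    r0_mul h (Nat.coprime_of_lt_prime hd hdk hk).symm]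
  ring

theorem s5b_multiples (g : ℕ → ℝ) {d : ℕ} (hd : 0 < d) (x : ℝ) :
    Sm g (x / d) = ∑ n ∈ Ioc 0 ⌊x⌋₊, if d ∣ n then g (n / d) else 0 := by
  rw [Sm, Nat.floor_div_natCast, ← sum_filter]
  refine sum_bij' (fun k _ => d * k) (fun n _ => n / d) ?_ ?_ ?_ ?_ ?_
  · intro k hk
    rw [mem_Ioc] at hk
    refine mem_filter.2 ⟨mem_Ioc.2 ⟨Nat.mul_pos hd hk.1, ?_⟩, dvd_mul_right _ _⟩
    rw [mul_comm]
    exact (Nat.le_div_iff_mul_le hd).1 hk.2
  · intro n hn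
    obtain ⟨h1, h2⟩ := mem_filter.1 hn
    rw [mem_Ioc] at h1
    exact mem_Ioc.2 ⟨Nat.div_pos (Nat.le_of_dvd h1.1 h2) hd, Nat.div_le_div_right h1.2⟩
  · intro k _
    exact Nat.mul_div_cancel_left k hd
  · intro n hn
    exact Nat.mul_div_cancel' (mem_filter.1 hn).2
  · intro k _
    simp only [Nat.mul_div_cancel_left k hd]

theorem s5b_log_prod (n : ℕ) :
    ∑ p ∈ n.primeFactors, Real.log p = Real.log ((∏ p ∈ n.primeFactors, p : ℕ) : ℝ) := by
  rw [Nat.cast_prod, Real.log_prod]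
  intro p hp
  exact_mod_cast (Nat.prime_of_mem_primeFactors hp).ne_zero

theorem s5b_log_lo {x : ℝ} (hx : 1 < x) {n : ℕ} (h1 : x ^ (199 / 200 : ℝ) < n)
    (h2 : ∀ s : ℕ, s ^ 2 ∣ n → (s : ℝ) < x ^ (1 / 400 : ℝ)) :
    99 / 100 * Real.log x ≤ ∑ p ∈ n.primeFactors, Real.log p := by
  have hx0 : 0 < x := by linarith
  have hn : (0 : ℝ) < n := (Real.rpow_pos_of_pos hx0 _).trans h1
  have hn0 : n ≠ 0 := by exact_mod_cast hn.ne'
  obtain ⟨b, s, hs, hb⟩ := Nat.sq_mul_squarefree n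
  have hs0 : s ≠ 0 := by
    rintro rfl
    exact hn0 (by simpa using hs.symm)
  have hs1 : (0 : ℝ) < s := by exact_mod_cast Nat.pos_of_ne_zero hs0
  have hb1 : (0 : ℝ) < b := by exact_mod_cast Nat.pos_of_ne_zero hb.ne_zero
  have e1 := Real.log_lt_log (Real.rpow_pos_of_pos hx0 _) h1
  have e2 := Real.log_lt_log hs1 (h2 s ⟨b, hs.symm⟩)
  rw [Real.log_rpow hx0] at e1 e2
  have e3 : Real.log n = 2 * Real.log s + Real.log b := by
    rw [← hs]
    push_cast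
    rw [Real.log_mul (by positivity) hb1.ne', Real.log_pow]
    norm_num
  have e4 : Real.log b ≤ ∑ p ∈ n.primeFactors, Real.log p := by
    conv_lhs => rw [← Nat.prod_primeFactors_of_squarefree hb, ← s5b_log_prod]
    exact sum_le_sum_of_subset_of_nonneg (Nat.primeFactors_mono ⟨s ^ 2, by rw [← hs, mul_comm]⟩ hn0)
      fun p _ _ => Real.log_natCast_nonneg p
  linarith

theorem s5b_log_hi {n : ℕ} (hn : 0 < n) (Ps : Finset ℕ) (hPs : ∀ p ∈ Ps, p.Prime) :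
    ∑ p ∈ Ps, (if p ∣ n then Real.log p else 0) ≤ Real.log n := by
  rw [← sum_filter]
  calc _ ≤ ∑ p ∈ n.primeFactors, Real.log p := by
        refine sum_le_sum_of_subset_of_nonneg (fun p hp => ?_) fun p _ _ =>
          Real.log_natCast_nonneg p
        obtain ⟨h1, h2⟩ := mem_filter.1 hp
        exact Nat.mem_primeFactors.2 ⟨hPs p h1, h2, hn.ne'⟩
    _ ≤ _ := by
        rw [s5b_log_prod]
        refine Real.log_le_log ?_ ?_
        · exact_mod_cast prod_pos fun p hp => (Nat.prime_of_mem_primeFactors hp).pos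
        · exact_mod_cast Nat.le_of_dvd hn (Nat.prod_primeFactors_dvd n)

open Classical in
theorem s5b_point (h : RC q f) {D m a : ℕ} (hρ : Rho q D ρ) {x W Z : ℝ} (hx : 1 < x)
    (hWZ : W * Z = x) (hDW : (D : ℝ) ≤ W) (hW : 0 < W) (hle : W ≤ Z) {n : ℕ}
    (hn : n ∈ Ioc 0 ⌊x⌋₊) :
    cls m a (an q f ρ) n ≤
      (if n.Prime ∧ n ≡ a [MOD m] ∧ f n = 1 then 2 else 0) +
      ∑ d ∈ Ioc 1 ⌊W⌋₊, an q f ρ d *
        (if d ∣ n then (if d * (n / d) ≡ a [MOD m] then an q f ρ (n / d) else 0) else 0) +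
      (∑ p ∈ (Ioc 0 ⌊Z⌋₊).filter (fun p => p.Prime ∧ p.Coprime q),
        Real.log p * cls m a (fun n => if p ∣ n then an q f ρ n else 0) n) /
          (99 / 100 * Real.log x) +
      (if (n : ℝ) ≤ x ^ (199 / 200 : ℝ) ∨ ∃ s : ℕ, x ^ (1 / 400 : ℝ) ≤ s ∧ s ^ 2 ∣ n
        then an q f ρ n else 0) := by
  have nn := an_nonneg (ρ := ρ) h
  have hL : 0 < 99 / 100 * Real.log x := mul_pos (by norm_num) (Real.log_pos hx)
  have hZ : 0 < Z := hW.trans_le hle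
  have b0 : ∀ d : ℕ, 0 ≤ an q f ρ d *
      (if d ∣ n then (if d * (n / d) ≡ a [MOD m] then an q f ρ (n / d) else 0) else 0) :=
    fun d => mul_nonneg (nn _) (by split_ifs <;> first | exact nn _ | exact le_rfl)
  have c0 : ∀ p : ℕ, 0 ≤ Real.log p * cls m a (fun n => if p ∣ n then an q f ρ n else 0) n :=
    fun p => mul_nonneg (Real.log_natCast_nonneg p) (by
      simp only [cls]
      split_ifs <;> first | exact nn _ | exact le_rfl)
  set A : ℝ := if n.Prime ∧ n ≡ a [MOD m] ∧ f n = 1 then 2 else 0 with hA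
  set B : ℝ := ∑ d ∈ Ioc 1 ⌊W⌋₊, an q f ρ d *
    (if d ∣ n then (if d * (n / d) ≡ a [MOD m] then an q f ρ (n / d) else 0) else 0) with hB
  set C : ℝ := (∑ p ∈ (Ioc 0 ⌊Z⌋₊).filter (fun p => p.Prime ∧ p.Coprime q),
    Real.log p * cls m a (fun n => if p ∣ n then an q f ρ n else 0) n) /
      (99 / 100 * Real.log x) with hC
  set E : ℝ := if (n : ℝ) ≤ x ^ (199 / 200 : ℝ) ∨ ∃ s : ℕ, x ^ (1 / 400 : ℝ) ≤ s ∧ s ^ 2 ∣ n
    then an q f ρ n else 0 with hE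
  have A0 : 0 ≤ A := by
    rw [hA]
    split_ifs <;> norm_num
  have B0 : 0 ≤ B := sum_nonneg fun d _ => b0 d
  have C0 : 0 ≤ C := div_nonneg (sum_nonneg fun p _ => c0 p) hL.le
  have E0 : 0 ≤ E := by
    rw [hE]
    split_ifs
    exacts [nn _, le_rfl]
  by_cases ha : n ≡ a [MOD m]
  swap
  · rw [cls, if_neg ha]
    positivity
  rw [cls, if_pos ha]
  by_cases h0 : an q f ρ n = 0
  · rw [h0]
    positivity
  have hq := an_coprime h h0
  obtain ⟨n0, nx⟩ := mem_Ioc.1 hn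
  have nx' : (n : ℝ) ≤ x := (Nat.le_floor_iff (by linarith)).1 nx
  by_cases hc : (n : ℝ) ≤ x ^ (199 / 200 : ℝ) ∨ ∃ s : ℕ, x ^ (1 / 400 : ℝ) ≤ s ∧ s ^ 2 ∣ n
  · rw [if_pos hc] at hE
    linarith
  by_cases hk : ∃ k : ℕ, k.Prime ∧ k ∣ n ∧ Z < k
  · obtain ⟨k, kp, ⟨d, hd⟩, kZ⟩ := hk
    rw [mul_comm] at hd
    have d0 : d ≠ 0 := by
      rintro rfl
      omega
    have d1 : (0 : ℝ) < d := by exact_mod_cast Nat.pos_of_ne_zero d0
    have dW : (d : ℝ) < W := by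
      have e : (n : ℝ) = d * k := by exact_mod_cast hd
      have : (d : ℝ) * Z < W * Z := by nlinarith
      exact lt_of_mul_lt_mul_right this hZ.le
    have dk : d < k := by exact_mod_cast dW.trans (hle.trans_lt kZ)
    have Dk : D < k := by exact_mod_cast hDW.trans_lt (hle.trans_lt kZ)
    by_cases hd1 : d = 1
    · rw [hd1, one_mul] at hd
      subst hd
      have e := (s5b_prime (f := f) hρ kp Dk).trans (r0_prime h kp hq)
      have f1 : f n = 1 := by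
        rcases h.cases n with ⟨_, h1 | h1⟩ | ⟨h1, _⟩
        · exact h1
        · exact absurd (by rw [e, h1]; norm_num) h0
        · exact absurd hq h1
      rw [if_pos ⟨kp, ha, f1⟩] at hA
      linarith
    · have hm : d ∈ Ioc 1 ⌊W⌋₊ := mem_Ioc.2 ⟨by omega, Nat.le_floor dW.le⟩
      have e := single_le_sum (fun d _ => b0 d) hm
      have e2 : n / d = k := by rw [hd, Nat.mul_div_cancel_left k (Nat.pos_of_ne_zero d0)]
      rw [← hB, if_pos ⟨k, hd⟩, e2, ← hd, if_pos ha, ← s5b_mul h hρ d0 kp Dk dk, ← hd] at e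
      linarith
  · push Not at hc hk
    have e := s5b_log_lo hx hc.1 fun s hs => lt_of_not_ge fun h' => hc.2 s h' hs
    have : an q f ρ n ≤ C := by
      rw [hC, le_div_iff₀ hL]
      calc _ ≤ an q f ρ n * ∑ p ∈ n.primeFactors, Real.log p :=
            mul_le_mul_of_nonneg_left e (nn n)
        _ = ∑ p ∈ n.primeFactors,
            Real.log p * cls m a (fun n => if p ∣ n then an q f ρ n else 0) n := by
            rw [mul_sum]
            refine sum_congr rfl fun p hp => ?_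
            rw [cls, if_pos ha, if_pos (Nat.dvd_of_mem_primeFactors hp), mul_comm]
        _ ≤ _ := by
            refine sum_le_sum_of_subset_of_nonneg (fun p hp => ?_) fun p _ _ => c0 p
            have pp := Nat.prime_of_mem_primeFactors hp
            have pd := Nat.dvd_of_mem_primeFactors hp
            exact mem_filter.2 ⟨mem_Ioc.2 ⟨pp.pos, Nat.le_floor (hk p pp pd)⟩, pp,
              Nat.Coprime.coprime_dvd_left pd hq⟩
    linarith

open Classical in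
theorem decomp (h : RC q f) {D m a : ℕ} (hρ : Rho q D ρ) {x W Z : ℝ} (hx : 1 < x)
    (hWZ : W * Z = x) (hDW : (D : ℝ) ≤ W) (hW : 0 < W) (hle : W ≤ Z) :
    Sm (cls m a (an q f ρ)) x ≤
      2 * (((Ioc 0 ⌊x⌋₊).filter fun p => p.Prime ∧ p ≡ a [MOD m] ∧ f p = 1).card : ℝ) +
      ∑ d ∈ Ioc 1 ⌊W⌋₊, an q f ρ d * Sm (fun k => if d * k ≡ a [MOD m] then an q f ρ k else 0) (x / d) +
      (∑ p ∈ (Ioc 0 ⌊Z⌋₊).filter (fun p => p.Prime ∧ p.Coprime q),
        Real.log p * Sm (cls m a fun n => if p ∣ n then an q f ρ n else 0) x) /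
          (99 / 100 * Real.log x) +
      ∑ n ∈ (Ioc 0 ⌊x⌋₊).filter (fun n : ℕ => (n : ℝ) ≤ x ^ (199 / 200 : ℝ) ∨
        ∃ s : ℕ, x ^ (1 / 400 : ℝ) ≤ s ∧ s ^ 2 ∣ n), an q f ρ n := by
  refine (sum_le_sum fun n hn => s5b_point (m := m) (a := a) h hρ hx hWZ hDW hW hle hn).trans
    (le_of_eq ?_)
  rw [sum_add_distrib, sum_add_distrib, sum_add_distrib, ← sum_filter, ← sum_filter, ← sum_div,
    sum_const, nsmul_eq_mul, mul_comm]
  congr 2
  · congr 1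
    rw [sum_comm]
    refine sum_congr rfl fun d hd => ?_
    rw [s5b_multiples _ (zero_lt_one.trans (mem_Ioc.1 hd).1), mul_sum]
  · congr 1
    rw [sum_comm]
    refine sum_congr rfl fun p _ => ?_
    rw [Sm, mul_sum]

theorem log_sum (h : RC q f) {D : ℕ} (hρ : Rho q D ρ) {x β : ℝ} (hx : 1 ≤ x) (Ps : Finset ℕ)
    (hPs : ∀ p ∈ Ps, p.Prime) :
    ∑ p ∈ Ps, Real.log p * Sm (fun n => if p ∣ n then an q f ρ n * (n : ℝ) ^ (-β) else 0) x ≤
      Real.log x * (Sm (fun n => an q f ρ n * (n : ℝ) ^ (-β)) x - 1) := by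
  have h1 : 1 ∈ Ioc 0 ⌊x⌋₊ := mem_Ioc.2 ⟨one_pos, Nat.le_floor (by exact_mod_cast hx)⟩
  have w0 : ∀ n : ℕ, 0 ≤ an q f ρ n * (n : ℝ) ^ (-β) := fun n =>
    mul_nonneg (an_nonneg h n) (Real.rpow_nonneg n.cast_nonneg _)
  calc _ = ∑ n ∈ Ioc 0 ⌊x⌋₊, an q f ρ n * (n : ℝ) ^ (-β) *
        ∑ p ∈ Ps, (if p ∣ n then Real.log p else 0) := by
        simp only [Sm, mul_sum]
        rw [sum_comm]
        refine sum_congr rfl fun n _ => sum_congr rfl fun p _ => ?_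
        split_ifs <;> ring
    _ ≤ ∑ n ∈ Ioc 0 ⌊x⌋₊, an q f ρ n * (n : ℝ) ^ (-β) * Real.log n :=
        sum_le_sum fun n hn => mul_le_mul_of_nonneg_left
          (s5b_log_hi (mem_Ioc.1 hn).1 Ps hPs) (w0 n)
    _ ≤ _ := by
        rw [Sm, ← add_sum_erase _ _ h1, ← add_sum_erase _ _ h1, an_one h hρ]
        simp only [Nat.cast_one, Real.one_rpow, Real.log_one, mul_zero, zero_add, mul_one,
          add_sub_cancel_left, mul_sum]
        refine sum_le_sum fun n hn => ?_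
        obtain ⟨n0, nx⟩ := mem_Ioc.1 (mem_of_mem_erase hn)
        rw [mul_comm (Real.log x)]
        exact mul_le_mul_of_nonneg_left (Real.log_le_log (by exact_mod_cast n0)
          ((Nat.le_floor_iff (by linarith)).1 nx)) (w0 n)

theorem s5b_tau (h : RC q f) {D : ℕ} (hρ : Rho q D ρ) {n : ℕ} (hn : n ≠ 0) :
    an q f ρ n ≤ tau n ^ 7 := by
  have t0 : ∀ d, 0 ≤ tau d := fun d => Nat.cast_nonneg _
  have e : |∑ d ∈ n.divisors, ρ d| ≤ tau n ^ 3 := by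
    refine (abs_sum_le_sum_abs _ _).trans ?_
    refine (sum_le_card_nsmul _ _ (tau n ^ 2) fun d hd => (hρ.bdd d).trans
      (pow_le_pow_left₀ (t0 d) (tau_mono hn (Nat.dvd_of_mem_divisors hd)) 2)).trans (le_of_eq ?_)
    rw [nsmul_eq_mul, ← tau]
    ring
  have e2 : (∑ d ∈ n.divisors, ρ d) ^ 2 ≤ (tau n ^ 3) ^ 2 := by
    rw [← sq_abs]
    exact pow_le_pow_left₀ (abs_nonneg _) e 2
  calc _ ≤ tau n * (tau n ^ 3) ^ 2 := mul_le_mul (r0_le h n) e2 (sq_nonneg _) (t0 n)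
    _ = _ := by ring

open Classical in
theorem s5b_count {x y z : ℝ} (hx : 0 ≤ x) (hy : 0 < y) (hz : 0 ≤ z) :
    (((Ioc 0 ⌊x⌋₊).filter (fun n : ℕ => (n : ℝ) ≤ z ∨ ∃ s : ℕ, y ≤ s ∧ s ^ 2 ∣ n)).card : ℝ) ≤
      z + 2 * x / y := by
  have c0 : 0 < ⌈y⌉₊ := Nat.ceil_pos.2 hy
  have hs : (Ioc 0 ⌊x⌋₊).filter (fun n : ℕ => (n : ℝ) ≤ z ∨ ∃ s : ℕ, y ≤ s ∧ s ^ 2 ∣ n) ⊆
      Ioc 0 ⌊z⌋₊ ∪ (Ioo (⌈y⌉₊ - 1) (⌊x⌋₊ + 1)).biUnion
        fun s => (Ioc 0 ⌊x⌋₊).filter fun n => s ^ 2 ∣ n := by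
    intro n hn
    obtain ⟨h1, h2 | ⟨s, h2, h3⟩⟩ := mem_filter.1 hn
    · exact mem_union_left _ (mem_Ioc.2 ⟨(mem_Ioc.1 h1).1, Nat.le_floor h2⟩)
    · refine mem_union_right _ (mem_biUnion.2 ⟨s, mem_Ioo.2 ⟨?_, ?_⟩, mem_filter.2 ⟨h1, h3⟩⟩)
      · have := Nat.ceil_le.2 h2
        omega
      · have := Nat.le_of_dvd (mem_Ioc.1 h1).1 ((dvd_pow_self s two_ne_zero).trans h3)
        have := (mem_Ioc.1 h1).2
        omega
  have h1 := (card_le_card hs).trans ((card_union_le _ _).trans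
    (Nat.add_le_add_left card_biUnion_le _))
  simp only [Nat.card_Ioc, Nat.sub_zero, Nat.Ioc_filter_dvd_card_eq_div] at h1
  refine (Nat.cast_le.2 h1).trans ?_
  push_cast
  refine add_le_add (Nat.floor_le hz) ?_
  calc _ ≤ ∑ s ∈ Ioo (⌈y⌉₊ - 1) (⌊x⌋₊ + 1), x * ((s : ℝ) ^ 2)⁻¹ := by
        refine sum_le_sum fun s _ => Nat.cast_div_le.trans ?_
        rw [div_eq_mul_inv, Nat.cast_pow]
        exact mul_le_mul_of_nonneg_right (Nat.floor_le hx) (by positivity)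
    _ ≤ x * (2 / (((⌈y⌉₊ - 1 : ℕ) : ℝ) + 1)) := by
        rw [← mul_sum]
        exact mul_le_mul_of_nonneg_left (sum_Ioo_inv_sq_le _ _) hx
    _ ≤ _ := by
        rw [Nat.cast_pred c0, sub_add_cancel, mul_comm 2 x, mul_div_assoc]
        exact mul_le_mul_of_nonneg_left
          (div_le_div_of_nonneg_left zero_le_two hy (Nat.le_ceil y)) hx

open Classical in
theorem rest_bound : ∃ C : ℝ, 0 ≤ C ∧ ∀ (q D : ℕ) (f ρ : ℕ → ℝ) (x : ℝ), RC q f → Rho q D ρ →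
    1 ≤ x → ∑ n ∈ (Ioc 0 ⌊x⌋₊).filter (fun n : ℕ => (n : ℝ) ≤ x ^ (199 / 200 : ℝ) ∨
        ∃ s : ℕ, x ^ (1 / 400 : ℝ) ≤ s ∧ s ^ 2 ∣ n), an q f ρ n ≤ C * x ^ (799 / 800 : ℝ) := by
  obtain ⟨C, C1, hC⟩ := tau_bound 7 (1 / 800) (by norm_num)
  refine ⟨3 * C, by linarith, fun q D f ρ x h hρ hx => ?_⟩
  have x0 : 0 < x := by linarith
  refine (sum_le_card_nsmul _ _ (C * x ^ (1 / 800 : ℝ)) fun n hn => ?_).trans ?_
  · obtain ⟨n0, nx⟩ := mem_Ioc.1 (mem_filter.1 hn).1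
    refine (s5b_tau h hρ n0.ne').trans ((hC n n0).trans ?_)
    exact mul_le_mul_of_nonneg_left (Real.rpow_le_rpow n.cast_nonneg
      ((Nat.le_floor_iff x0.le).1 nx) (by norm_num)) (by linarith)
  · rw [nsmul_eq_mul]
    have e := s5b_count x0.le (Real.rpow_pos_of_pos x0 (1 / 400)) (Real.rpow_nonneg x0.le (199 / 200))
    have e1 : x ^ (199 / 200 : ℝ) ≤ x ^ (399 / 400 : ℝ) :=
      Real.rpow_le_rpow_of_exponent_le hx (by norm_num)
    have e2 : x / x ^ (1 / 400 : ℝ) = x ^ (399 / 400 : ℝ) := by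
      rw [show (399 / 400 : ℝ) = 1 - 1 / 400 by norm_num, Real.rpow_sub x0, Real.rpow_one]
    have e3 : x ^ (799 / 800 : ℝ) = x ^ (399 / 400 : ℝ) * x ^ (1 / 800 : ℝ) := by
      rw [← Real.rpow_add x0]
      norm_num
    rw [mul_div_assoc, e2] at e
    calc _ ≤ 3 * x ^ (399 / 400 : ℝ) * (C * x ^ (1 / 800 : ℝ)) :=
          mul_le_mul_of_nonneg_right (by linarith) (by positivity)
      _ = _ := by rw [e3]; ring

end Pool.Agent.Lib.MP_e97e2b_nt.Ln
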