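import Pool.Agent.Lib.MP_e97e2b_nt.Ln.S4
import Pool.Agent.Lib.MP_e97e2b_nt.Ln.S5a
import Pool.Agent.Lib.MP_e97e2b_nt.Ln.S5b

/- One step of the sieve with abstract error terms.
Notation: p = 1 - β, φ = totient m ≤ m, κβ = φ κ0 / p, Q = qq f ρ D 1 ∈ (0, 1], T0 = κβ Q, τ = T0 x^p,
ω = x^β p / φ > 0 (so κ0 x = κβ x^p ω and κ0 Q x = ω τ, ω ≥ x p / (2.14 m)), e = E0 x ν Δ, Ps = primes ≤ Z coprime
to q, Σ = ∑ p ∈ Ps, log p * qq f ρ D p.  All error factors (y D^2 / x), (y D^2 ⌊Z⌋ / x), (y D^2 d / x) for d ≤ W are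
≤ y D^2 / W (x = W Z, 1 ≤ W ≤ Z).  From sift_sum (β = 0 and modulus m, or β and modulus 1; Ps = {1} or primes):
 (a) Sm (cls m a an) x ≥ ω τ - e;   (b) ∑ log p Sm (...) x ≤ κ0 x Σ + log x * e;
 (c) κβ x^p Σ ≤ (left side of log_sum) + log x / 1000;   (d) T_x ≤ τ + 1/1000,
 1 ≤ T_W ≤ T0 W^p + 1/1000 (T_X = Sm (an n^(-β)) X ≥ an 1 = 1), so T0 > 0 and κ0 > 0;
 (e) GG ≥ ∑ n ≤ D, r0 n / n ≥ D^(-p) Sm (r0 n^(-β)) D ≥ κβ - 1/1000 (GG_ge, hβ at x = D), so T0 ≤ 1.001;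
 (f) for d ≤ W with an d ≠ 0 (coprime to m, so d k ≡ a iff k ≡ h for a reduced class h) the inner sum is
 ≤ (ω τ + e) / d, and ∑ 1 < d ≤ W, an d / d ≤ T_W - 1 ≤ 0.36.
Insert in decomp: ω τ - e ≤ 2 N + 0.36 (ω τ + e) + (ω (τ - 1 + 0.002) + e) / 0.99 + Rr, with τ ≤ 2.143; hence
ω / 5 ≤ 2 N + 3 e + Rr. -/

namespace Pool.Agent.Lib.MP_e97e2b_nt.Ln

open Finset

variable {q : ℕ} {f ρ : ℕ → ℝ}

lemma s6_ds_mono {M N : ℕ} (h : M ≤ N) : DS M ≤ DS N :=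
  sum_le_sum_of_subset_of_nonneg (Icc_subset_Icc_right h) fun e _ _ => by
    unfold tau; positivity

lemma s6_ds_one {N : ℕ} (h : 1 ≤ N) : 1 ≤ DS N :=
  le_trans (by simp [DS, tau]) (s6_ds_mono h)

lemma s6_cls_one (g : ℕ → ℝ) : cls 1 0 g = g := by
  funext n
  simp [cls, Nat.modEq_one]

lemma s6_one (h : RC q f) {D m' a : ℕ} {β κ E ϑ y X W ν Δ : ℝ} (hρ : Rho q D ρ) (hD : 1 ≤ D)
    (hm : 0 < m') (hmq : m' ∣ q) (hA : Asy q f m' β κ E ϑ y) (hE : 0 ≤ E) (hϑ0 : 0 ≤ ϑ)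
    (hϑ : ϑ ≤ 1) (hy : 0 < y) (ha : a.Coprime m') (hW : 0 < W) (hX : W ≤ X)
    (hν : (y * (D : ℝ) ^ 2 / W) ^ ϑ ≤ ν) (hΔ : DS (D ^ 2) ≤ Δ) :
    |Sm (cls m' a fun n => an q f ρ n * (n : ℝ) ^ (-β)) X - κ * qq f ρ D 1 * X ^ (1 - β)| ≤
      E * X ^ (1 - β) * ν * Δ := by
  have hX0 := hW.trans_le hX
  have h0 := sift_sum h (Zb := 1) hρ hm hmq hA hE hϑ0 hϑ hy ha hX0 {1} (by simp)
    (fun _ => 1) (W := 1) (by simp) zero_le_one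
  simp only [sum_singleton, one_dvd, if_true, one_mul, mul_one] at h0
  refine h0.trans ?_
  have h1 : (y * (D ^ 2 : ℕ) / X) ^ ϑ ≤ ν :=
    le_trans (Real.rpow_le_rpow (by positivity) (by push_cast; gcongr) hϑ0) hν
  have h2 : 1 ≤ DS (D ^ 2) := s6_ds_one (Nat.one_le_pow _ _ hD)
  have h3 : 0 ≤ ν := le_trans (by positivity) hν
  gcongr

lemma s6_primes (h : RC q f) {D m' a : ℕ} {β κ E ϑ y x W Z ν Δ : ℝ} (hρ : Rho q D ρ)
    (hm : 0 < m') (hmq : m' ∣ q) (hA : Asy q f m' β κ E ϑ y) (hE : 0 ≤ E) (hϑ0 : 0 ≤ ϑ)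
    (hϑ : ϑ ≤ 1) (hy : 0 < y) (ha : a.Coprime m') (hW : 1 ≤ W) (hle : W ≤ Z) (hWZ : W * Z = x)
    (hν : (y * (D : ℝ) ^ 2 / W) ^ ϑ ≤ ν) (hΔ : DS (D ^ 2 * ⌊Z⌋₊) ≤ Δ) :
    |∑ p ∈ (Ioc 0 ⌊Z⌋₊).filter (fun p => p.Prime ∧ p.Coprime q), Real.log p *
        Sm (cls m' a fun n => if p ∣ n then an q f ρ n * (n : ℝ) ^ (-β) else 0) x -
      κ * x ^ (1 - β) * ∑ p ∈ (Ioc 0 ⌊Z⌋₊).filter (fun p => p.Prime ∧ p.Coprime q),
        Real.log p * qq f ρ D p| ≤ Real.log x * (E * x ^ (1 - β) * ν * Δ) := by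
  have hZ : 1 ≤ Z := hW.trans hle
  have hZx : Z ≤ x := by nlinarith
  have hx : 1 ≤ x := hZ.trans hZx
  have hl := Real.log_nonneg hx
  have h0 := sift_sum h (Zb := ⌊Z⌋₊) hρ hm hmq hA hE hϑ0 hϑ hy ha (one_pos.trans_le hx)
    ((Ioc 0 ⌊Z⌋₊).filter (fun p => p.Prime ∧ p.Coprime q))
    (fun e he => ⟨(mem_filter.1 he).2.1.squarefree, (mem_filter.1 he).2.2,
      (mem_Ioc.1 (mem_filter.1 he).1).2⟩)
    (fun p => Real.log p) (W := Real.log x) (fun e he => by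
      obtain ⟨h1, h2⟩ := mem_Ioc.1 (mem_filter.1 he).1
      rw [abs_of_nonneg (Real.log_natCast_nonneg e)]
      exact Real.log_le_log (by exact_mod_cast h1)
        ((((Nat.le_floor_iff (by positivity)).1 h2)).trans hZx)) hl
  have h1 : (y * (D ^ 2 * ⌊Z⌋₊ : ℕ) / x) ^ ϑ ≤ ν := by
    refine le_trans (Real.rpow_le_rpow (by positivity) ?_ hϑ0) hν
    have h2 := Nat.floor_le (zero_le_one.trans hZ)
    calc y * (D ^ 2 * ⌊Z⌋₊ : ℕ) / x ≤ y * ((D : ℝ) ^ 2 * Z) / x := by push_cast; gcongr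
      _ = _ := by rw [← hWZ]; field_simp
  have h3 : 0 ≤ ν := le_trans (by positivity) hν
  have h2 : 0 ≤ DS (D ^ 2 * ⌊Z⌋₊) := le_trans (by simp [DS]) (s6_ds_mono (Nat.zero_le _))
  refine le_trans (le_of_eq ?_) (h0.trans (by gcongr))
  rw [mul_sum, ← sum_sub_distrib]
  exact congrArg _ (sum_congr rfl fun p _ => by ring)

lemma s6_gg (h : RC q f) {D : ℕ} (hD : 1 ≤ D) {β κ E ϑ y : ℝ} (hβ1 : β < 1)
    (hA : Asy q f 1 β κ E ϑ y) : κ - E * (y / D) ^ ϑ ≤ GG (gp f) q D := by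
  have hD0 : (0 : ℝ) < D := by exact_mod_cast hD
  have h1 := (abs_le.1 (hA 0 (by simp) D hD0)).1
  rw [s6_cls_one, ab_Sm_nat] at h1
  have hp : 0 < (D : ℝ) ^ (1 - β) := by positivity
  refine le_trans (le_of_mul_le_mul_right ?_ hp) (GG_ge h D)
  have h2 : ∑ n ∈ Ioc 0 D, r0 q f n * (n : ℝ) ^ (-β) ≤
      (∑ n ∈ Ioc 0 D, r0 q f n / n) * (D : ℝ) ^ (1 - β) := by
    rw [sum_mul]
    refine sum_le_sum fun n hn => ?_
    obtain ⟨h3, h4⟩ := mem_Ioc.1 hn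
    have h5 : (0 : ℝ) < n := by exact_mod_cast h3
    have h6 := r0_nonneg h n
    calc r0 q f n * (n : ℝ) ^ (-β) = r0 q f n / n * (n : ℝ) ^ (1 - β) := by
          rw [sub_eq_add_neg, Real.rpow_add h5, Real.rpow_one]; field_simp
      _ ≤ _ := by
          have h7 : (n : ℝ) ≤ D := by exact_mod_cast h4
          have h8 := sub_nonneg.2 hβ1.le
          gcongr
  linarith

lemma s6_class {m a d : ℕ} (hm : 0 < m) (ha : a.Coprime m) (hd : d.Coprime m) :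
    ∃ c : ℕ, c.Coprime m ∧ ∀ k, d * k ≡ a [MOD m] ↔ k ≡ c [MOD m] := by
  obtain ⟨c, hc⟩ : ∃ c, d * c ≡ a [MOD m] := by
    refine ⟨d ^ (m.totient - 1) * a, ?_⟩
    rw [← mul_assoc, ← pow_succ', Nat.sub_add_cancel (Nat.totient_pos.2 hm)]
    simpa using (Nat.ModEq.pow_totient hd).mul_right a
  refine ⟨c, ?_, fun k => ⟨fun hk => ?_, fun hk => (hk.mul_left d).trans hc⟩⟩
  · exact Nat.Coprime.coprime_mul_left (m := c) (k := d) (hc.gcd_eq.trans ha)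
  · exact Nat.ModEq.cancel_left_of_coprime hd.symm (hk.trans hc.symm)

lemma s6_split (h : RC q f) {D : ℕ} (hρ : Rho q D ρ) (β : ℝ) {W : ℝ} (hW : 1 ≤ W) :
    Sm (fun n => an q f ρ n * (n : ℝ) ^ (-β)) W =
      1 + ∑ d ∈ Ioc 1 ⌊W⌋₊, an q f ρ d * (d : ℝ) ^ (-β) := by
  rw [Sm, ← sum_Ioc_consecutive _ zero_le_one (Nat.le_floor (by exact_mod_cast hW))]
  simp [show Ioc 0 1 = {1} from rfl, an_one h hρ]

open Classical in
theorem sieve_step {q m a D : ℕ} {f ρ : ℕ → ℝ} {β κ0 E0 Eβ ϑ y x W Z ν Δ Rr : ℝ} (h : RC q f)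
    (hρ : Rho q D ρ) (hD : 1 ≤ D) (hG : 1 ≤ GG (gp f) q D)
    (hQ : qq f ρ D 1 * GG (gp f) q D = 1) (hm : 0 < m) (hmq : m ∣ q) (ha : a.Coprime m)
    (hβ0 : 0 ≤ β) (hβ1 : β < 1) (h0 : Asy q f m 0 κ0 E0 ϑ y)
    (hβ : Asy q f 1 β (m.totient * κ0 / (1 - β)) Eβ ϑ y) (hE0 : 0 ≤ E0) (hEβ : 0 ≤ Eβ)
    (hϑ0 : 0 ≤ ϑ) (hϑ : ϑ ≤ 1) (hy : 0 < y) (hx : 1 < x) (hWZ : W * Z = x) (hDW : (D : ℝ) ≤ W)
    (hle : W ≤ Z) (hxp : x ^ (1 - β) ≤ 214 / 100) (hWp : W ^ (1 - β) ≤ 1354 / 1000)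
    (hν1 : (y * (D : ℝ) ^ 2 / W) ^ ϑ ≤ ν) (hν2 : (y / D) ^ ϑ ≤ ν)
    (hΔ : DS (D ^ 2 * ⌊Z⌋₊) ≤ Δ) (hsmall : 3 * Eβ * ν * Δ ≤ 1 / 1000)
    (hR : ∑ n ∈ (Ioc 0 ⌊x⌋₊).filter (fun n : ℕ => (n : ℝ) ≤ x ^ (199 / 200 : ℝ) ∨
        ∃ s : ℕ, x ^ (1 / 400 : ℝ) ≤ s ∧ s ^ 2 ∣ n), an q f ρ n ≤ Rr) :
    x * (1 - β) / (15 * m) ≤
      2 * (((Ioc 0 ⌊x⌋₊).filter fun p => p.Prime ∧ p ≡ a [MOD m] ∧ f p = 1).card : ℝ) +
        3 * E0 * x * ν * Δ + Rr := by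
  have hD1 : (1 : ℝ) ≤ D := by exact_mod_cast hD
  have hW : 1 ≤ W := hD1.trans hDW
  have hW0 : 0 < W := one_pos.trans_le hW
  have hZ : 1 ≤ Z := hW.trans hle
  have hWx : W ≤ x := by nlinarith
  have hx0 : 0 < x := one_pos.trans hx
  have hl := Real.log_pos hx
  have hν : 0 ≤ ν := le_trans (by positivity) hν2
  have hΔ1 : DS (D ^ 2) ≤ Δ := le_trans (s6_ds_mono (Nat.le_mul_of_pos_right _
    (Nat.floor_pos.2 hZ))) hΔ
  have hΔ2 : 1 ≤ Δ := (s6_ds_one (Nat.one_le_pow _ _ hD)).trans hΔ1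
  have hp : 0 < 1 - β := sub_pos.2 hβ1
  have hφ : (0 : ℝ) < m.totient := by exact_mod_cast Nat.totient_pos.2 hm
  have hφm : (m.totient : ℝ) ≤ m := by exact_mod_cast Nat.totient_le m
  have hs : 0 ≤ Eβ * ν * Δ := by positivity
  have he : 0 ≤ E0 * x * ν * Δ := by positivity
  have hxp0 : 0 < x ^ (1 - β) := by positivity
  have hWp0 : 0 < W ^ (1 - β) := by positivity
  have c1 : Nat.Coprime 0 1 := by simp
  have a1 := fun (c : ℕ) (hc : c.Coprime m) (X : ℝ) (hX : W ≤ X) =>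
    abs_le.1 (s6_one h hρ hD hm hmq h0 hE0 hϑ0 hϑ hy hc hW0 hX hν1 hΔ1)
  have a2 := (abs_le.1 (s6_primes h hρ hm hmq h0 hE0 hϑ0 hϑ hy ha hW hle hWZ hν1 hΔ)).2
  have a3 := (abs_le.1 (s6_primes h hρ one_pos (one_dvd q) hβ hEβ hϑ0 hϑ hy c1 hW hle hWZ
    hν1 hΔ)).1
  have a4 := fun (X : ℝ) (hX : W ≤ X) =>
    (abs_le.1 (s6_one h hρ hD one_pos (one_dvd q) hβ hEβ hϑ0 hϑ hy c1 hW0 hX hν1 hΔ1)).2
  have a5 := s6_gg h hD hβ1 hβ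
  have a6 := log_sum h hρ (β := β) hx.le ((Ioc 0 ⌊Z⌋₊).filter (fun p => p.Prime ∧ p.Coprime q))
    fun p hp => (mem_filter.1 hp).2.1
  have a7 := decomp h (m := m) (a := a) hρ hx hWZ hDW hW0 hle
  have a8 := s6_split h hρ β hW
  simp only [neg_zero, Real.rpow_zero, mul_one, sub_zero, Real.rpow_one] at a1 a2
  simp only [s6_cls_one] at a3 a4
  obtain ⟨ω, hω, hω1, hω2⟩ : ∃ ω : ℝ, 0 < ω ∧ x * (1 - β) / (15 * m) ≤ ω / 5 ∧
      κ0 * x = ω * (m.totient * κ0 / (1 - β) * x ^ (1 - β)) := by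
    refine ⟨x * (1 - β) / (x ^ (1 - β) * m.totient), by positivity, ?_, by field_simp⟩
    rw [div_div]
    refine div_le_div_of_nonneg_left (by positivity) (by positivity) ?_
    linarith [mul_le_mul hxp hφm hφ.le (by norm_num)]
  generalize m.totient * κ0 / (1 - β) = κ at *
  generalize qq f ρ D 1 = Q at *
  generalize GG (gp f) q D = G at *
  have hQ0 : 0 < Q := pos_of_mul_pos_left (hQ ▸ one_pos) (zero_le_one.trans hG)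
  have hQ1 : Q ≤ 1 := hQ ▸ le_mul_of_one_le_right hQ0.le hG
  have b1 : κ * Q ≤ 1001 / 1000 := by
    have : Eβ * (y / D) ^ ϑ ≤ Eβ * ν * Δ :=
      (mul_le_mul_of_nonneg_left hν2 hEβ).trans (le_mul_of_one_le_right (by positivity) hΔ2)
    have : κ ≤ G + 1 / 1000 := by linarith
    linarith [mul_le_mul_of_nonneg_right this hQ0.le]
  have b2 : 0 ≤ ∑ d ∈ Ioc 1 ⌊W⌋₊, an q f ρ d * (d : ℝ) ^ (-β) :=
    sum_nonneg fun d _ => mul_nonneg (an_nonneg h d) (by positivity)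
  have b3 := a4 W le_rfl
  have b4 := a4 x hWx
  have b5 : Eβ * W ^ (1 - β) * ν * Δ ≤ 1 / 1000 := by
    linarith [mul_le_mul_of_nonneg_left hWp hs]
  have b6 : Eβ * x ^ (1 - β) * ν * Δ ≤ 1 / 1000 := by
    linarith [mul_le_mul_of_nonneg_left hxp hs]
  have b7 : 0 < κ * Q := pos_of_mul_pos_left (by linarith) hWp0.le
  have b8 : ∑ d ∈ Ioc 1 ⌊W⌋₊, an q f ρ d * (d : ℝ) ^ (-β) ≤ 36 / 100 := by
    linarith [mul_le_mul b1 hWp hWp0.le (by norm_num)]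
  obtain ⟨τ, hτ⟩ : ∃ τ, τ = κ * Q * x ^ (1 - β) := ⟨_, rfl⟩
  have b9 : τ ≤ 2143 / 1000 := by linarith [mul_le_mul b1 hxp hxp0.le (by norm_num)]
  have b10 : 0 < τ := hτ ▸ mul_pos b7 hxp0
  have b11 : κ0 * Q * x = ω * τ := by rw [hτ, mul_right_comm, hω2]; ring
  have d1 : ∑ d ∈ Ioc 1 ⌊W⌋₊, an q f ρ d *
      Sm (fun k => if d * k ≡ a [MOD m] then an q f ρ k else 0) (x / d) ≤
      (ω * τ + E0 * x * ν * Δ) * (36 / 100) := by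
    refine le_trans ?_ (mul_le_mul_of_nonneg_left b8 (by positivity))
    rw [mul_sum]
    refine sum_le_sum fun d hd => ?_
    obtain ⟨hd1, hd2⟩ := mem_Ioc.1 hd
    rcases (an_nonneg (ρ := ρ) h d).eq_or_lt with h2 | h2
    · rw [← h2, zero_mul, zero_mul, mul_zero]
    have hd3 : (1 : ℝ) ≤ d := by exact_mod_cast hd1.le
    have hd4 : (d : ℝ) ≤ W := (Nat.le_floor_iff hW0.le).1 hd2
    obtain ⟨c, hc, hc'⟩ := s6_class hm ha ((an_coprime h h2.ne').coprime_dvd_right hmq)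
    have h3 := (a1 c hc (x / d) ((le_div_iff₀ (by positivity)).2
      (hWZ ▸ mul_le_mul_of_nonneg_left (hd4.trans hle) hW0.le))).2
    have h4 : (fun k => if d * k ≡ a [MOD m] then an q f ρ k else 0) = cls m c (an q f ρ) := by
      funext k
      simp only [cls, hc']
    have h5 : (d : ℝ)⁻¹ ≤ (d : ℝ) ^ (-β) := by
      rw [← Real.rpow_neg_one]
      exact Real.rpow_le_rpow_of_exponent_le hd3 (by linarith)
    rw [h4, mul_left_comm]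
    refine mul_le_mul_of_nonneg_left (le_trans ?_ (mul_le_mul_of_nonneg_left h5
      (by positivity))) h2.le
    rw [← b11]
    refine le_trans (sub_le_iff_le_add'.1 h3) (le_of_eq ?_)
    ring
  have d2 := (a1 a ha x hWx).1
  generalize ∑ p ∈ (Ioc 0 ⌊Z⌋₊).filter (fun p => p.Prime ∧ p.Coprime q),
    Real.log p * qq f ρ D p = S at a2 a3
  have d3 : κ * x ^ (1 - β) * S ≤ Real.log x * (τ - 998 / 1000) := by
    rw [← hτ] at b4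
    linarith [mul_le_mul_of_nonneg_left b6 hl.le, mul_le_mul_of_nonneg_left b4 hl.le]
  have d4 : (∑ p ∈ (Ioc 0 ⌊Z⌋₊).filter (fun p => p.Prime ∧ p.Coprime q),
        Real.log p * Sm (cls m a fun n => if p ∣ n then an q f ρ n else 0) x) /
          (99 / 100 * Real.log x) ≤ (ω * (τ - 998 / 1000) + E0 * x * ν * Δ) * (100 / 99) := by
    rw [div_le_iff₀ (by positivity)]
    rw [hω2] at a2
    linarith [mul_le_mul_of_nonneg_left d3 hω.le]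
  linarith [mul_le_mul_of_nonneg_left b9 hω.le]

end Pool.Agent.Lib.MP_e97e2b_nt.Ln
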