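import Pool.Agent.Lib.MP_e97e2b_nt.Ln.S1b
import Pool.Agent.Lib.MP_e97e2b_nt.Ln.S3
import Pool.Agent.Lib.MP_e97e2b_nt.Ln.S6

/- The sieve part.
y = l^(1/4 + 1/1000), D = ⌊l^(1/4 + 2/1000)⌋, W = l^(3/4 + 6/1000), x = l^(19/10), Z = x / W, ϑ = θ / 2,
ν = 2 l^(-ϑ / 1000), Δ = C l^(ϑ / 4000) (ds_bound, D^2 ⌊Z⌋ ≤ l^2), p = 1 - β ≤ 1 / (10 LL l), so
x^p ≤ exp 0.76 ≤ 2.14 and W^p ≤ exp 0.3024 ≤ 1.354.  Let c = min (θ / 8000) (1 / 1000).  If p ≥ l^(-c) then hsmall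
holds for large l (Eβ ≤ C2 (1 + log l)^2 l^c), and sieve_step gives
l^(-c) / (15 m) ≤ 2 (p0 / x + 20 l^(-1/20)) + 3 E0 ν Δ + C3 x^(-1/800), false for large l.  So p < l^(-c).  Then
asy_beta at the point D and Sm (r0 n^(-β)) D ≤ D^p (1 + log D)^2 (r0_le, tau_harm) give
φ(m) kz ≤ p (1 + log D)^2 + C2 (1 + log y)^2 ν, and Lv f 1 = kz * m / (1 - 1 / l). -/

namespace Pool.Agent.Lib.MP_e97e2b_nt.Ln

open Finset

open Filter Topology

theorem s7_exp1 : Real.exp (76 / 100) ≤ 214 / 100 := by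
  refine (Real.exp_bound' (by norm_num) (by norm_num) (n := 5) (by norm_num)).trans ?_
  simp only [Finset.sum_range_succ, Finset.sum_range_zero, Nat.factorial]
  norm_num

theorem s7_exp2 : Real.exp (3024 / 10000) ≤ 1354 / 1000 := by
  refine (Real.exp_bound' (by norm_num) (by norm_num) (n := 4) (by norm_num)).trans ?_
  simp only [Finset.sum_range_succ, Finset.sum_range_zero, Nat.factorial]
  norm_num

theorem s7_lim {a : ℝ} (ha : 0 < a) :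
    Tendsto (fun L : ℝ => (1 + Real.log L) ^ 2 * L ^ (-a)) atTop (𝓝 0) := by
  have h1 : Tendsto (fun L : ℝ => (1 + 4 / a) ^ 2 * L ^ (-(a / 2))) atTop
      (𝓝 ((1 + 4 / a) ^ 2 * 0)) := (tendsto_rpow_neg_atTop (by positivity)).const_mul _
  rw [mul_zero] at h1
  refine squeeze_zero' ?_ ?_ h1
  · filter_upwards [eventually_ge_atTop (1 : ℝ)] with L hL
    positivity
  · filter_upwards [eventually_ge_atTop (1 : ℝ)] with L hL
    have h0 : 0 < L := by linarith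
    have h2 : Real.log L ≤ L ^ (a / 4) / (a / 4) := Real.log_le_rpow_div h0.le (by positivity)
    have h3 : 1 ≤ L ^ (a / 4) := Real.one_le_rpow hL (by positivity)
    have h4 : 1 + Real.log L ≤ (1 + 4 / a) * L ^ (a / 4) := by
      have : L ^ (a / 4) / (a / 4) = 4 / a * L ^ (a / 4) := by field_simp
      nlinarith
    have h5 : 0 ≤ 1 + Real.log L := by linarith [Real.log_nonneg hL]
    have h6 : (L ^ (a / 4)) ^ 2 * L ^ (-a) = L ^ (-(a / 2)) := by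
      rw [← Real.rpow_natCast, ← Real.rpow_mul h0.le, ← Real.rpow_add h0]
      congr 1
      push_cast
      ring
    calc (1 + Real.log L) ^ 2 * L ^ (-a) ≤ ((1 + 4 / a) * L ^ (a / 4)) ^ 2 * L ^ (-a) := by gcongr
      _ = (1 + 4 / a) ^ 2 * L ^ (-(a / 2)) := by rw [mul_pow, mul_assoc, h6]

theorem s7_large {θ : ℝ} (hθ : 0 < θ) (K : ℝ) : ∃ l0 : ℕ, ∀ l : ℕ, l0 < l →
    K * ((1 + Real.log l) ^ 2 * (l : ℝ) ^ (-(θ / 16000))) < 1 ∧ 16 / 5 / θ ≤ Real.log l := by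
  have h1 := ((s7_lim (a := θ / 16000) (by positivity)).const_mul K).comp
    (tendsto_natCast_atTop_atTop (R := ℝ))
  rw [mul_zero] at h1
  have h2 := (Real.tendsto_log_atTop.comp (tendsto_natCast_atTop_atTop (R := ℝ))).eventually
    (eventually_ge_atTop (16 / 5 / θ))
  obtain ⟨l0, h⟩ := eventually_atTop.1 ((h1.eventually (gt_mem_nhds one_pos)).and h2)
  exact ⟨l0, fun l hl => h l hl.le⟩

theorem s7_sm {q : ℕ} {f : ℕ → ℝ} (h : RC q f) {β x : ℝ} (hβ : β ≤ 1) (hx : 1 ≤ x) :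
    Sm (cls 1 1 fun n => r0 q f n * (n : ℝ) ^ (-β)) x ≤ x ^ (1 - β) * (1 + Real.log x) ^ 2 := by
  refine le_trans ?_ (mul_le_mul_of_nonneg_left (tau_harm hx) (by positivity))
  unfold Sm
  rw [Finset.mul_sum]
  refine Finset.sum_le_sum fun n hn => ?_
  obtain ⟨h1, h2⟩ := Finset.mem_Ioc.1 hn
  have h3 : (0 : ℝ) < n := by exact_mod_cast h1
  have h4 : (n : ℝ) ≤ x := (Nat.le_floor_iff (by linarith)).1 h2
  have h5 : (n : ℝ) ^ (-β) = (n : ℝ) ^ (1 - β) / n := by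
    rw [← Real.rpow_sub_one h3.ne']
    congr 1
    ring
  have h6 : (n : ℝ) ^ (1 - β) ≤ x ^ (1 - β) := Real.rpow_le_rpow h3.le h4 (by linarith)
  rw [cls, if_pos Nat.modEq_one, h5]
  have h7 := r0_le h n
  have h8 := r0_nonneg h n
  calc r0 q f n * ((n : ℝ) ^ (1 - β) / n) ≤ tau n * (x ^ (1 - β) / n) := by
        gcongr
        linarith
    _ = x ^ (1 - β) * (tau n / n) := by ring

theorem s7_small {C2 Cd g G t p K : ℝ} (h2 : 1 ≤ C2) (hd : 1 ≤ Cd) (hg : g ≤ G)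
    (hG : 1 ≤ G) (ht0 : 0 < t) (ht : t ≤ 1) (hp : t ^ 2 ≤ p) (hK : 6000 * C2 * Cd ≤ K)
    (h : K * (G * t) < 1) : 3 * (C2 * g / p) * (2 * t ^ 8) * (Cd / t ^ 2) ≤ 1 / 1000 := by
  have h1 : C2 * g / p ≤ C2 * G / t ^ 2 := by gcongr
  have h3 : t ^ 3 ≤ 1 := pow_le_one₀ ht0.le ht
  have h4 : 6000 * C2 * Cd * (G * t) ≤ K * (G * t) := by gcongr
  calc 3 * (C2 * g / p) * (2 * t ^ 8) * (Cd / t ^ 2)
      ≤ 3 * (C2 * G / t ^ 2) * (2 * t ^ 8) * (Cd / t ^ 2) := by gcongr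
    _ = 6000 * C2 * Cd * (G * t) * t ^ 3 / 1000 := by
        field_simp
        ring
    _ ≤ 1 * 1 / 1000 := by gcongr; linarith
    _ = 1 / 1000 := by norm_num

theorem s7_contra {m p0 C1 Cd C3 g G t p x N A B K : ℝ} (hm : 0 < m) (hp0 : 0 ≤ p0) (h1 : 1 ≤ C1)
    (hd : 1 ≤ Cd) (h3 : 0 ≤ C3) (hg : g ≤ G) (hG : 1 ≤ G) (ht0 : 0 < t) (ht : t ≤ 1)
    (hp : t ^ 2 ≤ p) (hx : 0 < x) (hxt : 1 ≤ x * t ^ 3) (hA : A ≤ x * t ^ 3) (hB : B ≤ x * t ^ 3)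
    (hN : N ≤ p0 + 20 * A) (hK : 15 * m * (2 * p0 + 40 + 6 * C1 * Cd + C3) ≤ K)
    (h : K * (G * t) < 1)
    (hs : x * p / (15 * m) ≤ 2 * N + 3 * (C1 * g) * x * (2 * t ^ 8) * (Cd / t ^ 2) + C3 * B) :
    False := by
  have e0 : 0 < x * t ^ 3 := by positivity
  have e1 : x * t ^ 3 ≤ x * t ^ 3 * G := le_mul_of_one_le_right e0.le hG
  have e2 : p0 ≤ p0 * (x * t ^ 3 * G) := le_mul_of_one_le_right hp0 (hxt.trans e1)
  have e3 : C3 * B ≤ C3 * (x * t ^ 3 * G) := mul_le_mul_of_nonneg_left (hB.trans e1) h3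
  have e4 : t ^ 3 ≤ 1 := pow_le_one₀ ht0.le ht
  have e5 : 3 * (C1 * g) * x * (2 * t ^ 8) * (Cd / t ^ 2) ≤ 6 * C1 * Cd * (x * t ^ 3 * G) := by
    calc 3 * (C1 * g) * x * (2 * t ^ 8) * (Cd / t ^ 2)
        ≤ 3 * (C1 * G) * x * (2 * t ^ 8) * (Cd / t ^ 2) := by gcongr
      _ = 6 * C1 * Cd * (x * t ^ 3 * G) * t ^ 3 := by
          field_simp
          ring
      _ ≤ 6 * C1 * Cd * (x * t ^ 3 * G) := mul_le_of_le_one_right (by positivity) e4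
  have e6 : x * t ^ 2 / (15 * m) ≤ x * p / (15 * m) := by gcongr
  have e7 : x * t ^ 2 / (15 * m) ≤ (2 * p0 + 40 + 6 * C1 * Cd + C3) * (x * t ^ 3 * G) := by
    linarith
  rw [div_le_iff₀ (by positivity)] at e7
  have e8 : 15 * m * (2 * p0 + 40 + 6 * C1 * Cd + C3) * (G * t) ≤ K * (G * t) := by gcongr
  have e9 : 0 < x * t ^ 2 := by positivity
  have e10 := mul_lt_mul_of_pos_left (e8.trans_lt h) e9
  linarith

theorem s7_final {m φ C2 g g' G t p L Lv S E ν : ℝ} (hm : 0 < m) (hφ : 1 ≤ φ) (h2 : 1 ≤ C2)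
    (hg0 : 0 ≤ g) (hg : g ≤ G) (hg' : g' ≤ G) (hG : 1 ≤ G) (ht0 : 0 < t) (ht : t ≤ 1)
    (hGt : G * t ≤ 1) (hp0 : 0 < p) (hp : p < t ^ 2) (hL : 2 ≤ L) (hE : 0 < E) (hν : ν ≤ 2 * t ^ 8)
    (hS : S ≤ E * g') (h : |S - φ * ((1 - 1 / L) / m * Lv) / p * E| ≤ C2 * g / p * E * ν) :
    Lv ≤ 2 * m * (1 + 2 * C2) * t := by
  rcases le_or_gt Lv 0 with h0 | h0
  · exact h0.trans (by positivity)
  have e1 : φ * ((1 - 1 / L) / m * Lv) / p * E ≤ (G + C2 * G / p * (2 * t ^ 8)) * E := by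
    have a1 : C2 * g / p * E * ν ≤ C2 * G / p * E * (2 * t ^ 8) := by
      calc C2 * g / p * E * ν ≤ C2 * g / p * E * (2 * t ^ 8) := by gcongr
        _ ≤ C2 * G / p * E * (2 * t ^ 8) := by gcongr
    have a2 : E * g' ≤ E * G := by gcongr
    linarith [(abs_le.1 h).1]
  have e2 := le_of_mul_le_mul_right e1 hE
  rw [div_le_iff₀ hp0] at e2
  have e3 : (G + C2 * G / p * (2 * t ^ 8)) * p = G * p + 2 * C2 * (G * t) * t ^ 7 := by
    field_simp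
  have e4 : G * p ≤ t := by
    calc G * p ≤ G * t ^ 2 := by gcongr
      _ = G * t * t := by ring
      _ ≤ 1 * t := by gcongr
      _ = t := one_mul t
  have e5 : t ^ 7 ≤ t := pow_le_of_le_one ht0.le ht (by norm_num)
  have e6 : 2 * C2 * (G * t) * t ^ 7 ≤ 2 * C2 * 1 * t := by gcongr
  have e7 : 1 / L ≤ 1 / 2 := by gcongr
  have e8 : 1 * ((1 / 2) / m * Lv) ≤ φ * ((1 - 1 / L) / m * Lv) := by
    gcongr
    linarith
  have e9 : (1 / 2) / m * Lv ≤ (1 + 2 * C2) * t := by linarith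
  have e10 := mul_le_mul_of_nonneg_left e9 (show 0 ≤ 2 * m by positivity)
  have e11 : 2 * m * ((1 / 2) / m * Lv) = Lv := by field_simp
  linarith

open Classical in
theorem sieve_main (m a p0 : ℕ) (ha : a.Coprime m) (θ C : ℝ) : ∃ (c C' : ℝ) (l0 : ℕ), 0 < c ∧
    ∀ (l : ℕ) (f : ℕ → ℝ) (β : ℝ), l0 < l → SvH m l f θ C ((l : ℝ) ^ (1 / 4 + 1 / 1000 : ℝ)) →
    1 - 1 / 10 / LL l ≤ β → β < 1 →
    Tendsto (fun N : ℕ => ∑ n ∈ Ioc 0 N, f n * (n : ℝ) ^ (-β)) atTop (𝓝 0) →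
    (((Ioc 0 ⌊(l : ℝ) ^ (19 / 10 : ℝ)⌋₊).filter
        fun p => p.Prime ∧ p ≡ a [MOD m] ∧ f p = 1).card : ℝ) ≤
      p0 + 20 * ((l : ℝ) ^ (19 / 10 : ℝ)) ^ (3 / 2 : ℝ) / l →
    Lv f 1 ≤ C' * (l : ℝ) ^ (-c) := by
  rcases le_or_gt θ 0 with hθ | hθ
  · exact ⟨1, 0, 0, one_pos, fun l f β _ h => absurd h.θ_pos (not_lt.2 hθ)⟩
  obtain ⟨C1, hC1, H1⟩ := asy_zero m θ C
  obtain ⟨C2, hC2, H2⟩ := asy_beta m θ C
  obtain ⟨Cd, hCd, Hd⟩ := ds_bound (θ / 16000) (by positivity)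
  obtain ⟨C3, hC3, H3⟩ := rest_bound
  obtain ⟨l0, hl0⟩ := s7_large hθ (6000 * C2 * Cd + 15 * m * (2 * p0 + 40 + 6 * C1 * Cd + C3))
  refine ⟨θ / 16000, 2 * m * (1 + 2 * C2), l0, by positivity, fun l f β hl h hβ0 hβ1 hz hN => ?_⟩
  obtain ⟨hK, hlog⟩ := hl0 l hl
  have hθ2 := h.θ_le
  have hm : (0 : ℝ) < m := by exact_mod_cast h.m_pos
  have hL2 : (2 : ℝ) ≤ l := by exact_mod_cast h.l_prime.two_le
  have hA := (H1 l f _ h).2
  unfold LL at hβ0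
  have hrc := h.rc
  have hmp := h.m_pos
  have hA' := H2 l f _ β h
  unfold kz at hA hA'
  clear h hl0 hl H1 H2
  generalize m * l = q, hq : dvd_mul_right m l = hmq at hA hA' hrc
  clear hq
  generalize (l : ℝ) = L at *
  have hL1 : 1 < L := by linarith
  have hL0 : 0 < L := by linarith
  have hlog0 : 0 < Real.log L := Real.log_pos hL1
  have hmono : ∀ {u v : ℝ}, u ≤ v → L ^ u ≤ L ^ v := fun huv =>
    Real.rpow_le_rpow_of_exponent_le hL1.le huv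
  have hpos : ∀ u : ℝ, 0 < L ^ u := fun u => Real.rpow_pos_of_pos hL0 u
  have hone : ∀ {u : ℝ}, 0 ≤ u → 1 ≤ L ^ u := fun hu => Real.one_le_rpow hL1.le hu
  have hadd : ∀ u v : ℝ, L ^ u * L ^ v = L ^ (u + v) := fun u v => (Real.rpow_add hL0 u v).symm
  have hmul : ∀ u v : ℝ, (L ^ u) ^ v = L ^ (u * v) := fun u v => (Real.rpow_mul hL0.le u v).symm
  have hnat : ∀ (u : ℝ) (k : ℕ), (L ^ u) ^ k = L ^ (u * k) := fun u k => by
    rw [← Real.rpow_natCast, hmul]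
  have hlg : ∀ {z : ℝ}, 1 ≤ z → z ≤ L → 0 ≤ 1 + Real.log z ∧ 1 + Real.log z ≤ 1 + Real.log L :=
    fun h1 h2 => ⟨by linarith [Real.log_nonneg h1], by linarith [Real.log_le_log (by linarith) h2]⟩
  have hp0 : 0 < 1 - β := by linarith
  have hp1 : (1 - β) * Real.log L ≤ 2 / 5 := by
    have h1 : 1 - β ≤ 2 / 5 / Real.log L := by
      have : 1 / 10 / (Real.log L / 4) = 2 / 5 / Real.log L := by field_simp; norm_num
      linarith
    rwa [le_div_iff₀ hlog0] at h1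
  have hp2 : 1 - θ / 8 ≤ β := by
    rw [div_le_iff₀ hθ] at hlog
    have h1 : (1 - β) * (16 / 5) ≤ (1 - β) * (Real.log L * θ) := by gcongr
    have h2 := mul_le_mul_of_nonneg_right hp1 hθ.le
    linarith only [h1, h2]
  have hAβ := hA' hp2 hβ1 hz
  clear hA'
  set y := L ^ (1 / 4 + 1 / 1000 : ℝ) with hy
  set x := L ^ (19 / 10 : ℝ) with hx
  set t := L ^ (-(θ / 16000)) with ht
  set G := (1 + Real.log L) ^ 2 with hG
  have hy0 : 0 < y := hpos _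
  have hyL : y ≤ L := (hmono (by norm_num)).trans_eq (Real.rpow_one L)
  have hyl := hlg (z := y) (hone (by norm_num)) hyL
  have ht0 : 0 < t := hpos _
  have ht1 : t ≤ 1 := (hmono (by linarith only [hθ])).trans_eq (Real.rpow_zero L)
  have hG1 : 1 ≤ G := one_le_pow₀ (by linarith only [hlog0])
  have hG2 : 1 + Real.log L ≤ G := le_self_pow₀ (by linarith only [hlog0]) (by norm_num)
  have hyG : (1 + Real.log y) ^ 2 ≤ G := pow_le_pow_left₀ hyl.1 hyl.2 2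
  have hx1 : 1 < x := Real.one_lt_rpow hL1 (by norm_num)
  clear_value y x t G
  obtain ⟨D, hD⟩ : ∃ D : ℕ, D = ⌊L ^ (252 / 1000 : ℝ)⌋₊ := ⟨_, rfl⟩
  have hD1 : 1 ≤ D := by
    rw [hD]
    exact (Nat.one_le_floor_iff _).2 (hone (by norm_num))
  have hD1' : (1 : ℝ) ≤ D := by exact_mod_cast hD1
  have hD2 : (D : ℝ) ≤ L ^ (252 / 1000 : ℝ) := by
    rw [hD]
    exact Nat.floor_le (hpos _).le
  have hD3 : L ^ (252 / 1000 : ℝ) ≤ 2 * D := by
    have h1 := Nat.lt_floor_add_one (L ^ (252 / 1000 : ℝ))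
    rw [← hD] at h1
    linarith only [h1, hD1']
  have hDL : (D : ℝ) ≤ L := hD2.trans ((hmono (by norm_num)).trans_eq (Real.rpow_one L))
  have hDl := hlg hD1' hDL
  have hD0 : (0 : ℝ) < D := by linarith only [hD1']
  clear hD
  have ht8 : (L ^ (-(1 / 1000) : ℝ)) ^ (θ / 2) = t ^ 8 := by
    rw [ht, hnat, hmul]
    congr 1
    push_cast
    ring
  have hν2 : (y / D) ^ (θ / 2) ≤ 2 * t ^ 8 := by
    have h1 : y / D ≤ 2 * L ^ (-(1 / 1000) : ℝ) := by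
      rw [div_le_iff₀ hD0]
      have h2 : y = L ^ (-(1 / 1000) : ℝ) * L ^ (252 / 1000 : ℝ) := by
        rw [hadd, hy]
        norm_num
      have h3 := mul_le_mul_of_nonneg_left hD3 (hpos (-(1 / 1000))).le
      linarith only [h2, h3]
    have h4 : (2 : ℝ) ^ (θ / 2) ≤ 2 :=
      (Real.rpow_le_rpow_of_exponent_le (by norm_num) (by linarith only [hθ2])).trans_eq
        (Real.rpow_one 2)
    calc (y / D) ^ (θ / 2) ≤ (2 * L ^ (-(1 / 1000) : ℝ)) ^ (θ / 2) :=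
          Real.rpow_le_rpow (by positivity) h1 (by positivity)
      _ = 2 ^ (θ / 2) * t ^ 8 := by rw [Real.mul_rpow (by norm_num) (hpos _).le, ht8]
      _ ≤ 2 * t ^ 8 := by gcongr
  have hc1 : 0 ≤ 6000 * C2 * Cd := by positivity
  have hc2 : 0 ≤ 15 * m * (2 * p0 + 40 + 6 * C1 * Cd + C3) := by positivity
  rcases lt_or_ge (1 - β) (t ^ 2) with hp | hp
  · have hGt : G * t ≤ 1 := by
      have h1 : 1 ≤ C2 * Cd := one_le_mul_of_one_le_of_one_le hC2 hCd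
      have h2 : 1 * (G * t) ≤
          (6000 * C2 * Cd + 15 * m * (2 * p0 + 40 + 6 * C1 * Cd + C3)) * (G * t) := by
        gcongr
        linarith only [h1, hc2]
      linarith only [h2, hK]
    have hφ : (1 : ℝ) ≤ m.totient := by exact_mod_cast Nat.totient_pos.2 hmp
    exact s7_final hm hφ hC2 (sq_nonneg _) hyG (hG ▸ pow_le_pow_left₀ hDl.1 hDl.2 2) hG1 ht0 ht1
      hGt hp0 hp hL2 (Real.rpow_pos_of_pos hD0 _) hν2 (s7_sm hrc hβ1.le hD1')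
      (hAβ 1 (Nat.coprime_one_right 1) D hD0)
  exfalso
  obtain ⟨ρ, hρ, hGG, hQ⟩ := selberg (gp f) q D hD1 fun p hp hq => gp_bounds hrc hp hq
  have hQ' : qq f ρ D 1 * GG (gp f) q D = 1 := by
    simpa only [qq, gg, Nat.lcm_one_right] using hQ
  have hexp : ∀ u : ℝ, 0 ≤ u → (L ^ u) ^ (1 - β) ≤ Real.exp (u * (2 / 5)) := fun u hu => by
    rw [hmul, Real.rpow_def_of_pos hL0]
    refine Real.exp_le_exp.2 ?_
    have h1 := mul_le_mul_of_nonneg_left hp1 hu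
    linarith only [h1]
  have hν1 : (y * (D : ℝ) ^ 2 / L ^ (756 / 1000 : ℝ)) ^ (θ / 2) ≤ 2 * t ^ 8 := by
    have h1 : y * (D : ℝ) ^ 2 / L ^ (756 / 1000 : ℝ) ≤ L ^ (-(1 / 1000) : ℝ) := by
      rw [div_le_iff₀ (hpos _)]
      calc y * (D : ℝ) ^ 2 ≤ y * (L ^ (252 / 1000 : ℝ)) ^ 2 := by gcongr
        _ = L ^ (-(1 / 1000) : ℝ) * L ^ (756 / 1000 : ℝ) := by
          rw [hy, hnat, hadd, hadd]
          norm_num
    have h2 := Real.rpow_le_rpow (by positivity) h1 (show 0 ≤ θ / 2 by positivity)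
    rw [ht8] at h2
    linarith only [h2, pow_pos ht0 8]
  have hΔ : DS (D ^ 2 * ⌊L ^ (1144 / 1000 : ℝ)⌋₊) ≤ Cd / t ^ 2 := by
    have h1 : 1 ≤ ⌊L ^ (1144 / 1000 : ℝ)⌋₊ := (Nat.one_le_floor_iff _).2 (hone (by norm_num))
    refine (Hd _ (Nat.mul_pos (pow_pos hD1 2) h1)).trans ?_
    have h2 : ((D ^ 2 * ⌊L ^ (1144 / 1000 : ℝ)⌋₊ : ℕ) : ℝ) ≤ L ^ (2 : ℝ) := by
      push_cast
      calc (D : ℝ) ^ 2 * (⌊L ^ (1144 / 1000 : ℝ)⌋₊ : ℝ)
          ≤ (L ^ (252 / 1000 : ℝ)) ^ 2 * L ^ (1144 / 1000 : ℝ) := by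
            gcongr
            exact Nat.floor_le (hpos _).le
        _ ≤ L ^ (2 : ℝ) := by
            rw [hnat, hadd]
            exact hmono (by norm_num)
    have h3 := Real.rpow_le_rpow (Nat.cast_nonneg _) h2 (show 0 ≤ θ / 16000 by positivity)
    have h4 : (L ^ (2 : ℝ)) ^ (θ / 16000) = (t ^ 2)⁻¹ := by
      rw [ht, hnat, hmul, ← Real.rpow_neg hL0.le]
      congr 1
      push_cast
      ring
    rw [h4] at h3
    rw [div_eq_mul_inv Cd]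
    gcongr
  have hs := sieve_step (W := L ^ (756 / 1000 : ℝ)) (Z := L ^ (1144 / 1000 : ℝ)) hrc hρ hD1 hGG hQ'
    hmp hmq ha (by linarith only [hp2, hθ2]) hβ1 hA hAβ (by have := hyl.1; positivity)
    (by positivity) (by positivity) (by linarith only [hθ2]) hy0 hx1 (by rw [hadd, hx]; norm_num)
    (hD2.trans (hmono (by norm_num))) (hmono (by norm_num))
    (hx ▸ (hexp _ (by norm_num)).trans ((Real.exp_le_exp.2 (by norm_num)).trans s7_exp1))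
    ((hexp _ (by norm_num)).trans ((Real.exp_le_exp.2 (by norm_num)).trans s7_exp2)) hν1 hν2 hΔ
    (s7_small hC2 hCd hyG hG1 ht0 ht1 hp (le_add_of_nonneg_right hc2) hK)
    (H3 q D f ρ x hrc hρ hx1.le)
  have hxt : x * t ^ 3 = L ^ (19 / 10 - 3 * θ / 16000) := by
    rw [hx, ht, hnat, hadd]
    congr 1
    push_cast
    ring
  refine s7_contra (A := x ^ (3 / 2 : ℝ) / L) hm (Nat.cast_nonneg p0) hC1 hCd hC3 (hyl.2.trans hG2)
    hG1 ht0 ht1 hp (one_pos.trans hx1) ?_ ?_ ?_ (by rwa [← mul_div_assoc]) (le_add_of_nonneg_left hc1)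
    hK hs
  · rw [hxt]
    exact hone (by linarith only [hθ2])
  · rw [hxt, hx, hmul, ← Real.rpow_sub_one hL0.ne']
    exact hmono (by linarith only [hθ2])
  · rw [hxt, hx, hmul]
    exact hmono (by linarith only [hθ2])

end Pool.Agent.Lib.MP_e97e2b_nt.Ln
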