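import Pool.Agent.Lib.MP_e97e2b_nt.Ln.A6a
import Pool.Agent.Lib.MP_e97e2b_nt.Ln.S0
import Pool.Agent.Lib.MP_e97e2b_nt.Siegel
import Pool.Agent.Lib.MP_e97e2b_nt.Euler1

/- Siegel's theorem for the family fr m l ψ.
Apply `siegel` (file Siegel) with a = ζ (as a real arithmetic function), κ = 1, θ = 1/2, χ l = fr m l ψ.
S1 and S1': a completely multiplicative function that is periodic modulo Q, vanishes off the units and takes the
value -1 at some unit has sum 0 over a period, so its partial sums are ≤ Q (Q = m l, resp. m l l'; the unit is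
≡ 1 mod m (and mod l') and a nonresidue mod l).  P2, P4: the convolutions are multiplicative and nonnegative on
prime powers (file Euler1 has eu_NN_one, eu_NN_four, eu_G, eu_tw_G; or a direct argument).
Lv (tw ζ f) = Lv f because the sums run over n ≥ 1. -/

namespace Pool.Agent.Lib.MP_e97e2b_nt.Ln

open Finset

theorem t1_zero (g : ℕ → ℝ) {Q : ℕ} (hQ : 0 < Q) (hper : ∀ a b, a ≡ b [MOD Q] → g a = g b)
    (hm : ∀ a b, g (a * b) = g a * g b) {u : ℕ} (hu : u.Coprime Q) (hg : g u = -1) :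
    ∑ n ∈ range Q, g n = 0 := by
  have hinj : Set.InjOn (fun n => u * n % Q) (range Q : Finset ℕ) := fun a ha b hb hab =>
    Nat.ModEq.eq_of_lt_of_lt (Nat.ModEq.cancel_left_of_coprime hu.symm hab)
      (mem_range.1 ha) (mem_range.1 hb)
  have himg : (range Q).image (fun n => u * n % Q) = range Q :=
    eq_of_subset_of_card_le (image_subset_iff.2 fun n _ => mem_range.2 (Nat.mod_lt _ hQ))
      (card_image_of_injOn hinj).ge
  have h1 : ∑ n ∈ range Q, g n = ∑ n ∈ range Q, g (u * n % Q) := by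
    conv_lhs => rw [← himg]
    exact sum_image hinj
  have h2 : ∑ n ∈ range Q, g (u * n % Q) = -∑ n ∈ range Q, g n := by
    rw [← sum_neg_distrib]
    refine sum_congr rfl fun n _ => ?_
    rw [hper _ _ (Nat.mod_modEq _ _), hm, hg, neg_one_mul]
  linarith

theorem t1_bound (g : ℕ → ℝ) {Q : ℕ} (hQ : 0 < Q) (hper : ∀ a b, a ≡ b [MOD Q] → g a = g b)
    (hm : ∀ a b, g (a * b) = g a * g b) (hb : ∀ n, |g n| ≤ 1) {u : ℕ} (hu : u.Coprime Q)
    (hg : g u = -1) (N : ℕ) : |∑ n ∈ Ioc 0 N, g n| ≤ 2 * Q := by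
  have h0 := t1_zero g hQ hper hm hu hg
  have h1 : ∀ k, ∑ n ∈ range (k + Q), g n = ∑ n ∈ range k, g n := fun k => by
    induction k with
    | zero => simpa using h0
    | succ k ih =>
      rw [add_right_comm, sum_range_succ, sum_range_succ, ih,
        hper (k + Q) k (by simp [Nat.ModEq])]
  have h2 : ∀ k, |∑ n ∈ range k, g n| ≤ Q := fun k => by
    induction k using Nat.strong_induction_on with
    | _ k ih =>
      rcases le_or_gt k Q with h | h
      · refine (abs_sum_le_sum_abs _ _).trans ((sum_le_card_nsmul _ _ 1 fun n _ => hb n).trans ?_)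
        simpa using h
      · obtain ⟨j, rfl⟩ : ∃ j, k = j + Q := ⟨k - Q, by omega⟩
        rw [h1]
        exact ih j (by omega)
  have h3 : ∀ k, ∑ n ∈ Ioc 0 k, g n = ∑ n ∈ range (k + 1), g n - g 0 := fun k => by
    induction k with
    | zero => simp
    | succ k ih => rw [sum_Ioc_succ_top (Nat.zero_le k), ih, sum_range_succ _ (k + 1)]; ring
  have h4 : (1 : ℝ) ≤ Q := by exact_mod_cast hQ
  rw [h3]
  exact (abs_sub _ _).trans (by linarith [h2 (N + 1), hb 0])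

theorem t1_nonres {l Q : ℕ} (hl : l.Prime) (h2 : 2 < l) (hQ : Q.Coprime l) :
    ∃ u : ℕ, u ≡ 1 [MOD Q] ∧ u.Coprime (Q * l) ∧ chi l u = -1 := by
  have : Fact l.Prime := ⟨hl⟩
  obtain ⟨a, ha⟩ := quadraticChar_exists_neg_one (F := ZMod l) (by rw [ZMod.ringChar_zmod_n]; omega)
  obtain ⟨u, hu1, hu2⟩ := Nat.chineseRemainder hQ 1 a.val
  have h3 : jacobiSym u l = -1 := by
    rw [← jacobiSym.legendreSym.to_jacobiSym, legendreSym, Int.cast_natCast,
      (ZMod.natCast_eq_natCast_iff _ _ _).2 hu2, ZMod.natCast_zmod_val, ha]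
  refine ⟨u, hu1, Nat.Coprime.mul_right ?_ ?_, by simp [chi, h3]⟩
  · rw [Nat.Coprime, hu1.gcd_eq, Nat.gcd_one_left]
  · by_contra h
    have : jacobiSym u l = 0 := jacobiSym.eq_zero_iff.2 ⟨hl.ne_zero, by simpa using h⟩
    rw [this] at h3
    exact absurd h3 (by decide)

theorem t1_per {m l : ℕ} (ψ : DirichletCharacter ℂ m) {a b : ℕ} (h : a ≡ b [MOD m * l]) :
    fr m l ψ a = fr m l ψ b := by
  have h1 : (a : ℤ) % l = (b : ℤ) % l := by exact_mod_cast (h.of_mul_left m : a % l = b % l)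
  rw [fr, fr, (ZMod.natCast_eq_natCast_iff _ _ _).2 (h.of_mul_right l), chi, chi,
    jacobiSym.mod_left' h1]

theorem t1_abs {m : ℕ} (l : ℕ) (ψ : DirichletCharacter ℂ m) (n : ℕ) : |fr m l ψ n| ≤ 1 := by
  rw [fr, abs_mul]
  exact mul_le_one₀ ((Complex.abs_re_le_norm _).trans (ψ.norm_le_one _)) (abs_nonneg _)
    (abs_chi_le _ _)

theorem t1_val {m : ℕ} (l : ℕ) (ψ : DirichletCharacter ℂ m) {u : ℕ} (hu : u ≡ 1 [MOD m]) :
    fr m l ψ u = chi l u := by
  rw [fr, (ZMod.natCast_eq_natCast_iff _ _ _).2 hu]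
  simp

/-- The local power series of an arithmetic function. -/
noncomputable def t1_loc (p : ℕ) (F : ArithmeticFunction ℝ) : PowerSeries ℝ :=
  PowerSeries.mk fun k => F (p ^ k)

theorem t1_loc_mul {p : ℕ} (hp : p.Prime) (F G : ArithmeticFunction ℝ) :
    t1_loc p (F * G) = t1_loc p F * t1_loc p G := by
  ext k
  simp only [t1_loc, PowerSeries.coeff_mul, PowerSeries.coeff_mk, ArithmeticFunction.mul_apply]
  rw [Nat.sum_divisorsAntidiagonal fun a b => F a * G b, Nat.sum_divisors_prime_pow hp,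
    Nat.sum_antidiagonal_eq_sum_range_succ fun a b => F (p ^ a) * G (p ^ b)]
  refine sum_congr rfl fun j hj => ?_
  rw [Nat.pow_div (Nat.lt_succ_iff.1 (mem_range.1 hj)) hp.pos]

/-- The constant function one. -/
noncomputable def t1_z : ArithmeticFunction ℝ := (ArithmeticFunction.zeta : ArithmeticFunction ℕ)

theorem t1_z_apply {n : ℕ} (hn : n ≠ 0) : t1_z n = 1 := by
  simp [t1_z, ArithmeticFunction.natCoe_apply, ArithmeticFunction.zeta_apply, hn]

theorem t1_z_mult : t1_z.IsMultiplicative := ArithmeticFunction.isMultiplicative_zeta.natCast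

theorem t1_loc_z {p : ℕ} (hp : p.Prime) : t1_loc p t1_z = eu_geo 1 := by
  ext k
  simp [t1_loc, eu_geo, t1_z_apply (pow_ne_zero k hp.ne_zero)]

theorem t1_loc_tw {p : ℕ} (hp : p.Prime) {f : ℕ → ℝ} (hf : eu_CM f) :
    t1_loc p (tw t1_z f) = eu_geo (f p) := by
  ext k
  simp [t1_loc, eu_geo, t1_z_apply (pow_ne_zero k hp.ne_zero), hf.pow]

theorem t1_tw_mult {f : ℕ → ℝ} (hf : eu_CM f) : (tw t1_z f).IsMultiplicative :=
  ⟨by rw [tw_apply, t1_z_mult.1, hf.one, mul_one], fun h => by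
    rw [tw_apply, tw_apply, tw_apply, t1_z_mult.2 h, hf.mul]; ring⟩

theorem t1_pos {F : ArithmeticFunction ℝ} (hF : F.IsMultiplicative)
    (h : ∀ p, p.Prime → eu_NN (t1_loc p F)) (n : ℕ) : 0 ≤ F n := by
  rcases eq_or_ne n 0 with rfl | hn
  · simp
  · rw [ArithmeticFunction.IsMultiplicative.multiplicative_factorization F hF hn]
    refine prod_nonneg fun p hp => ?_
    simpa [t1_loc] using h p (Nat.prime_of_mem_primeFactors hp) (n.factorization p)

theorem t1_Sm (f : ℕ → ℝ) (x : ℝ) : Sm (tw t1_z f) x = ∑ n ∈ Ioc 0 ⌊x⌋₊, f n :=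
  sum_congr rfl fun n hn => by rw [tw_apply, t1_z_apply (mem_Ioc.1 hn).1.ne', one_mul]

theorem t1_Lv (f : ℕ → ℝ) (s : ℝ) : Lv (tw t1_z f) s = Lv f s := by
  unfold Lv
  congr 1
  funext N
  exact sum_congr rfl fun n hn => by rw [tw_apply, t1_z_apply (mem_Ioc.1 hn).1.ne', one_mul]

theorem siegel_fr (m : ℕ) [NeZero m] (ψ : DirichletCharacter ℂ m) (hψ : ψ * ψ = 1) (C c : ℝ)
    (hc : 0 < c) (S : Set ℕ) (hS : S.Infinite)
    (h : ∀ l ∈ S, l.Prime ∧ 2 < l ∧ m < l ∧ Lv (fr m l ψ) 1 ≤ C * (l : ℝ) ^ (-c)) : False := by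
  have hm0 : 0 < m := Nat.pos_of_ne_zero (NeZero.ne m)
  have hm1 : (1 : ℝ) ≤ m := by exact_mod_cast hm0
  have hcm : ∀ l ∈ S, eu_CM (fr m l ψ) := fun l hl =>
    ⟨(fr_rc m l (h l hl).1 ψ hψ).one, (fr_rc m l (h l hl).1 ψ hψ).mul⟩
  have hca : ∀ l ∈ S, ∀ n, fr m l ψ n = 0 ∨ fr m l ψ n = 1 ∨ fr m l ψ n = -1 := fun l hl n => by
    rcases (fr_rc m l (h l hl).1 ψ hψ).cases n with ⟨_, h1 | h1⟩ | ⟨_, h1⟩ <;> simp [h1]
  have hcop : ∀ l ∈ S, m.Coprime l := fun l hl =>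
    (Nat.coprime_of_lt_prime hm0.ne' (h l hl).2.2.1 (h l hl).1).symm
  have hx1 : ∀ x : ℝ, 1 ≤ x → 1 ≤ x ^ (1 - 1 / 2 : ℝ) := fun x hx =>
    Real.one_le_rpow hx (by norm_num)
  have hC0 := abs_nonneg C
  refine siegel t1_z 1 (1 / 2) (|C| + 2 * m) c one_pos (by norm_num) le_rfl hc
    (fun l n => fr m l ψ n) S hS (fun n => ?_) (t1_z_apply one_ne_zero)
    (fun l n => t1_abs l ψ n) (fun l => ?_) (fun x hx => ?_) (fun l hl x hx => ?_)
    (fun l hl l' hl' hne x hx => ?_) (fun l hl => ?_) (fun l hl l' hl' => ?_) fun l hl => ?_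
  · rcases eq_or_ne n 0 with rfl | hn
    · simp
    · rw [t1_z_apply hn]; exact zero_le_one
  · rw [t1_val l ψ (Nat.ModEq.refl 1)]
    simpa using chi_one l
  · have h1 : Sm t1_z x = ⌊x⌋₊ := by
      rw [Sm, sum_congr rfl fun n hn => t1_z_apply (mem_Ioc.1 hn).1.ne']
      simp
    have h2 := Nat.floor_le (zero_le_one.trans hx)
    have h3 := Nat.lt_floor_add_one x
    rw [h1, one_mul]
    refine (abs_le.2 ⟨by linarith, by linarith⟩ : |(⌊x⌋₊ : ℝ) - x| ≤ 1).trans ?_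
    nlinarith [hx1 x hx]
  · obtain ⟨u, hu1, hu2, hu3⟩ := t1_nonres (h l hl).1 (h l hl).2.1 (hcop l hl)
    rw [t1_Sm]
    refine (t1_bound _ (Nat.mul_pos hm0 (h l hl).1.pos) (fun a b => t1_per ψ) (hcm l hl).mul
      (t1_abs l ψ) hu2 ((t1_val l ψ hu1).trans hu3) _).trans ?_
    push_cast
    calc 2 * ((m : ℝ) * l) = 2 * m * l * 1 := by ring
      _ ≤ _ := by gcongr; exacts [by linarith, hx1 x hx]
  · obtain ⟨u, hu1, hu2, hu3⟩ := t1_nonres (Q := m * l') (h l hl).1 (h l hl).2.1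
      (Nat.Coprime.mul_left (hcop l hl) ((Nat.coprime_primes (h l' hl').1 (h l hl).1).2 hne.symm))
    rw [t1_Sm]
    refine (t1_bound _ (Nat.mul_pos (Nat.mul_pos hm0 (h l' hl').1.pos) (h l hl).1.pos)
      (fun a b hab => ?_) ((hcm l hl).mul' (hcm l' hl')).mul (fun n => ?_) hu2 ?_ _).trans ?_
    · rw [t1_per ψ (hab.of_mul_right l), t1_per ψ (hab.of_dvd ⟨l', by ring⟩ : a ≡ b [MOD m * l])]
    · rw [abs_mul]
      exact mul_le_one₀ (t1_abs l ψ n) (abs_nonneg _) (t1_abs l' ψ n)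
    · rw [t1_per ψ hu1, (hcm l' hl').one, t1_val l ψ (hu1.of_mul_right l'), hu3, mul_one]
    · push_cast
      calc 2 * ((m : ℝ) * l' * l) = 2 * m * (l * l') * 1 := by ring
        _ ≤ _ := by gcongr; exacts [by linarith, hx1 x hx]
  · refine t1_pos (t1_z_mult.mul (t1_tw_mult (hcm l hl))) fun p hp => ?_
    rw [t1_loc_mul hp, t1_loc_z hp, t1_loc_tw hp (hcm l hl)]
    exact eu_NN_one (hca l hl p)
  · refine t1_pos (t1_z_mult.mul (((t1_tw_mult (hcm l hl)).mul (t1_tw_mult (hcm l' hl'))).mul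
      (t1_tw_mult ((hcm l hl).mul' (hcm l' hl'))))) fun p hp => ?_
    rw [t1_loc_mul hp, t1_loc_mul hp, t1_loc_mul hp, t1_loc_z hp, t1_loc_tw hp (hcm l hl),
      t1_loc_tw hp (hcm l' hl'), t1_loc_tw hp ((hcm l hl).mul' (hcm l' hl'))]
    exact eu_NN_four (hca l hl p) (hca l' hl' p)
  · rw [t1_Lv]
    refine (h l hl).2.2.2.trans (mul_le_mul_of_nonneg_right ?_ (by positivity))
    linarith [le_abs_self C]

end Pool.Agent.Lib.MP_e97e2b_nt.Ln
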