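import Pool.Agent.Lib.MP_e97e2b_nt.Ln.L3
import Pool.Agent.Lib.MP_e97e2b_nt.Ln.S7
import Pool.Agent.Lib.MP_e97e2b_nt.Ln.T1
import Pool.Agent.Lib.MP_e97e2b_nt.EMain

/- The Linnik type theorem and the application to elliptic curves. -/

namespace Pool.Agent.Lib.MP_e97e2b_nt.Ln

open Finset

open NumberField IsDedekindDomain

open Classical in
theorem not_sparse (m a p0 : ℕ) (hm : 0 < m) (ha : a.Coprime m) :
    ∃ l0 : ℕ, ∀ l : ℕ, l.Prime → l0 < l → ¬ Sparse m a p0 l := by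
  haveI : NeZero m := ⟨hm.ne'⟩
  by_contra hcon
  push Not at hcon
  obtain ⟨l1, h1⟩ := main_regime m a p0 ha
  obtain ⟨θ, C, l2, h2⟩ := fr_svh m (1 / 1000) (by norm_num)
  obtain ⟨c, C', l3, hc, h3⟩ := sieve_main m a p0 ha θ C
  let S : DirichletCharacter ℂ m → Set ℕ := fun ψ =>
    {l | l.Prime ∧ 2 < l ∧ m < l ∧ ψ * ψ = 1 ∧ Lv (fr m l ψ) 1 ≤ C' * (l : ℝ) ^ (-c)}
  have hU : (⋃ ψ, S ψ).Infinite := by
    apply Set.infinite_of_forall_exists_gt
    intro n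
    obtain ⟨l, hl, hlt, hsp⟩ := hcon (n + l1 + l2 + l3 + m + 2)
    obtain ⟨ψ, hψ, hψa, β, hβ1, hβ2, hlim⟩ := h1 l hl (by omega) hsp
    refine ⟨l, Set.mem_iUnion.2 ⟨ψ, hl, by omega, by omega, hψ, ?_⟩, by omega⟩
    refine h3 l (fr m l ψ) β (by omega) (h2 l hl (by omega) ψ hψ) hβ1 hβ2 hlim ?_
    have hx : (1 : ℝ) ≤ (l : ℝ) ^ (19 / 10 : ℝ) :=
      Real.one_le_rpow (by exact_mod_cast hl.one_le) (by norm_num)
    refine le_trans (le_of_eq ?_) (sparse_count hl hsp hx)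
    congr 2
    apply Finset.filter_congr
    intro p _
    refine and_congr_right fun _ => and_congr_right fun hpa => ?_
    have e : ((p : ℕ) : ZMod m) = (a : ZMod m) := (ZMod.natCast_eq_natCast_iff _ _ _).2 hpa
    simp only [fr, e, hψa, Complex.one_re, one_mul]
  obtain ⟨ψ, hψ⟩ : ∃ ψ, (S ψ).Infinite := by
    by_contra hno
    push Not at hno
    exact hU (Set.finite_iUnion hno)
  obtain ⟨l, hl⟩ := hψ.nonempty
  exact siegel_fr m ψ hl.2.2.2.1 C' c hc (S ψ) hψ fun l h => ⟨h.1, h.2.1, h.2.2.1, h.2.2.2.2⟩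

theorem sparse_of_bad (K : Type) [Field K] [NumberField K] (m a p0 : ℕ)
    (hK : ∀ p : ℕ, p.Prime → p0 < p → p ≡ a [MOD m] →
      ∃ v : HeightOneSpectrum (𝓞 K), Ideal.absNorm v.asIdeal = p)
    {l : ℕ} (hl : l.Prime) (hb : Bad K l) : Sparse m a (p0 + 3) l := by
  intro p hp hp0 hpa hchi
  obtain ⟨v, hv⟩ := hK p hp (by omega) hpa
  have hj : jacobiSym (p : ℤ) l = 1 := by
    have : ((jacobiSym (p : ℤ) l : ℤ) : ℝ) = 1 := hchi
    exact_mod_cast this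
  have hne : ((6 * l : ℕ) : 𝓞 K) ∉ v.asIdeal := by
    intro hmem
    have h1 := Ideal.absNorm_dvd_absNorm_of_le ((Ideal.span_singleton_le_iff_mem _).2 hmem)
    rw [hv, Ideal.absNorm_span_natCast] at h1
    have h2 : p ∣ 6 * l := hp.dvd_of_dvd_pow h1
    rcases (Nat.Prime.dvd_mul hp).1 h2 with h3 | h3
    · have h4 : p ∣ 2 * 3 := h3
      rcases (Nat.Prime.dvd_mul hp).1 h4 with h5 | h5
      · have := Nat.le_of_dvd (by norm_num) h5
        omega
      · have := Nat.le_of_dvd (by norm_num) h5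
        omega
    · have h6 : p = l := (Nat.prime_dvd_prime_iff_eq hp hl).1 h3
      subst h6
      haveI : NeZero p := ⟨hp.ne_zero⟩
      have h7 : jacobiSym (p : ℤ) p = 0 := by
        rw [jacobiSym.eq_zero_iff_not_coprime]
        simp [hp.one_lt.ne']
      rw [h7] at hj
      exact zero_ne_one hj
  have := hb v hne (by rw [hv]; exact hj)
  rw [hv] at this
  exact this

theorem main (K : Type) [Field K] [NumberField K] (m a p0 : ℕ) (hm : 0 < m) (ha : a.Coprime m)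
    (hK : ∀ p : ℕ, p.Prime → p0 < p → p ≡ a [MOD m] →
      ∃ v : HeightOneSpectrum (𝓞 K), Ideal.absNorm v.asIdeal = p) :
    ∃ l0 : ℕ, ∀ l : ℕ, l.Prime → l0 < l →
      ∀ W : WeierstrassCurve K, W.IsElliptic → ¬ Heavenly W l := by
  obtain ⟨l1, h1⟩ := not_sparse m a (p0 + 3) hm ha
  obtain ⟨l2, h2⟩ := ec_main K
  exact ⟨l1 + l2, fun l hl hlt W hW hH =>
    h1 l hl (by omega) (sparse_of_bad K m a p0 hK hl (h2 l hl (by omega) W hW hH))⟩

end Pool.Agent.Lib.MP_e97e2b_nt.Ln
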