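import Pool.Agent.Lib.MP_e97e2b_nt.Ln.K1

/- The numerical table.
Suggested route: a structure of rational parameters, a Bool valued check over ℚ that uses
  expL x = ∑ i < 12, x^i / i!  ≤ exp x  (x ≥ 0, Real.sum_le_exp_of_nonneg),
  expU x = (∑ i < 8, (x/4)^i / i! + (x/4)^8 * 9 / (8! * 8))^4 ≥ exp x  (0 ≤ x ≤ 4, Real.exp_bound'),
  JJ T a ≤ (expU (a T) - 1 - a T) / a^2,  JJ T (-d) ≥ (1 / expU (d T) - 1 + d T) / d^2  (JJ_closed),
  exp (-x) ≤ 1 / expL x,  exp (-x) ≥ 1 / expU x,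
one soundness lemma (check = true implies RowOK), and decide +kernel (or norm_num) for the rows below.
All rows were verified with exactly these bounds in exact rational arithmetic.
Rows (l1, l2, TU, d0, K, α, β, σ, η, wb):
 n = 0, pos = false:
  27/200 27/200 4 27/200 5/4 131/100 103/50 421/100 21/10 0
 n = 1, pos = false:
  0 1/10 39/10 363/1000 11/10 49/20 351/100 43/10 21/10 0
 n = 1, pos = true:
  1/10 18/125 19/5 261/1000 1 181/100 68/25 94/25 2 1/2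
  18/125 93/500 19/5 7/40 1 147/100 11/5 351/100 19/10 369/1000
  93/500 11/50 73/20 109/1000 11/10 63/50 48/25 86/25 19/10 281/1000
  11/50 123/500 71/20 61/1000 11/10 113/100 173/100 339/100 19/10 223/1000
  123/500 33/125 71/20 3/100 21/20 107/100 81/50 167/50 19/10 97/500
  33/125 27/100 7/2 19/1000 11/10 21/20 8/5 84/25 19/10 23/125
 n = 2, pos = true:
  31/250 129/1000 41/10 3/10 11/20 113/50 159/50 167/100 13/10 2/5
  129/1000 69/500 81/20 279/1000 3/5 209/100 74/25 43/25 7/5 97/250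
  69/500 153/1000 79/20 49/200 3/5 189/100 67/25 177/100 7/5 363/1000
  153/1000 7/40 77/20 99/500 3/4 161/100 233/100 189/100 7/5 333/1000
  7/40 101/500 37/10 143/1000 4/5 7/5 203/100 199/100 3/2 287/1000
  101/500 231/1000 37/10 89/1000 9/10 61/50 9/5 211/100 3/2 121/500
  231/1000 257/1000 71/20 21/500 19/20 11/10 163/100 221/100 3/2 1/5
  257/1000 27/100 7/2 19/1000 9/10 21/20 31/20 56/25 3/2 177/1000 -/

namespace Pool.Agent.Lib.MP_e97e2b_nt.Ln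

open Complex Finset

/-- Lower bound for the exponential function. -/
noncomputable def nL (x : ℝ) : ℝ :=
  1 + x + x ^ 2 / 2 + x ^ 3 / 6 + x ^ 4 / 24 + x ^ 5 / 120 + x ^ 6 / 720 + x ^ 7 / 5040 +
    x ^ 8 / 40320 + x ^ 9 / 362880 + x ^ 10 / 3628800 + x ^ 11 / 39916800

/-- Upper bound for the exponential function on the unit interval. -/
noncomputable def nV (y : ℝ) : ℝ :=
  1 + y + y ^ 2 / 2 + y ^ 3 / 6 + y ^ 4 / 24 + y ^ 5 / 120 + y ^ 6 / 720 + y ^ 7 / 5040 +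
    y ^ 8 * 9 / (40320 * 8)

/-- Upper bound for the exponential function on `[0, 4]`. -/
noncomputable def nU (x : ℝ) : ℝ := nV (x / 4) ^ 4

theorem n_L {x : ℝ} (hx : 0 ≤ x) : nL x ≤ Real.exp x := by
  have h := Real.sum_le_exp_of_nonneg hx 12
  simp only [Finset.sum_range_succ, Finset.sum_range_zero, Nat.factorial] at h
  unfold nL
  norm_num at h ⊢
  linarith

theorem n_Lpos {x : ℝ} (hx : 0 ≤ x) : 0 < nL x := by
  unfold nL
  positivity

theorem n_U {x : ℝ} (hx : 0 ≤ x) (h4 : x ≤ 4) : Real.exp x ≤ nU x := by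
  have h := Real.exp_bound' (x := x / 4) (by positivity) (by linarith) (n := 8) (by norm_num)
  simp only [Finset.sum_range_succ, Finset.sum_range_zero, Nat.factorial] at h
  have h2 : Real.exp (x / 4) ≤ nV (x / 4) := by
    unfold nV
    norm_num at h ⊢
    linarith
  have h3 : Real.exp x = Real.exp (x / 4) ^ 4 := by
    rw [← Real.exp_nat_mul]
    congr 1
    push_cast
    ring
  rw [h3, nU]
  exact pow_le_pow_left₀ (Real.exp_pos _).le h2 4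

theorem n_negU {x : ℝ} (hx : 0 ≤ x) : Real.exp (-x) ≤ 1 / nL x := by
  rw [Real.exp_neg, one_div]
  exact inv_anti₀ (n_Lpos hx) (n_L hx)

theorem n_negL {x : ℝ} (hx : 0 ≤ x) (h4 : x ≤ 4) : 1 / nU x ≤ Real.exp (-x) := by
  rw [Real.exp_neg, one_div]
  exact inv_anti₀ (Real.exp_pos _) (n_U hx h4)

/-- Upper bound for `JJ`. -/
noncomputable def nJ (T a : ℝ) : ℝ := (nU (a * T) - 1 - a * T) / a ^ 2

theorem n_J {T a : ℝ} (hT : 0 ≤ T) (ha : 0 < a) (h4 : a * T ≤ 4) : JJ T a ≤ nJ T a := by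
  rw [JJ_closed T ha.ne', nJ]
  have := n_U (x := a * T) (by positivity) h4
  gcongr

theorem n_Jneg {T d : ℝ} (hT : 0 ≤ T) (hd : 0 < d) (h4 : d * T ≤ 4) :
    (1 / nU (d * T) - 1 + d * T) / d ^ 2 ≤ JJ T (-d) := by
  rw [JJ_closed T (neg_ne_zero.2 hd.ne'), neg_sq]
  have := n_negL (x := d * T) (by positivity) h4
  rw [neg_mul]
  apply div_le_div_of_nonneg_right _ (by positivity)
  linarith

/-- The rational form of the row inequalities. -/
structure RowQ (n : ℕ) (pos : Bool) (r : Par) : Prop where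
  l1_nonneg : 0 ≤ r.l1
  l12 : r.l1 ≤ r.l2
  l2_pos : 0 < r.l2
  l2_le : r.l2 ≤ 1 / 2
  d0_pos : 0 < r.d0
  d0_le : r.d0 ≤ 1 / 2
  Λ_pos : 1 / 10 ≤ r.Λ
  K_lo : 1 / 2 ≤ r.K
  K_hi : r.K ≤ 3 / 2
  α_nonneg : 0 ≤ r.α
  αβ : r.α ≤ r.β
  β_le : r.β ≤ 10
  σ_nonneg : 0 ≤ r.σ
  η_lo : 1 ≤ r.η
  η_hi : r.η ≤ 10
  wb_nonneg : 0 ≤ r.wb
  TU_nonneg : 0 ≤ r.TU
  TU_le : r.TU ≤ 8
  u1 : n ≠ 0 → 1 / 1000 ≤ (1 / nU (r.d0 * r.TU) - 1 + r.d0 * r.TU) / r.d0 ^ 2 - r.TU -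
    nJ r.TU r.l2 + r.TU ^ 2 / 2
  u2 : n ≠ 0 → r.l2 * r.TU ≤ 2
  u3 : n ≠ 0 → nU (r.l2 * r.TU) ≤ n + (3 - n) * (1 / nU (r.d0 * r.TU))
  cross : (r.β - r.α) * nU (2 * r.d0 * r.T) ≤ r.β * r.α
  den : 1 ≤ r.β * (r.T ^ 2 - r.T) - nJ r.T (2 * r.d0)
  sig : r.β ^ 2 * nJ r.T (2 * r.l2) + n * (r.α ^ 2 * r.T ^ 2 / 2 - r.α * r.β * (r.T ^ 2 - r.T)) ≤
    r.σ * (r.β * (r.T ^ 2 - r.T) - nJ r.T (2 * r.d0))
  l1_pos : pos = true → 0 < r.l1
  wb1 : pos = true → (1 - r.K * r.l1 / 2 + (r.K * r.l1) ^ 2 / 6) ^ 2 *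
    (1 / nL ((AA - 2 * r.K) * r.l1)) ≤ r.wb
  wb2 : pos = true → 41 / 100 * (1 / nL ((AA - 2 * r.K) * r.l1)) +
    64 / 100 * (1 / nL ((AA - 2 * r.K) * (r.l1 + r.d0))) *
      ((1 - 1 / nU (2 * r.Λ * r.K)) / (2 * r.Λ)) / r.K ≤ r.wb
  tot : n * r.wb + 1 / nL ((AA - 2 * r.K) * (r.l1 + r.d0)) *
    (r.σ * ((1 - 1 / nU (2 * r.Λ * r.K)) / (2 * r.Λ)) + (r.η + r.σ / r.η) *
      ((2 * r.Λ * r.K - 1 + 1 / nL (2 * r.Λ * r.K)) / (4 * r.Λ ^ 2))) / r.K ^ 2 ≤ 1 - 1 / 200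

theorem n_sound {n : ℕ} {pos : Bool} {r : Par} (hn : n ≤ 3) (h : RowQ n pos r) :
    RowOK n pos r := by
  have h1 := h.l1_nonneg
  have h2 := h.l12
  have h3 := h.l2_pos
  have h4 := h.l2_le
  have h5 := h.d0_pos
  have h6 := h.d0_le
  have h7 := h.Λ_pos
  have h8 := h.K_lo
  have h9 := h.K_hi
  have h10 := h.TU_nonneg
  have h11 := h.TU_le
  have hσ := h.σ_nonneg
  have hη := h.η_lo
  have hn' : (n : ℝ) ≤ 3 := by exact_mod_cast hn
  have hA : 0 ≤ AA - 2 * r.K := by unfold AA; linarith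
  have hT0 : 0 ≤ r.T := by unfold Par.T; linarith
  have hT4 : r.T ≤ 4 := by unfold Par.T AA; linarith
  have hΛ1 : r.Λ ≤ 1 := by unfold Par.Λ; linarith
  have hΛ0 : 0 < r.Λ := by linarith
  have hK0 : 0 < r.K := by linarith
  have hdT : 2 * r.d0 * r.T ≤ 4 := by nlinarith
  have hlT : 2 * r.l2 * r.T ≤ 4 := by nlinarith
  have hdU : r.d0 * r.TU ≤ 4 := by nlinarith
  have hlU : r.l2 * r.TU ≤ 4 := by nlinarith
  have hΛK : 2 * r.Λ * r.K ≤ 4 := by nlinarith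
  have hΛK0 : 0 ≤ 2 * r.Λ * r.K := by positivity
  have j1 := n_J hT0 (a := 2 * r.d0) (by linarith) hdT
  have j2 := n_J hT0 (a := 2 * r.l2) (by linarith) hlT
  have hx : r.x ≤ 1 / nL ((AA - 2 * r.K) * (r.l1 + r.d0)) := n_negU (by positivity)
  have hx0 : 0 ≤ r.x := (Real.exp_pos _).le
  have hx1 : 0 < nL ((AA - 2 * r.K) * (r.l1 + r.d0)) := n_Lpos (by positivity)
  have hk0 : 0 ≤ kap r.Λ r.K 0 := kap_nonneg hΛ0 hK0.le
  have hk : kap r.Λ r.K 0 ≤ (1 - 1 / nU (2 * r.Λ * r.K)) / (2 * r.Λ) := by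
    unfold kap
    rw [sub_zero]
    have := n_negL hΛK0 hΛK
    gcongr
  have ho0 : 0 ≤ kone r.Λ r.K := kone_nonneg hΛ0 hK0.le
  have ho : kone r.Λ r.K ≤ (2 * r.Λ * r.K - 1 + 1 / nL (2 * r.Λ * r.K)) / (4 * r.Λ ^ 2) := by
    unfold kone
    have := n_negU hΛK0
    gcongr
  have he : Real.exp (-((AA - 2 * r.K) * r.l1)) ≤ 1 / nL ((AA - 2 * r.K) * r.l1) :=
    n_negU (by positivity)
  refine ⟨h1, h2, h4, h5, h6, h7, h8, h9, h.α_nonneg, h.αβ, h.β_le, hσ, hη, h.η_hi, h.wb_nonneg,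
    h10, h11, fun h0 => ?_, h.u2, fun h0 => ?_, ?_, ?_, ?_, h.l1_pos, fun h0 => ?_, fun h0 => ?_,
    ?_⟩
  · have := h.u1 h0
    have := n_Jneg h10 h5 hdU
    have := n_J h10 h3 hlU
    linarith
  · have a1 := h.u3 h0
    have a2 := n_U (x := r.l2 * r.TU) (by positivity) hlU
    have a3 := n_negL (x := r.d0 * r.TU) (by positivity) hdU
    have := mul_le_mul_of_nonneg_left a3 (sub_nonneg.2 hn')
    linarith
  · have a2 := n_U (x := 2 * r.d0 * r.T) (by positivity) hdT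
    exact (mul_le_mul_of_nonneg_left a2 (sub_nonneg.2 h.αβ)).trans h.cross
  · have := h.den
    linarith
  · have a1 := h.sig
    have a2 := mul_le_mul_of_nonneg_left j2 (sq_nonneg r.β)
    have a3 := mul_le_mul_of_nonneg_left j1 hσ
    linarith
  · exact (mul_le_mul_of_nonneg_left he (sq_nonneg _)).trans (h.wb1 h0)
  · refine le_trans ?_ (h.wb2 h0)
    gcongr
  · refine le_trans ?_ h.tot
    have : 0 ≤ r.η + r.σ / r.η := by positivity
    gcongr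

theorem n_g : RowOK 0 false ⟨27 / 200, 27 / 200, 4, 27 / 200, 5 / 4, 131 / 100, 103 / 50, 421 / 100, 21 / 10, 0⟩ := by
  refine n_sound (by norm_num) ?_
  constructor <;> norm_num [nJ, nU, nV, nL, Par.T, Par.Λ, AA]

theorem n_n : RowOK 1 false ⟨0, 1 / 10, 39 / 10, 363 / 1000, 11 / 10, 49 / 20, 351 / 100, 43 / 10, 21 / 10, 0⟩ := by
  refine n_sound (by norm_num) ?_
  constructor <;> norm_num [nJ, nU, nV, nL, Par.T, Par.Λ, AA]

theorem n_a0 : RowOK 1 true ⟨1 / 10, 18 / 125, 19 / 5, 261 / 1000, 1, 181 / 100, 68 / 25, 94 / 25, 2, 1 / 2⟩ := by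
  refine n_sound (by norm_num) ?_
  constructor <;> norm_num [nJ, nU, nV, nL, Par.T, Par.Λ, AA]

theorem n_a1 : RowOK 1 true ⟨18 / 125, 93 / 500, 19 / 5, 7 / 40, 1, 147 / 100, 11 / 5, 351 / 100, 19 / 10, 369 / 1000⟩ := by
  refine n_sound (by norm_num) ?_
  constructor <;> norm_num [nJ, nU, nV, nL, Par.T, Par.Λ, AA]

theorem n_a2 : RowOK 1 true ⟨93 / 500, 11 / 50, 73 / 20, 109 / 1000, 11 / 10, 63 / 50, 48 / 25, 86 / 25, 19 / 10, 281 / 1000⟩ := by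
  refine n_sound (by norm_num) ?_
  constructor <;> norm_num [nJ, nU, nV, nL, Par.T, Par.Λ, AA]

theorem n_a3 : RowOK 1 true ⟨11 / 50, 123 / 500, 71 / 20, 61 / 1000, 11 / 10, 113 / 100, 173 / 100, 339 / 100, 19 / 10, 223 / 1000⟩ := by
  refine n_sound (by norm_num) ?_
  constructor <;> norm_num [nJ, nU, nV, nL, Par.T, Par.Λ, AA]

theorem n_a4 : RowOK 1 true ⟨123 / 500, 33 / 125, 71 / 20, 3 / 100, 21 / 20, 107 / 100, 81 / 50, 167 / 50, 19 / 10, 97 / 500⟩ := by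
  refine n_sound (by norm_num) ?_
  constructor <;> norm_num [nJ, nU, nV, nL, Par.T, Par.Λ, AA]

theorem n_a5 : RowOK 1 true ⟨33 / 125, 27 / 100, 7 / 2, 19 / 1000, 11 / 10, 21 / 20, 8 / 5, 84 / 25, 19 / 10, 23 / 125⟩ := by
  refine n_sound (by norm_num) ?_
  constructor <;> norm_num [nJ, nU, nV, nL, Par.T, Par.Λ, AA]

theorem n_b0 : RowOK 2 true ⟨31 / 250, 129 / 1000, 41 / 10, 3 / 10, 11 / 20, 113 / 50, 159 / 50, 167 / 100, 13 / 10, 2 / 5⟩ := by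
  refine n_sound (by norm_num) ?_
  constructor <;> norm_num [nJ, nU, nV, nL, Par.T, Par.Λ, AA]

theorem n_b1 : RowOK 2 true ⟨129 / 1000, 69 / 500, 81 / 20, 279 / 1000, 3 / 5, 209 / 100, 74 / 25, 43 / 25, 7 / 5, 97 / 250⟩ := by
  refine n_sound (by norm_num) ?_
  constructor <;> norm_num [nJ, nU, nV, nL, Par.T, Par.Λ, AA]

theorem n_b2 : RowOK 2 true ⟨69 / 500, 153 / 1000, 79 / 20, 49 / 200, 3 / 5, 189 / 100, 67 / 25, 177 / 100, 7 / 5, 363 / 1000⟩ := by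
  refine n_sound (by norm_num) ?_
  constructor <;> norm_num [nJ, nU, nV, nL, Par.T, Par.Λ, AA]

theorem n_b3 : RowOK 2 true ⟨153 / 1000, 7 / 40, 77 / 20, 99 / 500, 3 / 4, 161 / 100, 233 / 100, 189 / 100, 7 / 5, 333 / 1000⟩ := by
  refine n_sound (by norm_num) ?_
  constructor <;> norm_num [nJ, nU, nV, nL, Par.T, Par.Λ, AA]

theorem n_b4 : RowOK 2 true ⟨7 / 40, 101 / 500, 37 / 10, 143 / 1000, 4 / 5, 7 / 5, 203 / 100, 199 / 100, 3 / 2, 287 / 1000⟩ := by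
  refine n_sound (by norm_num) ?_
  constructor <;> norm_num [nJ, nU, nV, nL, Par.T, Par.Λ, AA]

theorem n_b5 : RowOK 2 true ⟨101 / 500, 231 / 1000, 37 / 10, 89 / 1000, 9 / 10, 61 / 50, 9 / 5, 211 / 100, 3 / 2, 121 / 500⟩ := by
  refine n_sound (by norm_num) ?_
  constructor <;> norm_num [nJ, nU, nV, nL, Par.T, Par.Λ, AA]

theorem n_b6 : RowOK 2 true ⟨231 / 1000, 257 / 1000, 71 / 20, 21 / 500, 19 / 20, 11 / 10, 163 / 100, 221 / 100, 3 / 2, 1 / 5⟩ := by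
  refine n_sound (by norm_num) ?_
  constructor <;> norm_num [nJ, nU, nV, nL, Par.T, Par.Λ, AA]

theorem n_b7 : RowOK 2 true ⟨257 / 1000, 27 / 100, 7 / 2, 19 / 1000, 9 / 10, 21 / 20, 31 / 20, 56 / 25, 3 / 2, 177 / 1000⟩ := by
  refine n_sound (by norm_num) ?_
  constructor <;> norm_num [nJ, nU, nV, nL, Par.T, Par.Λ, AA]

theorem rows_gen : ∃ r : Par, RowOK 0 false r ∧ r.l1 = 27 / 200 ∧ r.l2 = 27 / 200 ∧
    r.d0 = 27 / 200 :=
  ⟨_, n_g, rfl, rfl, rfl⟩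

theorem rows_neg : ∃ r : Par, RowOK 1 false r ∧ r.l1 = 0 ∧ r.l2 = 1 / 10 :=
  ⟨_, n_n, rfl, rfl⟩

theorem rows_one (s : ℝ) (h1 : 1 / 10 ≤ s) (h2 : s ≤ 27 / 100) :
    ∃ r : Par, RowOK 1 true r ∧ r.l1 ≤ s ∧ s ≤ r.l2 := by
  by_cases c0 : s ≤ 18 / 125
  · exact ⟨_, n_a0, by simp only; linarith, by simp only; linarith⟩
  by_cases c1 : s ≤ 93 / 500
  · exact ⟨_, n_a1, by simp only; linarith, by simp only; linarith⟩
  by_cases c2 : s ≤ 11 / 50
  · exact ⟨_, n_a2, by simp only; linarith, by simp only; linarith⟩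
  by_cases c3 : s ≤ 123 / 500
  · exact ⟨_, n_a3, by simp only; linarith, by simp only; linarith⟩
  by_cases c4 : s ≤ 33 / 125
  · exact ⟨_, n_a4, by simp only; linarith, by simp only; linarith⟩
  exact ⟨_, n_a5, by simp only; linarith, by simp only; linarith⟩

theorem rows_two (s : ℝ) (h1 : 124 / 1000 ≤ s) (h2 : s ≤ 27 / 100) :
    ∃ r : Par, RowOK 2 true r ∧ r.l1 ≤ s ∧ s ≤ r.l2 := by
  by_cases c0 : s ≤ 129 / 1000
  · exact ⟨_, n_b0, by simp only; linarith, by simp only; linarith⟩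
  by_cases c1 : s ≤ 69 / 500
  · exact ⟨_, n_b1, by simp only; linarith, by simp only; linarith⟩
  by_cases c2 : s ≤ 153 / 1000
  · exact ⟨_, n_b2, by simp only; linarith, by simp only; linarith⟩
  by_cases c3 : s ≤ 7 / 40
  · exact ⟨_, n_b3, by simp only; linarith, by simp only; linarith⟩
  by_cases c4 : s ≤ 101 / 500
  · exact ⟨_, n_b4, by simp only; linarith, by simp only; linarith⟩
  by_cases c5 : s ≤ 231 / 1000
  · exact ⟨_, n_b5, by simp only; linarith, by simp only; linarith⟩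
  by_cases c6 : s ≤ 257 / 1000
  · exact ⟨_, n_b6, by simp only; linarith, by simp only; linarith⟩
  exact ⟨_, n_b7, by simp only; linarith, by simp only; linarith⟩

end Pool.Agent.Lib.MP_e97e2b_nt.Ln
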