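import Pool.Agent.Lib.MP_e97e2b_nt.Ln.K2

/- Zero free region when the rightmost zero comes in a pair.
Suppose lam = -re z1 < 0.124, y = im z1, T = 51/10.  For every point ω let X = exp (-i y t) ev ψ1 sg, a complex
number of norm 1, x = re X.  Then 106 + 171 re X + 90 re X^2 + 25 re X^3 = 4 (1 + x) (2 + 5 x)^2 ≥ 0.
X^2 = exp (-i 2y t) ev (ψ1 * ψ1), X^3 = exp (-i 3y t) ev (ψ1^3) sg.  Multiply by μ * tl T lam t and add:
 0 ≤ 106 re p0 (tl) 0 1 + 171 re p1 (tl) y ψ1 + 90 re p0 (tl) (2y) (ψ1 ψ1) + 25 re p1 (tl) (3y) (ψ1^3).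
Use c0, c1 (P' = 0).  For ψ1^3 take P = 0.  If ψ1 ψ1 ≠ 1 take P = {z1} for ψ1.  If ψ1 ψ1 = 1 then y ≠ 0,
conj z1 ∈ Z ψ1 (Z_conj, ψ1⁻¹ = ψ1), take P = {z1, conj z1}, and ker_two with c = 171, u = 0, a = 90
(90 exp (0.6324) ≤ 171).  Result: 171 (T^2/2 - T/2) - 25 T / 2 ≤ 106 JJ T 0.124 + 392 ε, that is
1724.055 ≤ 1721.6 + 0.4, false (JJ_closed, exp (0.6324) ≤ 1.88213; Real.exp_bound'). -/

namespace Pool.Agent.Lib.MP_e97e2b_nt.Ln

open Complex Finset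

variable {Γ Ω : Type} [CommGroup Γ] [Fintype Ω]

theorem p1_point (a : ℂ) (ha : ‖a‖ = 1) :
    0 ≤ 106 + 171 * a.re + 90 * (a * a).re + 25 * (a * a * a).re := by
  have h1 : -1 ≤ a.re := by
    have := Complex.abs_re_le_norm a
    rw [ha] at this
    exact (abs_le.1 this).1
  have h2 : a.re * a.re + a.im * a.im = 1 := by
    rw [← normSq_apply, normSq_eq_norm_sq, ha, one_pow]
  have h3 : 0 ≤ 4 * (1 + a.re) * (2 + 5 * a.re) ^ 2 :=
    mul_nonneg (by linarith) (sq_nonneg _)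
  have h4 : 106 + 171 * a.re + 90 * (a * a).re + 25 * (a * a * a).re =
      4 * (1 + a.re) * (2 + 5 * a.re) ^ 2 := by
    simp only [mul_re, mul_im]
    linear_combination (-90 - 75 * a.re) * h2
  rwa [h4]

theorem p1_pos (D : Dat Γ Ω) {g : ℝ → ℝ} (hg : ∀ t, 0 ≤ g t) (ψ : Γ) (y : ℝ) :
    0 ≤ 106 * (D.p0 g 0 1).re + 171 * (D.p1 g y ψ).re +
      90 * (D.p0 g (2 * y) (ψ * ψ)).re + 25 * (D.p1 g (3 * y) (ψ * ψ * ψ)).re := by
  unfold Dat.p0 Dat.p1
  simp only [re_sum, re_ofReal_mul, Finset.mul_sum, ← Finset.sum_add_distrib]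
  refine Finset.sum_nonneg fun ω _ => ?_
  have hsg : ((D.sg ω : ℝ) : ℂ) * D.sg ω = 1 := by
    rcases D.sg_cases ω with h | h <;> rw [h] <;> simp
  have hsg' : ‖((D.sg ω : ℝ) : ℂ)‖ = 1 := by
    rcases D.sg_cases ω with h | h <;> rw [h] <;> simp
  have hn : ‖exp (-((y * D.t ω : ℝ) : ℂ) * I) * (D.ev ω ψ * D.sg ω)‖ = 1 := by
    rw [norm_mul, norm_mul, D.norm_ev, hsg', ← ofReal_neg, norm_exp_ofReal_mul_I]
    simp
  have h0 : exp (-((0 * D.t ω : ℝ) : ℂ) * I) * D.ev ω 1 = 1 := by simp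
  have h1 : exp (-((2 * y * D.t ω : ℝ) : ℂ) * I) * D.ev ω (ψ * ψ) =
      (exp (-((y * D.t ω : ℝ) : ℂ) * I) * (D.ev ω ψ * D.sg ω)) *
        (exp (-((y * D.t ω : ℝ) : ℂ) * I) * (D.ev ω ψ * D.sg ω)) := by
    have : -((2 * y * D.t ω : ℝ) : ℂ) * I =
        -((y * D.t ω : ℝ) : ℂ) * I + -((y * D.t ω : ℝ) : ℂ) * I := by
      push_cast
      ring
    rw [this, Complex.exp_add, map_mul]
    linear_combination (-(exp (-((y * D.t ω : ℝ) : ℂ) * I) ^ 2 * D.ev ω ψ ^ 2)) * hsg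
  have h2 : exp (-((3 * y * D.t ω : ℝ) : ℂ) * I) * (D.ev ω (ψ * ψ * ψ) * D.sg ω) =
      (exp (-((y * D.t ω : ℝ) : ℂ) * I) * (D.ev ω ψ * D.sg ω)) *
        (exp (-((y * D.t ω : ℝ) : ℂ) * I) * (D.ev ω ψ * D.sg ω)) *
        (exp (-((y * D.t ω : ℝ) : ℂ) * I) * (D.ev ω ψ * D.sg ω)) := by
    have : -((3 * y * D.t ω : ℝ) : ℂ) * I =
        -((y * D.t ω : ℝ) : ℂ) * I + -((y * D.t ω : ℝ) : ℂ) * I +
          -((y * D.t ω : ℝ) : ℂ) * I := by
      push_cast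
      ring
    rw [this, Complex.exp_add, Complex.exp_add, map_mul, map_mul]
    linear_combination
      (-(exp (-((y * D.t ω : ℝ) : ℂ) * I) ^ 3 * D.ev ω ψ ^ 3 * D.sg ω)) * hsg
  rw [h0, h1, h2]
  have h5 := mul_nonneg (mul_nonneg (D.μ_nonneg ω) (hg (D.t ω))) (p1_point _ hn)
  rw [one_re]
  linarith

theorem p1_exp : Real.exp (6324 / 10000) ≤ 188213 / 100000 := by
  have h := Real.exp_bound' (x := 6324 / 10000) (by norm_num) (by norm_num) (n := 8) (by norm_num)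
  refine h.trans ?_
  simp only [Finset.sum_range_succ, Finset.sum_range_zero, Nat.factorial]
  norm_num

theorem p1_JJ : JJ (51 / 10) (124 / 1000) ≤ 16242 / 1000 := by
  rw [JJ_closed _ (by norm_num)]
  have h : (124 / 1000 : ℝ) * (51 / 10) = 6324 / 10000 := by norm_num
  rw [h, div_le_iff₀ (by norm_num)]
  linarith [p1_exp]

theorem zp {D : Dat Γ Ω} {Λm ε Y : ℝ} (hC : Clean D Λm ε Y) (hΛ : 1 ≤ Λm) (hε : ε ≤ 1 / 1000)
    {ψ1 : Γ} {z1 : ℂ} (h1 : z1 ∈ zin (D.Z ψ1) Y)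
    (hmin : ∀ ψ, ∀ z ∈ zin (D.Z ψ) Y, z.re ≤ z1.re) (hP : ¬ (ψ1 * ψ1 = 1 ∧ z1.im = 0)) :
    z1.re ≤ -(124 / 1000) := by
  classical
  by_contra hlt
  push Not at hlt
  have hz : z1 ∈ D.Z ψ1 ∧ |z1.im| ≤ Y := by
    unfold zin at h1
    rwa [Multiset.mem_filter] at h1
  obtain ⟨s, hs⟩ : ∃ s, s = -z1.re := ⟨_, rfl⟩
  have hs0 : 0 ≤ s := by linarith [D.Z_re ψ1 z1 hz.1]
  have hs1 : s ≤ 124 / 1000 := by linarith
  have hY := hC.Y_nonneg
  have hT : (0 : ℝ) ≤ 51 / 10 := by norm_num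
  have hT8 : (51 / 10 : ℝ) ≤ 8 := by norm_num
  have hg : ∀ t, 0 ≤ tl (51 / 10) s t :=
    fun t => mul_nonneg (le_max_right _ _) (Real.exp_pos _).le
  have h0 := p1_pos D hg ψ1 z1.im
  have ha : ∀ (ψ : Γ) (y : ℝ), |y| ≤ 3 * Y → (D.p0 (tl (51 / 10) s) y ψ).re ≤
      (if ψ = 1 then (II (51 / 10) (s + y * I)).re else 0) + ε := by
    intro ψ y hy
    have h1 := hC.c0 ψ (51 / 10) s y hT hT8 hs0 (by linarith) hy
    have h2 := (Complex.re_le_norm _).trans h1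
    rw [sub_re] at h2
    by_cases h3 : ψ = 1
    · rw [if_pos h3] at h2 ⊢
      rw [II_re_neg] at h2
      linarith
    · rw [if_neg h3] at h2 ⊢
      rw [zero_re] at h2
      linarith
  have hb : ∀ (ψ : Γ) (y : ℝ) (P : Multiset ℂ), |y| ≤ 3 * Y → P ≤ zin (D.Z ψ) Y → P.card ≤ 3 →
      (P.map fun z => (II (51 / 10) (s + z - y * I)).re).sum - 51 / 10 / 2 - ε ≤
        -(D.p1 (tl (51 / 10) s) y ψ).re := by
    intro ψ y P hy hP hc
    exact hC.c1 ψ (51 / 10) s y P 0 hT hT8 hs0 (by linarith) hy (Multiset.zero_le _) hP (by simp)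
      hc (fun z hz => by linarith [hmin ψ z (by simpa using hz)])
  have g1 := ha 1 0 (by simpa using hY)
  rw [if_pos rfl, ofReal_zero, zero_mul, add_zero, II_ofReal, ofReal_re] at g1
  have g2 := ha (ψ1 * ψ1) (2 * z1.im) (by
    rw [abs_mul, abs_two]
    linarith [hz.2])
  have g3 := hb (ψ1 * ψ1 * ψ1) (3 * z1.im) 0 (by
    rw [abs_mul, abs_of_pos (by norm_num : (0 : ℝ) < 3)]
    linarith [hz.2]) (Multiset.zero_le _) (by simp)
  rw [Multiset.map_zero, Multiset.sum_zero] at g3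
  have hJ : JJ (51 / 10) s ≤ 16242 / 1000 := (JJ_mono hT hs1).trans p1_JJ
  have e1 : (s : ℂ) + z1 - z1.im * I = 0 := by
    apply Complex.ext <;> simp [hs]
  have hy : |z1.im| ≤ 3 * Y := by linarith [hz.2]
  by_cases hc : ψ1 * ψ1 = 1
  · have hinv : ψ1⁻¹ = ψ1 := inv_eq_of_mul_eq_one_right hc
    have hne : z1 ≠ starRingEnd ℂ z1 := by
      intro h
      have := congrArg Complex.im h
      rw [conj_im] at this
      exact hP ⟨hc, by linarith⟩
    have h2 : starRingEnd ℂ z1 ∈ zin (D.Z ψ1) Y := by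
      unfold zin
      rw [Multiset.mem_filter]
      refine ⟨?_, by simpa using hz.2⟩
      rw [← hinv, D.Z_conj]
      exact Multiset.mem_map_of_mem _ hz.1
    have hle : ({z1} : Multiset ℂ) + {starRingEnd ℂ z1} ≤ zin (D.Z ψ1) Y := by
      have hn : (({z1} : Multiset ℂ) + {starRingEnd ℂ z1}).Nodup := by
        rw [Multiset.singleton_add, Multiset.nodup_cons]
        simp [hne]
      rw [Multiset.le_iff_subset hn]
      intro x hx
      simp only [Multiset.mem_add, Multiset.mem_singleton] at hx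
      rcases hx with rfl | rfl
      · exact h1
      · exact h2
    have g4 := hb ψ1 z1.im _ hy hle (by simp)
    have e2 : (s : ℂ) + starRingEnd ℂ z1 - z1.im * I =
        ((0 : ℝ) : ℂ) - ((2 * z1.im : ℝ) : ℂ) * I := by
      apply Complex.ext
      · simp [hs]
      · simp
        ring
    simp only [Multiset.map_add, Multiset.sum_add, Multiset.map_singleton,
      Multiset.sum_singleton] at g4
    rw [e1, e2, II_re_neg, II_zero, ofReal_re, ofReal_zero, zero_add] at g4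
    rw [if_pos hc] at g2
    have hE : Real.exp (s * (51 / 10)) ≤ 188213 / 100000 :=
      (Real.exp_le_exp.2 (by linarith)).trans p1_exp
    have k := ker_two (T := 51 / 10) (c := 171) (u := 0) (a := 90) (d := 0) (lam := s)
      (2 * z1.im) hT le_rfl (by norm_num) le_rfl hs0 (by linarith) (by linarith)
    linarith
  · have g4 := hb ψ1 z1.im {z1} hy (Multiset.singleton_le.2 h1) (by simp)
    rw [Multiset.map_singleton, Multiset.sum_singleton, e1, II_zero, ofReal_re] at g4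
    rw [if_neg hc] at g2
    linarith

end Pool.Agent.Lib.MP_e97e2b_nt.Ln
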