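import Pool.Agent.Lib.MP_e97e2b_nt.Ln.K2

/- Repulsion of the next zero.
Let s = -re z1, y1 = im z1 and suppose z' ∈ zin (Z ψ') - prim ψ' has -re z' = s + d with d < d0 (d ≥ 0 by hmin),
y' = im z'.  With X = exp (-i y1 t) ev ψ1 sg and X' = exp (-i y' t) ev ψ' sg (norm 1),
 0 ≤ (1 + re X) (1 + re X') = 1 + re X + re X' + re (X X') / 2 + re (X conj X') / 2,
X X' = exp (-i (y1 + y') t) ev (ψ1 ψ'), X conj X' = exp (-i (y1 - y') t) ev (ψ1 ψ'⁻¹) (conj ev ψ = ev ψ⁻¹).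
Pair with μ * tl T s; use c0 and c1 with tilt s and P' = 0 (any list P ≤ zin of at most 3 zeros is allowed).
Main terms: JJ T s - T^2/2 - JJ T (-d) + T + cross + 4 ε ≥ 0.  It suffices to show cross ≤ 0 (JJ_mono then
contradicts hm).  Write C(w) = re II T w; C is even in the height (II_re_neg).  Cases:
 a. ψ' ≠ ψ1, ψ' ≠ ψ1⁻¹: lists {z1}, {z'}; no cross terms.
 b. ψ' = ψ1 ≠ ψ1⁻¹: both lists {z1, z'}; ker_two c = 1, u = 1, a = 1/2 at height y1 - y'.
 c. ψ' = ψ1⁻¹ ≠ ψ1: list {z', conj z1} for X', list {z1, conj z'} for X (conj z' ∈ zin (Z ψ1) - {z1} by Z_conj,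
    map conj commutes with filter and subtraction); same kernel at height y1 + y'.
 d. ψ' = ψ1 = ψ1⁻¹, y1 = 0 (n = 1).  If y' = 0: lists {z1, z'}; the inequality reads
    2 JJ T s - T^2 - 2 JJ T (-d) + T + 4 ε ≥ 0, which again contradicts hm since T ≥ 0.  If y' ≠ 0: list
    {z1, z', conj z'} for X, {z', z1} for X'; ker_two c = 1, u = 2, a = 1.
 e. ψ' = ψ1 = ψ1⁻¹, y1 ≠ 0 (n = 2): list {z', z1, conj z1} for X'.  If y' ≠ 0 list {z1, z', conj z'} for X and
    two kernels c = 1, u = 1, a = 1/2 at heights y1 - y', y1 + y'.  If y' = 0 list {z1, z'} and one kernel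
    c = 2, u = 1, a = 1 at height y1.
For n = 2, h3 says exp (l2 T) ≤ 2 + exp (-d0 T), enough for all kernels of b, c, e. -/

namespace Pool.Agent.Lib.MP_e97e2b_nt.Ln

open Complex Finset

variable {Γ Ω : Type} [CommGroup Γ] [Fintype Ω]

theorem p2_zin_conj (D : Dat Γ Ω) (Y : ℝ) (ψ : Γ) :
    zin (D.Z ψ⁻¹) Y = (zin (D.Z ψ) Y).map (starRingEnd ℂ) := by
  unfold zin
  rw [D.Z_conj, Multiset.filter_map]
  congr 1
  refine Multiset.filter_congr fun z _ => ?_
  simp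

theorem p2_conj_mem {D : Dat Γ Ω} {Y : ℝ} {ψ : Γ} {z : ℂ} (h : z ∈ zin (D.Z ψ) Y) :
    starRingEnd ℂ z ∈ zin (D.Z ψ⁻¹) Y := by
  rw [p2_zin_conj]
  exact Multiset.mem_map_of_mem _ h

theorem p2_pair_le {Z : Multiset ℂ} {a b : ℂ} (ha : a ∈ Z) (hb : b ∈ Z) (hab : a ≠ b) :
    ({a} : Multiset ℂ) + {b} ≤ Z := by
  have hn : (({a} : Multiset ℂ) + {b}).Nodup := by
    rw [Multiset.singleton_add, Multiset.nodup_cons]
    simp [hab]
  rw [Multiset.le_iff_subset hn]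
  intro x hx
  simp only [Multiset.mem_add, Multiset.mem_singleton] at hx
  rcases hx with rfl | rfl
  · exact ha
  · exact hb

theorem p2_ne_conj {z : ℂ} (h : z.im ≠ 0) : z ≠ starRingEnd ℂ z := by
  intro h1
  have := congrArg Complex.im h1
  simp only [conj_im] at this
  exact h (by linarith)

theorem p2_conj_sub (A B : Multiset ℂ) :
    (A - B).map (starRingEnd ℂ) = A.map (starRingEnd ℂ) - B.map (starRingEnd ℂ) := by
  have hinj : Function.Injective (starRingEnd ℂ) := (starRingEnd ℂ).injective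
  ext z
  have hz : z = starRingEnd ℂ (starRingEnd ℂ z) := by simp
  rw [Multiset.count_sub, hz, Multiset.count_map_eq_count' _ _ hinj,
    Multiset.count_map_eq_count' _ _ hinj, Multiset.count_map_eq_count' _ _ hinj,
    Multiset.count_sub]

theorem p2_prim_conj (ψ1 : Γ) (z1 : ℂ) (ψ : Γ) :
    prim ψ1 z1 ψ⁻¹ = (prim ψ1 z1 ψ).map (starRingEnd ℂ) := by
  unfold prim
  by_cases h : ψ1 * ψ1 = 1 ∧ z1.im = 0
  · have h1 : ψ1⁻¹ = ψ1 := inv_eq_of_mul_eq_one_right h.1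
    have h2 : starRingEnd ℂ z1 = z1 := conj_eq_iff_im.2 h.2
    have h3 : ψ⁻¹ = ψ1 ↔ ψ = ψ1 := by
      rw [inv_eq_iff_eq_inv, h1]
    rw [if_pos h, if_pos h]
    by_cases h4 : ψ = ψ1
    · rw [if_pos h4, if_pos (h3.2 h4), Multiset.map_singleton, h2]
    · rw [if_neg h4, if_neg (fun h5 => h4 (h3.1 h5)), Multiset.map_zero]
  · rw [if_neg h, if_neg h, Multiset.map_add, add_comm]
    congr 1
    · by_cases h4 : ψ = ψ1
      · rw [if_pos h4, if_pos (by rw [h4]), Multiset.map_singleton]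
      · rw [if_neg h4, if_neg (fun h5 => h4 (inv_injective h5)), Multiset.map_zero]
    · by_cases h4 : ψ = ψ1⁻¹
      · rw [if_pos h4, if_pos (by rw [h4, inv_inv]), Multiset.map_singleton]
        simp
      · rw [if_neg h4, if_neg (fun h5 => h4 (inv_eq_iff_eq_inv.1 h5)), Multiset.map_zero]

theorem p2_rest_conj {D : Dat Γ Ω} {Y : ℝ} {ψ1 ψ : Γ} {z1 z : ℂ}
    (h : z ∈ zin (D.Z ψ) Y - prim ψ1 z1 ψ) :
    starRingEnd ℂ z ∈ zin (D.Z ψ⁻¹) Y - prim ψ1 z1 ψ⁻¹ := by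
  rw [p2_zin_conj, p2_prim_conj, ← p2_conj_sub]
  exact Multiset.mem_map_of_mem _ h

theorem prim_le {D : Dat Γ Ω} {Y : ℝ} {ψ1 : Γ} {z1 : ℂ} (h1 : z1 ∈ zin (D.Z ψ1) Y) (ψ : Γ) :
    prim ψ1 z1 ψ ≤ zin (D.Z ψ) Y := by
  unfold prim
  by_cases h : ψ1 * ψ1 = 1 ∧ z1.im = 0
  · rw [if_pos h]
    by_cases h4 : ψ = ψ1
    · rw [if_pos h4, h4]
      exact Multiset.singleton_le.2 h1
    · rw [if_neg h4]
      exact Multiset.zero_le _
  · rw [if_neg h]
    have h2 := p2_conj_mem h1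
    by_cases h4 : ψ = ψ1
    · by_cases h5 : ψ = ψ1⁻¹
      · rw [if_pos h4, if_pos h5]
        have h6 : ψ1 * ψ1 = 1 := by
          nth_rewrite 1 [← h4, h5]
          exact inv_mul_cancel ψ1
        refine p2_pair_le (h4 ▸ h1) (h5 ▸ h2) (p2_ne_conj fun h7 => h ⟨h6, h7⟩)
      · rw [if_pos h4, if_neg h5, add_zero, h4]
        exact Multiset.singleton_le.2 h1
    · by_cases h5 : ψ = ψ1⁻¹
      · rw [if_neg h4, if_pos h5, zero_add, h5]
        exact Multiset.singleton_le.2 h2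
      · rw [if_neg h4, if_neg h5, add_zero]
        exact Multiset.zero_le _

theorem prim_card (ψ1 : Γ) (z1 : ℂ) (ψ : Γ) : (prim ψ1 z1 ψ).card ≤ 2 := by
  unfold prim
  split_ifs <;> simp

theorem prim_re (ψ1 : Γ) (z1 : ℂ) (ψ : Γ) : ∀ z ∈ prim ψ1 z1 ψ, z.re = z1.re := by
  unfold prim
  intro z hz
  split_ifs at hz <;> simp at hz
  all_goals (rcases hz with rfl | rfl <;> simp)

theorem prim_sum [Fintype Γ] (ψ1 : Γ) (z1 : ℂ) :
    ∑ ψ, (prim ψ1 z1 ψ).card = nprim ψ1 z1 := by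
  classical
  unfold prim nprim
  by_cases h : ψ1 * ψ1 = 1 ∧ z1.im = 0
  · simp only [if_pos h, apply_ite Multiset.card, Multiset.card_singleton, Multiset.card_zero]
    simp
  · simp only [if_neg h, Multiset.card_add, apply_ite Multiset.card, Multiset.card_singleton,
      Multiset.card_zero, Finset.sum_add_distrib]
    simp

/-- The cosine transform of the tilted triangle. -/
noncomputable def p2C (T a y : ℝ) : ℝ := (II T (a + y * I)).re

theorem p2C_neg (T a y : ℝ) : p2C T a (-y) = p2C T a y := by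
  unfold p2C
  rw [← II_re_neg T a y]
  congr 2
  push_cast
  ring

theorem p2C_zero (T a : ℝ) : p2C T a 0 = JJ T a := by
  unfold p2C
  simp [II_ofReal]

theorem p2C_eq (T s y : ℝ) (z : ℂ) :
    (II T (s + z - y * I)).re = p2C T (s + z.re) (z.im - y) := by
  unfold p2C
  congr 2
  apply Complex.ext <;> simp

theorem p2C_ker {T c u a d lam : ℝ} (y : ℝ) (hT : 0 ≤ T) (hu : 0 ≤ u) (ha : 0 ≤ a) (hd : 0 ≤ d)
    (hl : 0 ≤ lam) (hlT : lam * T ≤ 2)
    (h : a * Real.exp (lam * T) ≤ c + u * Real.exp (-(d * T))) :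
    a * p2C T lam y ≤ c * p2C T 0 y + u * p2C T (-d) y := by
  have := ker_two y hT hu ha hd hl hlT h
  unfold p2C
  simpa using this

theorem p2_point (a b : ℂ) (ha : ‖a‖ = 1) (hb : ‖b‖ = 1) :
    0 ≤ 1 + a.re + b.re + (a * b).re / 2 + (a * starRingEnd ℂ b).re / 2 := by
  have h1 : -1 ≤ a.re := by
    have := Complex.abs_re_le_norm a
    rw [ha] at this
    exact (abs_le.1 this).1
  have h2 : -1 ≤ b.re := by
    have := Complex.abs_re_le_norm b
    rw [hb] at this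
    exact (abs_le.1 this).1
  have h3 : 0 ≤ (1 + a.re) * (1 + b.re) := mul_nonneg (by linarith) (by linarith)
  simp only [mul_re, conj_re, conj_im]
  linarith

theorem p2_pos (D : Dat Γ Ω) {g : ℝ → ℝ} (hg : ∀ t, 0 ≤ g t) (ψ1 ψ2 : Γ) (y1 y2 : ℝ) :
    0 ≤ (D.p0 g 0 1).re + (D.p1 g y1 ψ1).re + (D.p1 g y2 ψ2).re +
      (D.p0 g (y1 + y2) (ψ1 * ψ2)).re / 2 + (D.p0 g (y1 - y2) (ψ1 * ψ2⁻¹)).re / 2 := by
  unfold Dat.p0 Dat.p1
  simp only [re_sum, re_ofReal_mul, Finset.sum_div, ← Finset.sum_add_distrib]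
  refine Finset.sum_nonneg fun ω _ => ?_
  have hsg : ((D.sg ω : ℝ) : ℂ) * D.sg ω = 1 := by
    rcases D.sg_cases ω with h | h <;> rw [h] <;> simp
  have hsg' : ‖((D.sg ω : ℝ) : ℂ)‖ = 1 := by
    rcases D.sg_cases ω with h | h <;> rw [h] <;> simp
  have hn : ∀ (y : ℝ) (ψ : Γ),
      ‖exp (-((y * D.t ω : ℝ) : ℂ) * I) * (D.ev ω ψ * D.sg ω)‖ = 1 := by
    intro y ψ
    rw [norm_mul, norm_mul, D.norm_ev, hsg', ← ofReal_neg, norm_exp_ofReal_mul_I]
    simp
  have h0 : exp (-((0 * D.t ω : ℝ) : ℂ) * I) * D.ev ω 1 = 1 := by simp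
  have h1 : exp (-(((y1 + y2) * D.t ω : ℝ) : ℂ) * I) * D.ev ω (ψ1 * ψ2) =
      (exp (-((y1 * D.t ω : ℝ) : ℂ) * I) * (D.ev ω ψ1 * D.sg ω)) *
        (exp (-((y2 * D.t ω : ℝ) : ℂ) * I) * (D.ev ω ψ2 * D.sg ω)) := by
    have : -(((y1 + y2) * D.t ω : ℝ) : ℂ) * I =
        -((y1 * D.t ω : ℝ) : ℂ) * I + -((y2 * D.t ω : ℝ) : ℂ) * I := by
      push_cast
      ring
    rw [this, Complex.exp_add, map_mul]
    linear_combination (-(exp (-((y1 * D.t ω : ℝ) : ℂ) * I) * exp (-((y2 * D.t ω : ℝ) : ℂ) * I) *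
      D.ev ω ψ1 * D.ev ω ψ2)) * hsg
  have h2 : exp (-(((y1 - y2) * D.t ω : ℝ) : ℂ) * I) * D.ev ω (ψ1 * ψ2⁻¹) =
      (exp (-((y1 * D.t ω : ℝ) : ℂ) * I) * (D.ev ω ψ1 * D.sg ω)) *
        starRingEnd ℂ (exp (-((y2 * D.t ω : ℝ) : ℂ) * I) * (D.ev ω ψ2 * D.sg ω)) := by
    have h3 : -(((y1 - y2) * D.t ω : ℝ) : ℂ) * I =
        -((y1 * D.t ω : ℝ) : ℂ) * I + starRingEnd ℂ (-((y2 * D.t ω : ℝ) : ℂ) * I) := by
      simp only [map_mul, map_neg, conj_ofReal, conj_I]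
      push_cast
      ring
    have h4 : D.ev ω ψ2⁻¹ = starRingEnd ℂ (D.ev ω ψ2) := by
      rw [map_inv, Complex.inv_eq_conj (D.norm_ev ω ψ2)]
    rw [h3, Complex.exp_add, map_mul (D.ev ω), h4, exp_conj, map_mul (starRingEnd ℂ),
      map_mul (starRingEnd ℂ), conj_ofReal]
    linear_combination (-(exp (-((y1 * D.t ω : ℝ) : ℂ) * I) *
      starRingEnd ℂ (exp (-((y2 * D.t ω : ℝ) : ℂ) * I)) *
      D.ev ω ψ1 * starRingEnd ℂ (D.ev ω ψ2))) * hsg
  rw [h0, h1, h2]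
  have h5 := mul_nonneg (mul_nonneg (D.μ_nonneg ω) (hg (D.t ω)))
    (p2_point _ _ (hn y1 ψ1) (hn y2 ψ2))
  rw [one_re]
  linarith

open Classical in
theorem p2_key {D : Dat Γ Ω} {Λm ε Y T s y1 y2 : ℝ} (hC : Clean D Λm ε Y) (ψ1 ψ2 : Γ)
    (hmin : ∀ ψ, ∀ z ∈ zin (D.Z ψ) Y, z.re ≤ -s) (hs : 0 ≤ s) (hsΛ : s ≤ Λm) (hT : 0 ≤ T)
    (hT8 : T ≤ 8) (hy1 : |y1| ≤ Y) (hy2 : |y2| ≤ Y) {P1 P2 : Multiset ℂ}
    (hP1 : P1 ≤ zin (D.Z ψ1) Y) (hP2 : P2 ≤ zin (D.Z ψ2) Y) (hc1 : P1.card ≤ 3)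
    (hc2 : P2.card ≤ 3) :
    (P1.map fun z => p2C T (s + z.re) (z.im - y1)).sum +
      (P2.map fun z => p2C T (s + z.re) (z.im - y2)).sum ≤
      JJ T s + T + 4 * ε + (if ψ1 * ψ2 = 1 then p2C T s (y1 + y2) else 0) / 2 +
        (if ψ1 * ψ2⁻¹ = 1 then p2C T s (y1 - y2) else 0) / 2 := by
  have hY := hC.Y_nonneg
  have hg : ∀ t, 0 ≤ tl T s t := fun t => mul_nonneg (le_max_right _ _) (Real.exp_pos _).le
  have h0 := p2_pos D hg ψ1 ψ2 y1 y2
  have ha : ∀ (ψ : Γ) (y : ℝ), |y| ≤ 3 * Y →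
      (D.p0 (tl T s) y ψ).re ≤ (if ψ = 1 then p2C T s y else 0) + ε := by
    intro ψ y hy
    have h1 := hC.c0 ψ T s y hT hT8 hs (by linarith) hy
    have h2 := (Complex.re_le_norm _).trans h1
    rw [sub_re] at h2
    by_cases h3 : ψ = 1
    · rw [if_pos h3] at h2 ⊢
      rw [II_re_neg] at h2
      unfold p2C
      linarith
    · rw [if_neg h3] at h2 ⊢
      rw [zero_re] at h2
      linarith
  have hb : ∀ (ψ : Γ) (y : ℝ) (P : Multiset ℂ), |y| ≤ Y → P ≤ zin (D.Z ψ) Y → P.card ≤ 3 →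
      (P.map fun z => p2C T (s + z.re) (z.im - y)).sum - T / 2 - ε ≤
        -(D.p1 (tl T s) y ψ).re := by
    intro ψ y P hy hP hc
    have h1 := hC.c1 ψ T s y P 0 hT hT8 hs hsΛ (by linarith) (Multiset.zero_le _) hP (by simp) hc
      (fun z hz => hmin ψ z (by simpa using hz))
    simpa only [p2C_eq] using h1
  have h1 := ha 1 0 (by simpa using hY)
  rw [if_pos rfl, p2C_zero] at h1
  have h2 := ha (ψ1 * ψ2) (y1 + y2) ((abs_add_le _ _).trans (by linarith))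
  have h3 := ha (ψ1 * ψ2⁻¹) (y1 - y2) ((abs_sub _ _).trans (by linarith))
  have h4 := hb ψ1 y1 P1 hy1 hP1 hc1
  have h5 := hb ψ2 y2 P2 hy2 hP2 hc2
  linarith

theorem p2_add_le {A B Q : Multiset ℂ} (hB : B ≤ A) (hQ : Q ≤ A - B) : B + Q ≤ A := by
  calc B + Q ≤ B + (A - B) := add_le_add_right hQ B
    _ = A := add_tsub_cancel_of_le hB

theorem u_one {D : Dat Γ Ω} {Λm ε Y T l2 d0 : ℝ} (hC : Clean D Λm ε Y) {ψ1 : Γ} {z1 : ℂ}
    (h1 : z1 ∈ zin (D.Z ψ1) Y) (hmin : ∀ ψ, ∀ z ∈ zin (D.Z ψ) Y, z.re ≤ z1.re)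
    (hl2 : -z1.re ≤ l2) (hΛ : l2 ≤ Λm) (hT : 0 ≤ T) (hT8 : T ≤ 8) (hd0 : 0 ≤ d0)
    (h2 : l2 * T ≤ 2)
    (h3 : Real.exp (l2 * T) ≤ nprim ψ1 z1 + (3 - nprim ψ1 z1) * Real.exp (-(d0 * T)))
    (hm : 4 * ε < JJ T (-d0) - T - JJ T l2 + T ^ 2 / 2) :
    ∀ ψ, ∀ z ∈ zin (D.Z ψ) Y - prim ψ1 z1 ψ, z.re ≤ z1.re - d0 := by
  classical
  intro ψ z hz
  by_contra hlt
  push Not at hlt
  have hz0 : z ∈ zin (D.Z ψ) Y := Multiset.mem_of_le tsub_le_self hz
  have hzin : ∀ {ψ : Γ} {z : ℂ}, z ∈ zin (D.Z ψ) Y → z.re ≤ 0 ∧ |z.im| ≤ Y := by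
    intro ψ z hz
    unfold zin at hz
    rw [Multiset.mem_filter] at hz
    exact ⟨D.Z_re ψ z hz.1, hz.2⟩
  obtain ⟨s, hs⟩ : ∃ s, s = -z1.re := ⟨_, rfl⟩
  obtain ⟨d, hd⟩ : ∃ d, d = z1.re - z.re := ⟨_, rfl⟩
  have hs0 : 0 ≤ s := by linarith [(hzin h1).1]
  have hd1 : 0 ≤ d := by linarith [hmin ψ z hz0]
  have hd2 : d ≤ d0 := by linarith
  have e1 : s + z1.re = 0 := by linarith
  have e2 : s + z.re = -d := by linarith
  have hε := hC.ε_nonneg
  have hJ1 : JJ T s ≤ JJ T l2 := JJ_mono hT (by linarith)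
  have hJ2 : JJ T (-d0) ≤ JJ T (-d) := JJ_mono hT (by linarith)
  have hJ0 := JJ_zero T
  have hsT : s * T ≤ l2 * T := mul_le_mul_of_nonneg_right (by linarith) hT
  have hE1 : Real.exp (s * T) ≤ Real.exp (l2 * T) := Real.exp_le_exp.2 hsT
  have hE2 : Real.exp (-(d0 * T)) ≤ Real.exp (-(d * T)) :=
    Real.exp_le_exp.2 (neg_le_neg (mul_le_mul_of_nonneg_right hd2 hT))
  have hE3 : Real.exp (-(d * T)) ≤ 1 := Real.exp_le_one_iff.2 (neg_nonpos.2 (mul_nonneg hd1 hT))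
  have hE4 := Real.exp_pos (-(d * T))
  have hn1 : ψ1 * ψ1 = 1 ∧ z1.im = 0 → Real.exp (s * T) ≤ 1 + 2 * Real.exp (-(d * T)) := by
    intro h
    unfold nprim at h3
    rw [if_pos h] at h3
    push_cast at h3
    linarith
  have hn2 : Real.exp (s * T) ≤ 2 + Real.exp (-(d * T)) := by
    by_cases h : ψ1 * ψ1 = 1 ∧ z1.im = 0
    · linarith [hn1 h]
    · unfold nprim at h3
      rw [if_neg h] at h3
      push_cast at h3
      linarith
  have kh : ∀ y, p2C T s y / 2 ≤ p2C T 0 y + p2C T (-d) y := by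
    intro y
    have := p2C_ker (c := 1) (u := 1) (a := 1 / 2) y hT zero_le_one (by norm_num) hd1 hs0
      (hsT.trans h2) (by linarith)
    linarith
  have key := fun (P1 P2 : Multiset ℂ) => p2_key (s := s) (P1 := P1) (P2 := P2) hC ψ1 ψ
    (fun ψ z hz => by linarith [hmin ψ z hz]) hs0 (by linarith) hT hT8 (hzin h1).2 (hzin hz0).2
  have hA : prim ψ1 z1 ψ + {z} ≤ zin (D.Z ψ) Y :=
    p2_add_le (prim_le h1 ψ) (Multiset.singleton_le.2 hz)
  have hz' := p2_rest_conj hz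
  have hA' : prim ψ1 z1 ψ⁻¹ + {starRingEnd ℂ z} ≤ zin (D.Z ψ⁻¹) Y :=
    p2_add_le (prim_le h1 ψ⁻¹) (Multiset.singleton_le.2 hz')
  have c1 : p2C T (-d) (z.im - z1.im) = p2C T (-d) (z1.im - z.im) := by
    rw [← p2C_neg, neg_sub]
  have c2 : p2C T (-d) (-z.im - z1.im) = p2C T (-d) (z1.im + z.im) := by
    rw [← p2C_neg]
    congr 1
    ring
  have c3 : p2C T 0 (-z1.im - z.im) = p2C T 0 (z1.im + z.im) := by
    rw [← p2C_neg]
    congr 1
    ring
  by_cases hb : ψ = ψ1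
  · subst hb
    by_cases hc : ψ * ψ = 1
    · have hinv : ψ⁻¹ = ψ := inv_eq_of_mul_eq_one_right hc
      rw [hinv] at hz'
      have hB : z.im ≠ 0 → prim ψ z1 ψ + ({z} + {starRingEnd ℂ z}) ≤ zin (D.Z ψ) Y :=
        fun h => p2_add_le (prim_le h1 ψ) (p2_pair_le hz hz' (p2_ne_conj h))
      by_cases hy1 : z1.im = 0
      · have hp : prim ψ z1 ψ = {z1} := by
          unfold prim
          rw [if_pos ⟨hc, hy1⟩, if_pos rfl]
        rw [hp] at hA hB
        by_cases hy : z.im = 0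
        · have := key _ _ hA hA (by simp) (by simp)
          simp only [Multiset.map_add, Multiset.sum_add, Multiset.map_singleton,
            Multiset.sum_singleton, e1, e2, hy, hy1, sub_self, add_zero, p2C_zero, hc,
            mul_inv_cancel, if_true] at this
          linarith
        · have := key _ _ (hB hy) hA (by simp) (by simp)
          simp only [Multiset.map_add, Multiset.sum_add, Multiset.map_singleton,
            Multiset.sum_singleton, conj_re, conj_im, e1, e2, hy1, sub_self, sub_zero, zero_sub,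
            zero_add, p2C_zero, p2C_neg, hc, mul_inv_cancel, if_true] at this
          have k := p2C_ker (c := 1) (u := 2) (a := 1) z.im hT (by norm_num) zero_le_one hd1 hs0
            (hsT.trans h2) (by linarith [hn1 ⟨hc, hy1⟩])
          linarith
      · have hp : prim ψ z1 ψ = {z1} + {starRingEnd ℂ z1} := by
          unfold prim
          rw [if_neg fun h => hy1 h.2, if_pos rfl, if_pos hinv.symm]
        rw [hp] at hA hB
        by_cases hy : z.im = 0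
        · have hA1 : ({z1} : Multiset ℂ) + {z} ≤ zin (D.Z ψ) Y :=
            le_trans (add_le_add_left (Multiset.le_add_right _ _) _) hA
          have := key _ _ hA1 hA (by simp) (by simp)
          simp only [Multiset.map_add, Multiset.sum_add, Multiset.map_singleton,
            Multiset.sum_singleton, conj_re, conj_im, e1, e2, hy, sub_self, sub_zero, zero_sub,
            add_zero, p2C_zero, p2C_neg, hc, mul_inv_cancel, if_true] at this
          have k := p2C_ker (c := 2) (u := 1) (a := 1) z1.im hT zero_le_one zero_le_one hd1 hs0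
            (hsT.trans h2) (by linarith)
          linarith
        · have hB1 : ({z1} : Multiset ℂ) + ({z} + {starRingEnd ℂ z}) ≤ zin (D.Z ψ) Y :=
            le_trans (add_le_add_left (Multiset.le_add_right _ _) _) (hB hy)
          have := key _ _ hB1 hA (by simp) (by simp)
          simp only [Multiset.map_add, Multiset.sum_add, Multiset.map_singleton,
            Multiset.sum_singleton, conj_re, conj_im, e1, e2, sub_self, p2C_zero, c1, c2, c3, hc,
            mul_inv_cancel, if_true] at this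
          linarith [kh (z1.im + z.im), kh (z1.im - z.im)]
    · have hp : prim ψ z1 ψ = {z1} := by
        unfold prim
        rw [if_neg fun h => hc h.1, if_pos rfl, if_neg, add_zero]
        intro h
        apply hc
        nth_rewrite 1 [h]
        exact inv_mul_cancel ψ
      rw [hp] at hA
      have := key _ _ hA hA (by simp) (by simp)
      simp only [Multiset.map_add, Multiset.sum_add, Multiset.map_singleton,
        Multiset.sum_singleton, e1, e2, sub_self, p2C_zero, c1, hc,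
        mul_inv_cancel, if_true, if_false] at this
      linarith [kh (z1.im - z.im)]
  · have hne : ¬ ψ1 * ψ⁻¹ = 1 := fun h => hb (mul_inv_eq_one.1 h).symm
    by_cases hc : ψ = ψ1⁻¹
    · have hc2 : ¬ ψ1 * ψ1 = 1 := fun h => hb (hc.trans (inv_eq_of_mul_eq_one_right h))
      have hc3 : ψ⁻¹ = ψ1 := by rw [hc, inv_inv]
      have hc4 : ψ1 * ψ = 1 := by rw [hc, mul_inv_cancel]
      have hp : prim ψ1 z1 ψ = {starRingEnd ℂ z1} := by
        unfold prim
        rw [if_neg fun h => hc2 h.1, if_neg hb, if_pos hc, zero_add]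
      have hp' : prim ψ1 z1 ψ1 = {z1} := by
        unfold prim
        rw [if_neg fun h => hc2 h.1, if_pos rfl, if_neg (fun h => hb (hc.trans h.symm)), add_zero]
      rw [hp] at hA
      rw [hc3, hp'] at hA'
      have := key _ _ hA' hA (by simp) (by simp)
      simp only [Multiset.map_add, Multiset.sum_add, Multiset.map_singleton,
        Multiset.sum_singleton, conj_re, conj_im, e1, e2, sub_self, p2C_zero, c2, c3, hc4, hne,
        if_true, if_false] at this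
      linarith [kh (z1.im + z.im)]
    · have hc4 : ¬ ψ1 * ψ = 1 := fun h => hc (eq_inv_of_mul_eq_one_right h)
      have := key {z1} {z} (Multiset.singleton_le.2 h1) (Multiset.singleton_le.2 hz0) (by simp)
        (by simp)
      simp only [Multiset.map_singleton, Multiset.sum_singleton, e1, e2, sub_self, p2C_zero, hc4,
        hne, if_false] at this
      linarith

end Pool.Agent.Lib.MP_e97e2b_nt.Ln
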