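import Pool.Agent.Lib.MP_e97e2b_nt.Ln.P3a

/- The capacity inequality.
Put c ψ = exp (-(A0 (ℓ ψ - (s + d0)))) ≤ 1, P ψ = Pr ψ + S ψ, u ψ t = ∑ z ∈ P ψ, cf s α (c ψ) z * exp (-z t) and
U ω = ∑ ψ, u ψ (t ω) * ev ω ψ * sg ω.  Expand
  0 ≤ ∑ ω, μ tri T t exp (-2 s t) ‖β exp (2 s t) + U ω‖^2
    = β^2 p0 (tl T (2 s)) 0 1 + 2 β re ∑ μ tri U + ∑ μ tri exp (-2 s t) ‖U‖^2.
Middle: for z0 ∈ P ψ the term is p1 (tl T (-re z0)) (im z0) ψ; use c1 with P = P ψ, P' = Pr ψ (tilt s or ℓ ψ).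
Last: for z ∈ P ψ, z' ∈ P ψ' the term is p0 (tl T (-re z - re z' - 2 s)) (im z - im z') (ψ ψ'⁻¹); use c0.
Then member_ineq for every ψ with d = ℓ ψ - s, J2 = JJ T (2 d0): c exp (2 d t) ≤ exp (2 d0 t) for
0 ≤ t ≤ T ≤ A0 / 2 (JJ_mul_le).  Errors: the coefficients of one member add up to ≤ 21, so the total is
≤ (100 + 20 * 21 |Γ| + (21 |Γ|)^2) ε. -/

namespace Pool.Agent.Lib.MP_e97e2b_nt.Ln

open Complex Finset

variable {Γ Ω : Type} [CommGroup Γ] [Fintype Γ] [Fintype Ω]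

theorem p3_sq {ι : Type} [Fintype ι] (b : ℝ) (u : ι → ℂ) :
    0 ≤ b ^ 2 + ∑ i, 2 * b * (u i).re + ∑ i, ∑ j, (u i * starRingEnd ℂ (u j)).re := by
  have h1 : ∑ i, ∑ j, (u i * starRingEnd ℂ (u j)).re = normSq (∑ i, u i) := by
    rw [← ofReal_re (normSq _), ← mul_conj, map_sum, sum_mul_sum, re_sum]
    exact sum_congr rfl fun i _ => (re_sum _ _).symm
  rw [h1, ← mul_sum, ← re_sum, normSq_apply]
  nlinarith [sq_nonneg (b + (∑ i, u i).re), mul_self_nonneg (∑ i, u i).im]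

omit [Fintype Γ] [Fintype Ω] in
theorem p3_conj (D : Dat Γ Ω) (ω : Ω) (y y' : ℝ) (ψ ψ' : Γ) :
    exp (-((y * D.t ω : ℝ) : ℂ) * I) * (D.ev ω ψ * D.sg ω) *
      starRingEnd ℂ (exp (-((y' * D.t ω : ℝ) : ℂ) * I) * (D.ev ω ψ' * D.sg ω)) =
    exp (-(((y - y') * D.t ω : ℝ) : ℂ) * I) * D.ev ω (ψ * ψ'⁻¹) := by
  have h1 : (D.sg ω : ℂ) * D.sg ω = 1 := by
    rcases D.sg_cases ω with h | h <;> simp [h]
  have h2 : exp (-(((y - y') * D.t ω : ℝ) : ℂ) * I) = exp (-((y * D.t ω : ℝ) : ℂ) * I) *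
      starRingEnd ℂ (exp (-((y' * D.t ω : ℝ) : ℂ) * I)) := by
    rw [← exp_conj, ← exp_add, map_mul, map_neg, conj_ofReal, conj_I]
    congr 1
    push_cast
    ring
  rw [h2, map_mul (D.ev ω), map_inv, inv_eq_conj (D.norm_ev ω ψ'), map_mul, map_mul, conj_ofReal]
  linear_combination (exp (-((y * D.t ω : ℝ) : ℂ) * I) *
    starRingEnd ℂ (exp (-((y' * D.t ω : ℝ) : ℂ) * I)) * D.ev ω ψ *
    starRingEnd ℂ (D.ev ω ψ')) * h1

omit [Fintype Γ] in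
theorem p3_expand {ι : Type} [Fintype ι] (D : Dat Γ Ω) (T s β : ℝ) (g : ι → Γ) (z : ι → ℂ)
    (a : ι → ℝ) :
    0 ≤ β ^ 2 * (D.p0 (tl T (2 * s)) 0 1).re +
      ∑ i, a i * (2 * β * (D.p1 (tl T (-(z i).re)) (z i).im (g i)).re) +
      ∑ i, ∑ j, a i * a j * (D.p0 (tl T (-(z i).re - (z j).re - 2 * s)) ((z i).im - (z j).im)
        (g i * (g j)⁻¹)).re := by
  simp only [Dat.p0, Dat.p1, re_sum, mul_sum]
  rw [sum_comm (s := (univ : Finset ι)) (t := (univ : Finset Ω))]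
  have e : ∀ F : ι → ι → Ω → ℝ, ∑ i, ∑ j, ∑ ω, F i j ω = ∑ ω, ∑ i, ∑ j, F i j ω := fun F => by
    rw [sum_comm (s := (univ : Finset Ω))]
    exact sum_congr rfl fun i _ => sum_comm
  rw [e, ← sum_add_distrib, ← sum_add_distrib]
  refine sum_nonneg fun ω _ => ?_
  have hw : 0 ≤ D.μ ω * tri T (D.t ω) := mul_nonneg (D.μ_nonneg ω) (le_max_right _ _)
  refine (mul_nonneg hw (p3_sq (β * Real.exp (s * D.t ω)) fun i =>
    ((a i * Real.exp ((-(z i).re - s) * D.t ω) : ℝ) : ℂ) *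
      (exp (-(((z i).im * D.t ω : ℝ) : ℂ) * I) * (D.ev ω (g i) * D.sg ω)))).trans_eq ?_
  rw [mul_add, mul_add, mul_sum, mul_sum]
  congr 1
  · congr 1
    · have h1 : Real.exp (2 * s * D.t ω) = Real.exp (s * D.t ω) ^ 2 := by
        rw [sq, ← Real.exp_add]
        congr 1
        ring
      rw [re_ofReal_mul, tl, h1]
      simp only [zero_mul, ofReal_zero, neg_zero, exp_zero, map_one, mul_one, one_re]
      ring
    · refine sum_congr rfl fun i _ => ?_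
      have h1 : Real.exp (-(z i).re * D.t ω) =
          Real.exp (s * D.t ω) * Real.exp ((-(z i).re - s) * D.t ω) := by
        rw [← Real.exp_add]
        congr 1
        ring
      rw [re_ofReal_mul, re_ofReal_mul, tl, h1]
      ring
  · refine sum_congr rfl fun i _ => ?_
    rw [mul_sum]
    refine sum_congr rfl fun j _ => ?_
    have h1 : Real.exp ((-(z i).re - (z j).re - 2 * s) * D.t ω) =
        Real.exp ((-(z i).re - s) * D.t ω) * Real.exp ((-(z j).re - s) * D.t ω) := by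
      rw [← Real.exp_add]
      congr 1
      ring
    rw [map_mul, mul_mul_mul_comm, p3_conj, conj_ofReal, ← ofReal_mul, re_ofReal_mul,
      re_ofReal_mul, tl, h1]
    ring

open Classical in
theorem p3_sum (m : Multiset ℂ) (f : ℂ → ℝ) : ∑ x : m, f x = (m.map f).sum :=
  congrArg Multiset.sum (Multiset.map_univ m f)

theorem capacity {D : Dat Γ Ω} {Λm ε Y s d0 T A0 α β : ℝ} {Pr S : Γ → Multiset ℂ} {ℓ : Γ → ℝ}
    (hC : Clean D Λm ε Y) (hF : Conf D Λm Y s d0 Pr S ℓ) (hT : 0 ≤ T) (hT8 : T ≤ 8)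
    (hTA : 2 * T ≤ A0) (hα : 0 ≤ α) (hαβ : α ≤ β) (hβ : β ≤ 10)
    (hcross : (β - α) * Real.exp (2 * d0 * T) ≤ β * α) :
    (∑ ψ, ((S ψ).card : ℝ) * Real.exp (-(A0 * (ℓ ψ - (s + d0))))) *
        (β * (T ^ 2 - T) - JJ T (2 * d0)) ≤
      β ^ 2 * JJ T (2 * s) +
        (∑ ψ, ((Pr ψ).card : ℝ)) * (α ^ 2 * T ^ 2 / 2 - α * β * (T ^ 2 - T)) +
        1000 * (Fintype.card Γ : ℝ) ^ 2 * ε := by
  classical
  set c : Γ → ℝ := fun ψ => Real.exp (-(A0 * (ℓ ψ - (s + d0)))) with hc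
  have hs := hF.s_nonneg
  have hd := hF.d0_pos
  have hε := hC.ε_nonneg
  have hY := hC.Y_nonneg
  have hsΛ : s ≤ Λm := by linarith [hF.lo 1, hF.hi 1]
  have hc0 : ∀ ψ, 0 ≤ c ψ := fun ψ => (Real.exp_pos _).le
  have hc1 : ∀ ψ, c ψ ≤ 1 := fun ψ => Real.exp_le_one_iff.2
    (neg_nonpos.2 (mul_nonneg (by linarith) (by linarith [hF.lo ψ])))
  have hce : ∀ ψ t, 0 ≤ t → t ≤ T →
      c ψ * Real.exp (2 * (ℓ ψ - s) * t) ≤ Real.exp (2 * d0 * t) := fun ψ t _ h1 => by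
    rw [hc, ← Real.exp_add]
    refine Real.exp_le_exp.2 ?_
    nlinarith [mul_nonneg (sub_nonneg.2 (hF.lo ψ)) (show 0 ≤ A0 - 2 * t by linarith)]
  have hre : ∀ ψ, ∀ z ∈ Pr ψ + S ψ, s ≤ -z.re ∧ -z.re ≤ ℓ ψ := fun ψ z hz => by
    have h0 := hF.lo ψ
    rcases Multiset.mem_add.1 hz with h | h
    · rw [hF.pre ψ z h]
      constructor <;> linarith
    · rcases hF.sec ψ with ⟨h1, _⟩ | ⟨e, h1, h2⟩
      · simp [h1] at h
      · rw [h1, Multiset.mem_singleton] at h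
        rw [h, h2]
        constructor <;> linarith
  have him : ∀ ψ, ∀ z ∈ Pr ψ + S ψ, |z.im| ≤ Y := fun ψ z hz =>
    (Multiset.mem_filter.1 (Multiset.mem_of_le (hF.le ψ) hz)).2
  have hcard : ∀ ψ, (Pr ψ + S ψ).card ≤ 3 := fun ψ => by
    have h0 := hF.card ψ
    rcases hF.sec ψ with ⟨h1, _⟩ | ⟨e, h1, _⟩ <;> simp [h1] <;> omega
  have hcf : ∀ ψ z, 0 ≤ cf s α (c ψ) z := fun ψ z => by
    unfold cf
    split_ifs
    exacts [hα, hc0 ψ]
  have h21 : ∀ ψ, ((Pr ψ + S ψ).map (cf s α (c ψ))).sum ≤ 21 := fun ψ => by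
    have h1 : ((Pr ψ).map (cf s α (c ψ))).sum ≤ 20 := by
      have h2 := Multiset.sum_le_card_nsmul ((Pr ψ).map (cf s α (c ψ))) 10 fun x hx => by
        obtain ⟨z, hz, rfl⟩ := Multiset.mem_map.1 hx
        unfold cf
        rw [if_pos (hF.pre ψ z hz)]
        linarith
      have h3 : ((Pr ψ).card : ℝ) ≤ 2 := by exact_mod_cast hF.card ψ
      rw [Multiset.card_map, nsmul_eq_mul] at h2
      linarith
    have h2 : ((S ψ).map (cf s α (c ψ))).sum ≤ 1 := by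
      rcases hF.sec ψ with ⟨h2, _⟩ | ⟨e, h2, h3⟩
      · simp [h2]
      · rw [h2, Multiset.map_singleton, Multiset.sum_singleton]
        unfold cf
        rw [if_neg (by linarith [hF.lo ψ] : e.re < -s).ne]
        exact hc1 ψ
    rw [Multiset.map_add, Multiset.sum_add]
    linarith
  have key := p3_expand (ι := Σ ψ : Γ, (Pr ψ + S ψ).ToType) D T s β (fun i => i.1)
    (fun i => (i.2 : ℂ)) fun i => cf s α (c i.1) i.2
  have hβ0 : 0 ≤ β := hα.trans hαβ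
  have b0 : (D.p0 (tl T (2 * s)) 0 1).re ≤ JJ T (2 * s) + ε := by
    have h1 := hC.c0 1 T (2 * s) 0 hT hT8 (by linarith) (by linarith) (by simpa using hY)
    rw [if_pos rfl, ofReal_zero, zero_mul, sub_zero, II_ofReal] at h1
    have h2 := (re_le_norm _).trans h1
    rw [sub_re, ofReal_re] at h2
    linarith
  have b1 : ∀ ψ, ∀ z0 ∈ Pr ψ + S ψ, (D.p1 (tl T (-z0.re)) z0.im ψ).re ≤
      T / 2 - ((Pr ψ + S ψ).map fun z => (II T (z - z0)).re).sum + ε := fun ψ z0 h0 => by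
    obtain ⟨h1, h2⟩ := hre ψ z0 h0
    have h3 := hC.c1 ψ T (-z0.re) z0.im (Pr ψ + S ψ) (Pr ψ) hT hT8 (by linarith)
      (h2.trans (hF.hi ψ)) (by linarith [him ψ z0 h0]) (Multiset.le_add_right _ _) (hF.le ψ)
      (hF.card ψ) (hcard ψ) fun z hz => by linarith [hF.rest ψ z hz]
    have h4 : ∀ z : ℂ, ((-z0.re : ℝ) : ℂ) + z - z0.im * I = z - z0 := fun z => by
      apply Complex.ext <;> simp
      ring
    simp only [h4] at h3
    linarith
  have b2 : ∀ ψ ψ', ∀ z ∈ Pr ψ + S ψ, ∀ z' ∈ Pr ψ' + S ψ',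
      (D.p0 (tl T (-z.re - z'.re - 2 * s)) (z.im - z'.im) (ψ * ψ'⁻¹)).re ≤
        (if ψ = ψ' then (II T (-z - starRingEnd ℂ z' - 2 * s)).re else 0) + ε :=
      fun ψ ψ' z hz z' hz' => by
    obtain ⟨h1, h2⟩ := hre ψ z hz
    obtain ⟨h3, h4⟩ := hre ψ' z' hz'
    have h5 := hC.c0 (ψ * ψ'⁻¹) T (-z.re - z'.re - 2 * s) (z.im - z'.im) hT hT8 (by linarith)
      (by linarith [hF.hi ψ, hF.hi ψ'])
      ((abs_sub _ _).trans (by linarith [him ψ z hz, him ψ' z' hz']))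
    have h6 : ((-z.re - z'.re - 2 * s : ℝ) : ℂ) - (z.im - z'.im : ℝ) * I =
        -z - starRingEnd ℂ z' - 2 * s := by
      apply Complex.ext <;> simp
      ring
    have h7 := (re_le_norm _).trans h5
    rw [sub_re, h6] at h7
    by_cases h : ψ = ψ'
    · rw [if_pos (mul_inv_eq_one.2 h)] at h7
      rw [if_pos h]
      linarith
    · rw [if_neg (fun h' => h (mul_inv_eq_one.1 h')), zero_re] at h7
      rw [if_neg h]
      linarith
  set A : ℝ := ∑ i : (Σ ψ : Γ, (Pr ψ + S ψ).ToType), cf s α (c i.1) i.2 with hA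
  have hA0 : 0 ≤ A := sum_nonneg fun i _ => hcf _ _
  have hA1 : A ≤ 21 * Fintype.card Γ := by
    rw [hA, Fintype.sum_sigma]
    refine (sum_le_sum (g := fun _ => (21 : ℝ)) fun ψ _ => ?_).trans (by simp [mul_comm])
    exact (p3_sum _ (cf s α (c ψ))).trans_le (h21 ψ)
  have m1 : ∑ i : (Σ ψ : Γ, (Pr ψ + S ψ).ToType), cf s α (c i.1) i.2 *
      (2 * β * (D.p1 (tl T (-(i.2 : ℂ).re)) (i.2 : ℂ).im i.1).re) ≤
      ∑ ψ, ((Pr ψ + S ψ).map fun z0 => cf s α (c ψ) z0 *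
        (2 * β * (T / 2 - ((Pr ψ + S ψ).map fun z => (II T (z - z0)).re).sum))).sum +
        A * (2 * β * ε) := by
    rw [hA, sum_mul, sum_congr rfl fun ψ _ => (p3_sum (Pr ψ + S ψ) _).symm,
      ← Fintype.sum_sigma', ← sum_add_distrib]
    refine sum_le_sum fun i _ => ?_
    rw [← mul_add, ← mul_add]
    exact mul_le_mul_of_nonneg_left (mul_le_mul_of_nonneg_left
      (b1 i.1 i.2 Multiset.coe_mem) (by linarith)) (hcf _ _)
  have m2 : ∑ i : (Σ ψ : Γ, (Pr ψ + S ψ).ToType), ∑ j : (Σ ψ : Γ, (Pr ψ + S ψ).ToType),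
      cf s α (c i.1) i.2 * cf s α (c j.1) j.2 *
      (D.p0 (tl T (-(i.2 : ℂ).re - (j.2 : ℂ).re - 2 * s)) ((i.2 : ℂ).im - (j.2 : ℂ).im)
        (i.1 * j.1⁻¹)).re ≤
      ∑ ψ, ((Pr ψ + S ψ).map fun z => ((Pr ψ + S ψ).map fun z' => cf s α (c ψ) z *
        cf s α (c ψ) z' * (II T (-z - starRingEnd ℂ z' - 2 * s)).re).sum).sum + A * A * ε := by
    rw [hA, sum_mul_sum, sum_mul, sum_congr rfl fun ψ _ => (p3_sum (Pr ψ + S ψ) _).symm,
      ← Fintype.sum_sigma' (α := fun ψ => (Pr ψ + S ψ).ToType), ← sum_add_distrib]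
    refine sum_le_sum fun i _ => ?_
    refine (sum_le_sum fun j _ => mul_le_mul_of_nonneg_left
      (b2 i.1 j.1 i.2 Multiset.coe_mem j.2 Multiset.coe_mem)
      (mul_nonneg (hcf _ _) (hcf _ _))).trans_eq ?_
    simp only [mul_add]
    rw [sum_add_distrib, sum_mul, Fintype.sum_sigma, sum_eq_single i.1, ← p3_sum]
    · simp only [if_true]
    · intro ψ _ h
      simp [h.symm]
    · simp
  have m3 := sum_le_sum (s := (univ : Finset Γ)) fun ψ _ =>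
    member_ineq (d := ℓ ψ - s) (c := c ψ) (J2 := JJ T (2 * d0)) (Pr ψ) (S ψ) hT
      (by linarith [hF.lo ψ]) hα hαβ (hc0 ψ) (hF.card ψ) (hF.pre ψ)
      ((hF.sec ψ).imp And.left fun ⟨e, h1, h2⟩ => ⟨e, h1, by rw [h2]; ring⟩)
      (by nlinarith [mul_le_mul_of_nonneg_left (hce ψ T hT le_rfl) (sub_nonneg.2 hαβ)])
      (JJ_mul_le hT (hce ψ))
  rw [sum_add_distrib, sum_add_distrib, ← sum_mul, ← sum_mul] at m3
  have hn : (1 : ℝ) ≤ Fintype.card Γ := by exact_mod_cast Fintype.card_pos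
  have m4 : β ^ 2 + A * (2 * β) + A * A ≤ 1000 * (Fintype.card Γ : ℝ) ^ 2 := by
    nlinarith [mul_le_mul hA1 hA1 hA0 (by linarith), mul_le_mul hA1 hβ hβ0 (by linarith)]
  have m5 := mul_le_mul_of_nonneg_right m4 hε
  have m6 := mul_le_mul_of_nonneg_left b0 (sq_nonneg β)
  linarith

end Pool.Agent.Lib.MP_e97e2b_nt.Ln
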