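import Pool.Agent.Lib.MP_e97e2b_nt.Ln.K2

/- The contribution of one member to the capacity inequality.
Cases Pr = 0, {a}, {a, b} (Multiset.card_eq_zero, card_eq_one, card_eq_two) and S = 0 or {e}.  Diagonal terms:
for a primary zero II T 0 twice, for e the terms II T 0 and II T (2 d) (real), with c^2 JJ T (2 d) ≤ c J2.
Pair of primaries: (2 α^2 - 4 α β) re II T (i Δ) ≤ 0 (II_re_nonneg, II_re_neg).  Pair primary a and e:
-2 β α C(-d + iΔ) - 2 β c C(d - iΔ) + 2 α c C(d ± iΔ) = -2 (β α C(-d) + c (β - α) C(d)) ≤ 0 by ker_three. -/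

namespace Pool.Agent.Lib.MP_e97e2b_nt.Ln

open Complex Finset

theorem p3a_re (T : ℝ) {z : ℂ} {a y : ℝ} (h1 : z.re = a) (h2 : z.im = y ∨ z.im = -y) :
    (II T z).re = (II T (a + y * I)).re := by
  have e1 : ((a : ℂ) + y * I).re = a := by simp
  have e2 : ((a : ℂ) + y * I).im = y := by simp
  rw [II_re, II_re, e1, e2, h1]
  rcases h2 with h | h <;> rw [h]
  simp only [neg_mul, Real.cos_neg]

/-- The contribution of an ordered pair of zeros. -/
noncomputable def p3a_t (T s α β c : ℝ) (z w : ℂ) : ℝ :=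
  cf s α c z * cf s α c w * (II T (-z - starRingEnd ℂ w - 2 * s)).re -
    2 * β * (cf s α c w * (II T (z - w)).re)

theorem p3a_aa (T α β c : ℝ) {s : ℝ} {a : ℂ} (ha : a.re = -s) :
    p3a_t T s α β c a a + β * T * cf s α c a = α ^ 2 * T ^ 2 / 2 - α * β * (T ^ 2 - T) := by
  have e1 : -a - starRingEnd ℂ a - 2 * s = 0 := Complex.ext (by simp [ha]; ring) (by simp)
  rw [p3a_t, e1, sub_self, II_zero, ofReal_re, cf, if_pos ha]
  ring

theorem p3a_ee {T s d α β c J2 : ℝ} {e : ℂ} (hd : 0 < d) (hc : 0 ≤ c) (he : e.re = -(s + d))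
    (hJ : c * JJ T (2 * d) ≤ J2) :
    p3a_t T s α β c e e + β * T * cf s α c e ≤ c * (J2 - β * (T ^ 2 - T)) := by
  have e1 : -e - starRingEnd ℂ e - 2 * s = ((2 * d : ℝ) : ℂ) :=
    Complex.ext (by simp [he]; ring) (by simp)
  have e2 : ¬ e.re = -s := by
    rw [he]
    intro h
    linarith
  rw [p3a_t, e1, sub_self, II_zero, II_ofReal, ofReal_re, ofReal_re, cf, if_neg e2]
  linarith [mul_le_mul_of_nonneg_left hJ hc]

theorem p3a_ab {T s α β : ℝ} (c : ℝ) {a b : ℂ} (hT : 0 ≤ T) (hα : 0 ≤ α) (hαβ : α ≤ β)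
    (ha : a.re = -s) (hb : b.re = -s) : p3a_t T s α β c a b ≤ 0 := by
  have e1 : (II T (-a - starRingEnd ℂ b - 2 * s)).re = (II T (a - b)).re := by
    rw [p3a_re T (z := a - b) (a := 0) (y := a.im - b.im) (by simp [ha, hb]) (Or.inl (by simp))]
    exact p3a_re T (by simp [ha, hb]; ring) (Or.inr (by simp; ring))
  have e2 : 0 ≤ (II T (a - b)).re := II_re_nonneg hT (by simp [ha, hb])
  rw [p3a_t, e1, cf, cf, if_pos ha, if_pos hb]
  linarith [mul_nonneg (mul_nonneg hα (show 0 ≤ 2 * β - α by linarith)) e2]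

theorem p3a_ae {T s d α β c : ℝ} {a e : ℂ} (hT : 0 ≤ T) (hd : 0 < d) (hαβ : α ≤ β) (hc : 0 ≤ c)
    (ha : a.re = -s) (he : e.re = -(s + d))
    (hcross : c * (β - α) * Real.exp (2 * d * T) ≤ β * α) :
    p3a_t T s α β c a e + p3a_t T s α β c e a ≤ 0 := by
  have e0 : ¬ e.re = -s := by
    rw [he]
    intro h
    linarith
  have e1 : (II T (-a - starRingEnd ℂ e - 2 * s)).re = (II T (d + (a.im - e.im : ℝ) * I)).re :=
    p3a_re T (by simp [ha, he]; ring) (Or.inr (by simp; ring))
  have e2 : (II T (-e - starRingEnd ℂ a - 2 * s)).re = (II T (d + (a.im - e.im : ℝ) * I)).re :=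
    p3a_re T (by simp [ha, he]; ring) (Or.inl (by simp; ring))
  have e3 : (II T (a - e)).re = (II T (d + (a.im - e.im : ℝ) * I)).re :=
    p3a_re T (by simp [ha, he]) (Or.inl (by simp))
  have e4 : (II T (e - a)).re = (II T ((-d : ℝ) + (a.im - e.im : ℝ) * I)).re :=
    p3a_re T (by simp [ha, he]) (Or.inr (by simp))
  have e5 := ker_three (a.im - e.im) hT (mul_nonneg hc (sub_nonneg.2 hαβ)) hd.le hcross
  rw [ofReal_neg] at e4
  rw [p3a_t, p3a_t, e1, e2, e3, e4, cf, cf, if_pos ha, if_neg e0]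
  linarith

theorem member_ineq {T s d α β c J2 : ℝ} (Pr S : Multiset ℂ) (hT : 0 ≤ T) (hd : 0 < d)
    (hα : 0 ≤ α) (hαβ : α ≤ β) (hc : 0 ≤ c) (hcard : Pr.card ≤ 2) (hre : ∀ z ∈ Pr, z.re = -s)
    (hS : S = 0 ∨ ∃ e : ℂ, S = {e} ∧ e.re = -(s + d))
    (hcross : c * (β - α) * Real.exp (2 * d * T) ≤ β * α) (hJ : c * JJ T (2 * d) ≤ J2) :
    ((Pr + S).map fun z0 => cf s α c z0 *
        (2 * β * (T / 2 - ((Pr + S).map fun z => (II T (z - z0)).re).sum))).sum +
      ((Pr + S).map fun z => ((Pr + S).map fun z' => cf s α c z * cf s α c z' *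
        (II T (-z - starRingEnd ℂ z' - 2 * s)).re).sum).sum ≤
      Pr.card * (α ^ 2 * T ^ 2 / 2 - α * β * (T ^ 2 - T)) + S.card * c * (J2 - β * (T ^ 2 - T)) := by
  have key : ∀ M : Multiset ℂ, (M.map fun z0 => cf s α c z0 *
        (2 * β * (T / 2 - (M.map fun z => (II T (z - z0)).re).sum))).sum +
      (M.map fun z => (M.map fun z' => cf s α c z * cf s α c z' *
        (II T (-z - starRingEnd ℂ z' - 2 * s)).re).sum).sum =
      (M.map fun z => β * T * cf s α c z).sum +
        (M.map fun z => (M.map fun w => p3a_t T s α β c z w).sum).sum := by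
    intro M
    have h1 : ∀ z0, cf s α c z0 * (2 * β * (T / 2 - (M.map fun z => (II T (z - z0)).re).sum)) =
        β * T * cf s α c z0 - (M.map fun z => 2 * β * (cf s α c z0 * (II T (z - z0)).re)).sum := by
      intro z0
      rw [Multiset.sum_map_mul_left, Multiset.sum_map_mul_left]
      ring
    simp only [h1, p3a_t, Multiset.sum_map_sub]
    rw [Multiset.sum_map_sum_map M M
      (f := fun z0 z => 2 * β * (cf s α c z0 * (II T (z - z0)).re))]
    ring
  rw [key]
  have h3 : Pr.card = 0 ∨ Pr.card = 1 ∨ Pr.card = 2 := by omega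
  rcases h3 with h | h | h
  · obtain rfl := Multiset.card_eq_zero.1 h
    rcases hS with rfl | ⟨e, rfl, he⟩
    · simp
    · have := p3a_ee (α := α) (β := β) hd hc he hJ
      simp only [zero_add, Multiset.map_singleton, Multiset.sum_singleton, Multiset.card_zero,
        Multiset.card_singleton, Nat.cast_zero, Nat.cast_one]
      linarith
  · obtain ⟨a, rfl⟩ := Multiset.card_eq_one.1 h
    have ha := hre a (by simp)
    have a1 := p3a_aa T α β c ha
    rcases hS with rfl | ⟨e, rfl, he⟩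
    · simp only [add_zero, Multiset.map_singleton, Multiset.sum_singleton, Multiset.card_zero,
        Multiset.card_singleton, Nat.cast_zero, Nat.cast_one]
      linarith
    · have e1 := p3a_ee (α := α) (β := β) hd hc he hJ
      have e2 := p3a_ae hT hd hαβ hc ha he hcross
      simp only [Multiset.map_add, Multiset.sum_add, Multiset.map_singleton,
        Multiset.sum_singleton, Multiset.card_singleton, Nat.cast_one]
      linarith
  · obtain ⟨a, b, rfl⟩ := Multiset.card_eq_two.1 h
    have ha := hre a (by simp)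
    have hb := hre b (by simp)
    have a1 := p3a_aa T α β c ha
    have a2 := p3a_aa T α β c hb
    have a3 := p3a_ab c hT hα hαβ ha hb
    have a4 := p3a_ab c hT hα hαβ hb ha
    rw [h]
    rcases hS with rfl | ⟨e, rfl, he⟩
    · simp only [add_zero, Multiset.insert_eq_cons, Multiset.map_cons, Multiset.sum_cons,
        Multiset.map_singleton, Multiset.sum_singleton, Multiset.card_zero, Nat.cast_zero,
        Nat.cast_ofNat]
      linarith
    · have e1 := p3a_ee (α := α) (β := β) hd hc he hJ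
      have e2 := p3a_ae hT hd hαβ hc ha he hcross
      have e3 := p3a_ae hT hd hαβ hc hb he hcross
      simp only [Multiset.map_add, Multiset.sum_add, Multiset.insert_eq_cons, Multiset.map_cons,
        Multiset.sum_cons, Multiset.map_singleton, Multiset.sum_singleton, Multiset.card_singleton,
        Nat.cast_one, Nat.cast_ofNat]
      linarith

end Pool.Agent.Lib.MP_e97e2b_nt.Ln
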