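import Pool.Agent.Lib.MP_e97e2b_nt.Ln.K3

/- The final sum.
A0 = AA - 2 K ≥ 4, x0 = exp (-(A0 (s + d0))) ≤ x, c ψ = exp (-(A0 (ℓ ψ - (s + d0)))) ≤ 1.  By w0, w1 (a 1 = 1):
 re ∑ ≥ K^2 - ∑ ψ, ∑ z ∈ zin, re (conj (a ψ) WW K z) - 2 |Γ| ε.
Split zin = Pr + (zin - Pr).  For z ∈ zin - Pr: ‖WW K z‖ ≤ exp (-A0 ℓ ψ) ‖VV‖^2 ≤ x0 c ψ * 2 re KK Λ K z
(norm_WW, ou).  By k1 (P' = Pr ψ): ∑ over zin - Pr of 2 re KK ≤ kap 0 - 2 re p1 - ∑ over Pr of 2 re KK + 2 ε.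
The primary terms are ≤ wb K^2 each by hw (x' = x0 c ψ).  With V ω = ∑ ψ, c ψ ev ω ψ sg ω and κ = cut kap ≥ 0:
 -2 re ∑ c ψ p1 = -2 ∑ μ κ re V ≤ ∑ μ κ (η + ‖V‖^2 / η) ≤ η (kone + ε) + (∑ c^2 kone + |Γ|^2 ε) / η  (k0).
Finally ∑ c^2 ≤ ∑ c ≤ σ, kap 0 ≥ 0, kone ≥ 0, x0 ≤ x, x0 ≤ 1. -/

namespace Pool.Agent.Lib.MP_e97e2b_nt.Ln

open Complex Finset

variable {Γ Ω : Type} [CommGroup Γ] [Fintype Γ] [Fintype Ω]

lemma p4_point (e : Γ →* ℂ) (he : ∀ ψ, ‖e ψ‖ = 1) (c : Γ → ℝ) {u η : ℝ} (hu : u = 1 ∨ u = -1)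
    (hη : 0 < η) : -2 * ∑ ψ, c ψ * ((e ψ).re * u) ≤
      η + (∑ ψ, ∑ ψ', c ψ * c ψ' * (e (ψ * ψ'⁻¹)).re) / η := by
  have h1 : ∑ ψ, ∑ ψ', c ψ * c ψ' * (e (ψ * ψ'⁻¹)).re =
      (∑ ψ, c ψ * (e ψ).re) ^ 2 + (∑ ψ, c ψ * (e ψ).im) ^ 2 := by
    simp only [sq, sum_mul_sum, ← sum_add_distrib]
    refine sum_congr rfl fun ψ _ => sum_congr rfl fun ψ' _ => ?_
    rw [map_mul, map_inv, Complex.inv_eq_conj (he ψ'), mul_re, conj_re, conj_im]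
    ring
  have h2 : ∑ ψ, c ψ * ((e ψ).re * u) = (∑ ψ, c ψ * (e ψ).re) * u := by
    simp only [sum_mul, mul_assoc]
  rw [h1, h2, ← sub_le_iff_le_add', le_div_iff₀ hη]
  rcases hu with rfl | rfl
  · nlinarith [sq_nonneg (∑ ψ, c ψ * (e ψ).im), sq_nonneg (η + ∑ ψ, c ψ * (e ψ).re)]
  · nlinarith [sq_nonneg (∑ ψ, c ψ * (e ψ).im), sq_nonneg (η - ∑ ψ, c ψ * (e ψ).re)]

open Classical in
lemma p4_quad (D : Dat Γ Ω) {κ : ℝ → ℝ} (hκ : ∀ t, 0 ≤ κ t) {c : Γ → ℝ} (hc0 : ∀ ψ, 0 ≤ c ψ)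
    (hc1 : ∀ ψ, c ψ ≤ 1) {k ε η : ℝ} (hk : 0 ≤ k) (hε : 0 ≤ ε) (hη : 0 < η)
    (h0 : ∀ ψ, ‖D.p0 κ 0 ψ - (if ψ = 1 then (k : ℂ) else 0)‖ ≤ ε) :
    -2 * ∑ ψ, c ψ * (D.p1 κ 0 ψ).re ≤
      η * (k + ε) + ((∑ ψ, c ψ) * k + (Fintype.card Γ : ℝ) ^ 2 * ε) / η := by
  have hp0 : ∀ ψ, (D.p0 κ 0 ψ).re = ∑ ω, D.μ ω * κ (D.t ω) * (D.ev ω ψ).re := fun ψ => by
    simp [Dat.p0]
  have hp1 : ∀ ψ, (D.p1 κ 0 ψ).re = ∑ ω, D.μ ω * κ (D.t ω) * ((D.ev ω ψ).re * D.sg ω) :=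
    fun ψ => by simp [Dat.p1]
  have h1 : ∀ ψ, (D.p0 κ 0 ψ).re ≤ (if ψ = 1 then k else 0) + ε := fun ψ => by
    have := (re_le_norm _).trans (h0 ψ)
    split_ifs at this ⊢ <;> simp at this <;> linarith
  have h2 : ∑ ω, D.μ ω * κ (D.t ω) ≤ k + ε := by simpa [hp0] using h1 1
  have h3 : ∑ ψ, ∑ ψ', c ψ * c ψ' * (D.p0 κ 0 (ψ * ψ'⁻¹)).re ≤
      (∑ ψ, c ψ) * k + (Fintype.card Γ : ℝ) ^ 2 * ε := by
    calc _ ≤ ∑ ψ, ∑ ψ', ((if ψ = ψ' then c ψ * k else 0) + ε) :=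
          sum_le_sum fun ψ _ => sum_le_sum fun ψ' _ => by
            have h4 := mul_nonneg (hc0 ψ) (hc0 ψ')
            refine (mul_le_mul_of_nonneg_left (h1 _) h4).trans ?_
            rw [mul_add]
            refine add_le_add ?_ (mul_le_of_le_one_left hε (mul_le_one₀ (hc1 ψ) (hc0 ψ') (hc1 ψ')))
            simp only [mul_inv_eq_one]
            split_ifs
            · exact mul_le_mul_of_nonneg_right (mul_le_of_le_one_right (hc0 ψ) (hc1 ψ')) hk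
            · exact (mul_zero _).le
      _ = _ := by
          simp only [sum_add_distrib, sum_ite_eq, mem_univ, if_true, sum_const, card_univ,
            nsmul_eq_mul, sum_mul]
          ring
  calc -2 * ∑ ψ, c ψ * (D.p1 κ 0 ψ).re
      = ∑ ω, D.μ ω * κ (D.t ω) * (-2 * ∑ ψ, c ψ * ((D.ev ω ψ).re * D.sg ω)) := by
        simp only [hp1, mul_sum]
        rw [sum_comm]
        exact sum_congr rfl fun ω _ => sum_congr rfl fun ψ _ => by ring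
    _ ≤ ∑ ω, D.μ ω * κ (D.t ω) *
        (η + (∑ ψ, ∑ ψ', c ψ * c ψ' * (D.ev ω (ψ * ψ'⁻¹)).re) / η) :=
        sum_le_sum fun ω _ => mul_le_mul_of_nonneg_left
          (p4_point _ (D.norm_ev ω) c (D.sg_cases ω) hη) (mul_nonneg (D.μ_nonneg ω) (hκ _))
    _ = η * ∑ ω, D.μ ω * κ (D.t ω) +
        (∑ ψ, ∑ ψ', c ψ * c ψ' * (D.p0 κ 0 (ψ * ψ'⁻¹)).re) / η := by
        simp only [mul_add, sum_add_distrib, ← mul_div_assoc, ← sum_div, ← sum_mul, mul_comm η]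
        congr 2
        simp only [hp0, mul_sum]
        rw [sum_comm]
        refine sum_congr rfl fun ψ _ => ?_
        rw [sum_comm]
        exact sum_congr rfl fun ψ' _ => sum_congr rfl fun ω _ => by ring
    _ ≤ _ := by gcongr

lemma p4_sum_le {P : Multiset ℂ} {F G : ℂ → ℝ} (h : ∀ z ∈ P, F z ≤ G z) :
    (P.map F).sum ≤ (P.map G).sum := Multiset.sum_map_le_sum_map _ _ h

lemma p4_re_sum (P : Multiset ℂ) (b : ℂ) (F : ℂ → ℂ) :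
    (b * (P.map F).sum).re = (P.map fun z => (b * F z).re).sum := by
  induction P using Multiset.induction_on with
  | empty => simp
  | cons z P ih => simp only [Multiset.map_cons, Multiset.sum_cons, mul_add, add_re, ih]

omit [Fintype Γ] in
lemma p4_member {D : Dat Γ Ω} {Λm ε Y s d0 K Λ x wb : ℝ} {Pr S : Γ → Multiset ℂ}
    {ℓ : Γ → ℝ} (hC : Clean D Λm ε Y) (hF : Conf D Λm Y s d0 Pr S ℓ) (ψ : Γ) {b : ℂ}
    (hb : ‖b‖ = 1) (hK : 0 ≤ K) (hK2 : K ≤ 3 / 2) (hΛ : 0 < Λ) (hΛs : Λ + 1 / 1000 ≤ s + d0)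
    (hx : Real.exp (-((AA - 2 * K) * ℓ ψ)) = x)
    (hw : ∀ z ∈ Pr ψ, (b * WW K z).re - 2 * x * (KK Λ K z).re ≤ wb * K ^ 2) :
    -(((Pr ψ).card : ℝ) * (wb * K ^ 2)) -
        x * (kap Λ K 0 - 2 * (D.p1 (cut (kap Λ K) K) 0 ψ).re + 2 * ε) - ε ≤
      (b * D.p1 (ww K) 0 ψ).re := by
  classical
  have hx0 : 0 ≤ x := hx ▸ (Real.exp_pos _).le
  have hA : 0 ≤ AA - 2 * K := by unfold AA; linarith
  have hlo := hF.lo ψ
  have h1 := hC.k1 ψ Λ K (Pr ψ) hΛ (hΛs.trans (hlo.trans (hF.hi ψ))) hK (by linarith)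
    (hF.card ψ) fun z hz => (hF.rest ψ z hz).trans (by linarith)
  have h2 := hC.w1 ψ K hK (by linarith)
  rw [← one_mul ‖_‖, ← hb, ← norm_mul, mul_add] at h2
  have h3 := (abs_le.1 ((abs_re_le_norm _).trans h2)).1
  have h4 : Pr ψ + (zin (D.Z ψ) Y - Pr ψ) = zin (D.Z ψ) Y :=
    add_tsub_cancel_of_le ((Multiset.le_add_right _ _).trans (hF.le ψ))
  have h5 := hF.rest ψ
  generalize zin (D.Z ψ) Y - Pr ψ = R at h4 h5
  rw [add_re, p4_re_sum] at h3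
  rw [← h4, Multiset.map_add, Multiset.sum_add] at h1 h3
  have h6 : (R.map fun z => (b * WW K z).re).sum ≤ (R.map fun z => 2 * x * (KK Λ K z).re).sum :=
    p4_sum_le fun z hz => by
      have h7 := ou hΛ hK (z := z) ((h5 z hz).trans (by linarith))
      have h8 : Real.exp ((AA - 2 * K) * z.re) ≤ x := by
        rw [← hx, ← mul_neg]
        exact Real.exp_le_exp.2 (mul_le_mul_of_nonneg_left (h5 z hz) hA)
      refine (re_le_norm _).trans ?_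
      rw [norm_mul, hb, one_mul, norm_WW]
      exact (mul_le_mul h8 h7 (sq_nonneg _) hx0).trans_eq (by ring)
  have h7 : ((Pr ψ).map fun z => (b * WW K z).re).sum ≤
      ((Pr ψ).map fun z => wb * K ^ 2 + 2 * x * (KK Λ K z).re).sum :=
    p4_sum_le fun z hz => by linarith [hw z hz]
  rw [Multiset.sum_map_add, Multiset.map_const', Multiset.sum_replicate, nsmul_eq_mul,
    Multiset.sum_map_mul_left] at h7
  rw [Multiset.sum_map_mul_left] at h6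
  linarith [mul_le_mul_of_nonneg_left h1 hx0]

theorem final_sum {D : Dat Γ Ω} {Λm ε Y s d0 K Λ x σ η wb : ℝ} {Pr S : Γ → Multiset ℂ}
    {ℓ : Γ → ℝ} (hC : Clean D Λm ε Y) (hF : Conf D Λm Y s d0 Pr S ℓ) (a : Γ →* ℂ)
    (ha : ∀ ψ, ‖a ψ‖ = 1) (hK : 0 ≤ K) (hK2 : K ≤ 3 / 2) (hΛ : 0 < Λ)
    (hΛs : Λ + 1 / 1000 ≤ s + d0) (hx : Real.exp (-((AA - 2 * K) * (s + d0))) ≤ x)
    (hσ : ∑ ψ, Real.exp (-((AA - 2 * K) * (ℓ ψ - (s + d0)))) ≤ σ) (hη : 1 ≤ η) (hη' : η ≤ 10)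
    (hw : ∀ ψ, ∀ z ∈ Pr ψ, ∀ x' : ℝ, 0 ≤ x' → x' ≤ x →
      (starRingEnd ℂ (a ψ) * WW K z).re - 2 * x' * (KK Λ K z).re ≤ wb * K ^ 2) :
    K ^ 2 - (∑ ψ, ((Pr ψ).card : ℝ)) * (wb * K ^ 2) -
        x * (σ * kap Λ K 0 + (η + σ / η) * kone Λ K) - 20 * (Fintype.card Γ : ℝ) ^ 2 * ε ≤
      (∑ ψ, starRingEnd ℂ (a ψ) * (D.p0 (ww K) 0 ψ + D.p1 (ww K) 0 ψ)).re := by
  classical
  have hε := hC.ε_nonneg
  have hA : 0 ≤ AA - 2 * K := by unfold AA; linarith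
  have hk := kone_nonneg hΛ hK
  have hk0 := kap_nonneg (t := 0) hΛ hK
  have hη0 : 0 < η := by linarith
  obtain ⟨c, hc⟩ : ∃ c : Γ → ℝ, ∀ ψ, Real.exp (-((AA - 2 * K) * (ℓ ψ - (s + d0)))) = c ψ :=
    ⟨_, fun _ => rfl⟩
  obtain ⟨x0, hx0⟩ : ∃ x0, Real.exp (-((AA - 2 * K) * (s + d0))) = x0 := ⟨_, rfl⟩
  have hc0 : ∀ ψ, 0 ≤ c ψ := fun ψ => hc ψ ▸ (Real.exp_pos _).le
  have hc1 : ∀ ψ, c ψ ≤ 1 := fun ψ => hc ψ ▸ Real.exp_le_one_iff.2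
    (neg_nonpos.2 (mul_nonneg hA (sub_nonneg.2 (hF.lo ψ))))
  have hx1 : 0 ≤ x0 := hx0 ▸ (Real.exp_pos _).le
  have hx2 : x0 ≤ 1 := hx0 ▸ Real.exp_le_one_iff.2 (neg_nonpos.2 (mul_nonneg hA (by linarith)))
  simp only [hc] at hσ
  rw [hx0] at hx
  have h1 := fun ψ => p4_member hC hF ψ (b := starRingEnd ℂ (a ψ)) (x := x0 * c ψ)
    (by rw [norm_conj, ha]) hK hK2 hΛ hΛs (by rw [← hc, ← hx0, ← Real.exp_add]; congr 1; ring)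
    fun z hz => hw ψ z hz _ (mul_nonneg hx1 (hc0 ψ))
      ((mul_le_of_le_one_right hx1 (hc1 ψ)).trans hx)
  have h2 : ∀ ψ, (if ψ = 1 then K ^ 2 else 0) - ε ≤
      (starRingEnd ℂ (a ψ) * D.p0 (ww K) 0 ψ).re := fun ψ => by
    have h3 := hC.w0 ψ K hK (by linarith)
    rw [← one_mul ‖_‖, ← ha ψ, ← norm_conj (a ψ), ← norm_mul, mul_sub] at h3
    have h4 := (abs_le.1 ((abs_re_le_norm _).trans h3)).1
    rw [sub_re] at h4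
    split_ifs at h4 ⊢ with h5
    · rw [h5, map_one, map_one, one_mul ((K : ℂ) ^ 2), ← ofReal_pow, ofReal_re] at h4
      rw [h5, map_one, map_one]
      linarith
    · rw [mul_zero, zero_re] at h4
      linarith
  have h3 := p4_quad D (κ := cut (kap Λ K) K) (fun t => by
      unfold cut
      split_ifs with h
      exacts [kap_nonneg hΛ h, le_rfl]) hc0 hc1 hk hε hη0
    fun ψ => hC.k0 ψ Λ K hΛ (by linarith [hF.lo ψ, hF.hi ψ]) hK (by linarith)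
  have h4 := sum_le_sum fun ψ (_ : ψ ∈ univ) => add_le_add (h2 ψ) (h1 ψ)
  have h5 : ∑ ψ, x0 * c ψ * (kap Λ K 0 - 2 * (D.p1 (cut (kap Λ K) K) 0 ψ).re + 2 * ε) =
      x0 * ((∑ ψ, c ψ) * (kap Λ K 0 + 2 * ε) +
        -2 * ∑ ψ, c ψ * (D.p1 (cut (kap Λ K) K) 0 ψ).re) := by
    simp only [mul_sum, sum_mul, ← sum_add_distrib]
    exact sum_congr rfl fun ψ _ => by ring
  simp only [← add_re, ← mul_add, ← re_sum] at h4
  simp only [sum_add_distrib, sum_sub_distrib, sum_neg_distrib, h5, sum_ite_eq', mem_univ, if_true,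
    sum_const, card_univ, nsmul_eq_mul, ← sum_mul] at h4
  have hg : (1 : ℝ) ≤ Fintype.card Γ := by exact_mod_cast Fintype.card_pos
  have h6 : ∑ ψ, c ψ ≤ Fintype.card Γ := by simpa using sum_le_sum fun ψ (_ : ψ ∈ univ) => hc1 ψ
  have h7 : 0 ≤ ∑ ψ, c ψ := sum_nonneg fun ψ _ => hc0 ψ
  generalize (Fintype.card Γ : ℝ) = g at *
  generalize ∑ ψ, c ψ = C at *
  have e1 : x0 * (C * kap Λ K 0 + (η + C / η) * kone Λ K) ≤
      x * (σ * kap Λ K 0 + (η + σ / η) * kone Λ K) := by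
    have := hx1.trans hx
    gcongr
  have e2 : x0 * ((2 * C + η + g ^ 2 / η) * ε) ≤ (2 * g + 10 + g ^ 2) * ε :=
    (mul_le_of_le_one_left (by positivity) hx2).trans (by
      have := div_le_self (sq_nonneg g) hη
      gcongr)
  have e3 : (4 * g + 10 + g ^ 2) * ε ≤ 20 * g ^ 2 * ε :=
    mul_le_mul_of_nonneg_right (by nlinarith) hε
  have e4 := mul_le_mul_of_nonneg_left h3 hx1
  simp only [div_eq_mul_inv] at e1 e2 e4 ⊢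
  linarith

end Pool.Agent.Lib.MP_e97e2b_nt.Ln
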