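import Pool.Agent.Lib.MP_e97e2b_nt.Ln.P3
import Pool.Agent.Lib.MP_e97e2b_nt.Ln.P4

/- One row of the table gives the lower bound.
`exists_conf`: for each ψ, if zin - Pr has an element with -re ≤ Λm take one with maximal re
(Multiset.exists_max_image or Finset.exists_max_image on toFinset), S = {e}, ℓ = -re e; otherwise S = 0, ℓ = Λm.
`row_main`: g = |Γ|.  capacity with T = r.T, A0 = AA - 2 K gives σ0 * den ≤ r.σ * den + 1000 g^2 ε (JJ_mono for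
2 s ≤ 2 l2, field sig), so σ0 ≤ r.σ + 1000 g^2 ε as den ≥ 1.  Members with S = 0 have
c ≤ exp (-4 (Λm - 1)), so ∑ c ≤ σ := r.σ + 1000 g^2 ε + g exp (-4 (Λm - 1)) ≤ r.σ + 0.00011.  Apply final_sum with
Λ = r.Λ, x = r.x ≤ 1; kap 0 ≤ 3/2, kone ≤ 9/8, K^2 / 200 ≥ 1/800 and field tot. -/

namespace Pool.Agent.Lib.MP_e97e2b_nt.Ln

open Complex Finset

variable {Γ Ω : Type} [CommGroup Γ] [Fintype Γ] [Fintype Ω]

theorem exists_conf {D : Dat Γ Ω} {Λm Y s d0 : ℝ} {Pr : Γ → Multiset ℂ} (hs : 0 ≤ s)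
    (hd : 0 < d0) (hΛ : s + d0 ≤ Λm) (hle : ∀ ψ, Pr ψ ≤ zin (D.Z ψ) Y)
    (hcard : ∀ ψ, (Pr ψ).card ≤ 2) (hre : ∀ ψ, ∀ z ∈ Pr ψ, z.re = -s)
    (hrest : ∀ ψ, ∀ z ∈ zin (D.Z ψ) Y - Pr ψ, z.re ≤ -(s + d0)) :
    ∃ (S : Γ → Multiset ℂ) (ℓ : Γ → ℝ), Conf D Λm Y s d0 Pr S ℓ := by
  classical
  have key : ∀ ψ, ∃ (S : Multiset ℂ) (ℓ : ℝ), Pr ψ + S ≤ zin (D.Z ψ) Y ∧
      ((S = 0 ∧ ℓ = Λm) ∨ ∃ e : ℂ, S = {e} ∧ e.re = -ℓ) ∧
      (∀ z ∈ zin (D.Z ψ) Y - Pr ψ, z.re ≤ -ℓ) ∧ s + d0 ≤ ℓ ∧ ℓ ≤ Λm := by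
    intro ψ
    by_cases h : ∀ z ∈ zin (D.Z ψ) Y - Pr ψ, z.re ≤ -Λm
    · exact ⟨0, Λm, by simpa using hle ψ, Or.inl ⟨rfl, rfl⟩, h, hΛ, le_rfl⟩
    · push Not at h
      obtain ⟨z0, hz0, hz0'⟩ := h
      obtain ⟨e, he, hmax⟩ := Finset.exists_max_image (zin (D.Z ψ) Y - Pr ψ).toFinset
        (fun z => z.re) ⟨z0, Multiset.mem_toFinset.2 hz0⟩
      rw [Multiset.mem_toFinset] at he
      refine ⟨{e}, -e.re, ?_, Or.inr ⟨e, rfl, by ring⟩, fun z hz => ?_, ?_, ?_⟩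
      · exact (le_tsub_iff_left (hle ψ)).1 (Multiset.singleton_le.2 he)
      · have := hmax z (Multiset.mem_toFinset.2 hz)
        linarith
      · have := hrest ψ e he
        linarith
      · have := hmax z0 (Multiset.mem_toFinset.2 hz0)
        linarith
  choose S ℓ h1 h2 h3 h4 h5 using key
  exact ⟨S, ℓ, hs, hd, h1, hcard, hre, h2, h3, h4, h5⟩

theorem row_main {D : Dat Γ Ω} {Λm ε Y s : ℝ} {Pr : Γ → Multiset ℂ} {n : ℕ} {pos : Bool}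
    {r : Par} (hC : Clean D Λm ε Y) (hr : RowOK n pos r) (hΛ : 1 ≤ Λm)
    (hΛ' : (Fintype.card Γ : ℝ) * Real.exp (-(4 * (Λm - 1))) ≤ 1 / 10000)
    (hε : (Fintype.card Γ : ℝ) ^ 2 * ε ≤ 1 / 10 ^ 8) (hs1 : r.l1 ≤ s) (hs2 : s ≤ r.l2)
    (hle : ∀ ψ, Pr ψ ≤ zin (D.Z ψ) Y) (hcard : ∀ ψ, (Pr ψ).card ≤ 2)
    (hre : ∀ ψ, ∀ z ∈ Pr ψ, z.re = -s) (hn : ∑ ψ, (Pr ψ).card = n)
    (hrest : ∀ ψ, ∀ z ∈ zin (D.Z ψ) Y - Pr ψ, z.re ≤ -(s + r.d0))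
    (a : Γ →* ℂ) (ha : ∀ ψ, ‖a ψ‖ = 1)
    (hw : ∀ ψ, ∀ z ∈ Pr ψ, ∀ x' : ℝ, 0 ≤ x' → x' ≤ r.x →
      (starRingEnd ℂ (a ψ) * WW r.K z).re - 2 * x' * (KK r.Λ r.K z).re ≤ r.wb * r.K ^ 2) :
    1 / 2000 ≤ (∑ ψ, starRingEnd ℂ (a ψ) * (D.p0 (ww r.K) 0 ψ + D.p1 (ww r.K) 0 ψ)).re := by
  have h1 := hr.l1_nonneg
  have h2 := hr.l2_le
  have h3 := hr.d0_pos
  have h4 := hr.d0_le
  have h5 := hr.Λ_pos
  have h6 := hr.K_lo
  have h7 := hr.K_hi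
  have h8 := hr.σ_nonneg
  have h9 := hr.η_lo
  have h10 := hr.η_hi
  have hε0 := hC.ε_nonneg
  obtain ⟨S, ℓ, hF⟩ := exists_conf (Λm := Λm) (by linarith) h3 (by linarith) hle hcard hre hrest
  have hA : 4 ≤ AA - 2 * r.K := by unfold AA; linarith
  have hT0 : 0 ≤ r.T := by unfold Par.T; linarith
  have hT8 : r.T ≤ 8 := by unfold Par.T AA; linarith
  have hn' : ∑ ψ, ((Pr ψ).card : ℝ) = n := by rw [← hn]; push_cast; rfl
  have hcap := capacity (A0 := AA - 2 * r.K) hC hF hT0 hT8 (by unfold Par.T; linarith)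
    hr.α_nonneg hr.αβ hr.β_le hr.cross
  rw [hn'] at hcap
  set g : ℝ := (Fintype.card Γ : ℝ) with hg
  set σ0 : ℝ := ∑ ψ, ((S ψ).card : ℝ) * Real.exp (-((AA - 2 * r.K) * (ℓ ψ - (s + r.d0))))
    with hσ0
  have hJ : r.β ^ 2 * JJ r.T (2 * s) ≤ r.β ^ 2 * JJ r.T (2 * r.l2) :=
    mul_le_mul_of_nonneg_left (JJ_mono hT0 (by linarith)) (sq_nonneg _)
  have hsig := hr.sig
  have hden := hr.den
  have hσ1 : σ0 ≤ r.σ + 1 / 10 ^ 5 := by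
    by_contra hc
    push Not at hc
    have := mul_le_mul_of_nonneg_left hden (show 0 ≤ σ0 - r.σ by norm_num at hc; linarith)
    norm_num at hc hε
    linarith
  have hσ2 : ∑ ψ, Real.exp (-((AA - 2 * r.K) * (ℓ ψ - (s + r.d0)))) ≤
      σ0 + g * Real.exp (-(4 * (Λm - 1))) := by
    have e : g * Real.exp (-(4 * (Λm - 1))) = ∑ _ψ : Γ, Real.exp (-(4 * (Λm - 1))) := by
      simp [hg]
    rw [e, hσ0, ← Finset.sum_add_distrib]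
    refine Finset.sum_le_sum fun ψ _ => ?_
    rcases hF.sec ψ with ⟨h0, hl⟩ | ⟨e, h0, -⟩
    · rw [h0, hl]
      simp only [Multiset.card_zero, Nat.cast_zero, zero_mul, zero_add]
      apply Real.exp_le_exp.2
      have : 4 * (Λm - 1) ≤ (AA - 2 * r.K) * (Λm - (s + r.d0)) :=
        mul_le_mul hA (by linarith) (by linarith) (by linarith)
      linarith
    · rw [h0]
      simp only [Multiset.card_singleton, Nat.cast_one, one_mul]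
      have := Real.exp_pos (-(4 * (Λm - 1)))
      linarith
  have hx : Real.exp (-((AA - 2 * r.K) * (s + r.d0))) ≤ r.x := by
    apply Real.exp_le_exp.2
    have : (AA - 2 * r.K) * (r.l1 + r.d0) ≤ (AA - 2 * r.K) * (s + r.d0) :=
      mul_le_mul_of_nonneg_left (by linarith) (by linarith)
    linarith
  have hx1 : r.x ≤ 1 := by
    apply Real.exp_le_one_iff.2
    have : 0 ≤ (AA - 2 * r.K) * (r.l1 + r.d0) := mul_nonneg (by linarith) (by linarith)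
    linarith
  have hx0 : 0 ≤ r.x := (Real.exp_pos _).le
  have hfin := final_sum (σ := r.σ + 11 / 10 ^ 5) (Λ := r.Λ) hC hF a ha (by linarith) h7
    (by linarith) (by unfold Par.Λ; linarith) hx (by norm_num at hσ1 hΛ' ⊢; linarith) h9 h10 hw
  rw [hn'] at hfin
  refine le_trans ?_ hfin
  have hk0 : 0 ≤ kap r.Λ r.K 0 := kap_nonneg (by linarith) (by linarith)
  have hk1 : kap r.Λ r.K 0 ≤ r.K := kap_zero_le (by linarith)
  have ho0 : 0 ≤ kone r.Λ r.K := kone_nonneg (by linarith) (by linarith)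
  have ho1 : kone r.Λ r.K ≤ r.K ^ 2 / 2 := kone_le (by linarith) (by linarith)
  have hK2 : 1 / 4 ≤ r.K ^ 2 := by nlinarith
  have hK3 : r.K ^ 2 ≤ 9 / 4 := by nlinarith
  have ht := hr.tot
  have ht2 : n * (r.wb * r.K ^ 2) + r.x * (r.σ * kap r.Λ r.K 0 + (r.η + r.σ / r.η) * kone r.Λ r.K) ≤
      (1 - 1 / 200) * r.K ^ 2 := by
    have := mul_le_mul_of_nonneg_right ht (sq_nonneg r.K)
    rw [add_mul, div_mul_cancel₀ _ (by positivity)] at this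
    linarith
  have hq : kone r.Λ r.K / r.η ≤ 9 / 8 := by
    rw [div_le_iff₀ (by linarith)]
    linarith
  have hq0 : 0 ≤ kone r.Λ r.K / r.η := by positivity
  have e : r.x * ((r.σ + 11 / 10 ^ 5) * kap r.Λ r.K 0 +
      (r.η + (r.σ + 11 / 10 ^ 5) / r.η) * kone r.Λ r.K) =
      r.x * (r.σ * kap r.Λ r.K 0 + (r.η + r.σ / r.η) * kone r.Λ r.K) +
        11 / 10 ^ 5 * (r.x * (kap r.Λ r.K 0 + kone r.Λ r.K / r.η)) := by ring
  have hb : r.x * (kap r.Λ r.K 0 + kone r.Λ r.K / r.η) ≤ 1 * 3 :=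
    mul_le_mul hx1 (by linarith) (by linarith) (by norm_num)
  rw [e]
  norm_num at hε ⊢
  linarith

end Pool.Agent.Lib.MP_e97e2b_nt.Ln
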