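import Pool.Agent.Lib.MP_e97e2b_nt.Ln.C3
import Pool.Agent.Lib.MP_e97e2b_nt.Ln.P1
import Pool.Agent.Lib.MP_e97e2b_nt.Ln.P2
import Pool.Agent.Lib.MP_e97e2b_nt.Ln.P5
import Pool.Agent.Lib.MP_e97e2b_nt.Ln.N

/- The model theorem.
Take Λm = 1 + (log |Γ| + 10) / 4, ε1 = 10^(-8) / |Γ|^2 and ε, K0 from clean_of_raw.  If all zeros of height
≤ Y have re ≤ -0.27: row_main with rows_gen, Pr = 0, s = 27/200.  Otherwise let z1 (member ψ1) have maximal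
real part, s = -re z1 < 0.27, Pr = prim ψ1 z1, and use u_one for hrest.
 * ψ1 ψ1 = 1, im z1 = 0: a ψ1 = 1 or -1.  If s ≤ 1/10 and a ψ1 = 1: first alternative.  If s ≤ 1/10 and
   a ψ1 = -1: rows_neg, hw from WW_real, KK_real_nonneg and wb ≥ 0.  If s ≥ 1/10: rows_one, prim_bound.
 * otherwise zp gives s ≥ 0.124: rows_two, prim_bound. -/

namespace Pool.Agent.Lib.MP_e97e2b_nt.Ln

open Complex Finset

theorem p6_max {Γ : Type} [Fintype Γ] (Z : Γ → Multiset ℂ) (h : ∃ ψ, ∃ z, z ∈ Z ψ) :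
    ∃ ψ1, ∃ z1 ∈ Z ψ1, ∀ ψ, ∀ z ∈ Z ψ, z.re ≤ z1.re := by
  classical
  obtain ⟨ψ0, z0, h0⟩ := h
  obtain ⟨z1, hz1, hmax⟩ := Finset.exists_max_image
    (Finset.univ.biUnion fun ψ => (Z ψ).toFinset) (fun z => z.re)
    ⟨z0, Finset.mem_biUnion.2 ⟨ψ0, Finset.mem_univ _, Multiset.mem_toFinset.2 h0⟩⟩
  obtain ⟨ψ1, -, h1⟩ := Finset.mem_biUnion.1 hz1
  exact ⟨ψ1, z1, Multiset.mem_toFinset.1 h1, fun ψ z hz =>
    hmax z (Finset.mem_biUnion.2 ⟨ψ, Finset.mem_univ _, Multiset.mem_toFinset.2 hz⟩)⟩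

theorem p6_mem {Z : Multiset ℂ} {Y : ℝ} {z : ℂ} (h : z ∈ zin Z Y) : z ∈ Z := by
  classical
  exact Multiset.mem_of_mem_filter h

theorem p6_pos {n : ℕ} {r : Par} (hr : RowOK n true r) {u z : ℂ} (hu : ‖u‖ = 1)
    (hz : z.re ≤ -r.l1) {x' : ℝ} (h0 : 0 ≤ x') (h1 : x' ≤ r.x) :
    (starRingEnd ℂ u * WW r.K z).re - 2 * x' * (KK r.Λ r.K z).re ≤ r.wb * r.K ^ 2 := by
  have h2 := hr.Λ_pos
  have h3 := hr.K_lo
  have h4 := hr.K_hi
  have h5 := prim_bound (Λ := r.Λ) (K := r.K) (by linarith) (by linarith) (by linarith)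
    hr.l1_nonneg h0 h1 hz (hr.wb1 rfl) (hr.wb2 rfl)
  have h6 : (starRingEnd ℂ u * WW r.K z).re ≤ ‖WW r.K z‖ := by
    refine (Complex.re_le_norm _).trans ?_
    rw [norm_mul, Complex.norm_conj, hu, one_mul]
  linarith

theorem model (Γ : Type) [CommGroup Γ] [Fintype Γ] : ∃ ε K0 : ℝ, 0 < ε ∧ 1 ≤ K0 ∧
    ∀ (Ω : Type) [Fintype Ω] (D : Dat Γ Ω) (Y0 : ℝ) (a : Γ →* ℂ), (∀ ψ, ‖a ψ‖ = 1) →
      Raw D ε Y0 (K0 * Y0) →
      (∃ ψ, ψ * ψ = 1 ∧ a ψ = 1 ∧ ∃ z ∈ D.Z ψ, z.im = 0 ∧ -(1 / 10) ≤ z.re) ∨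
      ∃ K : ℝ, 1 / 2 ≤ K ∧ K ≤ 3 / 2 ∧
        1 / 2000 ≤ (∑ ψ, starRingEnd ℂ (a ψ) * (D.p0 (ww K) 0 ψ + D.p1 (ww K) 0 ψ)).re := by
  classical
  set g : ℝ := (Fintype.card Γ : ℝ) with hg
  have hg1 : 1 ≤ g := by
    rw [hg]
    exact_mod_cast Fintype.card_pos
  have hlog : 0 ≤ Real.log g := Real.log_nonneg hg1
  set Λm : ℝ := 1 + (Real.log g + 10) / 4 with hΛm
  have hΛ : 1 ≤ Λm := by rw [hΛm]; linarith
  have hΛ' : g * Real.exp (-(4 * (Λm - 1))) ≤ 1 / 10000 := by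
    have e1 : -(4 * (Λm - 1)) = -Real.log g + -10 := by rw [hΛm]; ring
    rw [e1, Real.exp_add, Real.exp_neg, Real.exp_log (by linarith), ← mul_assoc,
      mul_inv_cancel₀ (by linarith), one_mul, Real.exp_neg, one_div]
    apply inv_anti₀ (by norm_num)
    have h1 := Real.exp_one_gt_d9
    have h2 : Real.exp 10 = Real.exp 1 ^ 10 := by
      rw [← Real.exp_nat_mul]; norm_num
    rw [h2]
    calc (10000 : ℝ) ≤ 2.7 ^ 10 := by norm_num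
      _ ≤ Real.exp 1 ^ 10 := by gcongr; linarith
  set ε1 : ℝ := 1 / 10 ^ 8 / g ^ 2 with hε1
  have hε0 : 0 < ε1 := by positivity
  have hε : g ^ 2 * ε1 ≤ 1 / 10 ^ 8 := by
    rw [hε1]; apply le_of_eq; field_simp
  have hε' : ε1 ≤ 1 / 10 ^ 8 := by nlinarith [one_le_pow₀ (n := 2) hg1]
  obtain ⟨ε, K0, he, hK0, hcl⟩ := clean_of_raw Γ Λm ε1 hΛ hε0
  refine ⟨ε, K0, he, hK0, fun Ω _ D Y0 a ha hR => ?_⟩
  obtain ⟨Y, hC⟩ := hcl Ω D Y0 hR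
  by_cases hall : ∀ ψ, ∀ z ∈ zin (D.Z ψ) Y, z.re ≤ -(27 / 100)
  · obtain ⟨r, hr, e1, e2, e3⟩ := rows_gen
    refine Or.inr ⟨r.K, hr.K_lo, hr.K_hi, row_main (s := 27 / 200) (Pr := fun _ => 0) hC hr hΛ hΛ' hε
      e1.le e2.ge (fun _ => Multiset.zero_le _) (fun _ => by simp) (fun _ z hz => by simp at hz)
      (by simp) (fun ψ z hz => ?_) a ha (fun _ z hz => by simp at hz)⟩
    rw [tsub_zero] at hz
    have := hall ψ z hz
    rw [e3]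
    linarith
  push Not at hall
  obtain ⟨ψ0, z0, hz0, hz0'⟩ := hall
  obtain ⟨ψ1, z1, h1, hmin⟩ := p6_max (fun ψ => zin (D.Z ψ) Y) ⟨ψ0, z0, hz0⟩
  have hs27 : -z1.re ≤ 27 / 100 := by have := hmin ψ0 z0 hz0; linarith
  have hs0 : 0 ≤ -z1.re := by have := D.Z_re ψ1 z1 (p6_mem h1); linarith
  have key : ∀ (pos : Bool) (r : Par), RowOK (nprim ψ1 z1) pos r → r.l1 ≤ -z1.re → -z1.re ≤ r.l2 →
      (∀ ψ, ∀ z ∈ prim ψ1 z1 ψ, ∀ x' : ℝ, 0 ≤ x' → x' ≤ r.x →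
        (starRingEnd ℂ (a ψ) * WW r.K z).re - 2 * x' * (KK r.Λ r.K z).re ≤ r.wb * r.K ^ 2) →
      ∃ K : ℝ, 1 / 2 ≤ K ∧ K ≤ 3 / 2 ∧
        1 / 2000 ≤ (∑ ψ, starRingEnd ℂ (a ψ) * (D.p0 (ww K) 0 ψ + D.p1 (ww K) 0 ψ)).re := by
    intro pos r hr b1 b2 hw
    have hn : nprim ψ1 z1 ≠ 0 := by unfold nprim; split_ifs <;> norm_num
    have hu := u_one hC h1 hmin b2 (by have := hr.l2_le; linarith) hr.TU_nonneg hr.TU_le
      hr.d0_pos.le (hr.u2 hn) (hr.u3 hn) (by have := hr.u1 hn; norm_num at hε' ⊢; linarith)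
    refine ⟨r.K, hr.K_lo, hr.K_hi, row_main (s := -z1.re) (Pr := prim ψ1 z1) hC hr hΛ hΛ' hε b1 b2
      (prim_le h1) (prim_card ψ1 z1) (fun ψ z hz => by rw [prim_re ψ1 z1 ψ z hz, neg_neg])
      (prim_sum ψ1 z1) (fun ψ z hz => ?_) a ha hw⟩
    have := hu ψ z hz
    linarith
  by_cases hP : ψ1 * ψ1 = 1 ∧ z1.im = 0
  · have hn : nprim ψ1 z1 = 1 := by unfold nprim; rw [if_pos hP]
    rw [hn] at key
    by_cases h10 : -z1.re ≤ 1 / 10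
    · have hsq : a ψ1 * a ψ1 = 1 := by rw [← map_mul, hP.1, map_one]
      rcases mul_self_eq_one_iff.1 hsq with h | h
      · exact Or.inl ⟨ψ1, hP.1, h, z1, p6_mem h1, hP.2, by linarith⟩
      · obtain ⟨r, hr, e1, e2⟩ := rows_neg
        refine Or.inr (key false r hr (by linarith) (by linarith) fun ψ z hz x' hx0 _ => ?_)
        unfold prim at hz
        rw [if_pos hP] at hz
        split_ifs at hz with hψ
        · have hz1 : z = z1 := by simpa using hz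
          have hz2 : z = (z1.re : ℂ) := by
            rw [hz1]; apply Complex.ext <;> simp [hP.2]
          obtain ⟨w, hw0, hw⟩ := WW_real r.K z1.re
          have hk := KK_real_nonneg (Λ := r.Λ) (K := r.K) (by have := hr.Λ_pos; linarith)
            (by have := hr.K_lo; linarith) z1.re
          rw [hz2, hw, hψ, h]
          have e : (starRingEnd ℂ (-1 : ℂ) * (w : ℂ)).re = -w := by simp
          rw [e]
          have := mul_nonneg hr.wb_nonneg (sq_nonneg r.K)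
          have := mul_nonneg hx0 hk
          linarith
        · simp at hz
    · obtain ⟨r, hr, b1, b2⟩ := rows_one (-z1.re) (by linarith) hs27
      exact Or.inr (key true r hr b1 b2 fun ψ z hz x' hx0 hx1 =>
        p6_pos hr (ha ψ) (by rw [prim_re ψ1 z1 ψ z hz]; linarith) hx0 hx1)
  · have hn : nprim ψ1 z1 = 2 := by unfold nprim; rw [if_neg hP]
    rw [hn] at key
    have hz := zp hC hΛ (by norm_num at hε' ⊢; linarith) h1 hmin hP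
    obtain ⟨r, hr, b1, b2⟩ := rows_two (-z1.re) (by linarith) hs27
    exact Or.inr (key true r hr b1 b2 fun ψ z hz x' hx0 hx1 =>
      p6_pos hr (ha ψ) (by rw [prim_re ψ1 z1 ψ z hz]; linarith) hx0 hx1)

end Pool.Agent.Lib.MP_e97e2b_nt.Ln
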