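import Pool.Agent.Lib.MP_e97e2b_nt.Ln.S0

/- The sum of r0 in a residue class.
Summing `bur` over the m classes gives |Sm f x| ≤ m C x^(1-θ) y^θ, so (abel_tail, s = 1, for x ≥ y)
|∑ d ≤ Z, f d / d - Lv f 1| ≤ C' (y / Z)^θ for Z ≥ y, and |Lv f 1| ≤ 1 + log y + C'.
For x ≥ y put Z = sqrt (x y) and split the pairs (d, k), d k ≤ x, d k ≡ h, into d ≤ Z and d > Z.
d ≤ Z (d coprime to m, else f d = 0): the number of k ≤ x / d with d k ≡ h mod m and l ∤ k is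
(x / d) (1 - 1 / l) / m + O(2) (such k are coprime to m).  d > Z: for each k ≤ x / Z coprime to m the d lie in one
class, and the sum of f d over Z < d ≤ x / k is ≤ 2 C (x / k)^(1-θ) y^θ; ∑ k ≤ K, k^(θ-1) ≤ K^θ (1 + 1 / θ).
All errors are ≤ C1 x (y / x)^(θ/2).  For 1 ≤ x < y use 0 ≤ r0 ≤ tau, ∑ tau n ≤ x (1 + log x); for x < 1 the sum is
empty.  The theorem `hyperbola` (file Abel) applied to functions restricted to classes is an alternative. -/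

namespace Pool.Agent.Lib.MP_e97e2b_nt.Ln

open Finset

lemma s1a_swap (F : ℕ → ℕ → ℝ) (X : ℕ) :
    ∑ n ∈ Ioc 0 X, ∑ d ∈ n.divisors, F d (n / d) = ∑ d ∈ Ioc 0 X, ∑ k ∈ Ioc 0 (X / d), F d k := by
  rw [sum_sigma', sum_sigma']
  refine sum_nbij' (fun p => ⟨p.2, p.1 / p.2⟩) (fun p => ⟨p.1 * p.2, p.1⟩) ?_ ?_ ?_ ?_ ?_
  · rintro ⟨n, d⟩ hp
    simp only [mem_sigma, mem_Ioc, Nat.mem_divisors] at hp ⊢
    obtain ⟨⟨h1, h2⟩, h3, -⟩ := hp
    have h4 := Nat.le_of_dvd h1 h3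
    have h5 := Nat.pos_of_dvd_of_pos h3 h1
    exact ⟨⟨h5, h4.trans h2⟩, Nat.div_pos h4 h5, Nat.div_le_div_right h2⟩
  · rintro ⟨d, k⟩ hp
    simp only [mem_sigma, mem_Ioc, Nat.mem_divisors] at hp ⊢
    obtain ⟨⟨h1, -⟩, h3, h4⟩ := hp
    have h5 := Nat.mul_pos h1 h3
    refine ⟨⟨h5, ?_⟩, dvd_mul_right _ _, h5.ne'⟩
    rw [mul_comm]
    exact (Nat.le_div_iff_mul_le h1).1 h4
  · rintro ⟨n, d⟩ hp
    simp only [mem_sigma, mem_Ioc, Nat.mem_divisors] at hp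
    simp only [Nat.mul_div_cancel' hp.2.1]
  · rintro ⟨d, k⟩ hp
    simp only [mem_sigma, mem_Ioc] at hp
    simp only [Nat.mul_div_cancel_left k hp.1.1]
  · intro p _
    rfl

lemma s1a_swap2 (F : ℕ → ℕ → ℝ) (X Z : ℕ) :
    ∑ d ∈ Ioc Z X, ∑ k ∈ Ioc 0 (X / d), F d k = ∑ k ∈ Ioc 0 X, ∑ d ∈ Ioc Z (X / k), F d k := by
  refine sum_comm' fun d k => ?_
  simp only [mem_Ioc]
  constructor
  · rintro ⟨⟨h1, -⟩, h3, h4⟩
    have h5 := (Nat.le_div_iff_mul_le (by omega)).1 h4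
    exact ⟨⟨h1, (Nat.le_div_iff_mul_le h3).2 (by rwa [mul_comm])⟩, h3,
      h4.trans (Nat.div_le_self _ _)⟩
  · rintro ⟨⟨h1, h2⟩, h3, -⟩
    have h5 := (Nat.le_div_iff_mul_le h3).1 h2
    exact ⟨⟨h1, h2.trans (Nat.div_le_self _ _)⟩, h3,
      (Nat.le_div_iff_mul_le (by omega)).2 (by rwa [mul_comm])⟩

lemma s1a_count {r : ℕ} (hr : 0 < r) (v : ℕ) {t : ℝ} (ht : 0 ≤ t) :
    |∑ k ∈ Ioc 0 ⌊t⌋₊, (if k ≡ v [MOD r] then (1 : ℝ) else 0) - t / r| ≤ 2 := by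
  rw [sum_boole]
  set K := ⌊t⌋₊ with hK
  have h1 := Nat.Ioc_filter_modEq_card 0 K hr v
  have hr' : (0 : ℚ) < r := by exact_mod_cast hr
  have h2 : ⌊(((0 : ℕ) : ℚ) - v) / r⌋ ≤ ⌊((K : ℚ) - v) / r⌋ := by
    refine Int.floor_le_floor (div_le_div_of_nonneg_right ?_ hr'.le)
    have : (0 : ℚ) ≤ K := Nat.cast_nonneg K
    push_cast
    linarith
  rw [max_eq_left (sub_nonneg.2 h2)] at h1
  have h3 : (((Ioc 0 K).filter fun x => x ≡ v [MOD r]).card : ℚ) =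
      (⌊((K : ℚ) - v) / r⌋ : ℚ) - (⌊(((0 : ℕ) : ℚ) - v) / r⌋ : ℚ) := by exact_mod_cast h1
  have h4 : |(((Ioc 0 K).filter fun x => x ≡ v [MOD r]).card : ℚ) - (K : ℚ) / r| ≤ 1 := by
    have a1 := Int.floor_le (((K : ℚ) - v) / r)
    have a2 := Int.lt_floor_add_one (((K : ℚ) - v) / r)
    have a3 := Int.floor_le ((((0 : ℕ) : ℚ) - v) / r)
    have a4 := Int.lt_floor_add_one ((((0 : ℕ) : ℚ) - v) / r)
    have a5 : ((K : ℚ) - v) / r - (((0 : ℕ) : ℚ) - v) / r = (K : ℚ) / r := by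
      push_cast
      ring
    rw [h3, abs_le]
    constructor <;> linarith
  have h5 : |(((Ioc 0 K).filter fun x => x ≡ v [MOD r]).card : ℝ) - (K : ℝ) / r| ≤ 1 := by
    have h := (Rat.cast_le (K := ℝ)).2 h4
    push_cast at h
    exact h
  have hr1 : (1 : ℝ) ≤ r := by exact_mod_cast hr
  have h6 : (K : ℝ) ≤ t := Nat.floor_le ht
  have h7 : t < K + 1 := Nat.lt_floor_add_one t
  have h8 : 0 ≤ (t - K) / r := div_nonneg (by linarith) (by linarith)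
  have h9 : (t - K) / r ≤ 1 := (div_le_self (by linarith) hr1).trans (by linarith)
  rw [sub_div] at h8 h9
  rw [abs_le] at h5 ⊢
  constructor <;> linarith [h5.1, h5.2]

lemma s1a_class {m d : ℕ} (hm : 0 < m) (hd : d.Coprime m) (h : ℕ) :
    ∃ v, ∀ k, d * k ≡ h [MOD m] ↔ k ≡ v [MOD m] := by
  obtain ⟨v, -, hv⟩ := Nat.exists_mul_mod_eq_of_coprime h hd hm.ne'
  have hv' : d * v ≡ h [MOD m] := hv
  exact ⟨v, fun k => ⟨fun hk => Nat.ModEq.cancel_left_of_coprime hd.symm (hk.trans hv'.symm),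
    fun hk => (hk.mul_left d).trans hv'⟩⟩

lemma s1a_inner {m l d h : ℕ} (hm : 0 < m) (hl : l.Prime) (hml : m < l) (hd : d.Coprime m)
    (hh : h.Coprime m) {t : ℝ} (ht : 0 ≤ t) :
    |∑ k ∈ Ioc 0 ⌊t⌋₊, (if d * k ≡ h [MOD m] then uu (m * l) k else 0) -
      (1 - 1 / (l : ℝ)) / m * t| ≤ 4 := by
  obtain ⟨v, hv⟩ := s1a_class hm hd h
  have hco : m.Coprime l := (Nat.coprime_of_lt_prime hm.ne' hml hl).symm
  obtain ⟨w, hw1, hw2⟩ := Nat.chineseRemainder hco v 0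
  have h1 : ∀ k, (if d * k ≡ h [MOD m] then uu (m * l) k else 0) =
      (if k ≡ v [MOD m] then (1 : ℝ) else 0) - if k ≡ w [MOD m * l] then (1 : ℝ) else 0 := by
    intro k
    have h2 : k ≡ w [MOD m * l] ↔ k ≡ v [MOD m] ∧ l ∣ k := by
      rw [← Nat.modEq_and_modEq_iff_modEq_mul hco, ← Nat.modEq_zero_iff_dvd]
      exact ⟨fun h => ⟨h.1.trans hw1, h.2.trans hw2⟩,
        fun h => ⟨h.1.trans hw1.symm, h.2.trans hw2.symm⟩⟩
    by_cases h3 : k ≡ v [MOD m]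
    · have h4 := (hv k).2 h3
      have h5 : k.Coprime m := by
        have h6 : (d * k).Coprime m := by
          rw [Nat.Coprime, h4.gcd_eq]
          exact hh
        exact Nat.Coprime.coprime_mul_left h6
      rw [if_pos h4, if_pos h3, uu]
      by_cases h7 : l ∣ k
      · rw [if_pos (h2.2 ⟨h3, h7⟩), if_neg, sub_self]
        intro h8
        exact (hl.coprime_iff_not_dvd.1 (Nat.Coprime.coprime_mul_left_right h8).symm) h7
      · rw [if_neg fun h => h7 (h2.1 h).2, if_pos, sub_zero]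
        exact Nat.Coprime.mul_right h5 (hl.coprime_iff_not_dvd.2 h7).symm
    · rw [if_neg fun h => h3 ((hv k).1 h), if_neg h3, if_neg fun h => h3 (h2.1 h).1, sub_self]
  simp only [h1, sum_sub_distrib]
  have a1 := s1a_count hm v ht
  have a2 := s1a_count (Nat.mul_pos hm hl.pos) w ht
  have a3 : (1 - 1 / (l : ℝ)) / m * t = t / m - t / ((m * l : ℕ) : ℝ) := by
    have : (m : ℝ) ≠ 0 := by exact_mod_cast hm.ne'
    have : (l : ℝ) ≠ 0 := by exact_mod_cast hl.ne_zero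
    push_cast
    field_simp
  rw [a3]
  rw [abs_le] at a1 a2 ⊢
  constructor <;> linarith [a1.1, a1.2, a2.1, a2.2]

lemma s1a_pow {θ : ℝ} (h0 : 0 < θ) (h1 : θ ≤ 1) (K : ℕ) :
    ∑ k ∈ Ioc 0 K, (k : ℝ) ^ (θ - 1) ≤ (K : ℝ) ^ θ / θ := by
  induction K with
  | zero => simp [h0.ne']
  | succ K ih =>
    rw [sum_Ioc_succ_top (Nat.zero_le K)]
    refine (add_le_add_left ih _).trans ?_
    have hK : (0 : ℝ) < ((K + 1 : ℕ) : ℝ) := by positivity
    have h2 := rpow_one_add_le_one_add_mul_self (s := -((K + 1 : ℕ) : ℝ)⁻¹)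
      (neg_le_neg (inv_le_one_of_one_le₀ (by exact_mod_cast Nat.succ_pos K))) h0.le h1
    have h3 : 1 + -((K + 1 : ℕ) : ℝ)⁻¹ = (K : ℝ) / ((K + 1 : ℕ) : ℝ) := by
      field_simp
      push_cast
      ring
    rw [h3, Real.div_rpow (Nat.cast_nonneg K) hK.le, div_le_iff₀ (Real.rpow_pos_of_pos hK θ)] at h2
    rw [Real.rpow_sub_one hK.ne', div_add' _ _ _ h0.ne']
    refine div_le_div_of_nonneg_right ?_ h0.le
    rw [div_eq_mul_inv]
    linarith

lemma s1a_harm {y : ℝ} (hy : 1 ≤ y) : ∑ d ∈ Ioc 0 ⌊y⌋₊, (d : ℝ)⁻¹ ≤ 1 + Real.log y := by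
  have h := harmonic_floor_le_one_add_log y hy
  rw [harmonic_eq_sum_Icc] at h
  push_cast at h
  exact h

lemma s1a_abs {q : ℕ} {f : ℕ → ℝ} (h : RC q f) (n : ℕ) : |f n| ≤ 1 := by
  rcases h.cases n with ⟨-, h1 | h1⟩ | ⟨-, h1⟩ <;> simp [h1]

lemma s1a_uu (q n : ℕ) : |uu q n| ≤ 1 := by
  unfold uu
  split_ifs <;> simp

lemma s1a_Sm {m l : ℕ} {f : ℕ → ℝ} {θ C y : ℝ} (H : SvH m l f θ C y) (t : ℝ) (ht : 1 ≤ t) :
    |Sm f t| ≤ m * C * y ^ θ * t ^ (1 - θ) := by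
  have h1 : Sm f t = ∑ h ∈ range m, Sm (cls m h f) t := by
    unfold Sm
    rw [sum_comm]
    refine sum_congr rfl fun n _ => ?_
    rw [sum_eq_single (n % m)]
    · exact (if_pos (Nat.mod_modEq n m).symm).symm
    · intro b hb hne
      refine if_neg fun h => hne ?_
      rw [Nat.ModEq, Nat.mod_eq_of_lt (mem_range.1 hb)] at h
      exact h.symm
    · intro h
      exact absurd (mem_range.2 (Nat.mod_lt n H.m_pos)) h
  rw [h1]
  refine (abs_sum_le_sum_abs _ _).trans ((sum_le_card_nsmul _ _ _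
    fun h _ => H.bur h t ht).trans (le_of_eq ?_))
  rw [card_range, nsmul_eq_mul]
  ring

lemma s1a_tail {m l : ℕ} {f : ℕ → ℝ} {θ C y : ℝ} (H : SvH m l f θ C y) {Z : ℝ} (hZ : 1 ≤ Z) :
    |∑ d ∈ Ioc 0 ⌊Z⌋₊, f d * (d : ℝ)⁻¹ - Lv f 1| ≤ (2 + 2 / θ) * m * C * (y / Z) ^ θ := by
  have hy : 0 < y := zero_lt_one.trans_le H.y_ge
  have hC : 0 < C := zero_lt_one.trans_le H.C_ge
  have h := abel_tail f (m * C * y ^ θ) θ 1 1 H.θ_pos zero_le_one le_rfl (by positivity) le_rfl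
    (1 - θ) (by linarith) (s1a_Sm H) Z hZ
  simp only [Sm, Real.rpow_neg_one] at h
  refine h.trans (le_of_eq ?_)
  rw [show 1 - θ - 1 = -θ by ring, Real.rpow_neg (by linarith), Real.div_rpow hy.le (by linarith)]
  ring

lemma s1a_Lv {m l : ℕ} {f : ℕ → ℝ} {θ C y : ℝ} (H : SvH m l f θ C y) :
    |Lv f 1| ≤ (1 + (2 + 2 / θ) * m * C) * (1 + Real.log y) := by
  have hy : 0 < y := zero_lt_one.trans_le H.y_ge
  have hC : 0 < C := zero_lt_one.trans_le H.C_ge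
  have hθ := H.θ_pos
  have h1 := s1a_tail H H.y_ge
  rw [div_self hy.ne', Real.one_rpow, mul_one] at h1
  have h2 : |∑ d ∈ Ioc 0 ⌊y⌋₊, f d * (d : ℝ)⁻¹| ≤ 1 + Real.log y := by
    refine (abs_sum_le_sum_abs _ _).trans ((sum_le_sum fun d _ => ?_).trans (s1a_harm H.y_ge))
    rw [abs_mul, abs_of_nonneg (a := (d : ℝ)⁻¹) (inv_nonneg.2 (Nat.cast_nonneg d))]
    exact mul_le_of_le_one_left (by positivity) (s1a_abs H.rc d)
  have h3 := Real.log_nonneg H.y_ge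
  have h4 : 0 ≤ (2 + 2 / θ) * m * C * Real.log y := by positivity
  have h5 := abs_sub_abs_le_abs_sub (Lv f 1) (∑ d ∈ Ioc 0 ⌊y⌋₊, f d * (d : ℝ)⁻¹)
  rw [abs_sub_comm] at h5
  linarith

lemma s1a_expand (q m h : ℕ) (f : ℕ → ℝ) (x : ℝ) :
    Sm (cls m h fun n => r0 q f n * (n : ℝ) ^ (-(0 : ℝ))) x = ∑ d ∈ Ioc 0 ⌊x⌋₊,
      ∑ k ∈ Ioc 0 (⌊x⌋₊ / d), if d * k ≡ h [MOD m] then f d * uu q k else 0 := by
  rw [← s1a_swap fun d k => if d * k ≡ h [MOD m] then f d * uu q k else 0]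
  refine sum_congr rfl fun n _ => ?_
  have e : ∑ d ∈ n.divisors, (if d * (n / d) ≡ h [MOD m] then f d * uu q (n / d) else 0) =
      ∑ d ∈ n.divisors, if n ≡ h [MOD m] then f d * uu q (n / d) else 0 :=
    sum_congr rfl fun d hd => by rw [Nat.mul_div_cancel' (Nat.dvd_of_mem_divisors hd)]
  rw [cls, neg_zero, Real.rpow_zero, mul_one, r0, e]
  split_ifs
  · rfl
  · rw [sum_const_zero]

lemma s1a_c {m l : ℕ} (hm : 0 < m) (hl : l.Prime) :
    0 ≤ (1 - 1 / (l : ℝ)) / m ∧ (1 - 1 / (l : ℝ)) / m ≤ 1 := by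
  have h1 : (1 : ℝ) ≤ l := by exact_mod_cast hl.pos
  have h2 : (1 : ℝ) ≤ m := by exact_mod_cast hm
  have h3 : 1 / (l : ℝ) ≤ 1 := (div_le_one (by linarith)).2 h1
  have h4 : 0 ≤ 1 / (l : ℝ) := by positivity
  exact ⟨div_nonneg (by linarith) (by linarith), (div_le_self (by linarith) h2).trans (by linarith)⟩

lemma s1a_part1 {m l h : ℕ} {f : ℕ → ℝ} {θ C y : ℝ} (H : SvH m l f θ C y) (hh : h.Coprime m)
    {x Z : ℝ} (hx : 0 ≤ x) (hZ : 1 ≤ Z) :
    |∑ d ∈ Ioc 0 ⌊Z⌋₊, (∑ k ∈ Ioc 0 (⌊x⌋₊ / d),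
      if d * k ≡ h [MOD m] then f d * uu (m * l) k else 0) - kz m l f * x| ≤
      4 * Z + (2 + 2 / θ) * m * C * (y / Z) ^ θ * x := by
  obtain ⟨c0, c1⟩ := s1a_c H.m_pos H.l_prime
  set c := (1 - 1 / (l : ℝ)) / m with hc
  have h1 : ∀ d : ℕ, |(∑ k ∈ Ioc 0 (⌊x⌋₊ / d),
      if d * k ≡ h [MOD m] then f d * uu (m * l) k else 0) - c * x * (f d * (d : ℝ)⁻¹)| ≤ 4 := by
    intro d
    rcases H.rc.cases d with ⟨h2, -⟩ | ⟨-, h2⟩
    · have h3 := s1a_inner H.m_pos H.l_prime H.l_gt (Nat.Coprime.coprime_mul_right_right h2) hh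
        (t := x / d) (by positivity)
      rw [Nat.floor_div_natCast] at h3
      have h4 : (∑ k ∈ Ioc 0 (⌊x⌋₊ / d), if d * k ≡ h [MOD m] then f d * uu (m * l) k else 0) -
          c * x * (f d * (d : ℝ)⁻¹) = f d * ((∑ k ∈ Ioc 0 (⌊x⌋₊ / d),
            if d * k ≡ h [MOD m] then uu (m * l) k else 0) - c * (x / d)) := by
        rw [mul_sub, mul_sum]
        simp only [mul_ite, mul_zero]
        ring
      rw [h4, abs_mul]
      exact (mul_le_of_le_one_left (abs_nonneg _) (s1a_abs H.rc d)).trans h3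
    · simp [h2]
  have h5 : |∑ d ∈ Ioc 0 ⌊Z⌋₊, ((∑ k ∈ Ioc 0 (⌊x⌋₊ / d),
      if d * k ≡ h [MOD m] then f d * uu (m * l) k else 0) - c * x * (f d * (d : ℝ)⁻¹))| ≤
      4 * Z := by
    refine (abs_sum_le_sum_abs _ _).trans ((sum_le_card_nsmul _ _ _ fun d _ => h1 d).trans ?_)
    rw [Nat.card_Ioc, Nat.sub_zero, nsmul_eq_mul, mul_comm]
    exact mul_le_mul_of_nonneg_left (Nat.floor_le (by linarith)) (by norm_num)
  rw [sum_sub_distrib, ← mul_sum] at h5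
  have h6 : |c * x * (∑ d ∈ Ioc 0 ⌊Z⌋₊, f d * (d : ℝ)⁻¹) - kz m l f * x| ≤
      (2 + 2 / θ) * m * C * (y / Z) ^ θ * x := by
    have h7 : c * x * (∑ d ∈ Ioc 0 ⌊Z⌋₊, f d * (d : ℝ)⁻¹) - kz m l f * x =
        (∑ d ∈ Ioc 0 ⌊Z⌋₊, f d * (d : ℝ)⁻¹ - Lv f 1) * (c * x) := by
      rw [kz, ← hc]
      ring
    rw [h7, abs_mul, abs_of_nonneg (mul_nonneg c0 hx)]
    exact mul_le_mul (s1a_tail H hZ) (mul_le_of_le_one_left hx c1) (mul_nonneg c0 hx)
      ((abs_nonneg _).trans (s1a_tail H hZ))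
  exact (abs_sub_le _ _ _).trans (add_le_add h5 h6)

lemma s1a_part2 {m l h : ℕ} {f : ℕ → ℝ} {θ C y : ℝ} (H : SvH m l f θ C y)
    {x Z : ℝ} (hZ : 1 ≤ Z) (hx : Z ≤ x) :
    |∑ d ∈ Ioc ⌊Z⌋₊ ⌊x⌋₊, ∑ k ∈ Ioc 0 (⌊x⌋₊ / d),
      if d * k ≡ h [MOD m] then f d * uu (m * l) k else 0| ≤ 2 * C / θ * (y / Z) ^ θ * x := by
  have hy : 0 < y := zero_lt_one.trans_le H.y_ge
  have hC : 0 < C := zero_lt_one.trans_le H.C_ge
  have hθ := H.θ_pos
  have hθ1 := H.θ_le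
  have hZ0 : 0 < Z := by linarith
  have hx0 : 0 < x := by linarith
  rw [s1a_swap2 fun d k => if d * k ≡ h [MOD m] then f d * uu (m * l) k else 0]
  have hsub : Ioc 0 ⌊x / Z⌋₊ ⊆ Ioc 0 ⌊x⌋₊ :=
    Ioc_subset_Ioc_right (Nat.floor_le_floor (div_le_self hx0.le hZ))
  rw [← sum_subset hsub]
  · refine (abs_sum_le_sum_abs _ _).trans ((sum_le_sum
      (g := fun k : ℕ => 2 * C * y ^ θ * x ^ (1 - θ) * (k : ℝ) ^ (θ - 1)) fun k hk => ?_).trans ?_)
    · obtain ⟨k0, k1⟩ := mem_Ioc.1 hk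
      have k2 : (0 : ℝ) < k := by exact_mod_cast k0
      have k3 : Z ≤ x / k := by
        have k4 : (k : ℝ) ≤ x / Z := (Nat.le_floor_iff (by positivity)).1 k1
        rw [le_div_iff₀ hZ0] at k4
        rw [le_div_iff₀ k2]
        linarith
      by_cases hk' : k.Coprime (m * l)
      · obtain ⟨v, hv⟩ := s1a_class H.m_pos (Nat.Coprime.coprime_mul_right_right hk') h
        have e : ∑ d ∈ Ioc ⌊Z⌋₊ (⌊x⌋₊ / k), (if d * k ≡ h [MOD m] then f d * uu (m * l) k else 0) =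
            Sm (cls m v f) (x / k) - Sm (cls m v f) Z := by
          rw [ab_Sm_sub _ k3, Nat.floor_div_natCast]
          refine sum_congr rfl fun d _ => ?_
          rw [cls, uu, if_pos hk', mul_one, mul_comm d k]
          exact if_congr (hv d) rfl rfl
        have a1 := H.bur v (x / k) (hZ.trans k3)
        have a2 := H.bur v Z hZ
        have a3 : C * Z ^ (1 - θ) * y ^ θ ≤ C * (x / k) ^ (1 - θ) * y ^ θ :=
          mul_le_mul_of_nonneg_right (mul_le_mul_of_nonneg_left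
            (Real.rpow_le_rpow hZ0.le k3 (by linarith)) hC.le) (by positivity)
        have a4 : 2 * C * y ^ θ * x ^ (1 - θ) * (k : ℝ) ^ (θ - 1) =
            2 * (C * (x / k) ^ (1 - θ) * y ^ θ) := by
          rw [Real.div_rpow hx0.le k2.le, show θ - 1 = -(1 - θ) by ring, Real.rpow_neg k2.le]
          ring
        rw [e, a4]
        linarith [abs_sub (Sm (cls m v f) (x / k)) (Sm (cls m v f) Z)]
      · simp only [uu, if_neg hk', mul_zero, ite_self, sum_const_zero, abs_zero]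
        positivity
    · rw [← mul_sum]
      have a1 := s1a_pow hθ (by linarith) ⌊x / Z⌋₊
      have a2 : (⌊x / Z⌋₊ : ℝ) ^ θ / θ ≤ (x / Z) ^ θ / θ := div_le_div_of_nonneg_right
        (Real.rpow_le_rpow (Nat.cast_nonneg _) (Nat.floor_le (by positivity)) hθ.le) hθ.le
      refine (mul_le_mul_of_nonneg_left (a1.trans a2) (by positivity)).trans (le_of_eq ?_)
      have a3 : x ^ θ ≠ 0 := by positivity
      rw [Real.div_rpow hx0.le hZ0.le, Real.div_rpow hy.le hZ0.le, Real.rpow_sub hx0, Real.rpow_one]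
      field_simp
  · intro k hk hk'
    refine sum_eq_zero fun d hd => absurd (mem_Ioc.2 ⟨(mem_Ioc.1 hk).1, ?_⟩) hk'
    obtain ⟨d1, d2⟩ := mem_Ioc.1 hd
    have k2 : (0 : ℝ) < k := by exact_mod_cast (mem_Ioc.1 hk).1
    rw [← Nat.floor_div_natCast, Nat.le_floor_iff (by positivity), le_div_iff₀ k2] at d2
    rw [Nat.floor_lt hZ0.le] at d1
    rw [Nat.le_floor_iff (by positivity), le_div_iff₀ hZ0]
    nlinarith

lemma s1a_small {q m h : ℕ} {f : ℕ → ℝ} (H : RC q f) {x y : ℝ} (hx : 0 ≤ x) (hxy : x ≤ y)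
    (hy : 1 ≤ y) : |∑ d ∈ Ioc 0 ⌊x⌋₊, ∑ k ∈ Ioc 0 (⌊x⌋₊ / d),
      if d * k ≡ h [MOD m] then f d * uu q k else 0| ≤ (1 + Real.log y) * x := by
  refine (abs_sum_le_sum_abs _ _).trans ((sum_le_sum
    (g := fun d : ℕ => (d : ℝ)⁻¹ * x) fun d _ => ?_).trans ?_)
  · refine (abs_sum_le_sum_abs _ _).trans ((sum_le_card_nsmul _ _ 1 fun k _ => ?_).trans ?_)
    · split_ifs
      · rw [abs_mul]
        exact mul_le_one₀ (s1a_abs H d) (abs_nonneg _) (s1a_uu q k)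
      · simp
    · rw [Nat.card_Ioc, Nat.sub_zero, nsmul_eq_mul, mul_one, ← Nat.floor_div_natCast,
        ← div_eq_inv_mul]
      exact Nat.floor_le (by positivity)
  · rw [← sum_mul]
    refine mul_le_mul_of_nonneg_right (le_trans ?_ (s1a_harm hy)) hx
    exact sum_le_sum_of_subset_of_nonneg (Ioc_subset_Ioc_right (Nat.floor_le_floor hxy))
      fun d _ _ => by positivity

theorem asy_zero (m : ℕ) (θ C : ℝ) : ∃ C1 : ℝ, 1 ≤ C1 ∧ ∀ (l : ℕ) (f : ℕ → ℝ) (y : ℝ),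
    SvH m l f θ C y → |Lv f 1| ≤ C1 * (1 + Real.log y) ∧
      Asy (m * l) f m 0 (kz m l f) (C1 * (1 + Real.log y)) (θ / 2) y := by
  refine ⟨max 1 (6 + (2 + 2 / θ) * m * C + 2 * C / θ), le_max_left _ _, fun l f y H => ?_⟩
  have hy : 0 < y := zero_lt_one.trans_le H.y_ge
  have hC : 0 < C := zero_lt_one.trans_le H.C_ge
  have hθ := H.θ_pos
  have hθ1 := H.θ_le
  have hlog := Real.log_nonneg H.y_ge
  have hA : 0 ≤ (2 + 2 / θ) * m * C := by positivity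
  have hB : 0 ≤ 2 * C / θ := by positivity
  have hL := s1a_Lv H
  set A := (2 + 2 / θ) * m * C with hAdef
  set B := 2 * C / θ with hBdef
  have hmax : 6 + A + B ≤ max 1 (6 + A + B) := le_max_right _ _
  refine ⟨hL.trans (mul_le_mul_of_nonneg_right (by linarith) (by linarith)), fun h hh x hx => ?_⟩
  rw [s1a_expand, sub_zero, Real.rpow_one]
  have hp : 0 < (y / x) ^ (θ / 2) := by positivity
  refine le_trans ?_ (mul_le_mul_of_nonneg_right (mul_le_mul_of_nonneg_right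
    (mul_le_mul_of_nonneg_right hmax (by linarith)) hx.le) hp.le)
  rcases le_total x y with hxy | hxy
  · have h1 := s1a_small (m := m) (h := h) H.rc hx.le hxy H.y_ge
    obtain ⟨c0, c1⟩ := s1a_c H.m_pos H.l_prime
    have h2 : |kz m l f * x| ≤ (1 + A) * (1 + Real.log y) * x := by
      rw [abs_mul, abs_of_pos hx, kz, abs_mul, abs_of_nonneg c0]
      exact mul_le_mul_of_nonneg_right ((mul_le_of_le_one_left (abs_nonneg _) c1).trans hL) hx.le
    have h3 : 1 ≤ (y / x) ^ (θ / 2) := Real.one_le_rpow ((one_le_div hx).2 hxy) (by linarith)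
    refine le_trans ?_ (le_mul_of_one_le_right (by positivity) h3)
    refine (abs_sub _ _).trans ((add_le_add h1 h2).trans ?_)
    have h4 : 0 ≤ (4 + B) * (1 + Real.log y) * x := by positivity
    linarith
  · set s := (y / x) ^ (1 / 2 : ℝ) with hs
    have hyx : y / x ≤ 1 := (div_le_one hx).2 hxy
    have hs0 : 0 < s := by positivity
    have hs1 : s ≤ 1 := Real.rpow_le_one (by positivity) hyx (by norm_num)
    have hs2 : s * s = y / x := by
      rw [hs, ← Real.rpow_add (by positivity), add_halves, Real.rpow_one]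
    have hs3 : y / (x * s) = s := by
      rw [← div_div, ← hs2, mul_div_cancel_right₀ _ hs0.ne']
    have hs4 : s ^ θ = (y / x) ^ (θ / 2) := by
      rw [hs, ← Real.rpow_mul (by positivity)]
      congr 1
      ring
    have hs5 : s ≤ (y / x) ^ (θ / 2) :=
      Real.rpow_le_rpow_of_exponent_ge (by positivity) hyx (by linarith)
    have hZx : x * s ≤ x := mul_le_of_le_one_right hx.le hs1
    have hZ : 1 ≤ x * s := by
      have h1 : x * s * s = y := by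
        rw [mul_assoc, hs2, mul_div_cancel₀ _ hx.ne']
      have h2 : x * s * s ≤ x * s := mul_le_of_le_one_right (by positivity) hs1
      linarith [H.y_ge]
    have h1 := s1a_part1 H hh hx.le hZ
    have h2 := s1a_part2 (h := h) H hZ hZx
    rw [hs3, hs4] at h1 h2
    rw [← sum_Ioc_consecutive _ (Nat.zero_le ⌊x * s⌋₊) (Nat.floor_le_floor hZx), add_sub_right_comm]
    refine (abs_add_le _ _).trans ((add_le_add h1 h2).trans ?_)
    have h3 : x * s ≤ x * (y / x) ^ (θ / 2) := mul_le_mul_of_nonneg_left hs5 hx.le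
    have h4 : 0 ≤ (6 + A + B) * Real.log y * x * (y / x) ^ (θ / 2) := by positivity
    have h5 : 0 ≤ x * (y / x) ^ (θ / 2) := by positivity
    linarith

end Pool.Agent.Lib.MP_e97e2b_nt.Ln
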