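import Pool.Agent.Lib.MP_e97e2b_nt.Ln.S1a
import Pool.Agent.Lib.MP_e97e2b_nt.Siegel

/- The sum of r0 n * n^(-β) at a zero β.
Let κ = φ(m) kz.  Adding asy_zero over the reduced classes (r0 n = 0 if n is not coprime to m) gives
|Sm r0 t - κ t| ≤ m E t^(1-θ/2) y^(θ/2).  Apply abel_tail to n ↦ r0 n - κ with γ = 1 - θ/2, η = θ/4, and si_zeta:
Sm (r0 n^(-β)) x = κ x^(1-β) / (1-β) + C0 + error, for all x ≥ 1, with a constant C0.  To see C0 = 0 let x tend
to infinity in si_E (file Siegel) with u = siW uu β, V = siW f β, D = Lv f β = 0, D' = Lv f 1, p = 1 - β ≤ θ/8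
(constants may depend on everything here; Sm uu t = φ(m l) / (m l) t + O(m l), φ(m l) = φ(m) (l - 1)).
A direct hyperbola argument with Z = sqrt (x y) also works, the factor 1 / (1 - β) in the error leaves room.
For x < 1 the sum is empty and |κ| ≤ |Lv f 1|.  Modulo 1 every n is in the class h. -/

namespace Pool.Agent.Lib.MP_e97e2b_nt.Ln

open Finset

open Filter Topology

lemma s1b_cls {m : ℕ} (T : Finset ℕ) (hT : ∀ h ∈ T, h < m) (g : ℕ → ℝ)
    (hg : ∀ n, g n ≠ 0 → n % m ∈ T) (x : ℝ) : Sm g x = ∑ h ∈ T, Sm (cls m h g) x := by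
  unfold Sm
  rw [Finset.sum_comm]
  refine Finset.sum_congr rfl fun n _ => ?_
  have h1 : ∀ h ∈ T, cls m h g n = if n % m = h then g n else 0 := by
    intro h hh
    unfold cls
    have : n ≡ h [MOD m] ↔ n % m = h := by
      unfold Nat.ModEq
      rw [Nat.mod_eq_of_lt (hT h hh)]
    simp only [this]
  rw [Finset.sum_congr rfl h1, Finset.sum_ite_eq]
  split_ifs with h
  · rfl
  · by_contra h2
    exact h (hg n h2)

lemma s1b_uu_nat {q : ℕ} (hq : 0 < q) (N : ℕ) :
    |∑ n ∈ Ioc 0 N, uu q n - (q.totient : ℝ) / q * N| ≤ q := by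
  have hq' : (0 : ℝ) < q := by exact_mod_cast hq
  have ht : (q.totient : ℝ) ≤ q := by exact_mod_cast Nat.totient_le q
  induction N using Nat.strong_induction_on with
  | _ N ih =>
    by_cases hN : N < q
    · have h1 : 0 ≤ ∑ n ∈ Ioc 0 N, uu q n :=
        Finset.sum_nonneg fun n _ => by unfold uu; split_ifs <;> norm_num
      have h2 : ∑ n ∈ Ioc 0 N, uu q n ≤ N := by
        have : ∑ n ∈ Ioc 0 N, uu q n ≤ ∑ n ∈ Ioc 0 N, (1 : ℝ) :=
          Finset.sum_le_sum fun n _ => by unfold uu; split_ifs <;> norm_num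
        simpa using this
      have h3 : (N : ℝ) ≤ q := by exact_mod_cast hN.le
      have h4 : 0 ≤ (q.totient : ℝ) / q * N := by positivity
      have h5 : (q.totient : ℝ) / q * N ≤ N :=
        mul_le_of_le_one_left (Nat.cast_nonneg _) ((div_le_one hq').2 ht)
      rw [abs_le]
      constructor <;> linarith
    · obtain ⟨K, rfl⟩ : ∃ K, N = K + q := ⟨N - q, by omega⟩
      have h1 := ih K (by omega)
      have h2 : ∑ n ∈ Ioc K (K + q), uu q n = q.totient := by
        rw [← Nat.filter_coprime_Ico_eq_totient q (K + 1), Finset.card_filter]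
        push_cast
        have : Ioc K (K + q) = Ico (K + 1) (K + 1 + q) := by
          ext n
          simp only [Finset.mem_Ioc, Finset.mem_Ico]
          omega
        rw [this]
        refine Finset.sum_congr rfl fun n _ => ?_
        unfold uu
        simp only [Nat.coprime_comm]
      rw [← Finset.sum_Ioc_consecutive _ (Nat.zero_le K) (Nat.le_add_right K q), h2]
      have h3 : (q.totient : ℝ) / q * ((K + q : ℕ) : ℝ) = (q.totient : ℝ) / q * K + q.totient := by
        push_cast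
        field_simp
      rw [h3]
      convert h1 using 2
      ring

lemma s1b_uu {q : ℕ} (hq : 0 < q) {θ : ℝ} (hθ : θ ≤ 1) (x : ℝ) (hx : 1 ≤ x) :
    |Sm (uu q) x - (q.totient : ℝ) / q * x| ≤ (q + 1) * x ^ (1 - θ) := by
  have hq' : (0 : ℝ) < q := by exact_mod_cast hq
  have ht : (q.totient : ℝ) ≤ q := by exact_mod_cast Nat.totient_le q
  have h1 := abs_le.1 (s1b_uu_nat hq ⌊x⌋₊)
  have h3 : (⌊x⌋₊ : ℝ) ≤ x := Nat.floor_le (by linarith)
  have h4 := Nat.lt_floor_add_one x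
  have h5 : 1 ≤ x ^ (1 - θ) := Real.one_le_rpow hx (by linarith)
  have h6 : 0 ≤ (q.totient : ℝ) / q := by positivity
  have h7 : (q.totient : ℝ) / q ≤ 1 := (div_le_one hq').2 ht
  unfold Sm
  rw [abs_le]
  constructor <;> nlinarith [h1.1, h1.2]

lemma s1b_abs {β γ : ℝ} (hb0 : 0 < β) (hb1 : β < 1) (hγ : 1 - β ≤ γ) : ∃ N : ℝ, 0 ≤ N ∧
    ∀ (a : ArithmeticFunction ℝ), (∀ n, |a n| ≤ 1) → ∀ s, β ≤ s → ∀ x : ℝ, 1 ≤ x →
      Sm (fun n => |siW a s n|) x ≤ N * x ^ γ := by
  obtain ⟨z, -, hz⟩ := si_zeta β hb0 hb1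
  have hp : 0 < 1 - β := by linarith
  refine ⟨1 / (1 - β) + |z| + 2, by positivity, fun a ha s hs x hx => ?_⟩
  have h1 : Sm (fun n => |siW a s n|) x ≤ Sm (fun n => (n : ℝ) ^ (-β)) x := by
    refine Finset.sum_le_sum fun n hn => ?_
    have h1 : (1 : ℝ) ≤ n := by exact_mod_cast (Finset.mem_Ioc.1 hn).1
    have h2 : 0 ≤ (n : ℝ) ^ (-s) := by positivity
    rw [si_W_apply, abs_mul, abs_of_nonneg h2]
    exact (mul_le_of_le_one_left h2 (ha n)).trans
      (Real.rpow_le_rpow_of_exponent_le h1 (by linarith))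
  have h2 := (abs_le.1 (hz x hx)).2
  have h3 : 1 ≤ x ^ γ := Real.one_le_rpow hx (by linarith)
  have h4 : x ^ (-β) ≤ x ^ γ := Real.rpow_le_rpow_of_exponent_le hx (by linarith)
  have h5 : x ^ (1 - β) ≤ x ^ γ := Real.rpow_le_rpow_of_exponent_le hx hγ
  have h6 : x ^ (1 - β) / (1 - β) ≤ 1 / (1 - β) * x ^ γ := by
    rw [one_div, ← div_eq_inv_mul]
    exact div_le_div_of_nonneg_right h5 hp.le
  have h7 := mul_le_mul_of_nonneg_left h3 (abs_nonneg z)
  linarith [le_abs_self z]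

lemma s1b_lim {m l : ℕ} {f : ℕ → ℝ} {θ C y β : ℝ} (H : SvH m l f θ C y) (hb0 : 1 - θ / 8 ≤ β)
    (hb1 : β < 1)
    (hz : Tendsto (fun N : ℕ => ∑ n ∈ Ioc 0 N, f n * (n : ℝ) ^ (-β)) atTop (𝓝 0)) :
    Tendsto (fun x : ℝ => Sm (fun n => r0 (m * l) f n * (n : ℝ) ^ (-β)) x -
      m.totient * kz m l f / (1 - β) * x ^ (1 - β)) atTop (𝓝 0) := by
  have hθ := H.θ_pos
  have hθ' := H.θ_le
  have hm := H.m_pos
  have hl := H.l_prime
  have hq : 0 < m * l := Nat.mul_pos hm hl.pos
  have hq1 : m * l ≠ 1 := fun h => hl.one_lt.ne' (Nat.eq_one_of_mul_eq_one_left h)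
  have hu0 : uu (m * l) 0 = 0 := by
    unfold uu
    rw [if_neg]
    rw [Nat.coprime_zero_left]
    exact hq1
  have hf0 : f 0 = 0 := by
    have := H.rc.sq 0
    rw [hu0] at this
    exact pow_eq_zero_iff two_ne_zero |>.1 this
  let U : ArithmeticFunction ℝ := ⟨uu (m * l), hu0⟩
  let F : ArithmeticFunction ℝ := ⟨f, hf0⟩
  have hU1 : ∀ n, |U n| ≤ 1 := by
    intro n
    change |uu (m * l) n| ≤ 1
    unfold uu
    split_ifs <;> norm_num
  have hF1 : ∀ n, |F n| ≤ 1 := by
    intro n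
    change |f n| ≤ 1
    rcases H.rc.cases n with ⟨-, h | h⟩ | ⟨-, h⟩ <;> rw [h] <;> norm_num
  have hκ : (0 : ℝ) < ((m * l).totient : ℝ) / ((m * l : ℕ) : ℝ) := by
    have := Nat.totient_pos.2 hq
    positivity
  obtain ⟨c, M0, -, hM0, hZ⟩ := si_Z (a := U) hκ hθ hθ'
    (fun x hx => s1b_uu hq (by linarith) x hx)
  obtain ⟨Z, -, hZ⟩ := hZ β (by linarith) hb1
  obtain ⟨N, hN, hab⟩ := s1b_abs (β := β) (γ := θ / 8) (by linarith) hb1 (by linarith)
  have hC := H.C_ge
  have hy := H.y_ge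
  have hf : ∀ x : ℝ, 1 ≤ x → |Sm f x| ≤ m * C * y ^ θ * x ^ (1 - θ) := by
    intro x hx
    rw [s1b_cls (m := m) (range m) (fun h hh => Finset.mem_range.1 hh) f
      (fun n _ => Finset.mem_range.2 (Nat.mod_lt n hm)) x]
    refine (Finset.abs_sum_le_sum_abs _ _).trans ?_
    refine (Finset.sum_le_sum fun h _ => H.bur h x hx).trans (le_of_eq ?_)
    rw [Finset.sum_const, Finset.card_range, nsmul_eq_mul]
    ring
  have hQ : 0 ≤ (2 + 4 / θ) * (m * C * y ^ θ) := by positivity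
  have hG : ∀ s, β ≤ s → s ≤ 1 →
      SiGd (siW F s) (Lv f s) ((2 + 4 / θ) * (m * C * y ^ θ) + N) (θ / 2) (θ / 8) := by
    intro s hs0 hs1
    refine ⟨fun x hx => (si_tail hθ hθ' hf (by linarith) hs1 x hx).trans ?_,
      fun x hx => (hab F hF1 s hs0 x hx).trans ?_⟩
    · exact mul_le_mul_of_nonneg_right (by linarith) (by positivity)
    · exact mul_le_mul_of_nonneg_right (by linarith) (by positivity)
  have hE := si_E (u := siW U β) (V := siW F β) (p := 1 - β) (Z := Z) (M0 := M0 + N)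
    (D := Lv f β) (D' := Lv f 1) (η := θ / 2) (γ := θ / 8) hκ.le (by linarith) (by linarith)
    (by linarith) (by positivity)
    (fun x hx => (hZ x hx).trans (mul_le_mul_of_nonneg_right (by linarith) (by positivity)))
    (fun x hx => (hab U hU1 β le_rfl x hx).trans
      (mul_le_mul_of_nonneg_right (by linarith) (by positivity)))
    (hG β le_rfl hb1.le) (by rw [si_W_W]; exact hG 1 hb1.le le_rfl)
  have hL : Lv f β = 0 := hz.limUnder_eq
  have e1 : ∀ x : ℝ, Sm (⇑(siW U β * siW F β)) x =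
      Sm (fun n => r0 (m * l) f n * (n : ℝ) ^ (-β)) x := by
    intro x
    rw [← si_W_mul]
    refine Finset.sum_congr rfl fun n _ => ?_
    rw [si_W_apply, mul_comm U F, ArithmeticFunction.mul_apply,
      Nat.sum_divisorsAntidiagonal (fun a b => F a * U b)]
    rfl
  have hcop : m.Coprime l := (Nat.coprime_of_lt_prime hm.ne' H.l_gt hl).symm
  have e2 : ((m * l).totient : ℝ) / ((m * l : ℕ) : ℝ) * Lv f 1 = m.totient * kz m l f := by
    rw [Nat.totient_mul hcop, Nat.totient_prime hl]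
    unfold kz
    have h1 : (0 : ℝ) < m := by exact_mod_cast hm
    have h2 : (0 : ℝ) < l := by exact_mod_cast hl.pos
    push_cast [Nat.cast_sub hl.one_le]
    field_simp
  refine si_lim (K := (((m * l).totient : ℝ) / ((m * l : ℕ) : ℝ) / (1 - β) + |Z| + 3 * (M0 + N)) *
    ((2 + 4 / θ) * (m * C * y ^ θ) + N)) (ρ := θ / 2 / 4) (by positivity) fun x hx => ?_
  have h := hE x hx
  rw [e1, hL] at h
  rw [← e2]
  convert h using 2
  ring

theorem asy_beta (m : ℕ) (θ C : ℝ) : ∃ C1 : ℝ, 1 ≤ C1 ∧ ∀ (l : ℕ) (f : ℕ → ℝ) (y β : ℝ),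
    SvH m l f θ C y → 1 - θ / 8 ≤ β → β < 1 →
    Tendsto (fun N : ℕ => ∑ n ∈ Ioc 0 N, f n * (n : ℝ) ^ (-β)) atTop (𝓝 0) →
    Asy (m * l) f 1 β (m.totient * kz m l f / (1 - β))
      (C1 * (1 + Real.log y) ^ 2 / (1 - β)) (θ / 2) y := by
  obtain ⟨C1, hC1, h0⟩ := asy_zero m θ C
  refine ⟨max 1 (((2 + 8 / θ) * (m + 1) + 2) * C1), le_max_left _ _,
    fun l f y β H hb0 hb1 hz h _ x hx => ?_⟩
  obtain ⟨hL, hA⟩ := h0 l f y H
  have hθ := H.θ_pos
  have hθ' := H.θ_le
  have hm := H.m_pos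
  have hl := H.l_prime
  have hy := H.y_ge
  have hlog : 0 ≤ Real.log y := Real.log_nonneg hy
  have hp : 0 < 1 - β := by linarith
  set E := C1 * (1 + Real.log y) with hE
  have hE0 : 0 ≤ E := by positivity
  set κ := m.totient * kz m l f with hκ
  have hκE : |κ| ≤ E := by
    have h1 : (0 : ℝ) < m := by exact_mod_cast hm
    have h2 : (1 : ℝ) ≤ l := by exact_mod_cast hl.one_le
    have h3 : (m.totient : ℝ) ≤ m := by exact_mod_cast Nat.totient_le m
    have h4 : κ = (m.totient / m * (1 - 1 / l)) * Lv f 1 := by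
      rw [hκ]
      unfold kz
      ring
    have h5 : 0 ≤ 1 - 1 / (l : ℝ) := by
      have : 1 / (l : ℝ) ≤ 1 := (div_le_one (by linarith)).2 h2
      linarith
    have h6 : 1 - 1 / (l : ℝ) ≤ 1 := by
      have : 0 ≤ 1 / (l : ℝ) := by positivity
      linarith
    have h7 : (m.totient : ℝ) / m * (1 - 1 / l) ≤ 1 :=
      mul_le_one₀ ((div_le_one h1).2 h3) h5 h6
    rw [h4, abs_mul, abs_of_nonneg (by positivity)]
    exact (mul_le_of_le_one_left (abs_nonneg _) h7).trans hL
  have hcl : (cls 1 h fun n => r0 (m * l) f n * (n : ℝ) ^ (-β)) =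
      fun n => r0 (m * l) f n * (n : ℝ) ^ (-β) := by
    funext n
    unfold cls
    rw [if_pos (Nat.modEq_one)]
  rw [hcl]
  set A := ((2 + 8 / θ) * (m + 1) + 2) with hA'
  have hA1 : 1 ≤ A := by
    have : 0 ≤ (2 + 8 / θ) * ((m : ℝ) + 1) := by positivity
    linarith
  have hfin : A * E / (1 - β) ≤ max 1 (A * C1) * (1 + Real.log y) ^ 2 / (1 - β) := by
    refine div_le_div_of_nonneg_right ?_ hp.le
    have h1 : A * E = A * C1 * (1 + Real.log y) := by rw [hE]; ring
    rw [h1]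
    refine mul_le_mul (le_max_right _ _) (by nlinarith) (by positivity) (by positivity)
  refine le_trans ?_ (mul_le_mul_of_nonneg_right (mul_le_mul_of_nonneg_right hfin
    (by positivity)) (by positivity))
  rcases lt_or_ge x 1 with hx1 | hx1
  · have h1 : Sm (fun n => r0 (m * l) f n * (n : ℝ) ^ (-β)) x = 0 := by
      unfold Sm
      rw [Nat.floor_eq_zero.2 hx1]
      simp
    have h2 : 1 ≤ (y / x) ^ (θ / 2) :=
      Real.one_le_rpow ((one_le_div hx).2 (by linarith)) (by positivity)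
    have h3 : 0 ≤ x ^ (1 - β) := by positivity
    rw [h1, zero_sub, abs_neg, abs_mul, abs_div, abs_of_pos hp, abs_of_nonneg h3]
    refine le_trans ?_ (le_mul_of_one_le_right (by positivity) h2)
    refine mul_le_mul_of_nonneg_right (div_le_div_of_nonneg_right ?_ hp.le) h3
    exact hκE.trans (le_mul_of_one_le_left hE0 hA1)
  have hy2 : 1 ≤ y ^ (θ / 2) := Real.one_le_rpow hy (by positivity)
  have hS : ∀ t : ℝ, 1 ≤ t → |Sm (fun n => r0 (m * l) f n - κ) t| ≤
      (m + 1) * E * y ^ (θ / 2) * t ^ (1 - θ / 2) := by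
    intro t ht
    have ht0 : 0 < t := by linarith
    have h1 : Sm (fun n => r0 (m * l) f n - κ) t = Sm (r0 (m * l) f) t - κ * ⌊t⌋₊ := by
      simp [Sm, Finset.sum_sub_distrib, mul_comm]
    have h2 : |Sm (r0 (m * l) f) t - κ * t| ≤ m * (E * y ^ (θ / 2) * t ^ (1 - θ / 2)) := by
      rw [s1b_cls (m := m) ((range m).filter fun a => m.Coprime a)
        (fun h hh => Finset.mem_range.1 (Finset.mem_filter.1 hh).1) (r0 (m * l) f) ?_ t, hκ,
        Nat.totient_eq_card_coprime, mul_assoc, ← nsmul_eq_mul, ← Finset.sum_const,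
        ← Finset.sum_sub_distrib]
      · refine (Finset.abs_sum_le_sum_abs _ _).trans ?_
        have h3 : ∀ a ∈ (range m).filter fun a => m.Coprime a,
            |Sm (cls m a (r0 (m * l) f)) t - kz m l f * t| ≤
              E * y ^ (θ / 2) * t ^ (1 - θ / 2) := by
          intro a ha
          have h4 := hA a (Finset.mem_filter.1 ha).2.symm t ht0
          simp only [neg_zero, Real.rpow_zero, mul_one, sub_zero, Real.rpow_one] at h4
          refine h4.trans (le_of_eq ?_)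
          rw [Real.div_rpow (by linarith) ht0.le, Real.rpow_sub ht0, Real.rpow_one]
          ring
        refine (Finset.sum_le_sum h3).trans ?_
        rw [Finset.sum_const, nsmul_eq_mul]
        refine mul_le_mul_of_nonneg_right ?_ (by positivity)
        have := (Finset.card_filter_le (range m) fun a => m.Coprime a)
        rw [Finset.card_range] at this
        exact_mod_cast this
      · intro n hn
        refine Finset.mem_filter.2 ⟨Finset.mem_range.2 (Nat.mod_lt n hm), ?_⟩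
        have h5 : n.Coprime m := Nat.Coprime.coprime_mul_right_right (r0_coprime H.rc hn)
        exact ((Nat.coprime_comm.1 h5).symm.symm |> fun h6 => by
          rw [Nat.coprime_comm, Nat.Coprime, ← Nat.gcd_rec]; exact h6)
    have h3 : (⌊t⌋₊ : ℝ) ≤ t := Nat.floor_le ht0.le
    have h4 := Nat.lt_floor_add_one t
    have h5 : 1 ≤ t ^ (1 - θ / 2) := Real.one_le_rpow ht (by linarith)
    have h6 : |κ * (t - ⌊t⌋₊)| ≤ E * y ^ (θ / 2) * t ^ (1 - θ / 2) := by
      rw [abs_mul, abs_of_nonneg (sub_nonneg.2 h3), mul_assoc]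
      exact mul_le_mul hκE (by nlinarith) (sub_nonneg.2 h3) hE0
    have h7 : Sm (r0 (m * l) f) t - κ * ⌊t⌋₊ =
        (Sm (r0 (m * l) f) t - κ * t) + κ * (t - ⌊t⌋₊) := by ring
    rw [h1, h7]
    refine (abs_add_le _ _).trans ?_
    linarith
  obtain ⟨z, -, hz'⟩ := si_zeta β (by linarith) hb1
  have hT := abel_tail (fun n => r0 (m * l) f n - κ) ((m + 1) * E * y ^ (θ / 2)) (θ / 4) β 1
    (by positivity) (by linarith) hb1.le (by positivity) le_rfl (1 - θ / 2) (by linarith) hS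
  have key : ∀ t : ℝ, 1 ≤ t → |Sm (fun n => r0 (m * l) f n * (n : ℝ) ^ (-β)) t -
      κ / (1 - β) * t ^ (1 - β) - (Lv (fun n => r0 (m * l) f n - κ) β + κ * z)| ≤
        A * E * y ^ (θ / 2) * t ^ (-(β + θ / 2 - 1)) := by
    intro t ht
    have h1 : Sm (fun n => r0 (m * l) f n * (n : ℝ) ^ (-β)) t =
        Sm (fun n => (r0 (m * l) f n - κ) * (n : ℝ) ^ (-β)) t +
        κ * Sm (fun n => (n : ℝ) ^ (-β)) t := by
      rw [Sm, Sm, Sm, Finset.mul_sum, ← Finset.sum_add_distrib]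
      refine Finset.sum_congr rfl fun n _ => ?_
      ring
    have h2 := hT t ht
    have e1 : 1 - θ / 2 - β = -(β + θ / 2 - 1) := by ring
    have e2 : 2 / (θ / 4) = 8 / θ := by field_simp; ring
    rw [e1, e2] at h2
    have h3 : |κ * (Sm (fun n => (n : ℝ) ^ (-β)) t - (t ^ (1 - β) / (1 - β) + z))| ≤
        E * (2 * (y ^ (θ / 2) * t ^ (-(β + θ / 2 - 1)))) := by
      rw [abs_mul]
      refine mul_le_mul hκE ((hz' t ht).trans ?_) (abs_nonneg _) hE0
      refine mul_le_mul_of_nonneg_left ?_ zero_le_two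
      exact (Real.rpow_le_rpow_of_exponent_le ht (by linarith)).trans
        (le_mul_of_one_le_left (by positivity) hy2)
    have h4 : Sm (fun n => r0 (m * l) f n * (n : ℝ) ^ (-β)) t -
        κ / (1 - β) * t ^ (1 - β) - (Lv (fun n => r0 (m * l) f n - κ) β + κ * z) =
        (Sm (fun n => (r0 (m * l) f n - κ) * (n : ℝ) ^ (-β)) t -
          Lv (fun n => r0 (m * l) f n - κ) β) +
        κ * (Sm (fun n => (n : ℝ) ^ (-β)) t - (t ^ (1 - β) / (1 - β) + z)) := by
      rw [h1]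
      ring
    rw [h4]
    refine (abs_add_le _ _).trans ((add_le_add h2 h3).trans (le_of_eq ?_))
    rw [hA']
    ring
  have hC0 : Lv (fun n => r0 (m * l) f n - κ) β + κ * z = 0 :=
    tendsto_nhds_unique (si_lim (by linarith) key) (s1b_lim H hb0 hb1 hz)
  have h := key x hx1
  rw [hC0, sub_zero] at h
  refine h.trans ?_
  have e1 : x ^ (-(β + θ / 2 - 1)) = x ^ (1 - β) / x ^ (θ / 2) := by
    rw [← Real.rpow_sub hx]
    ring_nf
  have h1 : A * E ≤ A * E / (1 - β) :=
    le_div_self (by positivity) hp (by linarith)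
  rw [e1, Real.div_rpow (by linarith) hx.le]
  calc A * E * y ^ (θ / 2) * (x ^ (1 - β) / x ^ (θ / 2))
      = A * E * (x ^ (1 - β) * (y ^ (θ / 2) / x ^ (θ / 2))) := by ring
    _ ≤ A * E / (1 - β) * (x ^ (1 - β) * (y ^ (θ / 2) / x ^ (θ / 2))) :=
        mul_le_mul_of_nonneg_right h1 (by positivity)
    _ = _ := by ring

end Pool.Agent.Lib.MP_e97e2b_nt.Ln
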