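import Pool.Agent.Lib.MP_e97e2b_nt.Ln.S0

/- Multiples of a squarefree number.
`hecke_prime`: every divisor d of p k has p ∣ d or d ∣ k; inclusion and exclusion.
`hecke`: induction on the primes of e (Nat.recOnPrimeCoprime, induction_on_primes, or on primeFactors).
`gg_eq`: both sides are multiplicative in e.
`type_one`: n = e k', apply hecke, k' = d k; n ≡ h iff k ≡ h (e d)⁻¹ mod m'; (e d k)^(-β) splits; use the hypothesis
at x / (e d) > 0.  The error of one term is tau e * E x^(1-β) (y / x)^ϑ (e d)^(ϑ-1) ≤ tau e * E x^(1-β) (y e / x)^ϑ / e. -/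

namespace Pool.Agent.Lib.MP_e97e2b_nt.Ln

open Finset

open ArithmeticFunction

variable {q : ℕ} {f : ℕ → ℝ}

theorem hecke_prime (h : RC q f) {p : ℕ} (hp : p.Prime) (hq : p.Coprime q) {k : ℕ} (hk : k ≠ 0) :
    r0 q f (p * k) = r0 q f p * r0 q f k - (if p ∣ k then f p * r0 q f (k / p) else 0) := by
  obtain ⟨j, m, hm, rfl⟩ := Nat.exists_eq_pow_mul_and_not_dvd hk p hp.ne_one
  have hc : p.Coprime m := (Nat.Prime.coprime_iff_not_dvd hp).2 hm
  rw [← mul_assoc, ← pow_succ', r0_mul h (hc.pow_left _), r0_mul h (hc.pow_left _),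
    r0_prime h hp hq, r0_pow h hp hq, r0_pow h hp hq]
  cases j with
  | zero =>
    rw [if_neg (by simpa using hm)]
    simp [sum_range_succ]
  | succ i =>
    have hd : p ∣ p ^ (i + 1) * m := (dvd_pow_self p (Nat.succ_ne_zero i)).mul_right m
    have he : p ^ (i + 1) * m / p = p ^ i * m := by
      rw [pow_succ', mul_assoc, Nat.mul_div_cancel_left _ hp.pos]
    rw [if_pos hd, he, r0_mul h (hc.pow_left _), r0_pow h hp hq, sum_range_succ _ (i + 1 + 1),
      sum_range_succ _ (i + 1)]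
    ring

theorem s2_split {p e : ℕ} (hp : p.Prime) (hc : p.Coprime e) (F : ℕ → ℝ) :
    ∑ d ∈ (p * e).divisors, F d = ∑ d ∈ e.divisors, F d + ∑ d ∈ e.divisors, F (p * d) := by
  rw [Nat.divisors_mul, Finset.mul_def, Finset.sum_image hc.mul_injOn_divisors, sum_product,
    hp.divisors, sum_pair hp.ne_one.symm]
  simp only [one_mul]

theorem s2_moeb {p d : ℕ} (hp : p.Prime) (hc : p.Coprime d) :
    (moebius (p * d) : ℝ) = -(moebius d : ℝ) := by
  rw [isMultiplicative_moebius.map_mul_of_coprime hc, moebius_apply_prime hp]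
  push_cast
  ring

theorem hecke (h : RC q f) {e : ℕ} (he : Squarefree e) (hq : e.Coprime q) {k : ℕ} (hk : k ≠ 0) :
    r0 q f (e * k) = ∑ d ∈ e.divisors,
      if d ∣ k then (moebius d : ℝ) * f d * r0 q f (e / d) * r0 q f (k / d) else 0 := by
  induction e using induction_on_primes generalizing k with
  | zero => exact absurd he not_squarefree_zero
  | one => simp [h.one, r0_one h]
  | prime_mul p e hp ih =>
    obtain ⟨hc, -, he'⟩ := Nat.squarefree_mul_iff.1 he
    have hpq : p.Coprime q := Nat.Coprime.coprime_mul_right hq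
    have heq : e.Coprime q := Nat.Coprime.coprime_mul_left hq
    have he0 : e ≠ 0 := he'.ne_zero
    rw [mul_assoc, hecke_prime h hp hpq (mul_ne_zero he0 hk), s2_split hp hc, ih he' heq hk,
      mul_sum, sub_eq_add_neg]
    congr 1
    · refine sum_congr rfl fun d hd => ?_
      have hde : d ∣ e := Nat.dvd_of_mem_divisors hd
      rw [Nat.mul_div_assoc p hde, r0_mul h (hc.coprime_dvd_right (Nat.div_dvd_of_dvd hde))]
      split_ifs
      · ring
      · rw [mul_zero]
    · by_cases hpk : p ∣ k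
      · obtain ⟨k', rfl⟩ := hpk
        have hk' : k' ≠ 0 := right_ne_zero_of_mul hk
        have e1 : e * (p * k') / p = e * k' := by
          rw [mul_left_comm, Nat.mul_div_cancel_left _ hp.pos]
        rw [if_pos ((dvd_mul_right p k').mul_left e), e1, ih he' heq hk', mul_sum, ← sum_neg_distrib]
        refine sum_congr rfl fun d hd => ?_
        have hde : d ∣ e := Nat.dvd_of_mem_divisors hd
        rw [Nat.mul_div_mul_left _ _ hp.pos, Nat.mul_div_mul_left _ _ hp.pos,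
          s2_moeb hp (hc.coprime_dvd_right hde), h.mul]
        by_cases hdk : d ∣ k'
        · rw [if_pos hdk, if_pos (Nat.mul_dvd_mul_left p hdk)]
          ring
        · rw [if_neg hdk, if_neg (fun h' => hdk (Nat.dvd_of_mul_dvd_mul_left hp.pos h')),
            mul_zero, neg_zero]
      · rw [if_neg (fun h' => hpk (hc.dvd_of_dvd_mul_left h')), neg_zero]
        exact (sum_eq_zero fun d _ => if_neg fun h' => hpk ((dvd_mul_right p d).trans h')).symm

theorem gg_eq (h : RC q f) {e : ℕ} (he : Squarefree e) (hq : e.Coprime q) :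
    ∑ d ∈ e.divisors, (moebius d : ℝ) * f d * r0 q f (e / d) / (e * d) = gg f e := by
  induction e using induction_on_primes with
  | zero => exact absurd he not_squarefree_zero
  | one => simp [h.one, r0_one h, gg]
  | prime_mul p e hp ih =>
    obtain ⟨hc, -, he'⟩ := Nat.squarefree_mul_iff.1 he
    have hpq : p.Coprime q := Nat.Coprime.coprime_mul_right hq
    have heq : e.Coprime q := Nat.Coprime.coprime_mul_left hq
    have he0 : e ≠ 0 := he'.ne_zero
    have hg : gg f (p * e) = gp f p * gg f e := by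
      have hnot : p ∉ e.primeFactors := fun h' =>
        (Nat.Prime.coprime_iff_not_dvd hp).1 hc (Nat.dvd_of_mem_primeFactors h')
      rw [gg, gg, hc.primeFactors_mul, hp.primeFactors, ← insert_eq, prod_insert hnot]
    rw [hg, ← ih he' heq, s2_split hp hc, ← sum_add_distrib, mul_sum]
    refine sum_congr rfl fun d hd => ?_
    have hde : d ∣ e := Nat.dvd_of_mem_divisors hd
    have hd0 : (d : ℝ) ≠ 0 := Nat.cast_ne_zero.2 (Nat.pos_of_mem_divisors hd).ne'
    have hp0 : (p : ℝ) ≠ 0 := Nat.cast_ne_zero.2 hp.ne_zero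
    have he1 : (e : ℝ) ≠ 0 := Nat.cast_ne_zero.2 he0
    rw [Nat.mul_div_assoc p hde, r0_mul h (hc.coprime_dvd_right (Nat.div_dvd_of_dvd hde)),
      Nat.mul_div_mul_left _ _ hp.pos, s2_moeb hp (hc.coprime_dvd_right hde), h.mul,
      r0_prime h hp hpq, gp]
    push_cast
    field_simp
    ring

theorem s2_reindex {N : ℕ} (hN : 0 < N) (F : ℕ → ℝ) (x : ℝ) :
    Sm (fun n => if N ∣ n then F (n / N) else 0) x = Sm F (x / N) := by
  rw [Sm, Sm, Nat.floor_div_natCast, ← sum_filter]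
  symm
  refine sum_bij' (fun k _ => N * k) (fun n _ => n / N) ?_ ?_ ?_ ?_ ?_
  · intro k hk
    rw [mem_Ioc] at hk
    rw [mem_filter, mem_Ioc]
    refine ⟨⟨Nat.mul_pos hN hk.1, ?_⟩, dvd_mul_right _ _⟩
    rw [mul_comm]
    exact (Nat.le_div_iff_mul_le hN).1 hk.2
  · intro n hn
    rw [mem_filter, mem_Ioc] at hn
    rw [mem_Ioc]
    exact ⟨Nat.div_pos (Nat.le_of_dvd hn.1.1 hn.2) hN, Nat.div_le_div_right hn.1.2⟩
  · intro k _
    exact Nat.mul_div_cancel_left _ hN
  · intro n hn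
    exact Nat.mul_div_cancel' (mem_filter.1 hn).2
  · intro k _
    rw [Nat.mul_div_cancel_left _ hN]

theorem s2_class {m N a : ℕ} (hm : 0 < m) (hN : N.Coprime m) (ha : a.Coprime m) :
    ∃ b : ℕ, b.Coprime m ∧ ∀ k, N * k ≡ a [MOD m] ↔ k ≡ b [MOD m] := by
  have h1 : N * (N ^ (m.totient - 1) * a) ≡ a [MOD m] := by
    have ht : m.totient - 1 + 1 = m.totient := Nat.sub_add_cancel (Nat.totient_pos.2 hm)
    rw [← mul_assoc, ← pow_succ', ht]
    simpa using (Nat.ModEq.pow_totient hN).mul_right a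
  refine ⟨N ^ (m.totient - 1) * a, Nat.Coprime.mul_left (hN.pow_left _) ha, fun k => ⟨fun h => ?_,
    fun h => (h.mul_left N).trans h1⟩⟩
  exact Nat.ModEq.cancel_left_of_coprime hN.symm (h.trans h1.symm)

theorem s2_point (h : RC q f) {m' : ℕ} {β : ℝ} {e : ℕ} (he : Squarefree e) (hq : e.Coprime q)
    {a : ℕ} (b : ℕ → ℕ)
    (hb : ∀ d ∈ e.divisors, ∀ k, e * d * k ≡ a [MOD m'] ↔ k ≡ b d [MOD m']) {n : ℕ}
    (hn : n ≠ 0) :
    cls m' a (fun n => if e ∣ n then r0 q f n * (n : ℝ) ^ (-β) else 0) n =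
      ∑ d ∈ e.divisors, (moebius d : ℝ) * f d * r0 q f (e / d) * ((e * d : ℕ) : ℝ) ^ (-β) *
        if e * d ∣ n then cls m' (b d) (fun k => r0 q f k * (k : ℝ) ^ (-β)) (n / (e * d))
        else 0 := by
  have he0 : 0 < e := Nat.pos_of_ne_zero he.ne_zero
  by_cases hen : e ∣ n
  · obtain ⟨k, rfl⟩ := hen
    have hk : k ≠ 0 := right_ne_zero_of_mul hn
    have hl : cls m' a (fun n => if e ∣ n then r0 q f n * (n : ℝ) ^ (-β) else 0) (e * k) =
        r0 q f (e * k) * if e * k ≡ a [MOD m'] then ((e * k : ℕ) : ℝ) ^ (-β) else 0 := by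
      unfold cls
      simp only [dvd_mul_right, if_true]
      split_ifs
      · rfl
      · rw [mul_zero]
    rw [hl, hecke h he hq hk, sum_mul]
    refine sum_congr rfl fun d hd => ?_
    by_cases hdk : d ∣ k
    · obtain ⟨j, rfl⟩ := hdk
      have hd0 : 0 < d := Nat.pos_of_mem_divisors hd
      rw [if_pos (dvd_mul_right d j), ← mul_assoc e d j, if_pos (dvd_mul_right _ j),
        Nat.mul_div_cancel_left _ hd0, Nat.mul_div_cancel_left _ (Nat.mul_pos he0 hd0)]
      unfold cls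
      by_cases hj : j ≡ b d [MOD m']
      · rw [if_pos hj, if_pos ((hb d hd j).2 hj), Nat.cast_mul (e * d) j,
          Real.mul_rpow (Nat.cast_nonneg _) (Nat.cast_nonneg _)]
        ring
      · rw [if_neg hj, if_neg (fun h' => hj ((hb d hd j).1 h')), mul_zero, mul_zero]
    · rw [if_neg hdk, if_neg (fun h' => hdk (Nat.dvd_of_mul_dvd_mul_left he0 h')), zero_mul,
        mul_zero]
  · have hl : cls m' a (fun n => if e ∣ n then r0 q f n * (n : ℝ) ^ (-β) else 0) n = 0 := by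
      unfold cls
      simp only [hen, if_false, ite_self]
    rw [hl]
    refine (sum_eq_zero fun d _ => ?_).symm
    rw [if_neg (fun h' => hen ((dvd_mul_right e d).trans h')), mul_zero]

theorem s2_term {c T S κ E ϑ β x y e d : ℝ} (hc : |c| ≤ T) (hE : 0 ≤ E) (hϑ : ϑ ≤ 1) (hy : 0 < y)
    (hx : 0 < x) (he : 0 < e) (hd : 1 ≤ d)
    (hS : |S - κ * (x / (e * d)) ^ (1 - β)| ≤
      E * (x / (e * d)) ^ (1 - β) * (y / (x / (e * d))) ^ ϑ) :
    |c * (e * d) ^ (-β) * S - κ * (c / (e * d)) * x ^ (1 - β)| ≤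
      T * (E * x ^ (1 - β) * (y * e / x) ^ ϑ / e) := by
  have hd0 : 0 < d := by linarith
  have hN : 0 < e * d := mul_pos he hd0
  have hb : 0 < (e * d) ^ (-β) := Real.rpow_pos_of_pos hN _
  have h1 : (e * d) ^ (-β) * (x / (e * d)) ^ (1 - β) = x ^ (1 - β) / (e * d) := by
    rw [Real.div_rpow hx.le hN.le, sub_eq_add_neg, Real.rpow_add hN, Real.rpow_one]
    field_simp
  have h2 : (y / (x / (e * d))) ^ ϑ = (y * e / x) ^ ϑ * d ^ ϑ := by
    rw [← Real.mul_rpow (by positivity) hd0.le]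
    congr 1
    field_simp
  have h3 : d ^ ϑ ≤ d := by
    have := Real.rpow_le_rpow_of_exponent_le hd hϑ
    rwa [Real.rpow_one] at this
  have e1 : c * (e * d) ^ (-β) * S - κ * (c / (e * d)) * x ^ (1 - β) =
      c * ((e * d) ^ (-β) * (S - κ * (x / (e * d)) ^ (1 - β))) := by
    rw [mul_sub, mul_left_comm _ κ, h1]
    ring
  have hA : 0 ≤ E * x ^ (1 - β) * (y * e / x) ^ ϑ / e := by positivity
  rw [e1, abs_mul, abs_mul, abs_of_pos hb]
  refine mul_le_mul hc ?_ (by positivity) ((abs_nonneg c).trans hc)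
  refine (mul_le_mul_of_nonneg_left hS hb.le).trans ?_
  have e2 : (e * d) ^ (-β) * (E * (x / (e * d)) ^ (1 - β) * (y / (x / (e * d))) ^ ϑ) =
      E * x ^ (1 - β) * (y * e / x) ^ ϑ / e * (d ^ ϑ / d) := by
    rw [← mul_assoc, mul_left_comm _ E, h1, h2]
    field_simp
  rw [e2]
  exact mul_le_of_le_one_right hA ((div_le_one hd0).2 h3)

theorem type_one (h : RC q f) {m' : ℕ} {β κ E ϑ y : ℝ} (hm : 0 < m') (hmq : m' ∣ q)
    (hA : Asy q f m' β κ E ϑ y) (hE : 0 ≤ E) (hϑ : ϑ ≤ 1) (hy : 0 < y) {e : ℕ}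
    (he : Squarefree e) (hq : e.Coprime q) {a : ℕ} (ha : a.Coprime m') {x : ℝ} (hx : 0 < x) :
    |Sm (cls m' a fun n => if e ∣ n then r0 q f n * (n : ℝ) ^ (-β) else 0) x -
        κ * gg f e * x ^ (1 - β)| ≤
      tau e ^ 2 * (E * x ^ (1 - β) * (y * e / x) ^ ϑ / e) := by
  have he0 : 0 < e := Nat.pos_of_ne_zero he.ne_zero
  have hem : e.Coprime m' := hq.coprime_dvd_right hmq
  have hex : ∀ d : ℕ, ∃ b : ℕ, d ∈ e.divisors →
      b.Coprime m' ∧ ∀ k, e * d * k ≡ a [MOD m'] ↔ k ≡ b [MOD m'] := by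
    intro d
    by_cases hd : d ∈ e.divisors
    · obtain ⟨b, hb⟩ := s2_class hm (Nat.Coprime.mul_left hem
        (hem.coprime_dvd_left (Nat.dvd_of_mem_divisors hd))) ha
      exact ⟨b, fun _ => hb⟩
    · exact ⟨0, fun h' => absurd h' hd⟩
  choose b hb using hex
  have hS : Sm (cls m' a fun n => if e ∣ n then r0 q f n * (n : ℝ) ^ (-β) else 0) x =
      ∑ d ∈ e.divisors, (moebius d : ℝ) * f d * r0 q f (e / d) * ((e : ℝ) * d) ^ (-β) *
        Sm (cls m' (b d) fun k => r0 q f k * (k : ℝ) ^ (-β)) (x / ((e : ℝ) * d)) := by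
    rw [Sm, sum_congr rfl fun n hn =>
      s2_point h he hq b (fun d hd => (hb d hd).2) (mem_Ioc.1 hn).1.ne', sum_comm]
    refine sum_congr rfl fun d hd => ?_
    rw [← mul_sum, ← Nat.cast_mul,
      ← s2_reindex (Nat.mul_pos he0 (Nat.pos_of_mem_divisors hd)), Sm]
  rw [hS, ← gg_eq h he hq, mul_sum, sum_mul, ← sum_sub_distrib]
  refine (abs_sum_le_sum_abs _ _).trans ?_
  have hbd : ∀ d ∈ e.divisors,
      |(moebius d : ℝ) * f d * r0 q f (e / d) * ((e : ℝ) * d) ^ (-β) *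
        Sm (cls m' (b d) fun k => r0 q f k * (k : ℝ) ^ (-β)) (x / ((e : ℝ) * d)) -
        κ * ((moebius d : ℝ) * f d * r0 q f (e / d) / (e * d)) * x ^ (1 - β)| ≤
      tau e * (E * x ^ (1 - β) * (y * e / x) ^ ϑ / e) := by
    intro d hd
    have hd1 : (1 : ℝ) ≤ d := by exact_mod_cast Nat.pos_of_mem_divisors hd
    have he1 : (0 : ℝ) < e := Nat.cast_pos.2 he0
    refine s2_term ?_ hE hϑ hy hx he1 hd1 (hA (b d) (hb d hd).1 _ (by positivity))
    have h1 : |(moebius d : ℝ)| ≤ 1 := by exact_mod_cast abs_moebius_le_one (n := d)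
    have h2 : |f d| ≤ 1 := by
      rcases h.cases d with ⟨-, h' | h'⟩ | ⟨-, h'⟩ <;> simp [h']
    have h3 : r0 q f (e / d) ≤ tau e := (r0_le h _).trans
      (tau_mono he0.ne' (Nat.div_dvd_of_dvd (Nat.dvd_of_mem_divisors hd)))
    rw [abs_mul, abs_mul, abs_of_nonneg (r0_nonneg h _)]
    exact (mul_le_of_le_one_left (r0_nonneg h _) (mul_le_one₀ h1 (abs_nonneg _) h2)).trans h3
  refine (sum_le_card_nsmul _ _ _ hbd).trans (le_of_eq ?_)
  rw [nsmul_eq_mul, sq, mul_assoc (tau e)]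
  rfl

end Pool.Agent.Lib.MP_e97e2b_nt.Ln
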